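import Pool.Agent.N940.MM.Core3
import Pool.Agent.N940.TSP.Asm5

/-!
# Assembly of the central limit theorem for the minimum matching
-/

set_option autoImplicit false
set_option linter.unusedSectionVars false
set_option linter.unusedVariables false

open Filter Topology

namespace Pool.Agent.N940.MM

open Finset

section ExE

variable {ι : Type} [Fintype ι] [DecidableEq ι]

/-- probability that the number of elements is even -/
noncomputable def pe (ι : Type) [Fintype ι] [DecidableEq ι] (q : ℝ) : ℝ :=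
  TSP.Ex q (fun A : Finset ι => if Even A.card then (1 : ℝ) else 0)

lemma pe_pos {q : ℝ} (h0 : 0 ≤ q) (h1 : q < 1) : 0 < pe ι q := by
  unfold pe
  have h2 : TSP.mu q (∅ : Finset ι) ≤
      TSP.Ex q (fun A : Finset ι => if Even A.card then (1 : ℝ) else 0) := by
    unfold TSP.Ex
    have := Finset.single_le_sum (f := fun A : Finset ι => TSP.mu q A •
      (if Even A.card then (1 : ℝ) else 0)) (fun A _ => by
        have := TSP.mu_nonneg h0 h1.le A
        split_ifs <;> simp [this]) (mem_univ (∅ : Finset ι))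
    simpa using this
  refine lt_of_lt_of_le ?_ h2
  unfold TSP.mu
  have : 0 < 1 - q := by linarith
  simp only [card_empty, pow_zero, one_mul]
  positivity

lemma ExE_mul_left (q : ℝ) (c : ℝ) (f : Finset ι → ℝ) :
    ExE q (fun A => c * f A) = c * ExE q f := by
  unfold ExE
  rw [smul_eq_mul, smul_eq_mul, mul_left_comm]
  congr 1
  have : (fun A : Finset ι => if Even A.card then c * f A else 0) =
      fun A => c * (if Even A.card then f A else 0) := by
    funext A; split_ifs <;> simp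
  rw [this, TSP.Ex_mul_left]

lemma VrE_scale (q : ℝ) (c : ℝ) (f : Finset ι → ℝ) :
    VrE q (fun A => c * f A) = c ^ 2 * VrE q f := by
  unfold VrE
  rw [ExE_mul_left]
  have : (fun A : Finset ι => (c * f A - c * ExE q f) ^ 2) =
      fun A => c ^ 2 * (f A - ExE q f) ^ 2 := by
    funext A; ring
  rw [this, ExE_mul_left]

lemma VrE_nonneg {q : ℝ} (h0 : 0 ≤ q) (h1 : q < 1) (f : Finset ι → ℝ) : 0 ≤ VrE q f := by
  unfold VrE ExE
  refine smul_nonneg (inv_nonneg.2 (pe_pos (ι := ι) h0 h1).le) ?_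
  refine TSP.Ex_nonneg h0 h1.le fun A => ?_
  split_ifs
  · exact sq_nonneg _
  · exact le_rfl

lemma norm_ExE_le {q : ℝ} (h0 : 0 ≤ q) (h1 : q < 1) (φ : Finset ι → ℂ) (hφ : ∀ A, ‖φ A‖ ≤ 1) :
    ‖ExE q φ‖ ≤ 1 := by
  unfold ExE
  have hp := pe_pos (ι := ι) h0 h1
  rw [norm_smul, norm_inv, Real.norm_eq_abs]
  have e : |TSP.Ex q (fun A : Finset ι => if Even A.card then (1 : ℝ) else 0)| = pe ι q :=
    abs_of_pos hp
  rw [e, inv_mul_le_iff₀ hp, mul_one]
  unfold TSP.Ex pe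
  refine (norm_sum_le _ _).trans ?_
  unfold TSP.Ex
  refine sum_le_sum fun A _ => ?_
  have hm := TSP.mu_nonneg h0 h1.le A
  rw [norm_smul, Real.norm_eq_abs, abs_of_nonneg hm, smul_eq_mul]
  refine mul_le_mul_of_nonneg_left ?_ hm
  show ‖(if Even A.card then φ A else 0)‖ ≤ (if Even A.card then (1 : ℝ) else 0)
  split_ifs
  · exact hφ A
  · simp

end ExE

/-- side of the box -/
def Rn (n : ℕ) : ℕ := 2 ^ Nat.log 4 n
/-- fineness of the grid -/
def Mn (n : ℕ) : ℕ := n ^ 3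
/-- probability of a grid cell -/
noncomputable def qn (n : ℕ) : ℝ := (n : ℝ) / Fintype.card (TSP.Ix (Rn n) 1 (Mn n))

lemma Rn_pos (n : ℕ) : 0 < Rn n := by unfold Rn; positivity
lemma Rn_sq_le {n : ℕ} (hn : 1 ≤ n) : (Rn n) ^ 2 ≤ n := by
  unfold Rn
  rw [← pow_mul, mul_comm, pow_mul]
  exact Nat.pow_log_le_self 4 (by omega)
lemma lt_Rn {n : ℕ} (hn : 1 ≤ n) : n < 4 * (Rn n) ^ 2 := by
  unfold Rn
  rw [← pow_mul, mul_comm (Nat.log 4 n), pow_mul]
  have := Nat.lt_pow_succ_log_self (b := 4) (by norm_num) n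
  calc n < 4 ^ (Nat.log 4 n).succ := this
    _ = 4 * (2 ^ 2) ^ Nat.log 4 n := by rw [Nat.succ_eq_add_one, pow_succ]; norm_num; ring

lemma Rn_tendsto : Tendsto Rn atTop atTop := by
  unfold Rn
  refine (tendsto_pow_atTop_atTop_of_one_lt (by norm_num : 1 < 2)).comp ?_
  rw [tendsto_atTop]
  intro b
  filter_upwards [eventually_ge_atTop (4 ^ b)] with n hn
  exact Nat.le_log_of_pow_le (by norm_num) hn

lemma facts {n : ℕ} (hn : 2 ≤ n) : Mdl (Mn n) (qn n) ∧
    2 * n ≤ Fintype.card (TSP.Ix (Rn n) 1 (Mn n)) := by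
  have hn1 : 1 ≤ n := by omega
  have hR := Rn_pos n
  have hM : 1 ≤ Mn n := Nat.pos_of_ne_zero (by unfold Mn; positivity)
  have hRR : (1 : ℝ) ≤ Rn n := by exact_mod_cast hR
  have hnR : (2 : ℝ) ≤ n := by exact_mod_cast hn
  have hMM : (Mn n : ℝ) = (n : ℝ) ^ 3 := by unfold Mn; push_cast; rfl
  have hM1 : (1 : ℝ) ≤ Mn n := by exact_mod_cast hM
  have hcard : (Fintype.card (TSP.Ix (Rn n) 1 (Mn n)) : ℝ) = ((Rn n : ℝ) * (Mn n : ℝ)) ^ 2 := by
    have := TSP.card_Ix (Rn n) 1 (Mn n)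
    calc _ = _ := this
      _ = _ := by push_cast; ring
  have hpos : (0 : ℝ) < ((Rn n : ℝ) * (Mn n : ℝ)) ^ 2 := by positivity
  have hq : qn n = n / ((Rn n : ℝ) * (Mn n : ℝ)) ^ 2 := by unfold qn; rw [hcard]
  have h1 : ((Rn n : ℝ)) ^ 2 ≤ n := by exact_mod_cast Rn_sq_le hn1
  have h2 : (n : ℝ) ≤ 4 * (Rn n : ℝ) ^ 2 := by exact_mod_cast (lt_Rn hn1).le
  have hcast : (2 : ℝ) * n ≤ ((Rn n : ℝ) * (Mn n : ℝ)) ^ 2 := by
    rw [mul_pow]
    have h3 : (2 : ℝ) * n ≤ (Mn n : ℝ) ^ 2 := by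
      rw [hMM]
      have h5 : (1 : ℝ) ≤ (n : ℝ) ^ 4 := one_le_pow₀ (by linarith)
      have h4 : (n : ℝ) ^ 2 ≤ ((n : ℝ) ^ 3) ^ 2 := by nlinarith [sq_nonneg (n : ℝ)]
      nlinarith
    have h6 : (1 : ℝ) ≤ (Rn n : ℝ) ^ 2 := one_le_pow₀ hRR
    nlinarith [sq_nonneg (Mn n : ℝ)]
  have hqM : qn n * (Mn n : ℝ) ^ 2 = n / (Rn n : ℝ) ^ 2 := by
    rw [hq]; field_simp
  refine ⟨⟨hM, ?_, ?_, ?_, ?_⟩, ?_⟩
  · rw [hq]; positivity
  · rw [hq, div_le_iff₀ hpos]; linarith
  · rw [hqM, le_div_iff₀ (by positivity)]; linarith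
  · rw [hqM, div_le_iff₀ (by positivity)]; exact h2
  · have : (2 : ℝ) * n ≤ Fintype.card (TSP.Ix (Rn n) 1 (Mn n)) := by rw [hcard]; exact hcast
    exact_mod_cast this

/-- the normalized functional -/
noncomputable def Fn (n : ℕ) (A : Finset (TSP.Ix (Rn n) 1 (Mn n))) : ℝ :=
  fM (Rn n) (Mn n) A / Rn n

/-- the unit cell of a grid cell -/
def ul (R M : ℕ) (k : TSP.Ix R 1 M) : Fin R × Fin R :=
  (⟨(k.1 : ℕ) / M, by
      have h := k.1.2
      rcases Nat.eq_zero_or_pos M with hM | hM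
      · subst hM; simp at h
      · rw [Nat.div_lt_iff_lt_mul hM]; simpa using h⟩,
    ⟨(k.2 : ℕ) / M, by
      have h := k.2.2
      rcases Nat.eq_zero_or_pos M with hM | hM
      · subst hM; simp at h
      · rw [Nat.div_lt_iff_lt_mul hM]; simpa using h⟩)

lemma card_ul {R M : ℕ} (hM : 0 < M) (v : Fin R × Fin R) :
    ((univ : Finset (TSP.Ix R 1 M)).filter fun k => ul R M k = v).card = M * M := by
  have e0 : M * M = (range M ×ˢ range M).card := by rw [card_product, card_range]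
  rw [e0]
  have hv1 := v.1.2
  have hv2 := v.2.2
  have hb : ∀ (a i : ℕ), a < R → i < M → a * M + i < R * 1 * M := by
    intro a i ha hi
    calc a * M + i < a * M + M := by omega
      _ = (a + 1) * M := by ring
      _ ≤ R * M := Nat.mul_le_mul_right _ ha
      _ = R * 1 * M := by ring
  refine card_bij' (fun k _ => ((k.1 : ℕ) % M, (k.2 : ℕ) % M))
    (fun p hp => (⟨(v.1 : ℕ) * M + p.1, hb _ _ hv1 (by simp only [mem_product, mem_range] at hp; exact hp.1)⟩,
      ⟨(v.2 : ℕ) * M + p.2, hb _ _ hv2 (by simp only [mem_product, mem_range] at hp; exact hp.2)⟩))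
    ?_ ?_ ?_ ?_
  · intro k _
    simp only [mem_product, mem_range]
    exact ⟨Nat.mod_lt _ hM, Nat.mod_lt _ hM⟩
  · intro p hp
    simp only [mem_product, mem_range] at hp
    simp only [mem_filter, mem_univ, true_and, ul]
    refine Prod.ext (Fin.ext ?_) (Fin.ext ?_)
    · show ((v.1 : ℕ) * M + p.1) / M = v.1
      rw [add_comm, Nat.add_mul_div_right _ _ hM, Nat.div_eq_of_lt hp.1, zero_add]
    · show ((v.2 : ℕ) * M + p.2) / M = v.2
      rw [add_comm, Nat.add_mul_div_right _ _ hM, Nat.div_eq_of_lt hp.2, zero_add]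
  · intro k hk
    have hk' := (mem_filter.1 hk).2
    have h1 : (k.1 : ℕ) / M = v.1 := congrArg (fun w : Fin R × Fin R => (w.1 : ℕ)) hk'
    have h2 : (k.2 : ℕ) / M = v.2 := congrArg (fun w : Fin R × Fin R => (w.2 : ℕ)) hk'
    refine Prod.ext (Fin.ext ?_) (Fin.ext ?_)
    · show (v.1 : ℕ) * M + (k.1 : ℕ) % M = k.1
      rw [← h1, mul_comm]
      exact Nat.div_add_mod _ _
    · show (v.2 : ℕ) * M + (k.2 : ℕ) % M = k.2
      rw [← h2, mul_comm]
      exact Nat.div_add_mod _ _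
  · intro p hp
    simp only [mem_product, mem_range] at hp
    refine Prod.ext ?_ ?_
    · show ((v.1 : ℕ) * M + p.1) % M = p.1
      rw [add_comm, Nat.add_mul_mod_self_right, Nat.mod_eq_of_lt hp.1]
    · show ((v.2 : ℕ) * M + p.2) % M = p.2
      rw [add_comm, Nat.add_mul_mod_self_right, Nat.mod_eq_of_lt hp.2]

lemma dist_ul {R M : ℕ} (hM : 0 < M) (k k' : TSP.Ix R 1 M) (h : ul R M k = ul R M k') :
    dist (TSP.sp R 1 M k) (TSP.sp R 1 M k') ≤ 2 := by
  have hM' : (0 : ℝ) < M := by exact_mod_cast hM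
  have h1 : (k.1 : ℕ) / M = (k'.1 : ℕ) / M :=
    congrArg (fun w : Fin R × Fin R => (w.1 : ℕ)) h
  have h2 : (k.2 : ℕ) / M = (k'.2 : ℕ) / M :=
    congrArg (fun w : Fin R × Fin R => (w.2 : ℕ)) h
  have key : ∀ a b : ℕ, a / M = b / M → |(a : ℝ) / M - (b : ℝ) / M| ≤ 1 := by
    intro a b hab
    have ha1 := Nat.div_add_mod a M
    have hb1 := Nat.div_add_mod b M
    have ha2 := Nat.mod_lt a hM
    have hb2 := Nat.mod_lt b hM
    rw [hab] at ha1
    have h3 : (a : ℝ) ≤ b + M := by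
      have : a ≤ b + M := by omega
      exact_mod_cast this
    have h4 : (b : ℝ) ≤ a + M := by
      have : b ≤ a + M := by omega
      exact_mod_cast this
    rw [← sub_div, abs_div, abs_of_pos hM', div_le_one hM', abs_le]
    constructor <;> linarith
  refine (dist_le_coord _ _).trans ?_
  have e1 := key _ _ h1
  have e2 := key _ _ h2
  have e3 : |(TSP.sp R 1 M k).re - (TSP.sp R 1 M k').re| ≤ 1 := e1
  have e4 : |(TSP.sp R 1 M k).im - (TSP.sp R 1 M k').im| ≤ 1 := e2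
  linarith

/-- the difference of the characteristic functions -/
noncomputable def Dn (n : ℕ) (p : ℝ × ℝ) : ℝ :=
  ‖ExE (qn n) (fun A : Finset (TSP.Ix (Rn n) 1 (Mn n)) => Complex.exp (Complex.I *
          ((p.1 * Fn n A + p.2 * ((A.card : ℝ) / Real.sqrt n) -
            ExE (qn n) (fun A : Finset (TSP.Ix (Rn n) 1 (Mn n)) =>
            p.1 * Fn n A + p.2 * ((A.card : ℝ) / Real.sqrt n)) : ℝ) : ℂ))) -
        Complex.exp ((-(VrE (qn n) fun A : Finset (TSP.Ix (Rn n) 1 (Mn n)) =>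
          p.1 * Fn n A + p.2 * ((A.card : ℝ) / Real.sqrt n)) / 2 : ℝ) : ℂ)‖

lemma norm_expI' (u : ℝ) : ‖Complex.exp (Complex.I * (u : ℂ))‖ = 1 := by
  rw [mul_comm]
  exact Complex.norm_exp_ofReal_mul_I u

lemma Dn_le_two {n : ℕ} (hn : 2 ≤ n) (p : ℝ × ℝ) : Dn n p ≤ 2 := by
  obtain ⟨hm, _⟩ := facts hn
  have h1 : qn n < 1 := by linarith [hm.q2]
  unfold Dn
  refine (norm_sub_le _ _).trans ?_
  have a1 := norm_ExE_le hm.q0.le h1 (fun A : Finset (TSP.Ix (Rn n) 1 (Mn n)) =>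
    Complex.exp (Complex.I * ((p.1 * Fn n A + p.2 * ((A.card : ℝ) / Real.sqrt n) -
            ExE (qn n) (fun A : Finset (TSP.Ix (Rn n) 1 (Mn n)) =>
            p.1 * Fn n A + p.2 * ((A.card : ℝ) / Real.sqrt n)) : ℝ) : ℂ)))
    (fun A => (norm_expI' _).le)
  have a2 := VrE_nonneg hm.q0.le h1 (fun A : Finset (TSP.Ix (Rn n) 1 (Mn n)) =>
          p.1 * Fn n A + p.2 * ((A.card : ℝ) / Real.sqrt n))
  have a3 : ‖Complex.exp ((-(VrE (qn n) fun A : Finset (TSP.Ix (Rn n) 1 (Mn n)) =>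
          p.1 * Fn n A + p.2 * ((A.card : ℝ) / Real.sqrt n)) / 2 : ℝ) : ℂ)‖ ≤ 1 := by
    rw [← Complex.ofReal_exp, Complex.norm_real, Real.norm_eq_abs, abs_of_pos (Real.exp_pos _)]
    exact Real.exp_le_one_iff.2 (by linarith)
  linarith

/-- **the central limit theorem**, from its ingredients -/
theorem asm (hmix : S_MIX) (hcr : S_CRUDE) (hmv : S_MOVE) (hadd : S_ADD) (hflip : S_FLIP)
    (hsn : S_SNAKE) (hglue : S_GLUE) (hpoi : S_POI) (havg : S_AVG) (hvlb : S_VLB)
    (hdep : S_DEP2) (hfin : S_FIN2) : Frozen2 := by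
  obtain ⟨C, hC, hvar⟩ := core_var hcr hmv hflip hsn hglue hpoi
  obtain ⟨c, M₀, hc, hlow⟩ := hvlb
  -- the error
  obtain ⟨η, hη, hηb⟩ := TSP.exists_eta Dn (fun p => (1 + |p.1| + |p.2|) ^ 4)
    (fun p => one_le_pow₀ (by have := abs_nonneg p.1; have := abs_nonneg p.2; linarith))
    2 (fun n p _ => norm_nonneg _) (fun n p hn => Dn_le_two hn p) (by
      intro ε hε
      obtain ⟨R₀, hR₀⟩ := core hmix hcr hmv hflip hsn hglue havg ε hε
      obtain ⟨n₁, hn₁⟩ := (Rn_tendsto.eventually (eventually_ge_atTop R₀)).exists_forall_of_atTop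
      refine ⟨max 2 n₁, fun n hn p => ?_⟩
      have hn2 : 2 ≤ n := (le_max_left _ _).trans hn
      have hR : R₀ ≤ Rn n := hn₁ n ((le_max_right _ _).trans hn)
      obtain ⟨hm, _⟩ := facts hn2
      obtain ⟨α, β⟩ := p
      simp only
      obtain ⟨θ, hθ⟩ : ∃ θ, θ = 1 + |α| + |β| := ⟨_, rfl⟩
      rw [← hθ]
      have hθ1 : 1 ≤ θ := by
        have := abs_nonneg α; have := abs_nonneg β; linarith
      have hθ0 : 0 < θ := by linarith
      have hRp : (0 : ℝ) < Rn n := by exact_mod_cast Rn_pos n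
      have hsn0 : (0 : ℝ) < Real.sqrt n := Real.sqrt_pos.2 (by
        have : (2 : ℝ) ≤ n := by exact_mod_cast hn2
        linarith)
      have hRs : (Rn n : ℝ) ≤ Real.sqrt n := by
        refine Real.le_sqrt_of_sq_le ?_
        exact_mod_cast Rn_sq_le (by omega : 1 ≤ n)
      have ha : |α / θ| ≤ 1 := by
        rw [abs_div, abs_of_pos hθ0, div_le_one hθ0]
        have := abs_nonneg β; linarith
      have hb : |β * ((Rn n : ℝ) / Real.sqrt n) / θ| ≤ 1 := by
        rw [abs_div, abs_of_pos hθ0, div_le_one hθ0, abs_mul]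
        have h1 : |(Rn n : ℝ) / Real.sqrt n| ≤ 1 := by
          rw [abs_of_nonneg (by positivity), div_le_one hsn0]
          exact hRs
        have h2 := abs_nonneg β
        have h3 := abs_nonneg α
        nlinarith
      have key := hR₀ (Rn n) hR ⟨_, rfl⟩ (Mn n) (qn n) hm (α / θ)
        (β * ((Rn n : ℝ) / Real.sqrt n) / θ) θ ha hb hθ1
      have e : ∀ A : Finset (TSP.Ix (Rn n) 1 (Mn n)), θ / (Rn n : ℝ) * (α / θ *
          fM (Rn n) (Mn n) A + β * ((Rn n : ℝ) / Real.sqrt n) / θ * (A.card : ℝ)) =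
          α * Fn n A + β * ((A.card : ℝ) / Real.sqrt n) := by
        intro A
        unfold Fn
        field_simp
      simp only [e] at key
      exact key)
  obtain ⟨n₂, hn₂⟩ : ∃ n₂ : ℕ, ∀ n ≥ n₂, M₀ ≤ Mn n := by
    refine ⟨M₀ + 1, fun n hn => ?_⟩
    unfold Mn
    calc M₀ ≤ n := by omega
      _ = n ^ 1 := (pow_one n).symm
      _ ≤ n ^ 3 := Nat.pow_le_pow_right (by omega) (by norm_num)
  obtain ⟨s₀, s, hs₀, hs, hlim⟩ := hdep (fun n => TSP.Ix (Rn n) 1 (Mn n))
    (fun n => Fin (Rn n) × Fin (Rn n)) (fun n => ul (Rn n) (Mn n)) Fn qn (C + 4) c η (max 2 n₂)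
    (by linarith) hc hη
    (fun n hn => ⟨by have := (le_max_left 2 n₂).trans hn; omega,
      (facts ((le_max_left 2 n₂).trans hn)).2, rfl⟩)
    (by
      intro n hn
      have hn2 : 2 ≤ n := (le_max_left 2 n₂).trans hn
      have hMp : 0 < Mn n := by unfold Mn; positivity
      refine ⟨⟨Mn n * Mn n, ?_, fun v => card_ul hMp v⟩, ?_, ?_⟩
      · unfold Mn
        calc n = n ^ 1 := (pow_one n).symm
          _ ≤ n ^ 6 := Nat.pow_le_pow_right (by omega) (by norm_num)
          _ = n ^ 3 * n ^ 3 := by ring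
      · rw [Fintype.card_prod, Fintype.card_fin]
        have := Rn_sq_le (by omega : 1 ≤ n)
        rw [← sq]
        exact_mod_cast this
      · rw [Fintype.card_prod, Fintype.card_fin]
        have h1 : (n : ℝ) ≤ 4 * ((Rn n : ℝ) * Rn n) := by
          have := (lt_Rn (by omega : 1 ≤ n)).le
          rw [sq] at this
          exact_mod_cast this
        push_cast
        have h2 : (0 : ℝ) ≤ (Rn n : ℝ) * Rn n := by positivity
        nlinarith)
    (by
      intro n hn A x y hx hy hxy hlab hA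
      have hn2 : 2 ≤ n := (le_max_left 2 n₂).trans hn
      have hMp : 0 < Mn n := by unfold Mn; positivity
      have hRp : (0 : ℝ) < Rn n := by exact_mod_cast Rn_pos n
      have h1 := hadd _ (TSP.sp (Rn n) 1 (Mn n)) A x y hx hy hxy hA
      have h2 := h1.trans (dist_ul hMp x y hlab)
      have h3 : Fn n (insert x (insert y A)) - Fn n A =
          (mt (TSP.sp (Rn n) 1 (Mn n)) (insert x (insert y A)) -
            mt (TSP.sp (Rn n) 1 (Mn n)) A) / Rn n := by
        unfold Fn fM; ring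
      rw [h3, abs_div, abs_of_pos hRp]
      have hsn0 : (0 : ℝ) < Real.sqrt n := Real.sqrt_pos.2 (by
        have : (2 : ℝ) ≤ n := by exact_mod_cast hn2
        linarith)
      have h4 : Real.sqrt n ≤ 2 * Rn n := by
        rw [Real.sqrt_le_left (by positivity)]
        have := (lt_Rn (by omega : 1 ≤ n)).le
        have h5 : (n : ℝ) ≤ 4 * (Rn n : ℝ) ^ 2 := by exact_mod_cast this
        nlinarith
      rw [div_le_div_iff₀ hRp hsn0]
      nlinarith [abs_nonneg (mt (TSP.sp (Rn n) 1 (Mn n)) (insert x (insert y A)) -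
            mt (TSP.sp (Rn n) 1 (Mn n)) A)])
    (by
      intro n hn
      have h1 := hvar (Rn n) (Rn_pos n) (Mn n) (qn n) (facts ((le_max_left 2 n₂).trans hn)).1
      have : VrE (qn n) (Fn n) ≤ C := h1
      linarith)
    (fun n hn α β => hηb n (α, β) ((le_max_left 2 n₂).trans hn))
    (by
      intro n hn β
      have hn2 : 2 ≤ n := (le_max_left 2 n₂).trans hn
      obtain ⟨hm, _⟩ := facts hn2
      have hRp : (0 : ℝ) < Rn n := by exact_mod_cast Rn_pos n
      have h1 := hlow (Rn n) (Mn n) (Rn_pos n) (hn₂ n ((le_max_right 2 n₂).trans hn)) (qn n)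
        hm.l1 hm.l4 (β * ((Rn n : ℝ) / Real.sqrt n))
      have e : (fun A : Finset (TSP.Ix (Rn n) 1 (Mn n)) =>
          Fn n A + β * ((A.card : ℝ) / Real.sqrt n)) =
          fun A => (1 / (Rn n : ℝ)) * (fM (Rn n) (Mn n) A +
            β * ((Rn n : ℝ) / Real.sqrt n) * (A.card : ℝ)) := by
        funext A
        unfold Fn
        field_simp
      rw [e, VrE_scale, div_pow, one_pow, one_div, ← div_eq_inv_mul, le_div_iff₀ (by positivity)]
      exact h1)
  refine hfin Rn Mn (fun n => ExE (qn n) (Fn n)) s s₀ 2 hs₀ ?_ hs ?_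
  · intro n hn
    exact ⟨Rn_pos n, by have : 0 < Mn n := by unfold Mn; positivity
                        exact this, Rn_sq_le (by omega), le_rfl⟩
  · intro t
    exact hlim t

end Pool.Agent.N940.MM
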