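import Pool.Agent.N940.MM.Step

/-!
# The additive part of a function with bounded block averages is small
-/

set_option autoImplicit false
set_option linter.unusedSectionVars false
set_option linter.unusedVariables false

namespace Pool.Agent.N940.MM

open Finset

variable {ι Ω : Type} [Fintype ι] [DecidableEq ι] [Fintype Ω] {κ : Type} [DecidableEq κ]

/-- the block of level `t` with label `c` -/
def cell (lab : ℕ → ι → κ) (t : ℕ) (c : κ) : Finset ι := univ.filter fun x => lab t x = c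

lemma mem_cell {lab : ℕ → ι → κ} {t : ℕ} {c : κ} {x : ι} : x ∈ cell lab t c ↔ lab t x = c := by
  simp [cell]

lemma cell_disjoint {lab : ℕ → ι → κ} {t : ℕ} {c d : κ} (h : c ≠ d) :
    Disjoint (cell lab t c) (cell lab t d) := by
  rw [disjoint_left]
  intro x hx hx'
  rw [mem_cell] at hx hx'
  exact h (hx.symm.trans hx')

/-- the blocks of level `t` in the block `c'` of level `t+1` -/
def ch (lab : ℕ → ι → κ) (t : ℕ) (c' : κ) : Finset κ := (cell lab (t + 1) c').image (lab t)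

/-- nested partitions up to level `k` -/
def Nested (lab : ℕ → ι → κ) (k : ℕ) : Prop :=
  ∀ t < k, ∀ x y : ι, lab t x = lab t y → lab (t + 1) x = lab (t + 1) y

lemma Nested.le {lab : ℕ → ι → κ} {k : ℕ} (h : Nested lab k) {s t : ℕ} (hst : s ≤ t)
    (ht : t ≤ k) {x y : ι} (hxy : lab s x = lab s y) : lab t x = lab t y := by
  induction t, hst using Nat.le_induction with
  | base => exact hxy
  | succ t hst ih => exact h t (by omega) x y (ih (by omega))

lemma cell_subset {lab : ℕ → ι → κ} {k : ℕ} (h : Nested lab k) {t : ℕ} (ht : t < k) {c c' : κ}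
    (hc : c ∈ ch lab t c') : cell lab t c ⊆ cell lab (t + 1) c' := by
  intro x hx
  unfold ch at hc
  obtain ⟨y, hy, hyc⟩ := mem_image.1 hc
  rw [mem_cell] at hx hy ⊢
  rw [← hy]
  exact h t ht x y (hx.trans hyc.symm)

lemma ch_disjoint {lab : ℕ → ι → κ} {k : ℕ} (h : Nested lab k) {t : ℕ} (ht : t < k) {c d : κ}
    (hcd : c ≠ d) : Disjoint (ch lab t c) (ch lab t d) := by
  rw [disjoint_left]
  intro e he he'
  unfold ch at he he'
  obtain ⟨x, hx, hxe⟩ := mem_image.1 he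
  obtain ⟨y, hy, hye⟩ := mem_image.1 he'
  rw [mem_cell] at hx hy
  apply hcd
  rw [← hx, ← hy]
  exact h t ht x y (hxe.trans hye.symm)

/-- the blocks of level `t` in the block `c₀` of level `k` -/
def sub (lab : ℕ → ι → κ) (k : ℕ) (c₀ : κ) (t : ℕ) : Finset κ := (cell lab k c₀).image (lab t)

lemma sub_eq {lab : ℕ → ι → κ} {k : ℕ} (h : Nested lab k) (c₀ : κ) {t : ℕ} (ht : t < k) :
    sub lab k c₀ t = (sub lab k c₀ (t + 1)).biUnion (ch lab t) := by
  ext c
  simp only [sub, ch, mem_biUnion, mem_image, mem_cell]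
  constructor
  · rintro ⟨x, hx, rfl⟩
    exact ⟨lab (t + 1) x, ⟨x, hx, rfl⟩, x, rfl, rfl⟩
  · rintro ⟨c', ⟨y, hy, rfl⟩, x, hx, rfl⟩
    refine ⟨x, ?_, rfl⟩
    rw [← hy]
    exact h.le (Nat.succ_le_of_lt ht) le_rfl hx

lemma sub_sum {lab : ℕ → ι → κ} {k : ℕ} (h : Nested lab k) (c₀ : κ) {t : ℕ} (ht : t < k)
    (φ : κ → ℝ) : ∑ c ∈ sub lab k c₀ t, φ c =
      ∑ c' ∈ sub lab k c₀ (t + 1), ∑ c ∈ ch lab t c', φ c := by
  rw [sub_eq h c₀ ht, sum_biUnion]
  intro c _ d _ hcd
  exact ch_disjoint h ht hcd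

lemma sub_card {lab : ℕ → ι → κ} {k : ℕ} (h : Nested lab k) (c₀ : κ) {ρ : ℝ} (hρ : 0 ≤ ρ)
    (hc : ∀ t < k, ∀ c, ((ch lab t c).card : ℝ) ≤ ρ) {t : ℕ} (ht : t ≤ k) :
    ((sub lab k c₀ t).card : ℝ) * ρ ^ t ≤ ρ ^ k := by
  have key : ∀ j t, t + j = k → ((sub lab k c₀ t).card : ℝ) * ρ ^ t ≤ ρ ^ k := by
    intro j
    induction j with
    | zero =>
      intro t htk
      have htk' : t = k := by omega
      subst htk'
      have h1 : (sub lab t c₀ t).card ≤ 1 := by
        rw [card_le_one]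
        intro a ha b hb
        simp only [sub, mem_image, mem_cell] at ha hb
        obtain ⟨x, hx, rfl⟩ := ha
        obtain ⟨y, hy, rfl⟩ := hb
        rw [hx, hy]
      have h2 : ((sub lab t c₀ t).card : ℝ) ≤ 1 := by exact_mod_cast h1
      have h3 : 0 ≤ ρ ^ t := pow_nonneg hρ t
      nlinarith
    | succ j ih =>
      intro t htk
      have ht : t < k := by omega
      have ih' := ih (t + 1) (by omega)
      have h1 : ((sub lab k c₀ t).card : ℝ) ≤ (sub lab k c₀ (t + 1)).card * ρ := by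
        have h2 : (sub lab k c₀ t).card ≤ ∑ c ∈ sub lab k c₀ (t + 1), (ch lab t c).card := by
          rw [sub_eq h c₀ ht]
          exact card_biUnion_le
        have h3 : ((sub lab k c₀ t).card : ℝ) ≤
            ∑ c ∈ sub lab k c₀ (t + 1), ((ch lab t c).card : ℝ) := by exact_mod_cast h2
        refine h3.trans ?_
        refine (sum_le_sum fun c _ => hc t ht c).trans (le_of_eq ?_)
        rw [sum_const, nsmul_eq_mul]
      have h4 : 0 ≤ ρ ^ t := pow_nonneg hρ t
      calc ((sub lab k c₀ t).card : ℝ) * ρ ^ t ≤ ((sub lab k c₀ (t + 1)).card * ρ) * ρ ^ t :=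
            mul_le_mul_of_nonneg_right h1 h4
        _ = (sub lab k c₀ (t + 1)).card * ρ ^ (t + 1) := by rw [pow_succ]; ring
        _ ≤ ρ ^ k := ih'
  exact key (k - t) t (by omega)

/-- Pythagoras -/
lemma pyth {q : Wt ι Ω} (g : (ι → Ω) → ℝ) (hg : Ex q g = 0) (T : Finset κ) (cl : κ → Finset ι)
    (hd : ∀ c ∈ T, ∀ d ∈ T, c ≠ d → Disjoint (cl c) (cl d)) (B : Finset ι)
    (hB : ∀ c ∈ T, cl c ⊆ B) :
    Ex q (fun A => (Av q B g A - ∑ c ∈ T, Av q (cl c) g A) ^ 2) =
      en q g B - ∑ c ∈ T, en q g (cl c) := by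
  have h0 : ∀ c ∈ T, Ex q (Av q (cl c) g) = 0 := fun c _ => by rw [Ex_Av, hg]
  have h1 := Ex_sum_sq (q := q) T cl hd (fun c => Av q (cl c) g) (fun c _ => Dep_Av q _ _) h0
  have h2 : Ex q (fun A => Av q B g A * ∑ c ∈ T, Av q (cl c) g A) =
      ∑ c ∈ T, en q g (cl c) := by
    simp only [mul_sum]
    rw [Ex_sum]
    refine sum_congr rfl fun c hc => ?_
    rw [Ex_mul_Av, Av_Av, inter_eq_left.2 (hB c hc)]
    unfold en
    congr 1
    funext A
    ring
  have h3 : (fun A => (Av q B g A - ∑ c ∈ T, Av q (cl c) g A) ^ 2) = fun A =>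
      (Av q B g A) ^ 2 - ((2 : ℝ) * (Av q B g A * ∑ c ∈ T, Av q (cl c) g A) -
        (∑ c ∈ T, Av q (cl c) g A) ^ 2) := by
    funext A; ring
  rw [h3, Ex_sub, Ex_sub, Ex_mul_left, h1, h2]
  unfold en
  ring

/-- the multiscale lemma -/
theorem lemB (b C : ℝ) (hb : 0 < b) (hC : 0 < C) : ∃ (ρ₀ : ℝ) (k : ℕ), 1 ≤ ρ₀ ∧ 1 ≤ k ∧
    ∀ ρ : ℝ, ρ₀ ≤ ρ → ∀ (ι Ω : Type) [Fintype ι] [DecidableEq ι] [Fintype Ω] (κ : Type) [DecidableEq κ]
      (lab : ℕ → ι → κ), Nested lab k → (∀ t < k, ∀ c, ((ch lab t c).card : ℝ) ≤ ρ) →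
      ∀ (a : ℝ), 0 < a → ∀ (c₀ : κ) (q : Wt ι Ω), ∀ g : (ι → Ω) → ℝ, Ex q g = 0 →
      (∀ t ≤ k, ∀ c ∈ sub lab k c₀ t, ∀ A, |Av q (cell lab t c) g A| ≤
        C * Real.sqrt (ρ ^ t * a)) →
      ∑ c ∈ sub lab k c₀ 0, en q g (cell lab 0 c) ≤ b * (ρ ^ k * a) := by
  obtain ⟨L, hL⟩ : ∃ L, L = 16 * (C + 1) / b := ⟨_, rfl⟩
  have hL0 : 0 < L := by rw [hL]; positivity
  obtain ⟨e₀, he₀⟩ : ∃ e₀, e₀ = ((Real.exp (2 * L ^ 2 * C ^ 2) + Real.exp (L * C)) ^ 2)⁻¹ :=
    ⟨_, rfl⟩
  have he0 : 0 < e₀ := by rw [he₀]; positivity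
  obtain ⟨k, hk⟩ := exists_nat_gt (C ^ 2 / (e₀ * (b / (2 * C ^ 2))))
  refine ⟨max 1 ((2 * L * C) ^ 2), k + 1, le_max_left _ _, by omega, ?_⟩
  intro ρ hρ ι Ω _ _ _ κ _ lab hn hcard a ha c₀ q g hg hosc
  have hρ1 : 1 ≤ ρ := (le_max_left _ _).trans hρ
  have hρ2 : (2 * L * C) ^ 2 ≤ ρ := (le_max_right _ _).trans hρ
  have hρ0 : 0 < ρ := by linarith
  by_contra hcon
  push Not at hcon
  set k' := k + 1 with hk'
  set V : ℕ → ℝ := fun t => ∑ c ∈ sub lab k' c₀ t, en q g (cell lab t c) with hV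
  have hV0 : b * (ρ ^ k' * a) < V 0 := hcon
  have haB : 0 < ρ ^ k' * a := by positivity
  -- differences
  have hdiff : ∀ t < k', V (t + 1) - V t = ∑ c' ∈ sub lab k' c₀ (t + 1),
      Ex q (fun A => (Av q (cell lab (t + 1) c') g A -
        ∑ c ∈ ch lab t c', Av q (cell lab t c) g A) ^ 2) := by
    intro t ht
    simp only [hV]
    rw [sub_sum hn c₀ ht, ← sum_sub_distrib]
    refine sum_congr rfl fun c' _ => ?_
    rw [pyth g hg (ch lab t c') (cell lab t) (fun c _ d _ hcd => cell_disjoint hcd)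
      (cell lab (t + 1) c') (fun c hc => cell_subset hn ht hc)]
  have hmono : ∀ t < k', V t ≤ V (t + 1) := by
    intro t ht
    have := hdiff t ht
    have h2 : 0 ≤ V (t + 1) - V t := by
      rw [this]
      exact sum_nonneg fun c' _ => Ex_nonneg fun _ => sq_nonneg _
    linarith
  have hVb : ∀ t ≤ k', b * (ρ ^ k' * a) < V t := by
    intro t
    induction t with
    | zero => intro _; exact hV0
    | succ t ih => intro ht; exact (ih (by omega)).trans_le (hmono t (by omega))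
  have hen : ∀ t ≤ k', ∀ c ∈ sub lab k' c₀ t, en q g (cell lab t c) ≤
      C ^ 2 * (ρ ^ t * a) := by
    intro t ht c hc
    unfold en
    rw [← Ex_const (ι := ι) (Ω := Ω) q (C ^ 2 * (ρ ^ t * a))]
    refine Ex_mono fun A => ?_
    have h3 := hosc t ht c hc A
    have h4 : 0 ≤ ρ ^ t * a := by positivity
    rw [← sq_abs]
    calc |Av q (cell lab t c) g A| ^ 2 ≤ (C * Real.sqrt (ρ ^ t * a)) ^ 2 :=
          pow_le_pow_left₀ (abs_nonneg _) h3 2
      _ = C ^ 2 * (ρ ^ t * a) := by rw [mul_pow, Real.sq_sqrt h4]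
  have hcount : ∀ t ≤ k', ((sub lab k' c₀ t).card : ℝ) * (ρ ^ t * a) ≤ ρ ^ k' * a := by
    intro t ht
    have := sub_card hn c₀ hρ0.le hcard ht
    calc _ = ((sub lab k' c₀ t).card : ℝ) * ρ ^ t * a := by ring
      _ ≤ ρ ^ k' * a := mul_le_mul_of_nonneg_right this ha.le
  have hVle : ∀ t ≤ k', V t ≤ C ^ 2 * (ρ ^ k' * a) := by
    intro t ht
    calc V t ≤ ∑ c ∈ sub lab k' c₀ t, C ^ 2 * (ρ ^ t * a) := sum_le_sum (hen t ht)
      _ = C ^ 2 * (((sub lab k' c₀ t).card : ℝ) * (ρ ^ t * a)) := by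
          rw [sum_const, nsmul_eq_mul]; ring
      _ ≤ C ^ 2 * (ρ ^ k' * a) := mul_le_mul_of_nonneg_left (hcount t ht) (sq_nonneg C)
  -- the key increment
  have hkey : ∀ t < k', e₀ * (b / (2 * C ^ 2)) * (ρ ^ k' * a) ≤ V (t + 1) - V t := by
    intro t ht
    rw [hdiff t ht]
    set r2 := ρ ^ (t + 1) * a with hr2
    have hr2p : 0 < r2 := by positivity
    set r := Real.sqrt r2 with hr
    have hrp : 0 < r := Real.sqrt_pos.2 hr2p
    have hrr : r ^ 2 = r2 := Real.sq_sqrt hr2p.le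
    classical
    set G := (sub lab k' c₀ (t + 1)).filter
      (fun c' => b / 2 * r2 ≤ ∑ c ∈ ch lab t c', en q g (cell lab t c)) with hG
    have hsub_mem : ∀ c' ∈ sub lab k' c₀ (t + 1), ∀ c ∈ ch lab t c', c ∈ sub lab k' c₀ t := by
      intro c' hc' c hc
      rw [sub_eq hn c₀ ht]
      exact mem_biUnion.2 ⟨c', hc', hc⟩
    have hp : ∀ c' ∈ sub lab k' c₀ (t + 1), ∑ c ∈ ch lab t c', en q g (cell lab t c) ≤
        C ^ 2 * r2 := by
      intro c' hc'
      have h5 := pyth g hg (ch lab t c') (cell lab t) (fun c _ d _ hcd => cell_disjoint hcd)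
        (cell lab (t + 1) c') (fun c hc => cell_subset hn ht hc)
      have h6 : 0 ≤ Ex q (fun A => (Av q (cell lab (t + 1) c') g A -
        ∑ c ∈ ch lab t c', Av q (cell lab t c) g A) ^ 2) := Ex_nonneg fun _ => sq_nonneg _
      have h7 := hen (t + 1) (by omega) c' hc'
      linarith
    have hGcard : b / (2 * C ^ 2) * (ρ ^ k' * a) ≤ (G.card : ℝ) * r2 := by
      have h5 : V t = ∑ c' ∈ sub lab k' c₀ (t + 1), ∑ c ∈ ch lab t c', en q g (cell lab t c) := by
        simp only [hV]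
        rw [sub_sum hn c₀ ht]
      have h6 : V t ≤ (G.card : ℝ) * (C ^ 2 * r2) + b / 2 * (ρ ^ k' * a) := by
        rw [h5, ← sum_filter_add_sum_filter_not (sub lab k' c₀ (t + 1))
          (fun c' => b / 2 * r2 ≤ ∑ c ∈ ch lab t c', en q g (cell lab t c))]
        refine add_le_add ?_ ?_
        · rw [← nsmul_eq_mul, ← sum_const]
          refine sum_le_sum fun c' hc' => hp c' (mem_filter.1 hc').1
        · calc _ ≤ ∑ c' ∈ (sub lab k' c₀ (t + 1)).filter (fun c' =>
                ¬ b / 2 * r2 ≤ ∑ c ∈ ch lab t c', en q g (cell lab t c)), b / 2 * r2 :=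
                sum_le_sum fun c' hc' => (not_le.1 (mem_filter.1 hc').2).le
            _ = (((sub lab k' c₀ (t + 1)).filter (fun c' =>
                ¬ b / 2 * r2 ≤ ∑ c ∈ ch lab t c', en q g (cell lab t c))).card : ℝ) *
                  (b / 2 * r2) := by rw [sum_const, nsmul_eq_mul]
            _ ≤ ((sub lab k' c₀ (t + 1)).card : ℝ) * (b / 2 * r2) := by
                refine mul_le_mul_of_nonneg_right ?_ (by positivity)
                exact_mod_cast card_filter_le _ _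
            _ = b / 2 * (((sub lab k' c₀ (t + 1)).card : ℝ) * r2) := by ring
            _ ≤ b / 2 * (ρ ^ k' * a) :=
                mul_le_mul_of_nonneg_left (hcount (t + 1) (by omega)) (by positivity)
      have h7 := hVb t (by omega)
      have h8 : b / 2 * (ρ ^ k' * a) ≤ (G.card : ℝ) * (C ^ 2 * r2) := by linarith
      have hC2 : 0 < C ^ 2 := by positivity
      calc b / (2 * C ^ 2) * (ρ ^ k' * a) = (b / 2 * (ρ ^ k' * a)) / C ^ 2 := by
            field_simp
        _ ≤ ((G.card : ℝ) * (C ^ 2 * r2)) / C ^ 2 := by gcongr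
        _ = (G.card : ℝ) * r2 := by field_simp
    have hstep : ∀ c' ∈ G, e₀ * r2 ≤ Ex q (fun A => (Av q (cell lab (t + 1) c') g A -
        ∑ c ∈ ch lab t c', Av q (cell lab t c) g A) ^ 2) := by
      intro c' hc'
      have hc1 := (mem_filter.1 hc').1
      have hc2 := (mem_filter.1 hc').2
      have hs := step (ι := ι) (Ω := Ω) (κ := κ) (q := q) (b := b) (C := C) (L := L)
        (δ := C / Real.sqrt ρ) hb hC.le hL ?_
        (ch lab t c') (cell lab t) (fun c _ d _ hcd => cell_disjoint hcd)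
        (fun A => r⁻¹ * Av q (cell lab (t + 1) c') g A)
        (fun c A => r⁻¹ * Av q (cell lab t c) g A) ?_ ?_ ?_ ?_ ?_ ?_
      · rw [← he₀] at hs
        have e1 : (fun A => (r⁻¹ * Av q (cell lab (t + 1) c') g A -
            ∑ c ∈ ch lab t c', r⁻¹ * Av q (cell lab t c) g A) ^ 2) =
            fun A => (r⁻¹) ^ 2 * (Av q (cell lab (t + 1) c') g A -
              ∑ c ∈ ch lab t c', Av q (cell lab t c) g A) ^ 2 := by
          funext A
          rw [← mul_sum]
          ring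
        rw [e1, Ex_mul_left, inv_pow, hrr] at hs
        rw [inv_mul_eq_div, le_div_iff₀ hr2p] at hs
        exact hs
      · have hsq : 0 < Real.sqrt ρ := Real.sqrt_pos.2 hρ0
        have h9 : 2 * L * C ≤ Real.sqrt ρ := Real.le_sqrt_of_sq_le hρ2
        rw [mul_div_assoc', div_le_one hsq]
        exact h9
      · intro c hc
        exact (Dep_Av q (cell lab t c) g).comp (fun x => r⁻¹ * x)
      · intro c hc
        rw [Ex_mul_left, Ex_Av, hg, mul_zero]
      · intro A
        have h9 := hosc (t + 1) (by omega) c' hc1 A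
        rw [abs_mul, abs_of_pos (inv_pos.2 hrp), inv_mul_eq_div, div_le_iff₀ hrp]
        exact h9
      · intro c hc A
        have h9 := hosc t (by omega) c (hsub_mem c' hc1 c hc) A
        rw [abs_mul, abs_of_pos (inv_pos.2 hrp), inv_mul_eq_div, div_le_iff₀ hrp]
        have e2 : r = Real.sqrt ρ * Real.sqrt (ρ ^ t * a) := by
          rw [hr, hr2, ← Real.sqrt_mul hρ0.le]
          congr 1
          rw [pow_succ]; ring
        have hsq : 0 < Real.sqrt ρ := Real.sqrt_pos.2 hρ0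
        rw [e2]
        calc |Av q (cell lab t c) g A| ≤ C * Real.sqrt (ρ ^ t * a) := h9
          _ = C / Real.sqrt ρ * (Real.sqrt ρ * Real.sqrt (ρ ^ t * a)) := by field_simp
      · have e3 : ∑ c ∈ ch lab t c', Ex q (fun A => (r⁻¹ * Av q (cell lab t c) g A) ^ 2) =
            (∑ c ∈ ch lab t c', en q g (cell lab t c)) / r2 := by
          rw [sum_div]
          refine sum_congr rfl fun c _ => ?_
          have : (fun A => (r⁻¹ * Av q (cell lab t c) g A) ^ 2) = fun A =>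
              (r⁻¹) ^ 2 * (Av q (cell lab t c) g A) ^ 2 := by funext A; ring
          rw [this, Ex_mul_left, inv_pow, hrr, inv_mul_eq_div]
          rfl
        rw [e3, le_div_iff₀ hr2p]
        exact hc2
      · have e3 : ∑ c ∈ ch lab t c', Ex q (fun A => (r⁻¹ * Av q (cell lab t c) g A) ^ 2) =
            (∑ c ∈ ch lab t c', en q g (cell lab t c)) / r2 := by
          rw [sum_div]
          refine sum_congr rfl fun c _ => ?_
          have : (fun A => (r⁻¹ * Av q (cell lab t c) g A) ^ 2) = fun A =>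
              (r⁻¹) ^ 2 * (Av q (cell lab t c) g A) ^ 2 := by funext A; ring
          rw [this, Ex_mul_left, inv_pow, hrr, inv_mul_eq_div]
          rfl
        rw [e3, div_le_iff₀ hr2p]
        exact hp c' hc1
    calc e₀ * (b / (2 * C ^ 2)) * (ρ ^ k' * a) = e₀ * (b / (2 * C ^ 2) * (ρ ^ k' * a)) := by ring
      _ ≤ e₀ * ((G.card : ℝ) * r2) := mul_le_mul_of_nonneg_left hGcard he0.le
      _ = ∑ c' ∈ G, e₀ * r2 := by rw [sum_const, nsmul_eq_mul]; ring
      _ ≤ ∑ c' ∈ G, _ := sum_le_sum hstep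
      _ ≤ _ := sum_le_sum_of_subset_of_nonneg (filter_subset _ _)
          fun c' _ _ => Ex_nonneg fun _ => sq_nonneg _
  have hsum : ∀ t ≤ k', (t : ℝ) * (e₀ * (b / (2 * C ^ 2)) * (ρ ^ k' * a)) ≤ V t := by
    intro t
    induction t with
    | zero =>
      intro _
      have : 0 ≤ V 0 := by
        have : 0 < b * (ρ ^ k' * a) := by positivity
        linarith
      simpa using this
    | succ t ih =>
      intro ht
      have h5 := ih (by omega)
      have h6 := hkey t (by omega)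
      push_cast
      linarith
  have h8 := hsum k (by omega)
  have h9 := hVle k (by omega)
  have h10 : 0 < e₀ * (b / (2 * C ^ 2)) := by positivity
  have h11 : (k : ℝ) * (e₀ * (b / (2 * C ^ 2))) * (ρ ^ k' * a) ≤ C ^ 2 * (ρ ^ k' * a) := by
    linarith
  have h12 : (k : ℝ) * (e₀ * (b / (2 * C ^ 2))) ≤ C ^ 2 := le_of_mul_le_mul_right h11 haB
  have h13 : (k : ℝ) ≤ C ^ 2 / (e₀ * (b / (2 * C ^ 2))) := by
    rw [le_div_iff₀ h10]
    exact h12
  linarith

end Pool.Agent.N940.MM
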