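import Pool.Agent.N940.MM.Stm
import Pool.Agent.N940.MM.Multi

/-!
# Configurations in strips: geometry
-/

set_option autoImplicit false
set_option linter.unusedSectionVars false
set_option linter.unusedVariables false

open Filter Topology

namespace Pool.Agent.N940.MM

open Finset

variable {N L M : ℕ}

lemma em_inj (hL : 0 < L) (hM : 0 < M) {x x' : Xs N L} {u u' : Us L M}
    (h : em N L M x u = em N L M x' u') : x = x' ∧ u = u' := by
  have h1 := congrArg (fun k => ((k.1 : ℕ), (k.2 : ℕ))) h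
  simp only [em, Prod.mk.injEq] at h1
  obtain ⟨h1, h2⟩ := h1
  have hLM : 0 < L * M := Nat.mul_pos hL hM
  have key : ∀ (m a b c d : ℕ), 0 < m → b < m → d < m → a * m + b = c * m + d → a = c ∧ b = d := by
    intro m a b c d hm hb hd he
    have e1 : (a * m + b) / m = a := by
      rw [add_comm, Nat.add_mul_div_right _ _ hm, Nat.div_eq_of_lt hb, zero_add]
    have e2 : (c * m + d) / m = c := by
      rw [add_comm, Nat.add_mul_div_right _ _ hm, Nat.div_eq_of_lt hd, zero_add]
    have e3 : a = c := by rw [← e1, ← e2, he]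
    subst e3
    exact ⟨rfl, by omega⟩
  obtain ⟨a1, a2⟩ := key _ _ _ _ _ hLM u.1.2 u'.1.2 h1
  obtain ⟨b1, b2⟩ := key _ _ _ _ _ hM u.2.2 u'.2.2 h2
  exact ⟨Prod.ext (Fin.ext a1) (Fin.ext b1), Prod.ext (Fin.ext a2) (Fin.ext b2)⟩

lemma mem_gl {A : Xs N L → Finset (Us L M)} {k : TSP.Ix (N * L) 1 M} :
    k ∈ gl N L M A ↔ ∃ x u, u ∈ A x ∧ em N L M x u = k := by
  simp only [gl, mem_biUnion, mem_univ, true_and, mem_image]

/-- restriction of a configuration to a set of strips -/
def rst (c : Finset (Xs N L)) (A : Xs N L → Finset (Us L M)) : Xs N L → Finset (Us L M) :=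
  fun x => if x ∈ c then A x else ∅

lemma gl_mix (c : Finset (Xs N L)) (A Z : Xs N L → Finset (Us L M)) :
    gl N L M (mix c A Z) = gl N L M (rst c A) ∪ gl N L M (rst cᶜ Z) := by
  ext k
  simp only [mem_union, mem_gl]
  constructor
  · rintro ⟨x, u, hu, hk⟩
    by_cases hx : x ∈ c
    · left
      refine ⟨x, u, ?_, hk⟩
      simpa [mix, rst, hx] using hu
    · right
      refine ⟨x, u, ?_, hk⟩
      simpa [mix, rst, hx] using hu
  · rintro (⟨x, u, hu, hk⟩ | ⟨x, u, hu, hk⟩)
    · refine ⟨x, u, ?_, hk⟩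
      by_cases hx : x ∈ c
      · simpa [mix, rst, hx] using hu
      · simp [rst, hx] at hu
    · refine ⟨x, u, ?_, hk⟩
      by_cases hx : x ∈ c
      · simp [rst, hx] at hu
      · simpa [mix, rst, hx] using hu

lemma gl_rst_disjoint (hL : 0 < L) (hM : 0 < M) (c : Finset (Xs N L))
    (A Z : Xs N L → Finset (Us L M)) :
    Disjoint (gl N L M (rst c A)) (gl N L M (rst cᶜ Z)) := by
  rw [disjoint_left]
  intro k h1 h2
  obtain ⟨x, u, hu, hk⟩ := mem_gl.1 h1
  obtain ⟨x', u', hu', hk'⟩ := mem_gl.1 h2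
  obtain ⟨rfl, rfl⟩ := em_inj hL hM (hk.trans hk'.symm)
  by_cases hx : x ∈ c
  · simp [rst, hx] at hu'
  · simp [rst, hx] at hu

lemma card_gl (hL : 0 < L) (hM : 0 < M) (A : Xs N L → Finset (Us L M)) :
    (gl N L M A).card = ∑ x, (A x).card := by
  unfold gl
  rw [card_biUnion]
  · refine sum_congr rfl fun x _ => card_image_of_injective _ ?_
    intro u u' h
    exact (em_inj hL hM h).2
  · intro x _ y _ hxy
    rw [Function.onFun, disjoint_left]
    intro k h1 h2
    obtain ⟨u, _, hu⟩ := mem_image.1 h1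
    obtain ⟨u', _, hu'⟩ := mem_image.1 h2
    exact hxy (em_inj hL hM (hu.trans hu'.symm)).1

/-- number of points in a set of strips -/
def cnt (c : Finset (Xs N L)) (A : Xs N L → Finset (Us L M)) : ℕ := ∑ x ∈ c, (A x).card

lemma card_gl_rst (hL : 0 < L) (hM : 0 < M) (c : Finset (Xs N L))
    (A : Xs N L → Finset (Us L M)) : (gl N L M (rst c A)).card = cnt c A := by
  rw [card_gl hL hM]
  unfold cnt rst
  rw [← sum_filter_add_sum_filter_not univ (fun x => x ∈ c)]
  have h1 : ∑ x ∈ univ.filter (fun x => ¬ x ∈ c), (if x ∈ c then A x else ∅ : Finset (Us L M)).card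
      = 0 := by
    refine sum_eq_zero fun x hx => ?_
    rw [if_neg (mem_filter.1 hx).2]
    rfl
  rw [h1, add_zero]
  refine sum_congr (by ext x; simp) fun x hx => ?_
  rw [if_pos (by simpa using hx)]

lemma cnt_add_compl (c : Finset (Xs N L)) (A : Xs N L → Finset (Us L M)) :
    cnt c A + cnt cᶜ A = ∑ x, (A x).card := by
  unfold cnt
  exact sum_add_sum_compl c _

lemma cnt_congr {c : Finset (Xs N L)} {A B : Xs N L → Finset (Us L M)}
    (h : ∀ x ∈ c, A x = B x) : cnt c A = cnt c B := by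
  unfold cnt
  exact sum_congr rfl fun x hx => by rw [h x hx]

/-- the label of the square of side `L * 2 ^ t` which contains a strip -/
def dl (N L : ℕ) (t : ℕ) (x : Xs N L) : ℕ × ℕ := ((x.1 : ℕ) / 2 ^ t, (x.2 : ℕ) / (L * 2 ^ t))

lemma dl_succ (t : ℕ) (x : Xs N L) :
    dl N L (t + 1) x = ((dl N L t x).1 / 2, (dl N L t x).2 / 2) := by
  unfold dl
  simp only
  rw [Nat.div_div_eq_div_mul, Nat.div_div_eq_div_mul, pow_succ, mul_assoc]

lemma dl_nested (k : ℕ) : Nested (dl N L) k := by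
  intro t ht x y hxy
  rw [dl_succ, dl_succ, hxy]

/-- the point of a grid cell lies in the square with the label of its strip -/
lemma sp_mem (hL : 0 < L) (hM : 0 < M) (t : ℕ) (x : Xs N L) (u : Us L M) (c : ℕ × ℕ) :
    TSP.sp (N * L) 1 M (em N L M x u) ∈
      Sq (((L * 2 ^ t : ℕ) : ℝ) * c.1) (((L * 2 ^ t : ℕ) : ℝ) * c.2) ((L * 2 ^ t : ℕ) : ℝ) ↔
      dl N L t x = c := by
  have hM' : (0 : ℝ) < M := by exact_mod_cast hM
  have hLM : 0 < L * M := Nat.mul_pos hL hM
  have hs : 0 < L * 2 ^ t := Nat.mul_pos hL (by positivity)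
  have key : ∀ (k s c : ℕ), 0 < s → (((s : ℝ) * c ≤ (k : ℝ) / M ∧ (k : ℝ) / M < (s : ℝ) * c + s) ↔
      k / (M * s) = c) := by
    intro k s c hs
    rw [le_div_iff₀ hM', div_lt_iff₀ hM', Nat.div_eq_iff (Nat.mul_pos hM hs)]
    constructor
    · rintro ⟨h1, h2⟩
      have h1' : s * c * M ≤ k := by exact_mod_cast h1
      have h2' : k < (s * c + s) * M := by exact_mod_cast h2
      constructor
      · calc c * (M * s) = s * c * M := by ring
          _ ≤ k := h1'
      · have : (s * c + s) * M = (c + 1) * (M * s) := by ring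
        rw [this] at h2'
        have h3 : (c + 1) * (M * s) = c * (M * s) + M * s := by ring
        omega
    · rintro ⟨h1, h2⟩
      have h4 := Nat.mul_pos hM hs
      have h3 : k < (s * c + s) * M := by
        have : (s * c + s) * M = c * (M * s) + M * s := by ring
        rw [this]
        omega
      constructor
      · have : s * c * M ≤ k := by
          calc s * c * M = c * (M * s) := by ring
            _ ≤ k := h1
        exact_mod_cast this
      · exact_mod_cast h3
  have e1 : ((em N L M x u).1 : ℕ) / (M * (L * 2 ^ t)) = (x.1 : ℕ) / 2 ^ t := by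
    have : M * (L * 2 ^ t) = (L * M) * 2 ^ t := by ring
    rw [this, ← Nat.div_div_eq_div_mul]
    congr 1
    show ((x.1 : ℕ) * (L * M) + u.1) / (L * M) = x.1
    rw [add_comm, Nat.add_mul_div_right _ _ hLM, Nat.div_eq_of_lt u.1.2, zero_add]
  have e2 : ((em N L M x u).2 : ℕ) / (M * (L * 2 ^ t)) = (x.2 : ℕ) / (L * 2 ^ t) := by
    rw [← Nat.div_div_eq_div_mul]
    congr 1
    show ((x.2 : ℕ) * M + u.2) / M = x.2
    rw [add_comm, Nat.add_mul_div_right _ _ hM, Nat.div_eq_of_lt u.2.2, zero_add]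
  unfold Sq TSP.sp dl
  simp only [Set.mem_ofPred_eq]
  have k1 := key ((em N L M x u).1 : ℕ) (L * 2 ^ t) c.1 hs
  have k2 := key ((em N L M x u).2 : ℕ) (L * 2 ^ t) c.2 hs
  rw [e1] at k1
  rw [e2] at k2
  constructor
  · rintro ⟨h1, h2, h3, h4⟩
    exact Prod.ext (k1.1 ⟨h1, h2⟩) (k2.1 ⟨h3, h4⟩)
  · intro h
    have h1 := k1.2 (congrArg Prod.fst h)
    have h2 := k2.2 (congrArg Prod.snd h)
    exact ⟨h1.1, h1.2, h2.1, h2.2⟩

end Pool.Agent.N940.MM
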