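import Pool.Agent.N940.MM.Multi

/-!
# Asymptotic additivity in L2
-/

set_option autoImplicit false
set_option linter.unusedSectionVars false
set_option linter.unusedVariables false

namespace Pool.Agent.N940.MM

open Finset

variable {ι Ω : Type} [Fintype ι] [DecidableEq ι] [Fintype Ω] {κ : Type} [DecidableEq κ]

/-- the number of blocks of level `t` hit by `S` -/
def nb (lab : ℕ → ι → κ) (t : ℕ) (S : Finset ι) : ℕ := (S.image (lab t)).card

lemma nb_anti {lab : ℕ → ι → κ} {k : ℕ} (h : Nested lab k) {s t : ℕ} (hst : s ≤ t) (ht : t ≤ k)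
    (S : Finset ι) : nb lab t S ≤ nb lab s S := by
  classical
  unfold nb
  rcases S.eq_empty_or_nonempty with rfl | ⟨x₀, _⟩
  · simp
  have : Nonempty ι := ⟨x₀⟩
  have hex : ∀ c ∈ S.image (lab t), ∃ x ∈ S, lab t x = c := fun c hc => mem_image.1 hc
  choose! g hg using hex
  refine card_le_card_of_injOn (fun c => lab s (g c)) ?_ ?_
  · intro c hc
    have := hg c hc
    exact mem_coe.2 (mem_image_of_mem _ this.1)
  · intro c hc d hd hcd
    have h1 := hg c (mem_coe.1 hc)
    have h2 := hg d (mem_coe.1 hd)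
    rw [← h1.2, ← h2.2]
    exact h.le hst ht hcd

lemma nb_le_card (lab : ℕ → ι → κ) (t : ℕ) (S : Finset ι) : nb lab t S ≤ S.card := card_image_le

/-- the combinatorial inequality behind the theorem -/
lemma key_ind {lab : ℕ → ι → κ} {k : ℕ} (h : Nested lab k) {s r : ℕ} (hsr : s ≤ r) (hr : r ≤ k)
    (S : Finset ι) (hS : 2 ≤ nb lab r S) :
    (1 : ℝ) ≤ ((nb lab s S : ℝ) - nb lab r S) +
      ∑ d ∈ (univ : Finset ι).image (lab r), ∑ e ∈ (cell lab r d).image (lab s),
        (if (S ∩ cell lab r d ⊆ cell lab s e ∧ (S ∩ cell lab s e).Nonempty ∧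
          ¬ S ⊆ cell lab s e) then (1 : ℝ) else 0) := by
  have hmono := nb_anti h hsr hr S
  have hnn : (0 : ℝ) ≤ ∑ d ∈ (univ : Finset ι).image (lab r), ∑ e ∈ (cell lab r d).image (lab s),
        (if (S ∩ cell lab r d ⊆ cell lab s e ∧ (S ∩ cell lab s e).Nonempty ∧
          ¬ S ⊆ cell lab s e) then (1 : ℝ) else 0) := by
    refine sum_nonneg fun d _ => sum_nonneg fun e _ => ?_
    split_ifs <;> norm_num
  rcases Nat.lt_or_ge (nb lab r S) (nb lab s S) with hlt | hge
  · have : (nb lab r S : ℝ) + 1 ≤ nb lab s S := by exact_mod_cast hlt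
    linarith
  · have heq : nb lab s S = nb lab r S := le_antisymm hge hmono
    have hne : S.Nonempty := by
      rw [nonempty_iff_ne_empty]
      rintro rfl
      simp [nb] at hS
    obtain ⟨x, hx⟩ := hne
    have hsub : S ∩ cell lab r (lab r x) ⊆ cell lab s (lab s x) := by
      intro y hy
      rw [mem_inter, mem_cell] at hy
      rw [mem_cell]
      by_contra hcon
      obtain ⟨S', hS'⟩ : ∃ S', S' = S.filter (fun z => lab s z ≠ lab s y) := ⟨_, rfl⟩
      have hxS' : x ∈ S' := by
        rw [hS', mem_filter]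
        exact ⟨hx, fun h' => hcon h'.symm⟩
      have h1 : S'.image (lab r) = S.image (lab r) := by
        ext c
        simp only [mem_image]
        constructor
        · rintro ⟨z, hz, rfl⟩
          rw [hS', mem_filter] at hz
          exact ⟨z, hz.1, rfl⟩
        · rintro ⟨z, hz, rfl⟩
          by_cases hzy : lab s z = lab s y
          · refine ⟨x, hxS', ?_⟩
            rw [h.le hsr hr hzy, hy.2]
          · exact ⟨z, by rw [hS', mem_filter]; exact ⟨hz, hzy⟩, rfl⟩
      have h2 : S'.image (lab s) ⊆ (S.image (lab s)).erase (lab s y) := by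
        intro c hc
        obtain ⟨z, hz, rfl⟩ := mem_image.1 hc
        rw [hS', mem_filter] at hz
        exact mem_erase.2 ⟨hz.2, mem_image_of_mem _ hz.1⟩
      have h3 : nb lab r S ≤ nb lab s S' := by
        have : nb lab r S = nb lab r S' := by unfold nb; rw [h1]
        rw [this]
        exact nb_anti h hsr hr S'
      have h4 : nb lab s S' < nb lab s S := by
        unfold nb
        refine (card_le_card h2).trans_lt (card_erase_lt_of_mem (mem_image_of_mem _ hy.1))
      omega
    have hnot : ¬ S ⊆ cell lab s (lab s x) := by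
      intro hcon
      have : nb lab r S ≤ 1 := by
        refine (nb_anti h hsr hr S).trans ?_
        unfold nb
        rw [card_le_one]
        intro a ha b hb
        obtain ⟨y, hy, rfl⟩ := mem_image.1 ha
        obtain ⟨z, hz, rfl⟩ := mem_image.1 hb
        rw [mem_cell.1 (hcon hy), mem_cell.1 (hcon hz)]
      omega
    have hone : (1 : ℝ) ≤ ∑ d ∈ (univ : Finset ι).image (lab r),
        ∑ e ∈ (cell lab r d).image (lab s),
        (if (S ∩ cell lab r d ⊆ cell lab s e ∧ (S ∩ cell lab s e).Nonempty ∧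
          ¬ S ⊆ cell lab s e) then (1 : ℝ) else 0) := by
      have h1 : (∑ e ∈ (cell lab r (lab r x)).image (lab s),
        (if (S ∩ cell lab r (lab r x) ⊆ cell lab s e ∧ (S ∩ cell lab s e).Nonempty ∧
          ¬ S ⊆ cell lab s e) then (1 : ℝ) else 0)) ≤ ∑ d ∈ (univ : Finset ι).image (lab r),
        ∑ e ∈ (cell lab r d).image (lab s),
        (if (S ∩ cell lab r d ⊆ cell lab s e ∧ (S ∩ cell lab s e).Nonempty ∧
          ¬ S ⊆ cell lab s e) then (1 : ℝ) else 0) := by
        refine single_le_sum (f := fun d => ∑ e ∈ (cell lab r d).image (lab s),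
          (if (S ∩ cell lab r d ⊆ cell lab s e ∧ (S ∩ cell lab s e).Nonempty ∧
          ¬ S ⊆ cell lab s e) then (1 : ℝ) else 0)) (fun d _ => sum_nonneg fun e _ => ?_)
          (mem_image_of_mem _ (mem_univ x))
        split_ifs <;> norm_num
      have h2 : (if (S ∩ cell lab r (lab r x) ⊆ cell lab s (lab s x) ∧
          (S ∩ cell lab s (lab s x)).Nonempty ∧ ¬ S ⊆ cell lab s (lab s x)) then (1 : ℝ) else 0) ≤
          (∑ e ∈ (cell lab r (lab r x)).image (lab s),
          (if (S ∩ cell lab r (lab r x) ⊆ cell lab s e ∧ (S ∩ cell lab s e).Nonempty ∧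
          ¬ S ⊆ cell lab s e) then (1 : ℝ) else 0)) := by
        refine single_le_sum (f := fun e =>
          (if (S ∩ cell lab r (lab r x) ⊆ cell lab s e ∧ (S ∩ cell lab s e).Nonempty ∧
          ¬ S ⊆ cell lab s e) then (1 : ℝ) else 0)) (fun e _ => ?_)
          (mem_image_of_mem _ (mem_cell.2 rfl))
        split_ifs <;> norm_num
      rw [if_pos ⟨hsub, ⟨x, mem_inter.2 ⟨hx, mem_cell.2 rfl⟩⟩, hnot⟩] at h2
      linarith
    have : (nb lab s S : ℝ) = nb lab r S := by exact_mod_cast heq
    linarith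

/-- the interaction part of `f` between the block `E` and the outside of `D`, as an average -/
lemma inter_eq {q : Wt ι Ω} (f : (ι → Ω) → ℝ) {E D : Finset ι} (hED : E ⊆ D) :
    Ex q (fun A => (Av q (E ∪ Dᶜ) f A - Av q Dᶜ f A - Av q E f A + Ex q f) ^ 2) =
      en q f (E ∪ Dᶜ) - en q f Dᶜ - en q f E + en q f ∅ := by
  have h12 : Ex q (fun A => Av q (E ∪ Dᶜ) f A * Av q Dᶜ f A) = en q f Dᶜ := by
    rw [Ex_mul_Av, Av_Av, inter_eq_left.2 subset_union_right]
    unfold en
    congr 1
    funext A
    ring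
  have h13 : Ex q (fun A => Av q (E ∪ Dᶜ) f A * Av q E f A) = en q f E := by
    rw [Ex_mul_Av, Av_Av, inter_eq_left.2 subset_union_left]
    unfold en
    congr 1
    funext A
    ring
  have hdis : Disjoint Dᶜ E := by
    rw [disjoint_left]
    intro x hx hx'
    exact (mem_compl.1 hx) (hED hx')
  have h23 : Ex q (fun A => Av q Dᶜ f A * Av q E f A) = Ex q f * Ex q f := by
    rw [Ex_mul_indep (Dep_Av q Dᶜ f) (Dep_Av q E f) hdis, Ex_Av, Ex_Av]
  have h0 : en q f ∅ = Ex q f * Ex q f := by
    unfold en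
    simp only [Av_empty]
    rw [Ex_const]
    ring
  have h1 := Ex_Av q (E ∪ Dᶜ) f
  have h2 := Ex_Av q Dᶜ f
  have h3 := Ex_Av q E f
  have hexp : (fun A => (Av q (E ∪ Dᶜ) f A - Av q Dᶜ f A - Av q E f A + Ex q f) ^ 2) =
      fun A => ((Av q (E ∪ Dᶜ) f A) ^ 2 + ((Av q Dᶜ f A) ^ 2 + ((Av q E f A) ^ 2 +
        Ex q f * Ex q f))) - (2 * (Av q (E ∪ Dᶜ) f A * Av q Dᶜ f A) +
        (2 * (Av q (E ∪ Dᶜ) f A * Av q E f A) + (2 * Ex q f * Av q Dᶜ f A +
          2 * Ex q f * Av q E f A)) - (2 * (Av q Dᶜ f A * Av q E f A) +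
          2 * Ex q f * Av q (E ∪ Dᶜ) f A)) := by
    funext A; ring
  rw [hexp]
  simp only [Ex_sub, Ex_add, Ex_mul_left, Ex_const]
  rw [h12, h13, h23, show Ex q (fun A => Av q (E ∪ Dᶜ) f A) = Ex q f from h1,
    show Ex q (fun A => Av q Dᶜ f A) = Ex q f from h2,
    show Ex q (fun A => Av q E f A) = Ex q f from h3, h0]
  unfold en
  ring

/-- the difference of two sections of `f`, centred -/
def Gd (q : Wt ι Ω) (f : (ι → Ω) → ℝ) (D : Finset ι) (ζ ζ' A : ι → Ω) : ℝ :=
  (f (mix D A ζ) - f (mix D A ζ')) - Ex q (fun B => f (mix D B ζ) - f (mix D B ζ'))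

lemma Ex_Gd (q : Wt ι Ω) (f : (ι → Ω) → ℝ) (D : Finset ι) (ζ ζ' : ι → Ω) : Ex q (Gd q f D ζ ζ') = 0 := by
  unfold Gd
  rw [Ex_sub, Ex_const, sub_self]

lemma Ex_sq_le {q : Wt ι Ω} (φ : (ι → Ω) → ℝ) :
    (Ex q φ) ^ 2 ≤ Ex q fun A => φ A ^ 2 := by
  have h2 : 0 ≤ Ex q fun A => (φ A - Ex q φ) ^ 2 := Ex_nonneg fun _ => sq_nonneg _
  have h3 : (fun A => (φ A - Ex q φ) ^ 2) = fun A => φ A ^ 2 - (2 * Ex q φ * φ A -
      Ex q φ * Ex q φ) := by
    funext A; ring
  rw [h3, Ex_sub, Ex_sub, Ex_mul_left, Ex_const] at h2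
  nlinarith

lemma jensen {q : Wt ι Ω} (f : (ι → Ω) → ℝ) {E D : Finset ι}
    (hED : E ⊆ D) :
    Ex q (fun A => (Av q (E ∪ Dᶜ) f A - Av q Dᶜ f A - Av q E f A + Ex q f) ^ 2) ≤
      Ex q (fun ζ => Ex q (fun ζ' => en q (Gd q f D ζ ζ') E)) := by
  have hg : ∀ A, Av q (E ∪ Dᶜ) f A - Av q Dᶜ f A - Av q E f A + Ex q f =
      Ex q (fun ζ' => Av q E (Gd q f D A ζ') A) := by
    intro A
    have e1 : ∀ ζ', Av q E (Gd q f D A ζ') A =
        Ex q (fun C => f (mix D (mix E A C) A)) - Ex q (fun C => f (mix D (mix E A C) ζ')) -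
          (Ex q (fun C => f (mix D C A)) - Ex q (fun C => f (mix D C ζ'))) := by
      intro ζ'
      unfold Av Gd
      rw [Ex_sub, Ex_const, Ex_sub, Ex_sub]
    have e2 : Ex q (fun C => f (mix D (mix E A C) A)) = Av q (E ∪ Dᶜ) f A := by
      unfold Av
      congr 1
      funext C
      congr 1
      funext x
      have := @hED x
      simp only [mix, mem_union, mem_compl]
      by_cases h1 : x ∈ E <;> by_cases h2 : x ∈ D <;> simp_all
    have e3 : Ex q (fun C => f (mix D C A)) = Av q Dᶜ f A := by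
      unfold Av
      congr 1
      funext C
      congr 1
      funext x
      simp only [mix, mem_compl]
      by_cases h2 : x ∈ D <;> simp_all
    have e4 : Ex q (fun ζ' => Ex q (fun C => f (mix D (mix E A C) ζ'))) = Av q E f A := by
      have e5 : ∀ C ζ', mix D (mix E A C) ζ' = mix E A (mix D C ζ') := by
        intro C ζ'
        funext x
        have := @hED x
        simp only [mix]
        by_cases h1 : x ∈ E <;> by_cases h2 : x ∈ D <;> simp_all
      simp only [e5]
      rw [Ex_comm]
      exact Ex_mix q D (fun B => f (mix E A B))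
    have e6 : Ex q (fun ζ' => Ex q (fun C => f (mix D C ζ'))) = Ex q f := by
      rw [Ex_comm]
      exact Ex_mix q D f
    simp only [e1]
    rw [Ex_sub, Ex_sub, Ex_sub, Ex_const, Ex_const, e2, e3, e4, e6]
    ring
  have hG : ∀ ω ζ ζ', Gd q f D (mix D ω ζ) ζ' = Gd q f D ζ ζ' := by
    intro ω ζ ζ'
    funext x
    unfold Gd
    have : ∀ B, mix D B (mix D ω ζ) = mix D B ζ := by
      intro B
      funext y
      simp only [mix]
      by_cases h2 : y ∈ D <;> simp_all
    simp only [this]
  have hA : ∀ (g : (ι → Ω) → ℝ) ω ζ, Av q E g (mix D ω ζ) = Av q E g ω := by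
    intro g ω ζ
    refine Dep_Av q E g _ _ ?_
    intro y hy
    have := @hED y hy
    simp [mix, this]
  calc Ex q (fun A => (Av q (E ∪ Dᶜ) f A - Av q Dᶜ f A - Av q E f A + Ex q f) ^ 2)
      = Ex q (fun A => (Ex q (fun ζ' => Av q E (Gd q f D A ζ') A)) ^ 2) := by simp only [hg]
    _ ≤ Ex q (fun A => Ex q (fun ζ' => (Av q E (Gd q f D A ζ') A) ^ 2)) :=
        Ex_mono fun A => Ex_sq_le _
    _ = Ex q (fun ω => Ex q (fun ζ => Ex q (fun ζ' => (Av q E (Gd q f D ζ ζ') ω) ^ 2))) := by
        rw [← Ex_mix q D (fun A => Ex q (fun ζ' => (Av q E (Gd q f D A ζ') A) ^ 2))]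
        simp only [hG, hA]
    _ = Ex q (fun ζ => Ex q (fun ζ' => en q (Gd q f D ζ ζ') E)) := by
        rw [Ex_comm]
        congr 1
        funext ζ
        rw [Ex_comm]
        rfl

/-- block averages of the difference of two sections -/
lemma Gd_bound {q : Wt ι Ω} (f : (ι → Ω) → ℝ) {B D : Finset ι}
    (hBD : B ⊆ D) (K : ℝ)
    (hK : ∀ A A' Z Z' : ι → Ω, |f (mix B A Z) - f (mix B A' Z) - f (mix B A Z') +
      f (mix B A' Z')| ≤ K) (ζ ζ' A : ι → Ω) : |Av q B (Gd q f D ζ ζ') A| ≤ K := by
  have e1 : Av q B (Gd q f D ζ ζ') A = Ex q (fun C => Ex q (fun C' =>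
      f (mix B A (mix D C ζ)) - f (mix B C' (mix D C ζ)) - f (mix B A (mix D C ζ')) +
        f (mix B C' (mix D C ζ')))) := by
    have e2 : Ex q (fun C => f (mix D C ζ) - f (mix D C ζ')) =
        Ex q (fun C => Ex q (fun C' => f (mix D (mix B C' C) ζ) - f (mix D (mix B C' C) ζ'))) := by
      rw [Ex_comm, Ex_mix q B (fun C => f (mix D C ζ) - f (mix D C ζ'))]
    have e3 : ∀ (X C Z : ι → Ω), mix D (mix B X C) Z = mix B X (mix D C Z) := by
      intro X C Z
      funext x
      have := @hBD x
      simp only [mix]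
      by_cases h1 : x ∈ B <;> by_cases h2 : x ∈ D <;> simp_all
    have e4 : Av q B (Gd q f D ζ ζ') A =
        Ex q (fun C => f (mix D (mix B A C) ζ) - f (mix D (mix B A C) ζ')) -
        Ex q (fun C => f (mix D C ζ) - f (mix D C ζ')) := by
      unfold Av Gd
      rw [Ex_sub, Ex_const]
    rw [e4, e2, ← Ex_sub]
    congr 1
    funext C
    simp only [e3]
    rw [← Ex_const (ι := ι) (Ω := Ω) q (f (mix B A (mix D C ζ)) - f (mix B A (mix D C ζ'))), ← Ex_sub]
    congr 1
    funext C'
    ring
  rw [e1]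
  refine (Ex_abs_le _).trans ?_
  have h2 : Ex q (fun C => |Ex q (fun C' =>
      f (mix B A (mix D C ζ)) - f (mix B C' (mix D C ζ)) - f (mix B A (mix D C ζ')) +
        f (mix B C' (mix D C ζ')))|) ≤ Ex q (fun _ : ι → Ω => K) := by
    refine Ex_mono fun C => (Ex_abs_le _).trans ?_
    have h3 : Ex q (fun C' => |f (mix B A (mix D C ζ)) - f (mix B C' (mix D C ζ)) -
        f (mix B A (mix D C ζ')) + f (mix B C' (mix D C ζ'))|) ≤ Ex q (fun _ : ι → Ω => K) :=
      Ex_mono fun C' => hK _ _ _ _
    rwa [Ex_const] at h3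
  rwa [Ex_const] at h2

lemma en_eq_sum {q : Wt ι Ω} {f : (ι → Ω) → ℝ} {w : Finset ι → ℝ} (hw : ∀ U, en q f U = ∑ S ∈ U.powerset, w S)
    (U : Finset ι) : en q f U = ∑ S : Finset ι, w S * (if S ⊆ U then 1 else 0) := by
  rw [hw]
  simp only [mul_ite, mul_one, mul_zero]
  rw [← sum_filter]
  refine sum_congr ?_ fun _ _ => rfl
  ext S
  simp

lemma if_interaction (S E D : Finset ι) (hED : E ⊆ D) :
    (if (S ∩ D ⊆ E ∧ (S ∩ E).Nonempty ∧ ¬ S ⊆ E) then (1 : ℝ) else 0) ≤
      (if S ⊆ E ∪ Dᶜ then 1 else 0) - (if S ⊆ Dᶜ then 1 else 0) - (if S ⊆ E then 1 else 0) +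
        (if S ⊆ ∅ then 1 else 0) := by
  by_cases h1 : S ⊆ E ∪ Dᶜ
  · rw [if_pos h1]
    by_cases h2 : S ⊆ Dᶜ
    · rw [if_pos h2]
      have h3 : ¬ (S ∩ E).Nonempty := by
        rintro ⟨x, hx⟩
        rw [mem_inter] at hx
        exact (mem_compl.1 (h2 hx.1)) (hED hx.2)
      rw [if_neg (fun h => h3 h.2.1)]
      by_cases h4 : S ⊆ E
      · rw [if_pos h4]
        have h5 : S ⊆ ∅ := by
          intro x hx
          exact absurd (hED (h4 hx)) (mem_compl.1 (h2 hx))
        rw [if_pos h5]
        norm_num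
      · rw [if_neg h4]
        split_ifs <;> norm_num
    · rw [if_neg h2]
      by_cases h4 : S ⊆ E
      · rw [if_pos h4, if_neg (fun h => h.2.2 h4)]
        split_ifs <;> norm_num
      · rw [if_neg h4]
        split_ifs <;> norm_num
  · have h2 : ¬ S ⊆ Dᶜ := fun h => h1 (h.trans subset_union_right)
    have h4 : ¬ S ⊆ E := fun h => h1 (h.trans subset_union_left)
    have h5 : ¬ S ∩ D ⊆ E := by
      intro h
      apply h1
      intro x hx
      rw [mem_union, mem_compl]
      by_cases hxD : x ∈ D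
      · exact Or.inl (h (mem_inter.2 ⟨hx, hxD⟩))
      · exact Or.inr hxD
    rw [if_neg h1, if_neg h2, if_neg h4, if_neg (fun h => h5 h.1)]
    split_ifs <;> norm_num

lemma nested_mono {lab : ℕ → ι → κ} {k l : ℕ} (h : Nested lab k) (hl : l ≤ k) : Nested lab l :=
  fun t ht => h t (by omega)

/-- **Asymptotic additivity in L2.** -/
theorem thmA (C₁ C₂ ε : ℝ) (hC₁ : 0 < C₁) (hC₂ : 0 < C₂) (hε : 0 < ε) : ∃ j₀ : ℕ,
    ∀ (ι Ω : Type) [Fintype ι] [DecidableEq ι] [Fintype Ω] (κ : Type) [DecidableEq κ] (lab : ℕ → ι → κ),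
      Nested lab j₀ → (∀ t < j₀, ∀ c, ((ch lab t c).card : ℝ) ≤ 4) →
      ∀ (a 𝔸 : ℝ), 0 < a → 0 ≤ 𝔸 →
      (∀ t ≤ j₀, (((univ : Finset ι).image (lab t)).card : ℝ) * (4 ^ t * a) ≤ 𝔸) →
      ∀ (q : Wt ι Ω), ∀ f : (ι → Ω) → ℝ,
      ∑ x : ι, (en q f univ - en q f {x}ᶜ) ≤ C₁ * 𝔸 →
      (∀ t ≤ j₀, ∀ c, ∀ A A' Z Z' : ι → Ω, |f (mix (cell lab t c) A Z) -
        f (mix (cell lab t c) A' Z) - f (mix (cell lab t c) A Z') +
          f (mix (cell lab t c) A' Z')| ≤ C₂ * Real.sqrt (4 ^ t * a)) →
      en q f univ - en q f ∅ - ∑ c ∈ (univ : Finset ι).image (lab j₀),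
        (en q f (cell lab j₀ c) - en q f ∅) ≤ ε * 𝔸 := by
  obtain ⟨ρ₀, k, hρ₀, hk, hB⟩ := lemB (ε / 2) C₂ (by positivity) hC₂
  obtain ⟨m, hm⟩ := pow_unbounded_of_one_lt ρ₀ (by norm_num : (1 : ℝ) < 4)
  obtain ⟨n, hn⟩ := exists_nat_gt (2 * C₁ / ε)
  refine ⟨m * k * n, ?_⟩
  intro ι Ω _ _ _ κ _ lab hnest hch a 𝔸 ha hA hcount q f H1 H2
  obtain ⟨w, hw0, hw⟩ := hoef f
  have hen := en_eq_sum hw
  have hn0 : 0 < n := by
    rcases Nat.eq_zero_or_pos n with h | h
    · subst h
      have : 0 < 2 * C₁ / ε := by positivity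
      simp at hn
      linarith
    · exact h
  have hnR : (0 : ℝ) < n := by exact_mod_cast hn0
  set I : ℕ → ℝ := fun t => ∑ S : Finset ι, w S * (nb lab t S : ℝ) with hI
  -- the total weight at level 0
  have hI0 : I 0 ≤ C₁ * 𝔸 := by
    refine le_trans ?_ H1
    have e1 : ∑ x : ι, (en q f univ - en q f {x}ᶜ) = ∑ S : Finset ι, w S * (S.card : ℝ) := by
      have e2 : ∀ x : ι, en q f univ - en q f {x}ᶜ =
          ∑ S : Finset ι, w S * (if x ∈ S then 1 else 0) := by
        intro x
        rw [hen, hen, ← sum_sub_distrib]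
        refine sum_congr rfl fun S _ => ?_
        rw [← mul_sub]
        congr 1
        by_cases hx : x ∈ S
        · have : ¬ S ⊆ {x}ᶜ := fun h => by
            have := h hx
            simp at this
          rw [if_pos (subset_univ S), if_neg this, if_pos hx, sub_zero]
        · have : S ⊆ {x}ᶜ := fun y hy => by
            rw [mem_compl, mem_singleton]
            rintro rfl
            exact hx hy
          rw [if_pos (subset_univ S), if_pos this, if_neg hx, sub_self]
      simp only [e2]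
      rw [sum_comm]
      refine sum_congr rfl fun S _ => ?_
      rw [← mul_sum]
      congr 1
      simp
    rw [e1]
    refine sum_le_sum fun S _ => mul_le_mul_of_nonneg_left ?_ (hw0 S)
    exact_mod_cast nb_le_card lab 0 S
  have hInn : ∀ t, 0 ≤ I t := fun t =>
    sum_nonneg fun S _ => mul_nonneg (hw0 S) (Nat.cast_nonneg _)
  -- pigeonhole
  obtain ⟨i, hi, hgap⟩ : ∃ i < n, I (m * k * i) - I (m * k * (i + 1)) ≤ ε / 2 * 𝔸 := by
    by_contra hcon
    push Not at hcon
    have h2 : ∀ l ≤ n, (l : ℝ) * (ε / 2 * 𝔸) ≤ I 0 - I (m * k * l) := by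
      intro l
      induction l with
      | zero => intro _; simp
      | succ l ih =>
        intro hl
        have h3 := ih (by omega)
        have h4 := hcon l (by omega)
        push_cast
        linarith
    have h3 := h2 n le_rfl
    have h4 := hInn (m * k * n)
    have h5 : (n : ℝ) * (ε / 2 * 𝔸) ≤ C₁ * 𝔸 := by linarith
    have h6 : 0 < 𝔸 ∨ 𝔸 = 0 := hA.lt_or_eq.imp id Eq.symm
    rcases h6 with h6 | h6
    · have h7 : (n : ℝ) * (ε / 2) ≤ C₁ := by
        refine le_of_mul_le_mul_right ?_ h6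
        linarith
      have h8 : (n : ℝ) ≤ 2 * C₁ / ε := by
        rw [le_div_iff₀ hε]
        linarith
      linarith
    · have h7 := hcon 0 hn0
      rw [h6] at h7 hI0
      have h8 := hInn (m * k * (0 + 1))
      simp only [mul_zero] at h7 hI0
      linarith
  set s := m * k * i with hs
  set r := m * k * (i + 1) with hr
  have hsr : s ≤ r := by
    rw [hs, hr]
    exact Nat.mul_le_mul_left _ (by omega)
  have hrj : r ≤ m * k * n := by
    rw [hr]
    exact Nat.mul_le_mul_left _ (by omega)
  -- the interaction bound for one block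
  have hblock : ∀ d : κ, ∑ e ∈ (cell lab r d).image (lab s),
      (en q f (cell lab s e ∪ (cell lab r d)ᶜ) - en q f (cell lab r d)ᶜ -
        en q f (cell lab s e) + en q f ∅) ≤ ε / 2 * (4 ^ r * a) := by
    intro d
    set lab' : ℕ → ι → κ := fun t => lab (s + m * t) with hlab'
    have hrs : r = s + m * k := by rw [hr, hs]; ring
    have hnest' : Nested lab' k := by
      intro t ht x y hxy
      have : s + m * (t + 1) ≤ m * k * n := by
        calc s + m * (t + 1) ≤ s + m * k := by
              apply Nat.add_le_add_left; exact Nat.mul_le_mul_left _ ht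
          _ = r := hrs.symm
          _ ≤ _ := hrj
      exact hnest.le (by simp only [mul_add]; omega) this hxy
    have hch' : ∀ t < k, ∀ c, ((ch lab' t c).card : ℝ) ≤ 4 ^ m := by
      intro t ht c
      have hle : s + m * (t + 1) ≤ m * k * n := by
        calc s + m * (t + 1) ≤ s + m * k := by
              apply Nat.add_le_add_left; exact Nat.mul_le_mul_left _ ht
          _ = r := hrs.symm
          _ ≤ _ := hrj
      set lab'' : ℕ → ι → κ := fun u => lab (s + m * t + u) with hlab''
      have hn'' : Nested lab'' m := by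
        intro u hu x y hxy
        exact hnest (s + m * t + u) (by
          have : m * (t + 1) = m * t + m := by ring
          omega) x y hxy
      have hc'' : ∀ u < m, ∀ c, ((ch lab'' u c).card : ℝ) ≤ 4 := by
        intro u hu c
        exact hch (s + m * t + u) (by
          have : m * (t + 1) = m * t + m := by ring
          omega) c
      have := sub_card hn'' c (by norm_num : (0 : ℝ) ≤ 4) hc'' (Nat.zero_le m)
      rw [pow_zero, mul_one] at this
      have e : ch lab' t c = sub lab'' m c 0 := by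
        unfold ch sub cell
        simp only [hlab', hlab'', add_zero]
        have e2 : s + m * (t + 1) = s + m * t + m := by ring
        rw [e2]
      rw [e]
      exact this
    have hpos : 0 < 4 ^ s * a := by positivity
    have hstep : ∀ ζ ζ' : ι → Ω, ∑ e ∈ (cell lab r d).image (lab s),
        en q (Gd q f (cell lab r d) ζ ζ') (cell lab s e) ≤ ε / 2 * (4 ^ r * a) := by
      intro ζ ζ'
      have h5 := hB (4 ^ m) hm.le ι Ω κ lab' hnest' hch' (4 ^ s * a) hpos d q
        (Gd q f (cell lab r d) ζ ζ') (Ex_Gd q f _ ζ ζ') ?_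
      · have e1 : sub lab' k d 0 = (cell lab r d).image (lab s) := by
          unfold sub cell
          simp only [hlab', mul_zero, add_zero]
          rw [hrs]
        have e2 : (4 : ℝ) ^ r * a = (4 ^ m) ^ k * (4 ^ s * a) := by
          rw [hrs, ← pow_mul, pow_add]
          ring
        rw [e1] at h5
        rw [e2]
        have e3 : ∀ e, cell lab' 0 e = cell lab s e := by
          intro e
          unfold cell
          simp only [hlab', mul_zero, add_zero]
        simp only [e3] at h5
        exact h5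
      · intro t ht c hc A
        have e1 : cell lab' t c = cell lab (s + m * t) c := rfl
        have hle : s + m * t ≤ r := by
          rw [hrs]
          apply Nat.add_le_add_left; exact Nat.mul_le_mul_left _ ht
        have hsubD : cell lab (s + m * t) c ⊆ cell lab r d := by
          intro x hx
          rw [mem_cell] at hx ⊢
          unfold sub at hc
          obtain ⟨y, hy, hyc⟩ := mem_image.1 hc
          have hy' : lab r y = d := by
            have := mem_cell.1 hy
            simp only [hlab', ← hrs] at this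
            exact this
          rw [← hy']
          have hxy : lab (s + m * t) x = lab (s + m * t) y := hx.trans hyc.symm
          exact hnest.le hle hrj hxy
        rw [e1]
        have e2 : (4 : ℝ) ^ (s + m * t) * a = (4 ^ m) ^ t * (4 ^ s * a) := by
          rw [← pow_mul, pow_add]
          ring
        rw [← e2]
        exact Gd_bound f hsubD _ (fun A A' Z Z' => H2 _ (hle.trans hrj) c A A' Z Z')
          ζ ζ' A
    calc ∑ e ∈ (cell lab r d).image (lab s),
          (en q f (cell lab s e ∪ (cell lab r d)ᶜ) - en q f (cell lab r d)ᶜ -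
            en q f (cell lab s e) + en q f ∅)
        ≤ ∑ e ∈ (cell lab r d).image (lab s),
          Ex q (fun ζ => Ex q (fun ζ' => en q (Gd q f (cell lab r d) ζ ζ') (cell lab s e))) := by
          refine sum_le_sum fun e he => ?_
          have hsubD : cell lab s e ⊆ cell lab r d := by
            intro x hx
            obtain ⟨y, hy, hye⟩ := mem_image.1 he
            rw [mem_cell] at hx hy ⊢
            rw [← hy]
            exact hnest.le hsr hrj (hx.trans hye.symm)
          rw [← inter_eq f hsubD]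
          exact jensen f hsubD
      _ = Ex q (fun ζ => Ex q (fun ζ' => ∑ e ∈ (cell lab r d).image (lab s),
          en q (Gd q f (cell lab r d) ζ ζ') (cell lab s e))) := by
          rw [← Ex_sum]
          congr 1
          funext ζ
          rw [← Ex_sum]
      _ ≤ Ex q (fun _ : ι → Ω => Ex q (fun _ : ι → Ω => ε / 2 * (4 ^ r * a))) :=
          Ex_mono fun ζ => Ex_mono fun ζ' => hstep ζ ζ'
      _ = ε / 2 * (4 ^ r * a) := by rw [Ex_const, Ex_const]
  -- summation over the blocks
  have htotal : ∑ d ∈ (univ : Finset ι).image (lab r), ∑ e ∈ (cell lab r d).image (lab s),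
      (en q f (cell lab s e ∪ (cell lab r d)ᶜ) - en q f (cell lab r d)ᶜ -
        en q f (cell lab s e) + en q f ∅) ≤ ε / 2 * 𝔸 := by
    calc _ ≤ ∑ d ∈ (univ : Finset ι).image (lab r), ε / 2 * (4 ^ r * a) :=
          sum_le_sum fun d _ => hblock d
      _ = ε / 2 * ((((univ : Finset ι).image (lab r)).card : ℝ) * (4 ^ r * a)) := by
          rw [sum_const, nsmul_eq_mul]; ring
      _ ≤ ε / 2 * 𝔸 := mul_le_mul_of_nonneg_left (hcount r hrj) (by positivity)
  -- pointwise inequality
  have hpt : ∀ S : Finset ι, ((if S ⊆ univ then (1 : ℝ) else 0) - (if S ⊆ ∅ then 1 else 0) -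
      ∑ c ∈ (univ : Finset ι).image (lab (m * k * n)),
        ((if S ⊆ cell lab (m * k * n) c then (1 : ℝ) else 0) - (if S ⊆ ∅ then 1 else 0))) ≤
      ((nb lab s S : ℝ) - nb lab r S) + ∑ d ∈ (univ : Finset ι).image (lab r),
        ∑ e ∈ (cell lab r d).image (lab s),
        ((if S ⊆ cell lab s e ∪ (cell lab r d)ᶜ then 1 else 0) -
          (if S ⊆ (cell lab r d)ᶜ then 1 else 0) - (if S ⊆ cell lab s e then 1 else 0) +
            (if S ⊆ ∅ then 1 else 0)) := by
    intro S
    have hsum_le : ∑ d ∈ (univ : Finset ι).image (lab r), ∑ e ∈ (cell lab r d).image (lab s),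
        (if (S ∩ cell lab r d ⊆ cell lab s e ∧ (S ∩ cell lab s e).Nonempty ∧
          ¬ S ⊆ cell lab s e) then (1 : ℝ) else 0) ≤ ∑ d ∈ (univ : Finset ι).image (lab r),
        ∑ e ∈ (cell lab r d).image (lab s),
        ((if S ⊆ cell lab s e ∪ (cell lab r d)ᶜ then 1 else 0) -
          (if S ⊆ (cell lab r d)ᶜ then 1 else 0) - (if S ⊆ cell lab s e then 1 else 0) +
            (if S ⊆ ∅ then 1 else 0)) := by
      refine sum_le_sum fun d _ => sum_le_sum fun e he => if_interaction S _ _ ?_
      intro x hx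
      obtain ⟨y, hy, hye⟩ := mem_image.1 he
      rw [mem_cell] at hx hy ⊢
      rw [← hy]
      exact hnest.le hsr hrj (hx.trans hye.symm)
    have hnn : (0 : ℝ) ≤ ∑ d ∈ (univ : Finset ι).image (lab r),
        ∑ e ∈ (cell lab r d).image (lab s),
        (if (S ∩ cell lab r d ⊆ cell lab s e ∧ (S ∩ cell lab s e).Nonempty ∧
          ¬ S ⊆ cell lab s e) then (1 : ℝ) else 0) := by
      refine sum_nonneg fun d _ => sum_nonneg fun e _ => ?_
      split_ifs <;> norm_num
    have hmono : (nb lab r S : ℝ) ≤ nb lab s S := by exact_mod_cast nb_anti hnest hsr hrj S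
    have hcn : 0 ≤ ∑ c ∈ (univ : Finset ι).image (lab (m * k * n)),
        ((if S ⊆ cell lab (m * k * n) c then (1 : ℝ) else 0) - (if S ⊆ ∅ then 1 else 0)) := by
      refine sum_nonneg fun c _ => ?_
      by_cases h : S ⊆ ∅
      · rw [if_pos h, if_pos (h.trans (empty_subset _)), sub_self]
      · rw [if_neg h]
        split_ifs <;> norm_num
    rcases Nat.lt_or_ge (nb lab (m * k * n) S) 2 with hlt | hge
    · refine le_trans ?_ (add_nonneg (sub_nonneg.2 hmono) (hnn.trans hsum_le))
      rcases S.eq_empty_or_nonempty with h | ⟨x, hx⟩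
      · subst h
        simp
      · have h2 : S ⊆ cell lab (m * k * n) (lab (m * k * n) x) := by
          intro y hy
          rw [mem_cell]
          have h3 : (S.image (lab (m * k * n))).card ≤ 1 := by
            unfold nb at hlt
            omega
          exact card_le_one.1 h3 _ (mem_image_of_mem _ hy) _ (mem_image_of_mem _ hx)
        have h4 : ¬ S ⊆ ∅ := fun h => by
          have := h hx
          simp at this
        have h5 : (if S ⊆ cell lab (m * k * n) (lab (m * k * n) x) then (1 : ℝ) else 0) -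
            (if S ⊆ ∅ then 1 else 0) ≤ ∑ c ∈ (univ : Finset ι).image (lab (m * k * n)),
          ((if S ⊆ cell lab (m * k * n) c then (1 : ℝ) else 0) - (if S ⊆ ∅ then 1 else 0)) := by
          refine single_le_sum (f := fun c =>
            ((if S ⊆ cell lab (m * k * n) c then (1 : ℝ) else 0) - (if S ⊆ ∅ then 1 else 0)))
            (fun c _ => ?_) (mem_image_of_mem _ (mem_univ x))
          rw [if_neg h4]
          split_ifs <;> norm_num
        rw [if_pos h2] at h5
        rw [if_pos (subset_univ S)]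
        linarith
    · have h2 : 2 ≤ nb lab r S := hge.trans (nb_anti hnest hrj le_rfl S)
      have h3 := key_ind hnest hsr hrj S h2
      have h4 : (0 : ℝ) ≤ (if S ⊆ ∅ then 1 else 0) := by split_ifs <;> norm_num
      rw [if_pos (subset_univ S)]
      linarith
  -- conclusion
  have hfin : en q f univ - en q f ∅ - ∑ c ∈ (univ : Finset ι).image (lab (m * k * n)),
        (en q f (cell lab (m * k * n) c) - en q f ∅) ≤ (I s - I r) +
      ∑ d ∈ (univ : Finset ι).image (lab r), ∑ e ∈ (cell lab r d).image (lab s),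
      (en q f (cell lab s e ∪ (cell lab r d)ᶜ) - en q f (cell lab r d)ᶜ -
        en q f (cell lab s e) + en q f ∅) := by
    have e1 : en q f univ - en q f ∅ - ∑ c ∈ (univ : Finset ι).image (lab (m * k * n)),
        (en q f (cell lab (m * k * n) c) - en q f ∅) = ∑ S : Finset ι, w S *
        ((if S ⊆ univ then (1 : ℝ) else 0) - (if S ⊆ ∅ then 1 else 0) -
      ∑ c ∈ (univ : Finset ι).image (lab (m * k * n)),
        ((if S ⊆ cell lab (m * k * n) c then (1 : ℝ) else 0) - (if S ⊆ ∅ then 1 else 0))) := by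
      simp only [hen, mul_sub, mul_sum, sum_sub_distrib]
      rw [sum_comm]
      congr 2
      rw [sum_comm]
    have e2 : (I s - I r) +
      ∑ d ∈ (univ : Finset ι).image (lab r), ∑ e ∈ (cell lab r d).image (lab s),
      (en q f (cell lab s e ∪ (cell lab r d)ᶜ) - en q f (cell lab r d)ᶜ -
        en q f (cell lab s e) + en q f ∅) = ∑ S : Finset ι, w S *
        (((nb lab s S : ℝ) - nb lab r S) + ∑ d ∈ (univ : Finset ι).image (lab r),
        ∑ e ∈ (cell lab r d).image (lab s),
        ((if S ⊆ cell lab s e ∪ (cell lab r d)ᶜ then 1 else 0) -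
          (if S ⊆ (cell lab r d)ᶜ then 1 else 0) - (if S ⊆ cell lab s e then 1 else 0) +
            (if S ⊆ ∅ then 1 else 0))) := by
      simp only [hI]
      rw [← sum_sub_distrib]
      rw [sum_congr rfl fun (S : Finset ι) _ => mul_add (w S) ((nb lab s S : ℝ) - nb lab r S) _]
      rw [sum_add_distrib]
      congr 1
      · refine sum_congr rfl fun S _ => ?_
        ring
      · have e3 : ∀ d e, en q f (cell lab s e ∪ (cell lab r d)ᶜ) - en q f (cell lab r d)ᶜ -
            en q f (cell lab s e) + en q f ∅ = ∑ S : Finset ι, w S *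
            ((if S ⊆ cell lab s e ∪ (cell lab r d)ᶜ then 1 else 0) -
          (if S ⊆ (cell lab r d)ᶜ then 1 else 0) - (if S ⊆ cell lab s e then 1 else 0) +
            (if S ⊆ ∅ then 1 else 0)) := by
          intro d e
          rw [hen, hen, hen, hen, ← sum_sub_distrib, ← sum_sub_distrib, ← sum_add_distrib]
          refine sum_congr rfl fun S _ => ?_
          ring
        have e4 : ∀ S : Finset ι, w S * ∑ d ∈ (univ : Finset ι).image (lab r),
            ∑ e ∈ (cell lab r d).image (lab s),
            ((if S ⊆ cell lab s e ∪ (cell lab r d)ᶜ then (1 : ℝ) else 0) -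
          (if S ⊆ (cell lab r d)ᶜ then 1 else 0) - (if S ⊆ cell lab s e then 1 else 0) +
            (if S ⊆ ∅ then 1 else 0)) = ∑ d ∈ (univ : Finset ι).image (lab r),
            ∑ e ∈ (cell lab r d).image (lab s), w S *
            ((if S ⊆ cell lab s e ∪ (cell lab r d)ᶜ then (1 : ℝ) else 0) -
          (if S ⊆ (cell lab r d)ᶜ then 1 else 0) - (if S ⊆ cell lab s e then 1 else 0) +
            (if S ⊆ ∅ then 1 else 0)) := by
          intro S
          rw [mul_sum]
          refine sum_congr rfl fun d _ => ?_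
          rw [mul_sum]
        simp only [e3]
        simp only [e4]
        rw [sum_comm]
        refine sum_congr rfl fun d _ => ?_
        rw [sum_comm]
    rw [e1, e2]
    exact sum_le_sum fun S _ => mul_le_mul_of_nonneg_left (hpt S) (hw0 S)
  linarith

end Pool.Agent.N940.MM
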