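import Pool.Agent.N940.MM.Cfg
import Pool.Agent.N940.MM.ThmA

/-!
# Configurations with given parities: interaction and crude bounds
-/

set_option autoImplicit false
set_option linter.unusedSectionVars false
set_option linter.unusedVariables false

open Filter Topology

namespace Pool.Agent.N940.MM

open Finset

section corr

variable {X U : Type} [Fintype X] [DecidableEq X] [Fintype U] [DecidableEq U]

/-- change the parts with the wrong parity -/
def corr (u₀ : U) (P : X → Bool) (A : X → Finset U) : X → Finset U :=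
  fun x => if par (A x) = P x then A x else if P x then {u₀} else ∅

lemma par_corr (u₀ : U) (P : X → Bool) (A : X → Finset U) (x : X) :
    par (corr u₀ P A x) = P x := by
  unfold corr
  split_ifs with h1 h2
  · exact h1
  · rw [h2]; simp [par]
  · have : P x = false := by simpa using h2
    rw [this]; simp [par]

lemma corr_of_par {u₀ : U} {P : X → Bool} {A : X → Finset U} (h : ∀ x, par (A x) = P x) :
    corr u₀ P A = A := by
  funext x
  simp [corr, h x]

lemma corr_mix (u₀ : U) (P : X → Bool) (c : Finset X) (A Z : X → Finset U) :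
    corr u₀ P (mix c A Z) = mix c (corr u₀ P A) (corr u₀ P Z) := by
  funext x
  unfold corr mix
  by_cases hx : x ∈ c <;> simp [hx]

lemma card_corr_le (u₀ : U) (P : X → Bool) (A : X → Finset U) (x : X) :
    (corr u₀ P A x).card ≤ (A x).card + 1 := by
  unfold corr
  split_ifs
  · omega
  · simp
  · simp

lemma par_iff (B : Finset U) (b : Bool) : par B = b ↔ (Odd B.card ↔ b = true) := by
  unfold par
  cases b <;> simp

lemma evA_of_par {P : X → Bool} (hP : evn P) {A : X → Finset U} (h : ∀ x, par (A x) = P x) :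
    evA A := by
  unfold evA
  rw [Finset.even_sum_iff_even_card_odd]
  unfold evn at hP
  have e : (univ.filter fun i => Odd (A i).card) = univ.filter fun x => P x = true := by
    ext x
    simp only [mem_filter, mem_univ, true_and]
    have := h x
    rw [par_iff] at this
    exact this
  rw [e]
  exact hP

lemma even_add_of_par {B B' : Finset U} (h : par B = par B') : Even (B.card + B'.card) := by
  unfold par at h
  rw [Nat.even_add]
  by_cases h1 : Odd B.card
  · have h2 : Odd B'.card := by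
      have : decide (Odd B'.card) = true := by rw [← h]; simpa using h1
      simpa using this
    constructor
    · intro h3; exact absurd h3 (Nat.not_even_iff_odd.2 h1)
    · intro h3; exact absurd h3 (Nat.not_even_iff_odd.2 h2)
  · have h2 : ¬ Odd B'.card := by
      have : decide (Odd B'.card) = false := by rw [← h]; simpa using h1
      simpa using this
    exact ⟨fun _ => Nat.not_odd_iff_even.1 h2, fun _ => Nat.not_odd_iff_even.1 h1⟩

/-- expectations do not see the correction -/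
lemma Ex_corr {q : ℝ} (hq : Adq U q) (u₀ : U) (P : X → Bool) {E : Type} [AddCommGroup E]
    [Module ℝ E] (f : (X → Finset U) → E) :
    Ex (WP hq P) (fun A => f (corr u₀ P A)) = Ex (WP hq P) f := by
  unfold Ex
  refine sum_congr rfl fun A _ => ?_
  by_cases h : ∀ x, par (A x) = P x
  · show mu (WP hq P) A • f (corr u₀ P A) = _
    rw [corr_of_par h]
  · push Not at h
    obtain ⟨x, hx⟩ := h
    have : mu (WP hq P) A = 0 := by
      unfold mu
      refine prod_eq_zero (mem_univ x) ?_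
      show wb q (P x) (A x) = 0
      unfold wb
      rw [if_neg hx]
    rw [this, zero_smul, zero_smul]

end corr

variable {N L M : ℕ}

lemma even_cnt {c : Finset (Xs N L)} {A B : Xs N L → Finset (Us L M)}
    (h : ∀ x ∈ c, par (A x) = par (B x)) : Even (cnt c A + cnt c B) := by
  unfold cnt
  rw [← sum_add_distrib]
  exact Finset.even_sum _ fun x hx => even_add_of_par (h x hx)

/-- a combination of the matching functional and the number of points -/
noncomputable def gf (N L M : ℕ) (a b : ℝ) (A : Xs N L → Finset (Us L M)) : ℝ :=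
  a * fM (N * L) M (gl N L M A) + b * ((gl N L M A).card : ℝ)

lemma mixed (hmix : S_MIX) (hL : 0 < L) (hM : 0 < M) {P : Xs N L → Bool} (hP : evn P) (t : ℕ)
    (c : ℕ × ℕ) (a b : ℝ) (ha : |a| ≤ 1) (A A' Z Z' : Xs N L → Finset (Us L M))
    (hA : ∀ x, par (A x) = P x) (hA' : ∀ x, par (A' x) = P x) (hZ : ∀ x, par (Z x) = P x)
    (hZ' : ∀ x, par (Z' x) = P x) :
    |gf N L M a b (mix (cell (dl N L) t c) A Z) - gf N L M a b (mix (cell (dl N L) t c) A' Z) -
      gf N L M a b (mix (cell (dl N L) t c) A Z') + gf N L M a b (mix (cell (dl N L) t c) A' Z')| ≤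
      16 * ((L : ℝ) * 2 ^ t) := by
  obtain ⟨K, hK⟩ : ∃ K, K = cell (dl N L) t c := ⟨_, rfl⟩
  rw [← hK]
  have hcard : ∀ B W : Xs N L → Finset (Us L M),
      ((gl N L M (mix K B W)).card : ℝ) = cnt K B + cnt Kᶜ W := by
    intro B W
    rw [card_gl hL hM, ← cnt_add_compl K (mix K B W)]
    have e1 : cnt K (mix K B W) = cnt K B := cnt_congr fun x hx => by simp [mix, hx]
    have e2 : cnt Kᶜ (mix K B W) = cnt Kᶜ W := cnt_congr fun x hx => by
      have : x ∉ K := by simpa using hx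
      simp [mix, this]
    rw [e1, e2]
    push_cast
    rfl
  have hin : ∀ B : Xs N L → Finset (Us L M), ∀ k ∈ gl N L M (rst K B),
      TSP.sp (N * L) 1 M k ∈
        Sq (((L * 2 ^ t : ℕ) : ℝ) * c.1) (((L * 2 ^ t : ℕ) : ℝ) * c.2) ((L * 2 ^ t : ℕ) : ℝ) := by
    intro B k hk
    obtain ⟨x, u, hu, rfl⟩ := mem_gl.1 hk
    rw [sp_mem hL hM]
    by_cases hx : x ∈ K
    · rw [hK] at hx
      exact (mem_cell.1 hx)
    · simp [rst, hx] at hu
  have hout : ∀ B : Xs N L → Finset (Us L M), ∀ k ∈ gl N L M (rst Kᶜ B),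
      TSP.sp (N * L) 1 M k ∉
        Sq (((L * 2 ^ t : ℕ) : ℝ) * c.1) (((L * 2 ^ t : ℕ) : ℝ) * c.2) ((L * 2 ^ t : ℕ) : ℝ) := by
    intro B k hk
    obtain ⟨x, u, hu, rfl⟩ := mem_gl.1 hk
    rw [sp_mem hL hM]
    intro hcon
    have hx : x ∈ K := by rw [hK]; exact mem_cell.2 hcon
    have : x ∉ Kᶜ := by simpa using hx
    simp [rst, this] at hu
  have hs : (0 : ℝ) < ((L * 2 ^ t : ℕ) : ℝ) := by exact_mod_cast Nat.mul_pos hL (by positivity)
  have hev : ∀ B W : Xs N L → Finset (Us L M), (∀ x, par (B x) = P x) → (∀ x, par (W x) = P x) →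
      Even ((gl N L M (rst K B)).card + (gl N L M (rst Kᶜ W)).card) := by
    intro B W hB hW
    have h1 : evA (mix K B W) := evA_of_par hP fun x => by
      unfold mix
      split_ifs
      · exact hB x
      · exact hW x
    rw [card_gl_rst hL hM, card_gl_rst hL hM]
    unfold evA at h1
    have h2 := hcard B W
    rw [card_gl hL hM] at h2
    have h3 : ∑ x, (mix K B W x).card = cnt K B + cnt Kᶜ W := by exact_mod_cast h2
    rwa [h3] at h1
  have hm := hmix (TSP.Ix (N * L) 1 M) (TSP.sp (N * L) 1 M) _ _ _ hs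
    (gl N L M (rst K A)) (gl N L M (rst K A')) (gl N L M (rst Kᶜ Z)) (gl N L M (rst Kᶜ Z'))
    (hin A) (hin A') (hout Z) (hout Z') (hev A Z hA hZ)
    (by rw [card_gl_rst hL hM, card_gl_rst hL hM]
        exact even_cnt fun x _ => by rw [hA, hA'])
    (by rw [card_gl_rst hL hM, card_gl_rst hL hM]
        exact even_cnt fun x _ => by rw [hZ, hZ'])
  rw [← gl_mix, ← gl_mix, ← gl_mix, ← gl_mix] at hm
  have e : gf N L M a b (mix K A Z) - gf N L M a b (mix K A' Z) -
      gf N L M a b (mix K A Z') + gf N L M a b (mix K A' Z') =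
      a * (mt (TSP.sp (N * L) 1 M) (gl N L M (mix K A Z)) -
        mt (TSP.sp (N * L) 1 M) (gl N L M (mix K A' Z)) -
        mt (TSP.sp (N * L) 1 M) (gl N L M (mix K A Z')) +
        mt (TSP.sp (N * L) 1 M) (gl N L M (mix K A' Z'))) := by
    unfold gf fM
    rw [hcard, hcard, hcard, hcard]
    ring
  rw [e, abs_mul]
  have h2 : ((L * 2 ^ t : ℕ) : ℝ) = (L : ℝ) * 2 ^ t := by push_cast; ring
  rw [h2] at hm
  calc |a| * _ ≤ 1 * (16 * ((L : ℝ) * 2 ^ t)) :=
        mul_le_mul ha hm (abs_nonneg _) (by norm_num)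
    _ = _ := one_mul _

/-- crude bound -/
lemma crude (hcr : S_CRUDE) (hL : 0 < L) (hM : 0 < M) (c : Finset (Xs N L)) (D : ℝ)
    (hD : 0 ≤ D) (a b : ℝ) (ha : |a| ≤ 1) (hb : |b| ≤ 1)
    (hdist : ∀ x ∈ c, ∀ y ∈ c, ∀ u v, dist (TSP.sp (N * L) 1 M (em N L M x u))
      (TSP.sp (N * L) 1 M (em N L M y v)) ≤ D)
    (A A' : Xs N L → Finset (Us L M)) (hA : evA A) (hA' : evA A')
    (h : ∀ z, z ∉ c → A z = A' z) :
    |gf N L M a b A - gf N L M a b A'| ≤ (D + 1) * ((cnt c A : ℝ) + cnt c A' + 1) := by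
  have hself : ∀ B : Xs N L → Finset (Us L M), mix c B B = B := by
    intro B; funext x; simp [mix]
  have hA'' : A' = mix c A' A := by
    funext x
    by_cases hx : x ∈ c
    · simp [mix, hx]
    · simp [mix, hx, h x hx]
  have e1 : gl N L M A = gl N L M (rst c A) ∪ gl N L M (rst cᶜ A) := by
    conv_lhs => rw [← hself A]
    exact gl_mix c A A
  have e2 : gl N L M A' = gl N L M (rst c A') ∪ gl N L M (rst cᶜ A) := by
    conv_lhs => rw [hA'']
    exact gl_mix c A' A
  have c1 : (gl N L M A).card = cnt c A + cnt cᶜ A := by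
    rw [card_gl hL hM, cnt_add_compl]
  have c2 : (gl N L M A').card = cnt c A' + cnt cᶜ A := by
    rw [card_gl hL hM, ← cnt_add_compl c A']
    congr 1
    exact cnt_congr fun x hx => (h x (by simpa using hx)).symm
  have ev1 : Even (cnt c A + cnt cᶜ A) := by
    rw [cnt_add_compl]; exact hA
  have ev2 : Even (cnt c A' + cnt cᶜ A) := by
    rw [← c2, card_gl hL hM]; exact hA'
  have hm := hcr (TSP.Ix (N * L) 1 M) (TSP.sp (N * L) 1 M) (gl N L M (rst c A))
    (gl N L M (rst c A')) (gl N L M (rst cᶜ A)) D hD (gl_rst_disjoint hL hM c A A)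
    (gl_rst_disjoint hL hM c A' A) (by
      have hmem : ∀ k ∈ gl N L M (rst c A) ∪ gl N L M (rst c A'), ∃ x ∈ c, ∃ u,
          em N L M x u = k := by
        intro k hk
        rcases mem_union.1 hk with hk | hk
        · obtain ⟨x, u, hu, hk⟩ := mem_gl.1 hk
          refine ⟨x, ?_, u, hk⟩
          by_contra hx
          simp [rst, hx] at hu
        · obtain ⟨x, u, hu, hk⟩ := mem_gl.1 hk
          refine ⟨x, ?_, u, hk⟩
          by_contra hx
          simp [rst, hx] at hu
      intro i hi j hj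
      obtain ⟨x, hx, u, rfl⟩ := hmem i hi
      obtain ⟨y, hy, v, rfl⟩ := hmem j hj
      exact hdist x hx y hy u v)
    (by rw [card_gl_rst hL hM, card_gl_rst hL hM]; exact ev1)
    (by
      rw [card_gl_rst hL hM, card_gl_rst hL hM]
      rw [Nat.even_add] at ev1 ev2 ⊢
      rw [ev1, ev2])
  rw [card_gl_rst hL hM, card_gl_rst hL hM, ← e1, ← e2] at hm
  have e : gf N L M a b A - gf N L M a b A' =
      a * (mt (TSP.sp (N * L) 1 M) (gl N L M A) - mt (TSP.sp (N * L) 1 M) (gl N L M A')) +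
        b * ((cnt c A : ℝ) - cnt c A') := by
    unfold gf fM
    rw [c1, c2]
    push_cast
    ring
  rw [e]
  have n1 : (0 : ℝ) ≤ cnt c A := Nat.cast_nonneg _
  have n2 : (0 : ℝ) ≤ cnt c A' := Nat.cast_nonneg _
  have h5 : |b * ((cnt c A : ℝ) - cnt c A')| ≤ (cnt c A : ℝ) + cnt c A' := by
    rw [abs_mul]
    calc |b| * |(cnt c A : ℝ) - cnt c A'| ≤ 1 * |(cnt c A : ℝ) - cnt c A'| :=
          mul_le_mul_of_nonneg_right hb (abs_nonneg _)
      _ ≤ _ := by
          rw [one_mul, abs_le]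
          constructor <;> linarith
  have h6 : |a * (mt (TSP.sp (N * L) 1 M) (gl N L M A) -
      mt (TSP.sp (N * L) 1 M) (gl N L M A'))| ≤ D * ((cnt c A : ℝ) + cnt c A' + 1) := by
    rw [abs_mul]
    calc |a| * _ ≤ 1 * (D * ((cnt c A : ℝ) + cnt c A' + 1)) :=
          mul_le_mul ha hm (abs_nonneg _) (by norm_num)
      _ = _ := one_mul _
  refine (abs_add_le _ _).trans ?_
  linarith

/-- the rectangle of a strip -/
lemma sp_rect (hL : 0 < L) (hM : 0 < M) (x : Xs N L) (u : Us L M) :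
    (L : ℝ) * (x.1 : ℕ) ≤ (TSP.sp (N * L) 1 M (em N L M x u)).re ∧
    (TSP.sp (N * L) 1 M (em N L M x u)).re ≤ (L : ℝ) * (x.1 : ℕ) + L ∧
    (((x.2 : ℕ) : ℕ) : ℝ) ≤ (TSP.sp (N * L) 1 M (em N L M x u)).im ∧
    (TSP.sp (N * L) 1 M (em N L M x u)).im ≤ ((x.2 : ℕ) : ℝ) + 1 := by
  have hM' : (0 : ℝ) < M := by exact_mod_cast hM
  have h1 : (TSP.sp (N * L) 1 M (em N L M x u)).re =
      (((x.1 : ℕ) * (L * M) + u.1 : ℕ) : ℝ) / M := rfl
  have h2 : (TSP.sp (N * L) 1 M (em N L M x u)).im =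
      (((x.2 : ℕ) * M + u.2 : ℕ) : ℝ) / M := rfl
  have h3 : ((u.1 : ℕ) : ℝ) ≤ L * M := by exact_mod_cast u.1.2.le
  have h4 : ((u.2 : ℕ) : ℝ) ≤ M := by exact_mod_cast u.2.2.le
  have h5 : (0 : ℝ) ≤ ((u.1 : ℕ) : ℝ) := Nat.cast_nonneg _
  have h6 : (0 : ℝ) ≤ ((u.2 : ℕ) : ℝ) := Nat.cast_nonneg _
  rw [h1, h2]
  refine ⟨?_, ?_, ?_, ?_⟩
  · rw [le_div_iff₀ hM']; push_cast; nlinarith
  · rw [div_le_iff₀ hM']; push_cast; nlinarith
  · rw [le_div_iff₀ hM']; push_cast; nlinarith
  · rw [div_le_iff₀ hM']; push_cast; nlinarith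

lemma dist_le_coord (z w : ℂ) : dist z w ≤ |z.re - w.re| + |z.im - w.im| := by
  rw [Complex.dist_eq]
  have := Complex.norm_le_abs_re_add_abs_im (z - w)
  simpa using this

/-- distance in a single strip -/
lemma dist_one (hL : 0 < L) (hM : 0 < M) (x : Xs N L) (u v : Us L M) :
    dist (TSP.sp (N * L) 1 M (em N L M x u)) (TSP.sp (N * L) 1 M (em N L M x v)) ≤ 2 * L := by
  obtain ⟨a1, a2, a3, a4⟩ := sp_rect hL hM x u
  obtain ⟨b1, b2, b3, b4⟩ := sp_rect hL hM x v
  have hL1 : (1 : ℝ) ≤ L := by exact_mod_cast hL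
  refine (dist_le_coord _ _).trans ?_
  have h1 : |(TSP.sp (N * L) 1 M (em N L M x u)).re -
      (TSP.sp (N * L) 1 M (em N L M x v)).re| ≤ L := by
    rw [abs_le]; constructor <;> linarith
  have h2 : |(TSP.sp (N * L) 1 M (em N L M x u)).im -
      (TSP.sp (N * L) 1 M (em N L M x v)).im| ≤ 1 := by
    rw [abs_le]; constructor <;> linarith
  linarith

/-- distance in a dyadic square -/
lemma dist_cell (hL : 0 < L) (hM : 0 < M) (t : ℕ) (c : ℕ × ℕ) {x y : Xs N L}
    (hx : x ∈ cell (dl N L) t c) (hy : y ∈ cell (dl N L) t c) (u v : Us L M) :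
    dist (TSP.sp (N * L) 1 M (em N L M x u)) (TSP.sp (N * L) 1 M (em N L M y v)) ≤
      2 * (L * 2 ^ t) := by
  have h1 := (sp_mem hL hM t x u c).2 (mem_cell.1 hx)
  have h2 := (sp_mem hL hM t y v c).2 (mem_cell.1 hy)
  obtain ⟨a1, a2, a3, a4⟩ := h1
  obtain ⟨b1, b2, b3, b4⟩ := h2
  have e : ((L * 2 ^ t : ℕ) : ℝ) = (L : ℝ) * 2 ^ t := by push_cast; ring
  rw [e] at a1 a2 a3 a4 b1 b2 b3 b4
  refine (dist_le_coord _ _).trans ?_
  have h3 : |(TSP.sp (N * L) 1 M (em N L M x u)).re -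
      (TSP.sp (N * L) 1 M (em N L M y v)).re| ≤ L * 2 ^ t := by
    rw [abs_le]; constructor <;> linarith
  have h4 : |(TSP.sp (N * L) 1 M (em N L M x u)).im -
      (TSP.sp (N * L) 1 M (em N L M y v)).im| ≤ L * 2 ^ t := by
    rw [abs_le]; constructor <;> linarith
  linarith

end Pool.Agent.N940.MM
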