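import Pool.Agent.N940.MM.Cond1

/-!
# The normal approximation given the parities
-/

set_option autoImplicit false
set_option linter.unusedSectionVars false
set_option linter.unusedVariables false

open Filter Topology

namespace Pool.Agent.N940.MM

open Finset

variable {N L M : ℕ}

/-- bound for the number of strips in a dyadic square -/
def wd (L t : ℕ) : ℕ := 2 ^ t * (L * 2 ^ t)

/-- bound for the third moments -/
def m3 (L : ℕ) : ℝ := 4 * (4 * (L : ℝ) + 2) ^ 3

/-- the constant of the crude bound in a dyadic square -/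
def Dc (L t : ℕ) : ℝ := 2 * ((L : ℝ) * 2 ^ t) + 1

/-- bound for the block contributions -/
noncomputable def Kc (L t : ℕ) : ℝ :=
  Dc L t ^ 3 * (4 * (((wd L t : ℝ)) ^ 3 * m3 L + ((wd L t : ℝ) * (m3 L + 2) + 1) ^ 3))

lemma m3_pos (L : ℕ) : 0 ≤ m3 L := by unfold m3; positivity
lemma Dc_pos (L t : ℕ) : 1 ≤ Dc L t := by
  unfold Dc
  have : (0 : ℝ) ≤ (L : ℝ) * 2 ^ t := by positivity
  linarith
lemma Kc_nonneg (L t : ℕ) : 0 ≤ Kc L t := by
  have h1 := m3_pos L
  have h2 := Dc_pos L t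
  unfold Kc
  positivity

/-- hypotheses on the parameters -/
structure Par (N L M : ℕ) (q : ℝ) (hq : Adq (Us L M) q) : Prop where
  hN : 0 < N
  hL : 0 < L
  hM : 0 < M
  hpr : ∀ b, 1 / 4 ≤ pr (Us L M) q b
  hlam : q * (Fintype.card (Us L M) : ℝ) ≤ 4 * L

section

variable {q : ℝ} {hq : Adq (Us L M) q}

lemma mom_le (hp : Par N L M q hq) (P : Xs N L → Bool) (x : Xs N L) :
    Ex (WP hq P) (fun A => ((A x).card : ℝ) ^ 3) ≤ m3 L := by
  refine (mom3 hq hp.hpr P x).trans ?_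
  unfold m3
  have h0 : 0 ≤ q * (Fintype.card (Us L M) : ℝ) := mul_nonneg hq.h0 (Nat.cast_nonneg _)
  have := hp.hlam
  refine mul_le_mul_of_nonneg_left ?_ (by norm_num)
  exact pow_le_pow_left₀ (by linarith) (by linarith) 3

lemma mom1_le (hp : Par N L M q hq) (P : Xs N L → Bool) (x : Xs N L) :
    Ex (WP hq P) (fun A => ((A x).card : ℝ)) ≤ m3 L :=
  (Ex_mono fun A => nat_pow_le _).trans (mom_le hp P x)

lemma Ex_cnt (hp : Par N L M q hq) (P : Xs N L → Bool) (c : Finset (Xs N L)) :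
    Ex (WP hq P) (fun A => (cnt c A : ℝ)) ≤ c.card * m3 L := by
  have e : (fun A : Xs N L → Finset (Us L M) => (cnt c A : ℝ)) =
      fun A => ∑ x ∈ c, ((A x).card : ℝ) := by
    funext A; unfold cnt; push_cast; rfl
  rw [e, Ex_sum, ← nsmul_eq_mul, ← sum_const]
  exact sum_le_sum fun x _ => mom1_le hp P x

lemma Ex_cnt3 (hp : Par N L M q hq) (P : Xs N L → Bool) (c : Finset (Xs N L)) :
    Ex (WP hq P) (fun A => (cnt c A : ℝ) ^ 3) ≤ (c.card : ℝ) ^ 3 * m3 L := by
  rcases c.eq_empty_or_nonempty with rfl | hc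
  · have : (fun A : Xs N L → Finset (Us L M) => (cnt ∅ A : ℝ) ^ 3) = fun _ => (0 : ℝ) := by
      funext A; simp [cnt]
    rw [this, Ex_const]
    simp
  have hc0 : (0 : ℝ) < c.card := by exact_mod_cast hc.card_pos
  have h1 : ∀ A : Xs N L → Finset (Us L M), (cnt c A : ℝ) ^ 3 ≤
      (c.card : ℝ) ^ 2 * ∑ x ∈ c, ((A x).card : ℝ) ^ 3 := by
    intro A
    have := pow_sum_div_card_le_sum_pow (s := c) (f := fun x => ((A x).card : ℝ))
      (fun i _ => Nat.cast_nonneg _) 2
    rw [div_le_iff₀ (by positivity)] at this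
    unfold cnt
    push_cast
    calc _ ≤ _ := this
      _ = _ := by ring
  refine (Ex_mono h1).trans ?_
  rw [Ex_mul_left, Ex_sum]
  have h2 : ∑ x ∈ c, Ex (WP hq P) (fun A => ((A x).card : ℝ) ^ 3) ≤ c.card * m3 L := by
    rw [← nsmul_eq_mul, ← sum_const]
    exact sum_le_sum fun x _ => mom_le hp P x
  calc (c.card : ℝ) ^ 2 * _ ≤ (c.card : ℝ) ^ 2 * (c.card * m3 L) :=
        mul_le_mul_of_nonneg_left h2 (by positivity)
    _ = _ := by ring

lemma cell_card (hL : 0 < L) (t : ℕ) (c : ℕ × ℕ) : (cell (dl N L) t c).card ≤ wd L t := by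
  have hs : 0 < L * 2 ^ t := Nat.mul_pos hL (by positivity)
  have ht : 0 < 2 ^ t := by positivity
  have e0 : wd L t = (range (2 ^ t) ×ˢ range (L * 2 ^ t)).card := by
    rw [card_product, card_range, card_range, wd]
  rw [e0]
  refine card_le_card_of_injOn (fun x => ((x.1 : ℕ) % 2 ^ t, (x.2 : ℕ) % (L * 2 ^ t))) ?_ ?_
  · intro k _
    simp only [coe_product, coe_range, Set.mem_prod, Set.mem_Iio]
    exact ⟨Nat.mod_lt _ ht, Nat.mod_lt _ hs⟩
  · intro k hk l hl hkl
    have hk' := mem_cell.1 (mem_coe.1 hk)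
    have hl' := mem_cell.1 (mem_coe.1 hl)
    unfold dl at hk' hl'
    simp only [Prod.mk.injEq] at hkl
    have h1 : (k.1 : ℕ) / 2 ^ t = (l.1 : ℕ) / 2 ^ t :=
      (congrArg Prod.fst hk').trans (congrArg Prod.fst hl').symm
    have h2 : (k.2 : ℕ) / (L * 2 ^ t) = (l.2 : ℕ) / (L * 2 ^ t) :=
      (congrArg Prod.snd hk').trans (congrArg Prod.snd hl').symm
    have h3 : (k.1 : ℕ) = l.1 := by
      rw [← Nat.div_add_mod (k.1 : ℕ) (2 ^ t), ← Nat.div_add_mod (l.1 : ℕ) (2 ^ t), h1, hkl.1]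
    have h4 : (k.2 : ℕ) = l.2 := by
      rw [← Nat.div_add_mod (k.2 : ℕ) (L * 2 ^ t), ← Nat.div_add_mod (l.2 : ℕ) (L * 2 ^ t),
        h2, hkl.2]
    exact Prod.ext (Fin.ext h3) (Fin.ext h4)

lemma dl_ch (t : ℕ) (c : ℕ × ℕ) : ((ch (dl N L) t c).card : ℝ) ≤ 4 := by
  have h : ch (dl N L) t c ⊆ ({2 * c.1, 2 * c.1 + 1} : Finset ℕ) ×ˢ
      ({2 * c.2, 2 * c.2 + 1} : Finset ℕ) := by
    intro d hd
    unfold ch at hd
    obtain ⟨x, hx, rfl⟩ := mem_image.1 hd
    rw [mem_cell, dl_succ] at hx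
    have h1 : (dl N L t x).1 / 2 = c.1 := congrArg Prod.fst hx
    have h2 : (dl N L t x).2 / 2 = c.2 := congrArg Prod.snd hx
    simp only [mem_product, mem_insert, mem_singleton]
    omega
  have h2 := card_le_card h
  rw [card_product] at h2
  have h3 : ({2 * c.1, 2 * c.1 + 1} : Finset ℕ).card ≤ 2 := card_le_two
  have h4 : ({2 * c.2, 2 * c.2 + 1} : Finset ℕ).card ≤ 2 := card_le_two
  have h5 : (ch (dl N L) t c).card ≤ 4 := h2.trans (by nlinarith)
  exact_mod_cast h5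

lemma dl_count (hL : 0 < L) (t : ℕ) (ht : 2 ^ t ∣ N) :
    (((univ : Finset (Xs N L)).image (dl N L t)).card : ℝ) * (4 ^ t * (L : ℝ) ^ 2) ≤
      ((N : ℝ) * L) ^ 2 := by
  obtain ⟨p, hp⟩ := ht
  have h : (univ : Finset (Xs N L)).image (dl N L t) ⊆ range p ×ˢ range p := by
    intro d hd
    obtain ⟨x, _, rfl⟩ := mem_image.1 hd
    unfold dl
    simp only [mem_product, mem_range]
    have h2t : 0 < 2 ^ t := by positivity
    have hpos : 0 < L * 2 ^ t := by positivity
    constructor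
    · rw [Nat.div_lt_iff_lt_mul h2t]
      have := x.1.2
      calc (x.1 : ℕ) < N := this
        _ = p * 2 ^ t := by rw [hp]; ring
    · rw [Nat.div_lt_iff_lt_mul hpos]
      calc (x.2 : ℕ) < N * L := x.2.2
        _ = p * (L * 2 ^ t) := by rw [hp]; ring
  have h2 := card_le_card h
  rw [card_product, card_range] at h2
  have h3 : (((univ : Finset (Xs N L)).image (dl N L t)).card : ℝ) ≤ (p : ℝ) * p := by
    exact_mod_cast h2
  have h4 : (N : ℝ) = 2 ^ t * p := by rw [hp]; push_cast; ring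
  have h5 : (0 : ℝ) ≤ 4 ^ t * (L : ℝ) ^ 2 := by positivity
  calc _ ≤ ((p : ℝ) * p) * (4 ^ t * (L : ℝ) ^ 2) := mul_le_mul_of_nonneg_right h3 h5
    _ = ((N : ℝ) * L) ^ 2 := by
        rw [h4]
        have : (4 : ℝ) ^ t = 2 ^ t * 2 ^ t := by rw [← mul_pow]; norm_num
        rw [this]; ring

/-- the functional for configurations with corrected parities -/
noncomputable def gP (a b : ℝ) (u₀ : Us L M) (P : Xs N L → Bool)
    (A : Xs N L → Finset (Us L M)) : ℝ := gf N L M a b (corr u₀ P A)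

lemma cnt_corr_le (c : Finset (Xs N L)) (u₀ : Us L M) (P : Xs N L → Bool)
    (A : Xs N L → Finset (Us L M)) : (cnt c (corr u₀ P A) : ℝ) ≤ cnt c A + c.card := by
  unfold cnt
  push_cast
  rw [← nsmul_one (c.card : ℕ), ← sum_const, ← sum_add_distrib]
  refine sum_le_sum fun x _ => ?_
  exact_mod_cast card_corr_le u₀ P A x

/-- resampling outside a cell -/
lemma Av_bound (hcr : S_CRUDE) (hp : Par N L M q hq) {P : Xs N L → Bool} (hP : evn P)
    (u₀ : Us L M) (a b : ℝ) (ha : |a| ≤ 1) (hb : |b| ≤ 1) (t : ℕ) (c : ℕ × ℕ)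
    (A : Xs N L → Finset (Us L M)) :
    |Av (WP hq P) (cell (dl N L) t c) (gP a b u₀ P) A - Ex (WP hq P) (gP a b u₀ P)| ≤
      Dc L t * ((cnt (cell (dl N L) t c) A : ℝ) + ((wd L t : ℝ) * (m3 L + 2) + 1)) := by
  set K := cell (dl N L) t c with hK
  have hKc : (K.card : ℝ) ≤ wd L t := by exact_mod_cast cell_card hp.hL t c
  have h1 : Av (WP hq P) K (gP a b u₀ P) A - Ex (WP hq P) (gP a b u₀ P) =
      Ex (WP hq P) (fun B => gP a b u₀ P (mix K A B) - gP a b u₀ P B) := by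
    rw [Ex_sub]; rfl
  rw [h1]
  refine (Ex_abs_le _).trans ?_
  have h2 : ∀ B : Xs N L → Finset (Us L M),
      |gP a b u₀ P (mix K A B) - gP a b u₀ P B| ≤
        Dc L t * ((cnt K A : ℝ) + (cnt K B + (2 * wd L t + 1))) := by
    intro B
    have h3 := crude hcr hp.hL hp.hM K (2 * ((L : ℝ) * 2 ^ t)) (by positivity) a b ha hb
      (fun x hx y hy u v => dist_cell hp.hL hp.hM t c hx hy u v)
      (corr u₀ P (mix K A B)) (corr u₀ P B) (evA_of_par hP (par_corr u₀ P _))
      (evA_of_par hP (par_corr u₀ P _)) (by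
        intro z hz
        rw [corr_mix]
        simp [mix, hz])
    refine h3.trans ?_
    have h4 : cnt K (corr u₀ P (mix K A B)) = cnt K (corr u₀ P A) := by
      refine cnt_congr fun x hx => ?_
      rw [corr_mix]
      simp [mix, hx]
    rw [h4]
    have h5 := cnt_corr_le K u₀ P A
    have h6 := cnt_corr_le K u₀ P B
    have h7 := Dc_pos L t
    unfold Dc at h7 ⊢
    refine mul_le_mul_of_nonneg_left ?_ (by linarith)
    linarith
  refine (Ex_mono h2).trans ?_
  rw [Ex_mul_left, Ex_add, Ex_add, Ex_const, Ex_const]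
  have h8 := Ex_cnt hp P K
  have h9 := Dc_pos L t
  refine mul_le_mul_of_nonneg_left ?_ (by linarith)
  have h10 : (K.card : ℝ) * m3 L ≤ wd L t * m3 L := mul_le_mul_of_nonneg_right hKc (m3_pos L)
  have h11 : Ex (WP hq P) (fun A => (cnt K A : ℝ)) ≤ wd L t * m3 L := h8.trans h10
  linarith

/-- moments of the block averages -/
lemma block_mom (hcr : S_CRUDE) (hp : Par N L M q hq) {P : Xs N L → Bool} (hP : evn P)
    (u₀ : Us L M) (a b : ℝ) (ha : |a| ≤ 1) (hb : |b| ≤ 1) (t : ℕ) (c : ℕ × ℕ) :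
    Ex (WP hq P) (fun A => |Av (WP hq P) (cell (dl N L) t c) (gP a b u₀ P) A -
      Ex (WP hq P) (gP a b u₀ P)| ^ 3) ≤ Kc L t ∧
    Ex (WP hq P) (fun A => (Av (WP hq P) (cell (dl N L) t c) (gP a b u₀ P) A -
      Ex (WP hq P) (gP a b u₀ P)) ^ 2) ≤ Kc L t := by
  set K := cell (dl N L) t c with hK
  have hKc : (K.card : ℝ) ≤ wd L t := by exact_mod_cast cell_card hp.hL t c
  set W : ℝ := (wd L t : ℝ) * (m3 L + 2) + 1 with hW
  have hm := m3_pos L
  have hW1 : 1 ≤ W := by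
    have : (0 : ℝ) ≤ (wd L t : ℝ) * (m3 L + 2) := by positivity
    rw [hW]; linarith
  have hD := Dc_pos L t
  have h1 := Av_bound hcr hp hP u₀ a b ha hb t c
  have hcub : Ex (WP hq P) (fun A => (Dc L t * ((cnt K A : ℝ) + W)) ^ 3) ≤ Kc L t := by
    have e : ∀ A : Xs N L → Finset (Us L M), (Dc L t * ((cnt K A : ℝ) + W)) ^ 3 ≤
        Dc L t ^ 3 * (4 * ((cnt K A : ℝ) ^ 3 + W ^ 3)) := by
      intro A
      rw [mul_pow]
      exact mul_le_mul_of_nonneg_left (cube_le (Nat.cast_nonneg _) (by linarith)) (by positivity)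
    refine (Ex_mono e).trans ?_
    rw [Ex_mul_left, Ex_mul_left, Ex_add, Ex_const]
    unfold Kc
    refine mul_le_mul_of_nonneg_left ?_ (by positivity)
    refine mul_le_mul_of_nonneg_left ?_ (by norm_num)
    refine add_le_add ?_ le_rfl
    refine (Ex_cnt3 hp P K).trans ?_
    refine mul_le_mul_of_nonneg_right ?_ hm
    exact pow_le_pow_left₀ (Nat.cast_nonneg _) hKc 3
  constructor
  · refine le_trans (Ex_mono fun A => ?_) hcub
    exact pow_le_pow_left₀ (abs_nonneg _) (h1 A) 3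
  · refine le_trans (Ex_mono fun A => ?_) hcub
    have h2 := h1 A
    have h3 : (1 : ℝ) ≤ Dc L t * ((cnt K A : ℝ) + W) := by
      have : (0 : ℝ) ≤ cnt K A := Nat.cast_nonneg _
      nlinarith
    rw [← sq_abs]
    calc |Av (WP hq P) K (gP a b u₀ P) A - Ex (WP hq P) (gP a b u₀ P)| ^ 2
        ≤ (Dc L t * ((cnt K A : ℝ) + W)) ^ 2 := pow_le_pow_left₀ (abs_nonneg _) h2 2
      _ ≤ (Dc L t * ((cnt K A : ℝ) + W)) ^ 3 := pow_le_pow_right₀ h3 (by norm_num)

/-- bound for the energies of the strips -/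
noncomputable def Ks (L : ℕ) : ℝ := (2 * (L : ℝ) + 1) ^ 2 * (4 * (m3 L + 27))

lemma Ks_pos (L : ℕ) : 0 < Ks L := by
  have := m3_pos L
  unfold Ks; positivity

lemma sites (hcr : S_CRUDE) (hp : Par N L M q hq) {P : Xs N L → Bool} (hP : evn P)
    (u₀ : Us L M) (a b : ℝ) (ha : |a| ≤ 1) (hb : |b| ≤ 1) :
    ∑ x : Xs N L, (en (WP hq P) (gP a b u₀ P) univ - en (WP hq P) (gP a b u₀ P) {x}ᶜ) ≤
      Ks L * ((N : ℝ) * L) ^ 2 := by
  have h1 : ∀ x : Xs N L, en (WP hq P) (gP a b u₀ P) univ -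
      en (WP hq P) (gP a b u₀ P) {x}ᶜ ≤ Ks L := by
    intro x
    set h : (Xs N L → Finset (Us L M)) → ℝ :=
      fun A => gP a b u₀ P (mix {x}ᶜ A (fun _ => ∅)) with hh
    have hdep : Dep ({x}ᶜ : Finset (Xs N L)) h := by
      intro A B hAB
      simp only [hh]
      rw [mix_congr hAB]
    refine (site_le (gP a b u₀ P) h x hdep).trans ?_
    have h2 : ∀ A : Xs N L → Finset (Us L M), (gP a b u₀ P A - h A) ^ 2 ≤
        (2 * (L : ℝ) + 1) ^ 2 * (4 * (((A x).card : ℝ) ^ 3 + 27)) := by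
      intro A
      have h3 := crude hcr hp.hL hp.hM {x} (2 * (L : ℝ)) (by positivity) a b ha hb
        (fun y hy z hz u v => by
          rw [mem_singleton] at hy hz
          subst hy; subst hz
          exact dist_one hp.hL hp.hM _ u v)
        (corr u₀ P A) (corr u₀ P (mix {x}ᶜ A (fun _ => ∅))) (evA_of_par hP (par_corr u₀ P _))
        (evA_of_par hP (par_corr u₀ P _)) (by
          intro z hz
          rw [mem_singleton] at hz
          unfold corr mix
          simp [hz])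
      have h4 : (cnt {x} (corr u₀ P A) : ℝ) ≤ (A x).card + 1 := by
        unfold cnt
        rw [sum_singleton]
        exact_mod_cast card_corr_le u₀ P A x
      have h5 : (cnt {x} (corr u₀ P (mix {x}ᶜ A (fun _ => ∅))) : ℝ) ≤ 1 := by
        unfold cnt
        rw [sum_singleton]
        have := card_corr_le u₀ P (mix {x}ᶜ A (fun _ => ∅)) x
        have e : mix {x}ᶜ A (fun _ => (∅ : Finset (Us L M))) x = ∅ := by simp [mix]
        rw [e, card_empty] at this
        exact_mod_cast this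
      have h6 : |gP a b u₀ P A - h A| ≤ (2 * (L : ℝ) + 1) * (((A x).card : ℝ) + 3) := by
        refine h3.trans ?_
        refine mul_le_mul_of_nonneg_left ?_ (by positivity)
        linarith
      have h7 : (1 : ℝ) ≤ ((A x).card : ℝ) + 3 := by
        have : (0 : ℝ) ≤ ((A x).card : ℝ) := Nat.cast_nonneg _
        linarith
      rw [← sq_abs]
      calc |gP a b u₀ P A - h A| ^ 2 ≤ ((2 * (L : ℝ) + 1) * (((A x).card : ℝ) + 3)) ^ 2 :=
            pow_le_pow_left₀ (abs_nonneg _) h6 2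
        _ = (2 * (L : ℝ) + 1) ^ 2 * (((A x).card : ℝ) + 3) ^ 2 := by ring
        _ ≤ (2 * (L : ℝ) + 1) ^ 2 * (((A x).card : ℝ) + 3) ^ 3 :=
            mul_le_mul_of_nonneg_left (pow_le_pow_right₀ h7 (by norm_num)) (by positivity)
        _ ≤ _ := by
            refine mul_le_mul_of_nonneg_left ?_ (by positivity)
            have := cube_le (x := ((A x).card : ℝ)) (y := 3) (Nat.cast_nonneg _) (by norm_num)
            linarith
    refine (Ex_mono h2).trans ?_
    rw [Ex_mul_left, Ex_mul_left, Ex_add, Ex_const]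
    unfold Ks
    refine mul_le_mul_of_nonneg_left ?_ (by positivity)
    have := mom_le hp P x
    linarith
  refine (sum_le_sum fun x _ => h1 x).trans ?_
  rw [sum_const, nsmul_eq_mul, mul_comm]
  refine mul_le_mul_of_nonneg_left ?_ (Ks_pos L).le
  rw [card_univ, Fintype.card_prod, Fintype.card_fin, Fintype.card_fin]
  push_cast
  have hL1 : (1 : ℝ) ≤ L := by exact_mod_cast hp.hL
  have hN0 : (0 : ℝ) ≤ N := Nat.cast_nonneg _
  nlinarith [mul_nonneg hN0 hN0, mul_nonneg (mul_nonneg hN0 hN0) (by linarith : (0 : ℝ) ≤ L)]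

end

end Pool.Agent.N940.MM
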