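import Pool.Agent.N940.MM.Cfg2
import Pool.Agent.N940.MM.Abs
import Pool.Agent.N940.TSP.Abs

/-!
# Tools for the normal approximation given the parities
-/

set_option autoImplicit false
set_option linter.unusedSectionVars false
set_option linter.unusedVariables false

open Filter Topology

namespace Pool.Agent.N940.MM

open Finset

section abs

variable {ι Ω : Type} [Fintype ι] [DecidableEq ι] [Fintype Ω]

lemma Vr_eq (q : Wt ι Ω) (f : (ι → Ω) → ℝ) : Vr q f = en q f univ - en q f ∅ := by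
  have h := en_sub (q := q) f (empty_subset univ)
  rw [← h]
  unfold Vr
  congr 1
  funext A
  rw [Av_univ, Av_empty]

lemma sites_eq {q : Wt ι Ω} {f : (ι → Ω) → ℝ} {w : Finset ι → ℝ}
    (hw : ∀ U, en q f U = ∑ S ∈ U.powerset, w S) :
    ∑ x : ι, (en q f univ - en q f {x}ᶜ) = ∑ S : Finset ι, w S * (S.card : ℝ) := by
  have hen := en_eq_sum hw
  have e2 : ∀ x : ι, en q f univ - en q f {x}ᶜ =
      ∑ S : Finset ι, w S * (if x ∈ S then 1 else 0) := by
    intro x
    rw [hen, hen, ← sum_sub_distrib]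
    refine sum_congr rfl fun S _ => ?_
    rw [← mul_sub]
    congr 1
    by_cases hx : x ∈ S
    · have : ¬ S ⊆ {x}ᶜ := fun h => by
        have := h hx
        simp at this
      rw [if_pos (subset_univ S), if_neg this, if_pos hx, sub_zero]
    · have : S ⊆ {x}ᶜ := fun y hy => by
        rw [mem_compl, mem_singleton]
        rintro rfl
        exact hx hy
      rw [if_pos (subset_univ S), if_pos this, if_neg hx, sub_self]
  simp only [e2]
  rw [sum_comm]
  refine sum_congr rfl fun S _ => ?_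
  rw [← mul_sum]
  congr 1
  simp

lemma Vr_le_of_sites {q : Wt ι Ω} (f : (ι → Ω) → ℝ) (C : ℝ)
    (h : ∑ x : ι, (en q f univ - en q f {x}ᶜ) ≤ C) : Vr q f ≤ C := by
  obtain ⟨w, hw0, hw⟩ := hoef (q := q) f
  have hen := en_eq_sum hw
  refine le_trans ?_ h
  rw [sites_eq hw, Vr_eq, hen, hen, ← sum_sub_distrib]
  refine sum_le_sum fun S _ => ?_
  rw [← mul_sub]
  refine mul_le_mul_of_nonneg_left ?_ (hw0 S)
  rw [if_pos (subset_univ S)]
  rcases S.eq_empty_or_nonempty with rfl | hS
  · simp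
  · have : ¬ S ⊆ ∅ := fun h => by
      obtain ⟨x, hx⟩ := hS
      exact absurd (h hx) (notMem_empty x)
    rw [if_neg this, sub_zero]
    exact_mod_cast hS.card_pos

lemma en_center {q : Wt ι Ω} (f : (ι → Ω) → ℝ) (a : ℝ) (U : Finset ι) :
    en q (fun A => a * (f A - Ex q f)) U = a ^ 2 * (en q f U - en q f ∅) := by
  have h1 : ∀ A, Av q U (fun A => a * (f A - Ex q f)) A = a * (Av q U f A - Ex q f) := by
    intro A
    unfold Av
    rw [Ex_mul_left, Ex_sub, Ex_const]
  unfold en
  simp only [h1, Av_empty]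
  have h2 : (fun A => (a * (Av q U f A - Ex q f)) ^ 2) = fun A =>
      a ^ 2 * ((Av q U f A) ^ 2 - (2 * Ex q f * Av q U f A - Ex q f ^ 2)) := by
    funext A; ring
  rw [h2, Ex_mul_left, Ex_sub, Ex_sub, Ex_mul_left, Ex_const]
  have h3 : Ex q (fun A => Av q U f A) = Ex q f := Ex_Av q U f
  rw [h3]
  ring

/-- the energy of one coordinate -/
lemma site_le {q : Wt ι Ω} (f h : (ι → Ω) → ℝ) (x : ι) (hh : Dep ({x}ᶜ : Finset ι) h) :
    en q f univ - en q f {x}ᶜ ≤ Ex q (fun A => (f A - h A) ^ 2) := by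
  have h1 := en_sub (q := q) f (subset_univ ({x}ᶜ : Finset ι))
  have h2 := en_sub (q := q) (fun A => f A - h A) (subset_univ ({x}ᶜ : Finset ι))
  have e : (fun A => (Av q univ f A - Av q {x}ᶜ f A) ^ 2) = fun A =>
      (Av q univ (fun A => f A - h A) A - Av q {x}ᶜ (fun A => f A - h A) A) ^ 2 := by
    funext A
    rw [Av_sub, Av_sub, Av_univ, Av_univ, hh.Av_eq]
    ring
  rw [← h1, e, h2]
  have h3 := en_nonneg (q := q) (fun A => f A - h A) ({x}ᶜ : Finset ι)
  have h4 : en q (fun A => f A - h A) univ = Ex q (fun A => (f A - h A) ^ 2) := by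
    unfold en
    rw [Av_univ]
  linarith

/-- expectation of a function of one coordinate -/
lemma Ex_single (q : Wt ι Ω) (x : ι) (φ : Ω → ℝ) :
    Ex q (fun A => φ (A x)) = ∑ o, q.w x o * φ o := by
  classical
  have h := Finset.prod_univ_sum (fun _ : ι => (univ : Finset Ω))
    (fun y o => if y = x then q.w x o * φ o else q.w y o)
  rw [Fintype.piFinset_univ] at h
  have e1 : ∏ y : ι, ∑ o : Ω, (if y = x then q.w x o * φ o else q.w y o) =
      ∑ o, q.w x o * φ o := by
    rw [Finset.prod_eq_single x]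
    · simp
    · intro y _ hy
      simp only [hy, if_false]
      exact q.sm y
    · intro hx
      exact absurd (mem_univ x) hx
  have e2 : ∀ A : ι → Ω, ∏ y : ι, (if y = x then q.w x (A y) * φ (A y) else q.w y (A y)) =
      mu q A * φ (A x) := by
    intro A
    unfold mu
    rw [← Finset.mul_prod_erase univ _ (mem_univ x),
      ← Finset.mul_prod_erase univ (fun y => q.w y (A y)) (mem_univ x)]
    simp only [if_true]
    have : ∏ y ∈ univ.erase x, (if y = x then q.w x (A y) * φ (A y) else q.w y (A y)) =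
        ∏ y ∈ univ.erase x, q.w y (A y) := by
      refine prod_congr rfl fun y hy => ?_
      rw [if_neg (ne_of_mem_erase hy)]
    rw [this]
    ring
  rw [← e1, h]
  unfold Ex
  refine sum_congr rfl fun A _ => ?_
  rw [e2, smul_eq_mul]

lemma cube_le {x y : ℝ} (hx : 0 ≤ x) (hy : 0 ≤ y) : (x + y) ^ 3 ≤ 4 * (x ^ 3 + y ^ 3) := by
  nlinarith [mul_nonneg (add_nonneg hx hy) (sq_nonneg (x - y))]

end abs

section mom

variable {X U : Type} [Fintype X] [DecidableEq X] [Fintype U] [DecidableEq U]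

/-- third moment of the number of points in one strip -/
lemma mom3 {q : ℝ} (hq : Adq U q) (hpr : ∀ b, 1 / 4 ≤ pr U q b) (P : X → Bool) (x : X) :
    Ex (WP hq P) (fun A => ((A x).card : ℝ) ^ 3) ≤ 4 * (q * Fintype.card U + 2) ^ 3 := by
  have h := Ex_single (WP hq P) x (fun B => ((B.card : ℕ) : ℝ) ^ 3)
  rw [h]
  have h3 := (TSP.Abs.mom U q hq.h0 hq.h1 univ).2.2
  simp only [inter_univ, card_univ] at h3
  have hmu : ∀ B : Finset U, 0 ≤ TSP.mu q B := fun B => TSP.mu_nonneg hq.h0 hq.h1 B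
  calc ∑ B : Finset U, (WP hq P).w x B * ((B.card : ℕ) : ℝ) ^ 3
      ≤ ∑ B : Finset U, 4 * (TSP.mu q B • ((B.card : ℕ) : ℝ) ^ 3) := by
        refine sum_le_sum fun B _ => ?_
        show wb q (P x) B * ((B.card : ℕ) : ℝ) ^ 3 ≤ 4 * (TSP.mu q B • ((B.card : ℕ) : ℝ) ^ 3)
        rw [smul_eq_mul, ← mul_assoc]
        refine mul_le_mul_of_nonneg_right ?_ (by positivity)
        unfold wb
        split_ifs
        · rw [div_le_iff₀ (hq.hp _)]
          have := hpr (P x)
          have h5 := hmu B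
          nlinarith
        · have := hmu B
          positivity
    _ = 4 * TSP.Ex q (fun B : Finset U => ((B.card : ℕ) : ℝ) ^ 3) := by
        rw [← mul_sum]
        rfl
    _ ≤ _ := by linarith

lemma nat_pow_le (n : ℕ) : (n : ℝ) ≤ (n : ℝ) ^ 3 := by
  rcases Nat.eq_zero_or_pos n with h | h
  · subst h; norm_num
  · have : (1 : ℝ) ≤ n := by exact_mod_cast h
    nlinarith [mul_nonneg (sub_nonneg.2 this) (sub_nonneg.2 this)]

end mom

end Pool.Agent.N940.MM
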