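import Pool.Agent.N940.MM.Cond

/-!
# The normal approximation given the parities: the estimate
-/

set_option autoImplicit false
set_option linter.unusedSectionVars false
set_option linter.unusedVariables false

open Filter Topology

namespace Pool.Agent.N940.MM

open Finset

lemma Vr_center {ι Ω : Type} [Fintype ι] [DecidableEq ι] [Fintype Ω] (q : Wt ι Ω)
    (f : (ι → Ω) → ℝ) (s : ℝ) :
    Vr q (fun A => s * f A) = en q (fun A => s * (f A - Ex q f)) univ := by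
  unfold Vr en
  rw [Av_univ, Ex_mul_left]
  congr 1
  funext A
  ring

lemma Ex_center {ι Ω : Type} [Fintype ι] [DecidableEq ι] [Fintype Ω] (q : Wt ι Ω)
    (f : (ι → Ω) → ℝ) (s : ℝ) : Ex q (fun A => s * (f A - Ex q f)) = 0 := by
  rw [Ex_mul_left, Ex_sub, Ex_const]
  have : Ex q (fun A => f A) = Ex q f := rfl
  rw [this, sub_self, mul_zero]

set_option maxHeartbeats 1000000 in
lemma char_j (hmix : S_MIX) (hcr : S_CRUDE) {L : ℕ} (j : ℕ) (ε : ℝ) (hε : 0 ≤ ε)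
    {N M : ℕ} {q : ℝ} {hq : Adq (Us L M) q} (hp : Par N L M q hq) (hj : 2 ^ j ∣ N)
    {P : Xs N L → Bool} (hP : evn P) (u₀ : Us L M) (a b θ : ℝ) (ha : |a| ≤ 1) (hb : |b| ≤ 1)
    (hθ : 1 ≤ θ)
    (hA : en (WP hq P) (gP a b u₀ P) univ - en (WP hq P) (gP a b u₀ P) ∅ -
      ∑ c ∈ (univ : Finset (Xs N L)).image (dl N L j),
        (en (WP hq P) (gP a b u₀ P) (cell (dl N L) j c) - en (WP hq P) (gP a b u₀ P) ∅) ≤
      ε * ((N : ℝ) * L) ^ 2) :
    ‖Ex (WP hq P) (fun A => Complex.exp (Complex.I *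
        ((θ / ((N : ℝ) * L) * (gP a b u₀ P A - Ex (WP hq P) (gP a b u₀ P)) : ℝ) : ℂ))) -
      Complex.exp ((-(Vr (WP hq P) fun A => θ / ((N : ℝ) * L) * gP a b u₀ P A) / 2 : ℝ) : ℂ)‖
      ≤ (Real.sqrt ε + ε + (Kc L j + Kc L j ^ 2) / ((N : ℝ) * L)) * θ ^ 4 := by
  set w := WP hq P with hw
  set g := gP a b u₀ P with hg
  set R : ℝ := (N : ℝ) * L with hR
  have hN1 : (1 : ℝ) ≤ N := by exact_mod_cast hp.hN
  have hL1 : (1 : ℝ) ≤ L := by exact_mod_cast hp.hL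
  have hR1 : 1 ≤ R := by rw [hR]; nlinarith
  have hR0 : 0 < R := by linarith
  have hθ0 : 0 < θ := by linarith
  set T := (univ : Finset (Xs N L)).image (dl N L j) with hT
  have hK := Kc_nonneg L j
  have hcl := clt w T (cell (dl N L) j) (fun c _ d _ hcd => cell_disjoint hcd)
    (fun A => θ / R * (g A - Ex w g)) (Ex_center w g _) (θ ^ 2 * ε) ?_
  · have hV : Vr w (fun A => θ / R * (g A - Ex w g)) = Vr w fun A => θ / R * g A := by
      have h1 : Vr w (fun A => θ / R * (g A - Ex w g)) =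
          en w (fun A => θ / R * (g A - Ex w g)) univ := by
        unfold Vr en
        rw [Ex_center, Av_univ]
        simp only [sub_zero]
      rw [h1, ← Vr_center]
    rw [hV] at hcl
    refine hcl.trans ?_
    -- number of cells
    have hTR : (T.card : ℝ) ≤ R ^ 2 := by
      have h1 := dl_count (N := N) hp.hL j hj
      have h2 : (1 : ℝ) ≤ 4 ^ j * (L : ℝ) ^ 2 := by
        have : (1 : ℝ) ≤ 4 ^ j := one_le_pow₀ (by norm_num)
        nlinarith
      have h3 : (0 : ℝ) ≤ T.card := Nat.cast_nonneg _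
      calc (T.card : ℝ) = T.card * 1 := by ring
        _ ≤ T.card * (4 ^ j * (L : ℝ) ^ 2) := mul_le_mul_of_nonneg_left h2 h3
        _ ≤ R ^ 2 := h1
    have hterm : ∀ c ∈ T, (Ex w (fun A => |Av w (cell (dl N L) j c)
        (fun A => θ / R * (g A - Ex w g)) A| ^ 3) +
        (en w (fun A => θ / R * (g A - Ex w g)) (cell (dl N L) j c)) ^ 2) ≤
        θ ^ 4 * ((Kc L j + Kc L j ^ 2) / R ^ 3) := by
      intro c _
      obtain ⟨b1, b2⟩ := block_mom hcr hp hP u₀ a b ha hb j c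
      have e1 : ∀ A, Av w (cell (dl N L) j c) (fun A => θ / R * (g A - Ex w g)) A =
          θ / R * (Av w (cell (dl N L) j c) g A - Ex w g) := by
        intro A
        unfold Av
        rw [Ex_mul_left, Ex_sub, Ex_const]
      have hs : 0 < θ / R := by positivity
      have t1 : Ex w (fun A => |Av w (cell (dl N L) j c)
          (fun A => θ / R * (g A - Ex w g)) A| ^ 3) ≤ (θ / R) ^ 3 * Kc L j := by
        have e2 : (fun A => |Av w (cell (dl N L) j c)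
            (fun A => θ / R * (g A - Ex w g)) A| ^ 3) =
            fun A => (θ / R) ^ 3 * |Av w (cell (dl N L) j c) g A - Ex w g| ^ 3 := by
          funext A
          rw [e1, abs_mul, abs_of_pos hs, mul_pow]
        rw [e2, Ex_mul_left]
        exact mul_le_mul_of_nonneg_left b1 (by positivity)
      have t2 : en w (fun A => θ / R * (g A - Ex w g)) (cell (dl N L) j c) ≤
          (θ / R) ^ 2 * Kc L j := by
        unfold en
        have e2 : (fun A => (Av w (cell (dl N L) j c)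
            (fun A => θ / R * (g A - Ex w g)) A) ^ 2) =
            fun A => (θ / R) ^ 2 * (Av w (cell (dl N L) j c) g A - Ex w g) ^ 2 := by
          funext A
          rw [e1, mul_pow]
        rw [e2, Ex_mul_left]
        exact mul_le_mul_of_nonneg_left b2 (by positivity)
      have t3 : (en w (fun A => θ / R * (g A - Ex w g)) (cell (dl N L) j c)) ^ 2 ≤
          ((θ / R) ^ 2 * Kc L j) ^ 2 := pow_le_pow_left₀ (en_nonneg _ _) t2 2
      have t4 : (θ / R) ^ 3 * Kc L j ≤ θ ^ 4 * (Kc L j / R ^ 3) := by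
        have : (θ / R) ^ 3 * Kc L j = θ ^ 3 * (Kc L j / R ^ 3) := by
          rw [div_pow]; ring
        rw [this]
        refine mul_le_mul_of_nonneg_right ?_ (by positivity)
        exact pow_le_pow_right₀ hθ (by norm_num)
      have t5 : ((θ / R) ^ 2 * Kc L j) ^ 2 ≤ θ ^ 4 * (Kc L j ^ 2 / R ^ 3) := by
        have : ((θ / R) ^ 2 * Kc L j) ^ 2 = θ ^ 4 * (Kc L j ^ 2 / R ^ 4) := by
          rw [div_pow]; ring
        rw [this]
        refine mul_le_mul_of_nonneg_left ?_ (by positivity)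
        refine div_le_div_of_nonneg_left (by positivity) (by positivity) ?_
        exact pow_le_pow_right₀ hR1 (by norm_num)
      calc _ ≤ θ ^ 4 * (Kc L j / R ^ 3) + θ ^ 4 * (Kc L j ^ 2 / R ^ 3) :=
            add_le_add (t1.trans t4) (t3.trans t5)
        _ = _ := by ring
    have hsum := sum_le_sum hterm
    rw [sum_const, nsmul_eq_mul] at hsum
    have h6 : (T.card : ℝ) * (θ ^ 4 * ((Kc L j + Kc L j ^ 2) / R ^ 3)) ≤
        θ ^ 4 * ((Kc L j + Kc L j ^ 2) / R) := by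
      calc _ ≤ R ^ 2 * (θ ^ 4 * ((Kc L j + Kc L j ^ 2) / R ^ 3)) :=
            mul_le_mul_of_nonneg_right hTR (by positivity)
        _ = _ := by field_simp
    have h7 : Real.sqrt (θ ^ 2 * ε) ≤ θ ^ 4 * Real.sqrt ε := by
      rw [Real.sqrt_mul (sq_nonneg θ), Real.sqrt_sq hθ0.le]
      refine mul_le_mul_of_nonneg_right ?_ (Real.sqrt_nonneg _)
      calc θ = θ ^ 1 := (pow_one θ).symm
        _ ≤ θ ^ 4 := pow_le_pow_right₀ hθ (by norm_num)
    have h8 : θ ^ 2 * ε / 2 ≤ θ ^ 4 * ε := by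
      have : θ ^ 2 ≤ θ ^ 4 := pow_le_pow_right₀ hθ (by norm_num)
      nlinarith [mul_le_mul_of_nonneg_right this hε, mul_nonneg (sq_nonneg θ) hε]
    calc _ ≤ θ ^ 4 * Real.sqrt ε + θ ^ 4 * ε + θ ^ 4 * ((Kc L j + Kc L j ^ 2) / R) :=
          add_le_add (add_le_add h7 h8) (hsum.trans h6)
      _ = _ := by ring
  · have e1 : Vr w (fun A => θ / R * (g A - Ex w g)) =
        (θ / R) ^ 2 * (en w g univ - en w g ∅) := by
      have h1 : Vr w (fun A => θ / R * (g A - Ex w g)) =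
          en w (fun A => θ / R * (g A - Ex w g)) univ := by
        unfold Vr en
        rw [Ex_center, Av_univ]
        simp only [sub_zero]
      rw [h1, en_center]
    rw [e1]
    simp only [en_center]
    rw [← mul_sum, ← mul_sub]
    calc (θ / R) ^ 2 * (en w g univ - en w g ∅ - ∑ c ∈ T, (en w g (cell (dl N L) j c) -
          en w g ∅)) ≤ (θ / R) ^ 2 * (ε * R ^ 2) := mul_le_mul_of_nonneg_left hA (sq_nonneg _)
      _ = θ ^ 2 * ε := by field_simp

/-- the normal approximation given the parities -/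
theorem charP (hmix : S_MIX) (hcr : S_CRUDE) (L : ℕ) (hL : 0 < L) (ε : ℝ) (hε : 0 < ε) :
    ∃ N₀ : ℕ, ∀ J : ℕ, N₀ ≤ 2 ^ J → ∀ (M : ℕ) (q : ℝ) (hq : Adq (Us L M) q),
      Par (2 ^ J) L M q hq → ∀ P : Xs (2 ^ J) L → Bool, evn P → ∀ (a b θ : ℝ), |a| ≤ 1 →
      |b| ≤ 1 → 1 ≤ θ →
      ‖Ex (WP hq P) (fun A => Complex.exp (Complex.I *
        ((θ / (((2 ^ J : ℕ) : ℝ) * L) * (gf (2 ^ J) L M a b A -
          Ex (WP hq P) (gf (2 ^ J) L M a b)) : ℝ) : ℂ))) -
        Complex.exp ((-(Vr (WP hq P) fun A =>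
          θ / (((2 ^ J : ℕ) : ℝ) * L) * gf (2 ^ J) L M a b A) / 2 : ℝ) : ℂ)‖ ≤ ε * θ ^ 4 := by
  -- choice of the parameters
  obtain ⟨ε', hε', hε'2⟩ : ∃ ε' : ℝ, 0 < ε' ∧ Real.sqrt ε' + ε' ≤ ε / 2 := by
    refine ⟨min 1 ((ε / 4) ^ 2), lt_min one_pos (by positivity), ?_⟩
    have h1 : Real.sqrt (min 1 ((ε / 4) ^ 2)) ≤ ε / 4 := by
      rw [Real.sqrt_le_left (by positivity)]
      exact min_le_right _ _
    have h2 : min 1 ((ε / 4) ^ 2) ≤ Real.sqrt (min 1 ((ε / 4) ^ 2)) := by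
      have h3 : 0 ≤ min 1 ((ε / 4) ^ 2) := le_min zero_le_one (by positivity)
      have h4 : min 1 ((ε / 4) ^ 2) ≤ 1 := min_le_left _ _
      exact Real.le_sqrt_of_sq_le (by nlinarith)
    linarith
  obtain ⟨j, hj⟩ := thmA (Ks L) 16 ε' (Ks_pos L) (by norm_num) hε'
  obtain ⟨N₁, hN₁⟩ := exists_nat_gt ((Kc L j + Kc L j ^ 2) / (ε / 2))
  refine ⟨max (2 ^ j) N₁, ?_⟩
  intro J hJ M q hq hp P hP a b θ ha hb hθ
  have hMpos := hp.hM
  have hU : Nonempty (Us L M) := ⟨(⟨0, Nat.mul_pos hL hMpos⟩, ⟨0, hMpos⟩)⟩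
  obtain ⟨u₀⟩ := hU
  have hjJ : 2 ^ j ∣ 2 ^ J := by
    have : 2 ^ j ≤ 2 ^ J := (le_max_left _ _).trans hJ
    exact Nat.pow_dvd_pow 2 ((Nat.pow_le_pow_iff_right (by norm_num)).1 this)
  have hL1 : (1 : ℝ) ≤ L := by exact_mod_cast hL
  have hL0 : (0 : ℝ) < L := by linarith
  have hA := hj (Xs (2 ^ J) L) (Finset (Us L M)) (ℕ × ℕ) (dl (2 ^ J) L) (dl_nested j)
    (fun t _ c => dl_ch t c) ((L : ℝ) ^ 2) ((((2 ^ J : ℕ) : ℝ) * L) ^ 2) (by positivity)
    (by positivity) (fun t ht => dl_count hL t (dvd_trans (Nat.pow_dvd_pow 2 ht) hjJ))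
    (WP hq P) (gP a b u₀ P) (sites hcr hp hP u₀ a b ha hb) (by
      intro t ht c A A' Z Z'
      unfold gP
      rw [corr_mix, corr_mix, corr_mix, corr_mix]
      have := mixed hmix hL hMpos hP t c a b ha (corr u₀ P A) (corr u₀ P A') (corr u₀ P Z)
        (corr u₀ P Z') (par_corr u₀ P A) (par_corr u₀ P A') (par_corr u₀ P Z) (par_corr u₀ P Z')
      refine this.trans (le_of_eq ?_)
      have e : Real.sqrt (4 ^ t * (L : ℝ) ^ 2) = L * 2 ^ t := by
        have : (4 : ℝ) ^ t * (L : ℝ) ^ 2 = ((L : ℝ) * 2 ^ t) ^ 2 := by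
          have h4 : (4 : ℝ) ^ t = 2 ^ t * 2 ^ t := by rw [← mul_pow]; norm_num
          rw [h4]; ring
        rw [this, Real.sqrt_sq (by positivity)]
      rw [e])
  have hmain := char_j hmix hcr j ε' hε'.le hp hjJ hP u₀ a b θ ha hb hθ hA
  have hE : Ex (WP hq P) (gP a b u₀ P) = Ex (WP hq P) (gf (2 ^ J) L M a b) :=
    Ex_corr hq u₀ P (gf (2 ^ J) L M a b)
  rw [hE] at hmain
  have e1 := Ex_corr hq u₀ P (fun A => Complex.exp (Complex.I *
        ((θ / (((2 ^ J : ℕ) : ℝ) * L) * (gf (2 ^ J) L M a b A -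
          Ex (WP hq P) (gf (2 ^ J) L M a b)) : ℝ) : ℂ)))
  have e2 : Vr (WP hq P) (fun A => θ / (((2 ^ J : ℕ) : ℝ) * L) * gP a b u₀ P A) =
      Vr (WP hq P) (fun A => θ / (((2 ^ J : ℕ) : ℝ) * L) * gf (2 ^ J) L M a b A) := by
    unfold Vr
    have e3 := Ex_corr hq u₀ P (fun A => θ / (((2 ^ J : ℕ) : ℝ) * L) * gf (2 ^ J) L M a b A)
    have e4 : Ex (WP hq P) (fun A => θ / (((2 ^ J : ℕ) : ℝ) * L) * gP a b u₀ P A) =
      Ex (WP hq P) (fun A => θ / (((2 ^ J : ℕ) : ℝ) * L) * gf (2 ^ J) L M a b A) := e3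
    rw [e4]
    exact Ex_corr hq u₀ P (fun A => (θ / (((2 ^ J : ℕ) : ℝ) * L) * gf (2 ^ J) L M a b A -
      Ex (WP hq P) (fun A => θ / (((2 ^ J : ℕ) : ℝ) * L) * gf (2 ^ J) L M a b A)) ^ 2)
  rw [e2] at hmain
  rw [← e1]
  refine hmain.trans ?_
  refine mul_le_mul_of_nonneg_right ?_ (by positivity)
  have hNL : (N₁ : ℝ) ≤ ((2 ^ J : ℕ) : ℝ) * L := by
    have h1 : (N₁ : ℝ) ≤ ((2 ^ J : ℕ) : ℝ) := by exact_mod_cast (le_max_right _ _).trans hJ
    have h2 : (0 : ℝ) ≤ ((2 ^ J : ℕ) : ℝ) := Nat.cast_nonneg _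
    nlinarith
  have hR0 : (0 : ℝ) < ((2 ^ J : ℕ) : ℝ) * L := by positivity
  have h5 : (Kc L j + Kc L j ^ 2) / (((2 ^ J : ℕ) : ℝ) * L) ≤ ε / 2 := by
    rw [div_le_iff₀ hR0]
    rw [div_lt_iff₀ (by positivity)] at hN₁
    have : (N₁ : ℝ) * (ε / 2) ≤ ε / 2 * (((2 ^ J : ℕ) : ℝ) * L) := by
      rw [mul_comm]
      exact mul_le_mul_of_nonneg_left hNL (by positivity)
    linarith
  linarith

end Pool.Agent.N940.MM
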