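import Pool.Agent.N940.MM.Cond2

/-!
# Averaging over the parities: preparations
-/

set_option autoImplicit false
set_option linter.unusedSectionVars false
set_option linter.unusedVariables false

open Filter Topology

namespace Pool.Agent.N940.MM

open Finset

section reindex

variable {X Y : Type} [Fintype X] [DecidableEq X] [Fintype Y] [DecidableEq Y]

lemma evn_comp (e : Y ≃ X) (P : Y → Bool) : evn (fun x => P (e.symm x)) ↔ evn P := by
  unfold evn
  have : (univ.filter fun x => P (e.symm x) = true).card =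
      (univ.filter fun y => P y = true).card := by
    refine card_nbij' (fun x => e.symm x) (fun y => e y) ?_ ?_ ?_ ?_
    · intro x hx; simpa using hx
    · intro y hy; simpa using hy
    · intro x _; simp
    · intro y _; simp
  rw [this]

lemma wt_comp (p : ℝ) (e : Y ≃ X) (P : Y → Bool) : wt p (fun x => P (e.symm x)) = wt p P := by
  unfold wt
  exact Fintype.prod_equiv e.symm _ _ (fun x => rfl)

lemma EW_comp {E : Type} [AddCommGroup E] [Module ℝ E] (p : ℝ) (e : Y ≃ X)
    (f : (X → Bool) → E) :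
    EW p (fun P : Y → Bool => f (fun x => P (e.symm x))) = EW p f := by
  have key : ∀ {F : Type} [AddCommGroup F] (h : (X → Bool) → F),
      ∑ P : Y → Bool, h (fun x => P (e.symm x)) = ∑ P : X → Bool, h P := by
    intro F _ h
    exact Fintype.sum_equiv (Equiv.arrowCongr e (Equiv.refl Bool)) _ _ (fun P => rfl)
  unfold EW
  congr 1
  · congr 1
    rw [← key]
    refine sum_congr rfl fun P _ => ?_
    simp only [evn_comp, wt_comp]
  · rw [← key]
    refine sum_congr rfl fun P _ => ?_
    simp only [evn_comp, wt_comp]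

lemma flp_comp (e : Y ≃ X) (y y' : Y) (P : Y → Bool) :
    (fun x => flp y y' P (e.symm x)) = flp (e y) (e y') (fun x => P (e.symm x)) := by
  funext x
  unfold flp
  have h1 : e.symm x = y ↔ x = e y := Equiv.symm_apply_eq e
  have h2 : e.symm x = y' ↔ x = e y' := Equiv.symm_apply_eq e
  simp only [h1, h2]

lemma EW_congr {E : Type} [AddCommGroup E] [Module ℝ E] (p : ℝ) (f g : (X → Bool) → E)
    (h : ∀ P, evn P → f P = g P) : EW p f = EW p g := by
  unfold EW
  congr 1
  refine sum_congr rfl fun P _ => ?_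
  split_ifs with hP
  · rw [h P hP]
  · rfl

lemma EW_add {E : Type} [AddCommGroup E] [Module ℝ E] (p : ℝ) (f g : (X → Bool) → E) :
    EW p (fun P => f P + g P) = EW p f + EW p g := by
  unfold EW
  rw [← smul_add, ← sum_add_distrib]
  congr 1
  refine sum_congr rfl fun P _ => ?_
  split_ifs
  · rw [smul_add]
  · rw [add_zero]

end reindex

variable {N L M : ℕ}

lemma cnt_pair {x y : Xs N L} (hxy : x ≠ y) (A : Xs N L → Finset (Us L M)) :
    cnt {x, y} A = (A x).card + (A y).card := by
  unfold cnt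
  rw [sum_pair hxy]

/-- neighbouring strips -/
def nbr (x y : Xs N L) : Prop :=
  x.1 = y.1 ∧ (((x.2 : ℕ)) + 1 = y.2 ∨ ((y.2 : ℕ)) + 1 = x.2)

lemma dist_pair (hL : 0 < L) (hM : 0 < M) {x y : Xs N L}
    (h : nbr x y ∨ (((x.1 : ℕ)) + 1 = y.1 ∧ x.2 = y.2)) :
    ∀ z ∈ ({x, y} : Finset (Xs N L)), ∀ w ∈ ({x, y} : Finset (Xs N L)), ∀ u v,
      dist (TSP.sp (N * L) 1 M (em N L M z u)) (TSP.sp (N * L) 1 M (em N L M w v)) ≤
        2 * L + 1 := by
  have hL1 : (1 : ℝ) ≤ L := by exact_mod_cast hL
  have key : ∀ z w : Xs N L, ((nbr z w ∨ nbr w z ∨ z = w ∨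
      (((z.1 : ℕ)) + 1 = w.1 ∧ z.2 = w.2) ∨ (((w.1 : ℕ)) + 1 = z.1 ∧ w.2 = z.2))) → ∀ u v,
      dist (TSP.sp (N * L) 1 M (em N L M z u)) (TSP.sp (N * L) 1 M (em N L M w v)) ≤
        2 * L + 1 := by
    intro z w hzw u v
    obtain ⟨a1, a2, a3, a4⟩ := sp_rect hL hM z u
    obtain ⟨b1, b2, b3, b4⟩ := sp_rect hL hM w v
    have h12 : (((z.1 : ℕ) : ℝ) = (w.1 : ℕ) ∧ |((z.2 : ℕ) : ℝ) - ((w.2 : ℕ) : ℝ)| ≤ 1) ∨
        (|((z.1 : ℕ) : ℝ) - ((w.1 : ℕ) : ℝ)| ≤ 1 ∧ ((z.2 : ℕ) : ℝ) = (w.2 : ℕ)) := by
      rcases hzw with h | h | h | h | h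
      · left
        obtain ⟨h1, h2⟩ := h
        refine ⟨by rw [h1], ?_⟩
        rcases h2 with h2 | h2
        · have : ((w.2 : ℕ) : ℝ) = (z.2 : ℕ) + 1 := by exact_mod_cast h2.symm
          rw [this, abs_le]; constructor <;> linarith
        · have : ((z.2 : ℕ) : ℝ) = (w.2 : ℕ) + 1 := by exact_mod_cast h2.symm
          rw [this, abs_le]; constructor <;> linarith
      · left
        obtain ⟨h1, h2⟩ := h
        refine ⟨by rw [h1], ?_⟩
        rcases h2 with h2 | h2
        · have : ((z.2 : ℕ) : ℝ) = (w.2 : ℕ) + 1 := by exact_mod_cast h2.symm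
          rw [this, abs_le]; constructor <;> linarith
        · have : ((w.2 : ℕ) : ℝ) = (z.2 : ℕ) + 1 := by exact_mod_cast h2.symm
          rw [this, abs_le]; constructor <;> linarith
      · left
        subst h
        simp
      · right
        refine ⟨?_, by rw [h.2]⟩
        have : ((w.1 : ℕ) : ℝ) = (z.1 : ℕ) + 1 := by exact_mod_cast h.1.symm
        rw [this, abs_le]; constructor <;> linarith
      · right
        refine ⟨?_, by rw [h.2]⟩
        have : ((z.1 : ℕ) : ℝ) = (w.1 : ℕ) + 1 := by exact_mod_cast h.1.symm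
        rw [this, abs_le]; constructor <;> linarith
    refine (dist_le_coord _ _).trans ?_
    rcases h12 with ⟨h1, h2⟩ | ⟨h1, h2⟩
    · have h3 : |(TSP.sp (N * L) 1 M (em N L M z u)).re -
          (TSP.sp (N * L) 1 M (em N L M w v)).re| ≤ L := by
        rw [h1] at a1 a2
        rw [abs_le]; constructor <;> linarith
      have h4 : |(TSP.sp (N * L) 1 M (em N L M z u)).im -
          (TSP.sp (N * L) 1 M (em N L M w v)).im| ≤ 2 := by
        have := abs_le.1 h2
        rw [abs_le]; constructor <;> linarith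
      linarith
    · have h3 : |(TSP.sp (N * L) 1 M (em N L M z u)).re -
          (TSP.sp (N * L) 1 M (em N L M w v)).re| ≤ 2 * L := by
        have := abs_le.1 h1
        rw [abs_le]; constructor <;> nlinarith
      have h4 : |(TSP.sp (N * L) 1 M (em N L M z u)).im -
          (TSP.sp (N * L) 1 M (em N L M w v)).im| ≤ 1 := by
        rw [h2] at a3 a4
        rw [abs_le]; constructor <;> linarith
      linarith
  intro z hz w hw u v
  simp only [mem_insert, mem_singleton] at hz hw
  apply key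
  rcases hz with rfl | rfl <;> rcases hw with rfl | rfl
  · exact Or.inr (Or.inr (Or.inl rfl))
  · rcases h with h | h
    · exact Or.inl h
    · exact Or.inr (Or.inr (Or.inr (Or.inl h)))
  · rcases h with h | h
    · exact Or.inr (Or.inl h)
    · exact Or.inr (Or.inr (Or.inr (Or.inr h)))
  · exact Or.inr (Or.inr (Or.inl rfl))

/-- moving a point to the neighbouring strip -/
lemma gl_move (hL : 0 < L) (hM : 0 < M) {x y : Xs N L} (hxy : x ≠ y)
    (A : Xs N L → Finset (Us L M)) (u : Us L M) (hu : u ∈ A x) (hv : u ∉ A y) :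
    gl N L M (Function.update (Function.update A x ((A x).erase u)) y (insert u (A y))) =
      insert (em N L M y u) ((gl N L M A).erase (em N L M x u)) := by
  ext k
  simp only [mem_insert, mem_erase, mem_gl]
  constructor
  · rintro ⟨z, w, hw, rfl⟩
    by_cases hz : z = y
    · subst hz
      rw [Function.update_self, mem_insert] at hw
      rcases hw with rfl | hw
      · exact Or.inl rfl
      · right
        refine ⟨fun h => ?_, z, w, hw, rfl⟩
        exact hxy (em_inj hL hM h).1.symm
    · rw [Function.update_of_ne hz] at hw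
      by_cases hz' : z = x
      · subst hz'
        rw [Function.update_self, mem_erase] at hw
        right
        refine ⟨fun h => hw.1 (em_inj hL hM h).2, z, w, hw.2, rfl⟩
      · rw [Function.update_of_ne hz'] at hw
        right
        exact ⟨fun h => hz' (em_inj hL hM h).1, z, w, hw, rfl⟩
  · rintro (rfl | ⟨hne, z, w, hw, rfl⟩)
    · exact ⟨y, u, by rw [Function.update_self]; exact mem_insert_self _ _, rfl⟩
    · refine ⟨z, w, ?_, rfl⟩
      by_cases hz : z = y
      · subst hz
        rw [Function.update_self]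
        exact mem_insert_of_mem hw
      · rw [Function.update_of_ne hz]
        by_cases hz' : z = x
        · subst hz'
          rw [Function.update_self, mem_erase]
          refine ⟨fun h => hne (by rw [h]), hw⟩
        · rw [Function.update_of_ne hz']
          exact hw

lemma dist_shift (hM : 0 < M) {x y : Xs N L} (h : nbr x y) (u : Us L M) :
    dist (TSP.sp (N * L) 1 M (em N L M x u)) (TSP.sp (N * L) 1 M (em N L M y u)) ≤ 1 := by
  have hM' : (0 : ℝ) < M := by exact_mod_cast hM
  refine (dist_le_coord _ _).trans ?_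
  have h1 : (TSP.sp (N * L) 1 M (em N L M x u)).re = (TSP.sp (N * L) 1 M (em N L M y u)).re := by
    show (((x.1 : ℕ) * (L * M) + u.1 : ℕ) : ℝ) / M = (((y.1 : ℕ) * (L * M) + u.1 : ℕ) : ℝ) / M
    rw [h.1]
  have h2 : (TSP.sp (N * L) 1 M (em N L M x u)).im - (TSP.sp (N * L) 1 M (em N L M y u)).im =
      ((x.2 : ℕ) : ℝ) - ((y.2 : ℕ) : ℝ) := by
    show (((x.2 : ℕ) * M + u.2 : ℕ) : ℝ) / M - (((y.2 : ℕ) * M + u.2 : ℕ) : ℝ) / M = _
    push_cast
    field_simp
    ring
  rw [h1, sub_self, abs_zero, zero_add, h2]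
  rcases h.2 with h3 | h3
  · have : ((y.2 : ℕ) : ℝ) = (x.2 : ℕ) + 1 := by exact_mod_cast h3.symm
    rw [this, abs_le]; constructor <;> linarith
  · have : ((x.2 : ℕ) : ℝ) = (y.2 : ℕ) + 1 := by exact_mod_cast h3.symm
    rw [this, abs_le]; constructor <;> linarith

lemma swap_le (hmv : S_MOVE) (hL : 0 < L) (hM : 0 < M) {x y : Xs N L} (hxy : x ≠ y)
    (h : nbr x y) (a b : ℝ) (ha : |a| ≤ 1) (A : Xs N L → Finset (Us L M)) (u : Us L M)
    (hA : evA A) (hu : u ∈ A x) (hv : u ∉ A y) :
    |gf N L M a b A - gf N L M a b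
      (Function.update (Function.update A x ((A x).erase u)) y (insert u (A y)))| ≤ 1 := by
  have hm : em N L M x u ∈ gl N L M A := mem_gl.2 ⟨x, u, hu, rfl⟩
  have hm' : em N L M y u ∉ gl N L M A := by
    intro hcon
    obtain ⟨z, w, hw, hk⟩ := mem_gl.1 hcon
    obtain ⟨rfl, rfl⟩ := em_inj hL hM hk
    exact hv hw
  have hm'' : em N L M y u ∉ (gl N L M A).erase (em N L M x u) :=
    fun h => hm' (mem_of_mem_erase h)
  have h1 := hmv (TSP.Ix (N * L) 1 M) (TSP.sp (N * L) 1 M) (gl N L M A) (em N L M x u)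
    (em N L M y u) hm hm' (by rw [card_gl hL hM]; exact hA)
  have h2 := h1.trans (dist_shift hM h u)
  unfold gf fM
  rw [gl_move hL hM hxy A u hu hv, card_insert_of_notMem hm'', card_erase_of_mem hm,
    Nat.sub_add_cancel (card_pos.2 ⟨_, hm⟩)]
  have e : a * mt (TSP.sp (N * L) 1 M) (gl N L M A) + b * ((gl N L M A).card : ℝ) -
      (a * mt (TSP.sp (N * L) 1 M) (insert (em N L M y u) ((gl N L M A).erase (em N L M x u))) +
        b * ((gl N L M A).card : ℝ)) =
      -(a * (mt (TSP.sp (N * L) 1 M) (insert (em N L M y u)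
        ((gl N L M A).erase (em N L M x u))) - mt (TSP.sp (N * L) 1 M) (gl N L M A))) := by
    ring
  rw [e, abs_neg, abs_mul]
  calc _ ≤ (1 : ℝ) * 1 := mul_le_mul ha h2 (abs_nonneg _) (by norm_num)
    _ = 1 := one_mul 1

end Pool.Agent.N940.MM
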