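import Pool.Agent.N940.MM.Core1

/-!
# Averaging over the parities: the estimate
-/

set_option autoImplicit false
set_option linter.unusedSectionVars false
set_option linter.unusedVariables false

open Filter Topology

namespace Pool.Agent.N940.MM

open Finset

lemma Ex_sq_shift {ι Ω : Type} [Fintype ι] [DecidableEq ι] [Fintype Ω] (q : Wt ι Ω)
    (G : (ι → Ω) → ℝ) (m : ℝ) :
    Ex q (fun A => (G A - m) ^ 2) = Vr q G + (Ex q G - m) ^ 2 := by
  unfold Vr
  obtain ⟨v, hv⟩ : ∃ v, v = Ex q G := ⟨_, rfl⟩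
  rw [← hv]
  have h4 : (fun A => (G A - m) ^ 2) = fun A =>
      (G A - v) ^ 2 + ((2 * (v - m)) * (G A - v) + (v - m) ^ 2) := by
    funext A; ring
  rw [h4, Ex_add, Ex_add, Ex_mul_left, Ex_sub, Ex_const, Ex_const]
  have h5 : Ex q (fun A => G A) = v := hv.symm
  rw [h5, sub_self, mul_zero, zero_add]

lemma Vr_scale {ι Ω : Type} [Fintype ι] [DecidableEq ι] [Fintype Ω] (q : Wt ι Ω)
    (f : (ι → Ω) → ℝ) (s : ℝ) : Vr q (fun A => s * f A) = s ^ 2 * Vr q f := by
  unfold Vr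
  have h1 : Ex q (fun A => s * f A) = s * Ex q f := Ex_mul_left q s f
  have e : (fun B => (s * f B - s * Ex q f) ^ 2) = fun B => s ^ 2 * (f B - Ex q f) ^ 2 := by
    funext B; ring
  show Ex q (fun B => (s * f B - Ex q (fun A => s * f A)) ^ 2) = _
  rw [h1, e, Ex_mul_left]

variable {N L M : ℕ}

noncomputable def c1 (L : ℕ) (lam : ℝ) : ℝ := 1 + 100 * (4 * L) * (lam + 2) * Real.exp (-lam / 2)
noncomputable def c2 (L : ℕ) (lam : ℝ) : ℝ := 100 * (4 * L) * (lam + 2)
noncomputable def c3 (L : ℕ) (lam : ℝ) : ℝ := 100 * (4 * (L : ℝ)) ^ 2 * (lam + 2) ^ 2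

lemma crude_pair (hcr : S_CRUDE) (hL : 0 < L) (hM : 0 < M) {x y : Xs N L} (hxy : x ≠ y)
    (h : nbr x y ∨ (((x.1 : ℕ)) + 1 = y.1 ∧ x.2 = y.2)) (a b s : ℝ) (ha : |a| ≤ 1)
    (hb : |b| ≤ 1) (hs : 0 ≤ s) (A A' : Xs N L → Finset (Us L M)) (hA : evA A) (hA' : evA A')
    (hz : ∀ z, z ≠ x → z ≠ y → A z = A' z) :
    |s * gf N L M a b A - s * gf N L M a b A'| ≤ s * (4 * (L : ℝ)) *
      ((A x).card + (A y).card + (A' x).card + (A' y).card + 1) := by
  have hL1 : (1 : ℝ) ≤ L := by exact_mod_cast hL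
  have h1 := crude hcr hL hM {x, y} (2 * (L : ℝ) + 1) (by positivity) a b ha hb
    (dist_pair hL hM h) A A' hA hA' (by
      intro z hz'
      simp only [mem_insert, mem_singleton, not_or] at hz'
      exact hz z hz'.1 hz'.2)
  rw [cnt_pair hxy, cnt_pair hxy] at h1
  push_cast at h1
  rw [← mul_sub, abs_mul, abs_of_nonneg hs]
  have n1 : (0 : ℝ) ≤ (A x).card := Nat.cast_nonneg _
  have n2 : (0 : ℝ) ≤ (A y).card := Nat.cast_nonneg _
  have n3 : (0 : ℝ) ≤ (A' x).card := Nat.cast_nonneg _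
  have n4 : (0 : ℝ) ≤ (A' y).card := Nat.cast_nonneg _
  rw [mul_assoc]
  refine mul_le_mul_of_nonneg_left (h1.trans ?_) hs
  have e : ((A x).card : ℝ) + (A y).card + ((A' x).card + (A' y).card) + 1 =
      (A x).card + (A y).card + (A' x).card + (A' y).card + 1 := by ring
  rw [e]
  refine mul_le_mul_of_nonneg_right (by linarith) (by positivity)

/-- the effect of changing the parities of two adjacent strips -/
lemma flips (hcr : S_CRUDE) (hmv : S_MOVE) (hflip : S_FLIP) {q : ℝ} {hq : Adq (Us L M) q}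
    (hp : Par N L M q hq) (hq2 : q ≤ 1 / 2) (hlam1 : 1 ≤ q * (Fintype.card (Us L M) : ℝ))
    {P : Xs N L → Bool} (hP : evn P) {x y : Xs N L} (hxy : x ≠ y) (a b s τ : ℝ)
    (ha : |a| ≤ 1) (hb : |b| ≤ 1) (hs : 0 ≤ s) (hτ : 0 < τ) :
    ((nbr x y ∨ (((x.1 : ℕ)) + 1 = y.1 ∧ x.2 = y.2)) →
      |Ex (WP hq P) (fun A => s * gf N L M a b A) -
        Ex (WP hq (flp x y P)) (fun A => s * gf N L M a b A)| ≤
        s * c2 L (q * (Fintype.card (Us L M) : ℝ)) +
          s ^ 2 * c3 L (q * (Fintype.card (Us L M) : ℝ)) / τ ∧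
      |Real.sqrt (Vr (WP hq P) (fun A => s * gf N L M a b A) + τ ^ 2) -
        Real.sqrt (Vr (WP hq (flp x y P)) (fun A => s * gf N L M a b A) + τ ^ 2)| ≤
        s * c2 L (q * (Fintype.card (Us L M) : ℝ)) +
          s ^ 2 * c3 L (q * (Fintype.card (Us L M) : ℝ)) / τ) ∧
    (nbr x y →
      |Ex (WP hq P) (fun A => s * gf N L M a b A) -
        Ex (WP hq (flp x y P)) (fun A => s * gf N L M a b A)| ≤
        s * c1 L (q * (Fintype.card (Us L M) : ℝ)) +
          s ^ 2 * c3 L (q * (Fintype.card (Us L M) : ℝ)) / τ ∧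
      |Real.sqrt (Vr (WP hq P) (fun A => s * gf N L M a b A) + τ ^ 2) -
        Real.sqrt (Vr (WP hq (flp x y P)) (fun A => s * gf N L M a b A) + τ ^ 2)| ≤
        s * c1 L (q * (Fintype.card (Us L M) : ℝ)) +
          s ^ 2 * c3 L (q * (Fintype.card (Us L M) : ℝ)) / τ) := by
  have hL1 : (1 : ℝ) ≤ L := by exact_mod_cast hp.hL
  have hpos : 0 ≤ s ^ 2 * c3 L (q * (Fintype.card (Us L M) : ℝ)) / τ := by
    unfold c3; positivity
  have hD : (1 : ℝ) ≤ 4 * (L : ℝ) := by linarith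
  constructor
  · intro h
    have hf := (hflip (Xs N L) (Us L M) q hq hq2 hlam1 (fun A => s * gf N L M a b A) P hP x y
      hxy s (4 * (L : ℝ)) τ hs hD hτ
      (fun A A' hA hA' hz => crude_pair hcr hp.hL hp.hM hxy h a b s ha hb hs A A' hA hA' hz)).1
    refine ⟨hf.1.trans ?_, hf.2.trans ?_⟩
    · unfold c2; linarith
    · unfold c2 c3; exact le_rfl
  · intro h
    have hf := (hflip (Xs N L) (Us L M) q hq hq2 hlam1 (fun A => s * gf N L M a b A) P hP x y
      hxy s (4 * (L : ℝ)) τ hs hD hτ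
      (fun A A' hA hA' hz => crude_pair hcr hp.hL hp.hM hxy (Or.inl h) a b s ha hb hs A A'
        hA hA' hz)).2 (by
        intro A u hA hu hv
        have := swap_le hmv hp.hL hp.hM hxy h a b ha A u hA hu hv
        rw [← mul_sub, abs_mul, abs_of_nonneg hs]
        calc s * _ ≤ s * 1 := mul_le_mul_of_nonneg_left this hs
          _ = s := mul_one s)
    refine ⟨hf.1.trans ?_, hf.2.trans ?_⟩
    · unfold c1; linarith
    · unfold c1 c3; exact le_rfl

/-- the error term of the averaging -/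
noncomputable def er (N L : ℕ) (lam s τ : ℝ) : ℝ :=
  (N : ℝ) * (N * L) * (s * c1 L lam + s ^ 2 * c3 L lam / τ) ^ 2 +
    N * (s * c2 L lam + s ^ 2 * c3 L lam / τ) ^ 2

/-- the string inequality behind the averaging -/
lemma kappa (hcr : S_CRUDE) (hmv : S_MOVE) (hflip : S_FLIP) (hsn : S_SNAKE) {q : ℝ}
    {hq : Adq (Us L M) q}
    (hp : Par N L M q hq) (hq2 : q ≤ 1 / 2) (hlam1 : 1 ≤ q * (Fintype.card (Us L M) : ℝ))
    (a b s τ : ℝ) (ha : |a| ≤ 1) (hb : |b| ≤ 1) (hs : 0 ≤ s) (hτ : 0 < τ) :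
    ∃ (T : ℕ) (e : Fin (T + 1) ≃ Xs N L) (κ : Fin T → ℝ),
      ∑ k, κ k ^ 2 ≤ er N L (q * (Fintype.card (Us L M) : ℝ)) s τ ∧
      (∀ k, ∀ P : Fin (T + 1) → Bool, evn P →
        |Ex (WP hq fun x => P (e.symm x)) (fun A => s * gf N L M a b A) -
          Ex (WP hq fun x => flp k.castSucc k.succ P (e.symm x))
            (fun A => s * gf N L M a b A)| ≤ κ k) ∧
      (∀ k, ∀ P : Fin (T + 1) → Bool, evn P →
        |Real.sqrt (Vr (WP hq fun x => P (e.symm x)) (fun A => s * gf N L M a b A) + τ ^ 2) -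
          Real.sqrt (Vr (WP hq fun x => flp k.castSucc k.succ P (e.symm x))
            (fun A => s * gf N L M a b A) + τ ^ 2)| ≤ κ k) := by
  classical
  obtain ⟨T, e, hT, hadj, hfar⟩ := hsn N L hp.hN hp.hL
  set lam := q * (Fintype.card (Us L M) : ℝ) with hlam
  set κ : Fin T → ℝ := fun k => if (e k.castSucc).1 ≠ (e k.succ).1 then
    s * c2 L lam + s ^ 2 * c3 L lam / τ else s * c1 L lam + s ^ 2 * c3 L lam / τ with hκ
  have hne : ∀ k : Fin T, e k.castSucc ≠ e k.succ := by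
    intro k h
    have := e.injective h
    exact absurd this (Fin.castSucc_lt_succ).ne
  have hboth : ∀ k, ∀ P : Fin (T + 1) → Bool, evn P →
      |Ex (WP hq fun x => P (e.symm x)) (fun A => s * gf N L M a b A) -
          Ex (WP hq fun x => flp k.castSucc k.succ P (e.symm x))
            (fun A => s * gf N L M a b A)| ≤ κ k ∧
      |Real.sqrt (Vr (WP hq fun x => P (e.symm x)) (fun A => s * gf N L M a b A) + τ ^ 2) -
          Real.sqrt (Vr (WP hq fun x => flp k.castSucc k.succ P (e.symm x))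
            (fun A => s * gf N L M a b A) + τ ^ 2)| ≤ κ k := by
    intro k P hP
    have hP' : evn (fun x => P (e.symm x)) := (evn_comp e P).2 hP
    have hf := flips hcr hmv hflip hp hq2 hlam1 hP' (hne k) a b s τ ha hb hs hτ
    rw [flp_comp]
    simp only [hκ]
    by_cases h : (e k.castSucc).1 ≠ (e k.succ).1
    · rw [if_pos h]
      refine hf.1 ?_
      rcases hadj k with h' | h'
      · exact absurd h'.1 h
      · exact Or.inr h'
    · rw [if_neg h]
      refine hf.2 ?_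
      rcases hadj k with h' | h'
      · exact h'
      · exfalso
        push Not at h
        have := h'.1
        rw [h] at this
        omega
  refine ⟨T, e, κ, ?_, fun k P hP => (hboth k P hP).1, fun k P hP => (hboth k P hP).2⟩
  have h1 : ∀ k, κ k ^ 2 ≤ (s * c1 L lam + s ^ 2 * c3 L lam / τ) ^ 2 +
      (if (e k.castSucc).1 ≠ (e k.succ).1 then (s * c2 L lam + s ^ 2 * c3 L lam / τ) ^ 2
        else 0) := by
    intro k
    simp only [hκ]
    split_ifs
    · linarith [sq_nonneg (s * c1 L lam + s ^ 2 * c3 L lam / τ)]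
    · linarith
  refine (sum_le_sum fun k _ => h1 k).trans ?_
  rw [sum_add_distrib, ← sum_filter, sum_const, sum_const, nsmul_eq_mul, nsmul_eq_mul, card_univ,
    Fintype.card_fin]
  unfold er
  refine add_le_add ?_ ?_
  · refine mul_le_mul_of_nonneg_right ?_ (sq_nonneg _)
    have : (T : ℝ) + 1 = N * (N * L) := by exact_mod_cast hT
    linarith
  · refine mul_le_mul_of_nonneg_right ?_ (sq_nonneg _)
    exact_mod_cast hfar

/-- **the averaged normal approximation** -/
theorem avg_bound (hcr : S_CRUDE) (hmv : S_MOVE) (hflip : S_FLIP) (hsn : S_SNAKE)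
    (hglue : S_GLUE) (havg : S_AVG) {q : ℝ}
    {hq : Adq (Us L M) q} (hq0 : 0 < q) (hp14 : 1 / 4 ≤ pr (Us L M) q true)
    (hp12 : pr (Us L M) q true ≤ 1 / 2)
    (hp : Par N L M q hq) (hq2 : q ≤ 1 / 2) (hlam1 : 1 ≤ q * (Fintype.card (Us L M) : ℝ))
    (a b s τ ε : ℝ) (ha : |a| ≤ 1) (hb : |b| ≤ 1) (hs : 0 ≤ s) (hτ : 0 < τ) (hε : 0 ≤ ε)
    (hchar : ∀ P : Xs N L → Bool, evn P →
      ‖Ex (WP hq P) (fun A => Complex.exp (Complex.I *
        ((s * (gf N L M a b A - Ex (WP hq P) (gf N L M a b)) : ℝ) : ℂ))) -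
        Complex.exp ((-(Vr (WP hq P) fun A => s * gf N L M a b A) / 2 : ℝ) : ℂ)‖ ≤ ε) :
    ‖ExE q (fun S : Finset (TSP.Ix (N * L) 1 M) => Complex.exp (Complex.I *
        ((s * (a * fM (N * L) M S + b * (S.card : ℝ)) -
          ExE q (fun S : Finset (TSP.Ix (N * L) 1 M) =>
            s * (a * fM (N * L) M S + b * (S.card : ℝ))) : ℝ) : ℂ))) -
      Complex.exp ((-(VrE q fun S : Finset (TSP.Ix (N * L) 1 M) =>
        s * (a * fM (N * L) M S + b * (S.card : ℝ))) / 2 : ℝ) : ℂ)‖ ≤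
    ε + 8 * Real.sqrt (er N L (q * (Fintype.card (Us L M) : ℝ)) s τ) + τ ^ 2 := by
  obtain ⟨T, e, κ, hκs, hκV, hκS⟩ := kappa hcr hmv hflip hsn hp hq2 hlam1 a b s τ ha hb hs hτ
  obtain ⟨g1, g2, g3, g4, g5, g6⟩ := hglue N L M hp.hN hp.hL hp.hM q hq0 (by linarith)
  set p := pr (Us L M) q true with hpdef
  set G : (Xs N L → Finset (Us L M)) → ℝ := fun A => s * gf N L M a b A with hG
  set F : Finset (TSP.Ix (N * L) 1 M) → ℝ :=
    fun S => s * (a * fM (N * L) M S + b * (S.card : ℝ)) with hF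
  have hFG : ∀ A, F (gl N L M A) = G A := fun A => rfl
  set V : (Fin (T + 1) → Bool) → ℝ := fun P => Ex (WP hq fun x => P (e.symm x)) G with hV
  set S2 : (Fin (T + 1) → Bool) → ℝ := fun P => Vr (WP hq fun x => P (e.symm x)) G with hS2
  set m : ℝ := ExE q F with hm
  have hmV : m = EW p V := by
    rw [hm, g6 hq ℝ F]
    have : (fun P : Xs N L → Bool => Ex (WP hq P) fun A => F (gl N L M A)) =
        fun P => Ex (WP hq P) G := rfl
    rw [this]
    exact (EW_comp p e (fun P : Xs N L → Bool => Ex (WP hq P) G)).symm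
  set Z : (Fin (T + 1) → Bool) → ℂ := fun P => Ex (WP hq fun x => P (e.symm x))
    (fun A => Complex.exp (Complex.I * ((G A - V P : ℝ) : ℂ))) with hZ
  have key := havg T p hp14 hp12 V S2 Z κ ε τ hε hτ.le (fun P => Ex_nonneg fun _ => sq_nonneg _)
    (by
      intro P hP
      have h1 := hchar (fun x => P (e.symm x)) ((evn_comp e P).2 hP)
      have h2 : ∀ A, s * (gf N L M a b A - Ex (WP hq fun x => P (e.symm x)) (gf N L M a b)) =
          G A - V P := by
        intro A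
        simp only [hG, hV]
        rw [Ex_mul_left]
        ring
      simp only [h2] at h1
      exact h1) hκV hκS
  -- identification of the left hand side
  have e1 : ExE q (fun S => Complex.exp (Complex.I * ((F S - m : ℝ) : ℂ))) =
      EW p (fun P => Complex.exp (Complex.I * ((V P - EW p V : ℝ) : ℂ)) * Z P) := by
    rw [g6 hq ℂ]
    rw [← EW_comp p e]
    congr 1
    funext P
    simp only [hZ, hFG]
    rw [← hmV]
    have h3 : ∀ A, Complex.exp (Complex.I * ((G A - m : ℝ) : ℂ)) =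
        Complex.exp (Complex.I * ((V P - m : ℝ) : ℂ)) *
          Complex.exp (Complex.I * ((G A - V P : ℝ) : ℂ)) := by
      intro A
      rw [← Complex.exp_add]
      congr 1
      push_cast
      ring
    simp only [h3]
    unfold Ex
    rw [mul_sum]
    refine sum_congr rfl fun A _ => ?_
    rw [mul_smul_comm]
  have e2 : VrE q F = EW p S2 + EW p (fun P => (V P - EW p V) ^ 2) := by
    unfold VrE
    rw [g6 hq ℝ, ← EW_add, ← EW_comp p e]
    congr 1
    funext P
    rw [← hm, ← hmV]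
    exact Ex_sq_shift (WP hq fun x => P (e.symm x)) G m
  rw [e1, e2]
  refine key.trans ?_
  have h6 := Real.sqrt_le_sqrt hκs
  linarith

/-- bound for the variance -/
theorem var_bound (hcr : S_CRUDE) (hmv : S_MOVE) (hflip : S_FLIP) (hsn : S_SNAKE)
    (hglue : S_GLUE) (hpoi : S_POI) {q : ℝ}
    {hq : Adq (Us L M) q} (hq0 : 0 < q) (hp14 : 1 / 4 ≤ pr (Us L M) q true)
    (hp12 : pr (Us L M) q true ≤ 1 / 2)
    (hp : Par N L M q hq) (hq2 : q ≤ 1 / 2) (hlam1 : 1 ≤ q * (Fintype.card (Us L M) : ℝ))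
    (a b s : ℝ) (ha : |a| ≤ 1) (hb : |b| ≤ 1) (hs : 0 ≤ s) :
    VrE q (fun S : Finset (TSP.Ix (N * L) 1 M) =>
        s * (a * fM (N * L) M S + b * (S.card : ℝ))) ≤
    s ^ 2 * (Ks L * ((N : ℝ) * L) ^ 2) +
      4 * er N L (q * (Fintype.card (Us L M) : ℝ)) s 1 := by
  obtain ⟨T, e, κ, hκs, hκV, hκS⟩ :=
    kappa hcr hmv hflip hsn hp hq2 hlam1 a b s 1 ha hb hs one_pos
  obtain ⟨g1, g2, g3, g4, g5, g6⟩ := hglue N L M hp.hN hp.hL hp.hM q hq0 (by linarith)
  set p := pr (Us L M) q true with hpdef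
  set G : (Xs N L → Finset (Us L M)) → ℝ := fun A => s * gf N L M a b A with hG
  set F : Finset (TSP.Ix (N * L) 1 M) → ℝ :=
    fun S => s * (a * fM (N * L) M S + b * (S.card : ℝ)) with hF
  have hFG : ∀ A, F (gl N L M A) = G A := fun A => rfl
  set V : (Fin (T + 1) → Bool) → ℝ := fun P => Ex (WP hq fun x => P (e.symm x)) G with hV
  set S2 : (Fin (T + 1) → Bool) → ℝ := fun P => Vr (WP hq fun x => P (e.symm x)) G with hS2
  set m : ℝ := ExE q F with hm
  have hmV : m = EW p V := by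
    rw [hm, g6 hq ℝ F]
    have : (fun P : Xs N L → Bool => Ex (WP hq P) fun A => F (gl N L M A)) =
        fun P => Ex (WP hq P) G := rfl
    rw [this]
    exact (EW_comp p e (fun P : Xs N L → Bool => Ex (WP hq P) G)).symm
  have e2 : VrE q F = EW p S2 + EW p (fun P => (V P - EW p V) ^ 2) := by
    unfold VrE
    rw [g6 hq ℝ, ← EW_add, ← EW_comp p e]
    congr 1
    funext P
    rw [← hm, ← hmV]
    exact Ex_sq_shift (WP hq fun x => P (e.symm x)) G m
  rw [e2]
  have hv := hpoi T p hp14 hp12 V κ hκV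
  have hu : Nonempty (Us L M) := ⟨(⟨0, Nat.mul_pos hp.hL hp.hM⟩, ⟨0, hp.hM⟩)⟩
  obtain ⟨u₀⟩ := hu
  have hSb : ∀ P, evn P → S2 P ≤ s ^ 2 * (Ks L * ((N : ℝ) * L) ^ 2) := by
    intro P hP
    have hP' : evn (fun x => P (e.symm x)) := (evn_comp e P).2 hP
    have h1 := Vr_le_of_sites _ _ (sites hcr hp hP' u₀ a b ha hb)
    have h2 : S2 P = s ^ 2 * Vr (WP hq fun x => P (e.symm x)) (gf N L M a b) :=
      Vr_scale _ _ _
    have h3 : Vr (WP hq fun x => P (e.symm x)) (gP a b u₀ fun x => P (e.symm x)) =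
        Vr (WP hq fun x => P (e.symm x)) (gf N L M a b) := by
      unfold Vr
      have e3 : Ex (WP hq fun x => P (e.symm x)) (gP a b u₀ fun x => P (e.symm x)) =
          Ex (WP hq fun x => P (e.symm x)) (gf N L M a b) :=
        Ex_corr hq u₀ _ (gf N L M a b)
      rw [e3]
      exact Ex_corr hq u₀ _ (fun A => (gf N L M a b A -
        Ex (WP hq fun x => P (e.symm x)) (gf N L M a b)) ^ 2)
    rw [h2, ← h3]
    exact mul_le_mul_of_nonneg_left h1 (sq_nonneg _)
  have hEW : EW p S2 ≤ s ^ 2 * (Ks L * ((N : ℝ) * L) ^ 2) := by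
    have hw : ∀ P : Fin (T + 1) → Bool, 0 ≤ wt p P := by
      intro P
      unfold wt
      refine prod_nonneg fun x _ => ?_
      split_ifs <;> linarith
    set W : ℝ := ∑ P : Fin (T + 1) → Bool, if evn P then wt p P else 0 with hW
    have hW0 : 0 ≤ W := sum_nonneg fun P _ => by
      split_ifs
      · exact hw P
      · exact le_rfl
    have h1 : ∑ P : Fin (T + 1) → Bool, (if evn P then wt p P • S2 P else 0) ≤
        W * (s ^ 2 * (Ks L * ((N : ℝ) * L) ^ 2)) := by
      rw [hW, sum_mul]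
      refine sum_le_sum fun P _ => ?_
      split_ifs with hP
      · rw [smul_eq_mul]
        exact mul_le_mul_of_nonneg_left (hSb P hP) (hw P)
      · rw [zero_mul]
    unfold EW
    rw [← hW, smul_eq_mul]
    rcases hW0.eq_or_lt with h | h
    · rw [← h, inv_zero, zero_mul]
      have := (Ks_pos L).le
      positivity
    · rw [inv_mul_le_iff₀ h]
      exact h1
  have h6 : 4 * ∑ k, κ k ^ 2 ≤ 4 * er N L (q * (Fintype.card (Us L M) : ℝ)) s 1 := by
    linarith
  linarith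

end Pool.Agent.N940.MM
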