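import Pool.Agent.N940.MM.Core2

/-!
# The normal approximation for random sets with an even number of elements
-/

set_option autoImplicit false
set_option linter.unusedSectionVars false
set_option linter.unusedVariables false

open Filter Topology

namespace Pool.Agent.N940.MM

open Finset

lemma pow_le_half {q : ℝ} (h0 : 0 ≤ q) (h2 : q ≤ 1 / 2) {n : ℕ} (h : 1 ≤ q * n) :
    0 ≤ (1 - 2 * q) ^ n ∧ (1 - 2 * q) ^ n ≤ 1 / 2 := by
  have h3 : 0 ≤ 1 - 2 * q := by linarith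
  refine ⟨by positivity, ?_⟩
  have h4 : 1 - 2 * q ≤ Real.exp (-(2 * q)) := by
    have := Real.add_one_le_exp (-(2 * q))
    linarith
  have h5 : (1 - 2 * q) ^ n ≤ Real.exp (-(2 * q)) ^ n := pow_le_pow_left₀ h3 h4 n
  rw [← Real.exp_nat_mul] at h5
  have h6 : Real.exp (n * -(2 * q)) ≤ Real.exp (-1) := Real.exp_le_exp.2 (by nlinarith)
  have h7 : Real.exp (-1) ≤ 1 / 2 := by
    have := Real.exp_one_gt_d9
    rw [Real.exp_neg]
    rw [inv_le_comm₀ (Real.exp_pos 1) (by norm_num)]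
    linarith
  linarith

/-- the parameters of the model -/
structure Mdl (M : ℕ) (q : ℝ) : Prop where
  hM : 1 ≤ M
  q0 : 0 < q
  q2 : q ≤ 1 / 2
  l1 : 1 ≤ q * (M : ℝ) ^ 2
  l4 : q * (M : ℝ) ^ 2 ≤ 4

variable {M : ℕ} {q : ℝ}

lemma card_Us (L M : ℕ) : (Fintype.card (Us L M) : ℝ) = L * (M : ℝ) ^ 2 := by
  rw [Fintype.card_prod, Fintype.card_fin, Fintype.card_fin]
  push_cast
  ring

lemma Mdl.lam1 (h : Mdl M q) {L : ℕ} : (L : ℝ) ≤ q * (Fintype.card (Us L M) : ℝ) := by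
  rw [card_Us]
  have := h.l1
  have hL0 : (0 : ℝ) ≤ L := Nat.cast_nonneg _
  nlinarith [mul_le_mul_of_nonneg_left this hL0]

lemma Mdl.lam4 (h : Mdl M q) {L : ℕ} : q * (Fintype.card (Us L M) : ℝ) ≤ 4 * L := by
  rw [card_Us]
  have := h.l4
  have hL0 : (0 : ℝ) ≤ L := Nat.cast_nonneg _
  nlinarith [mul_le_mul_of_nonneg_left this hL0]

lemma Mdl.prs (hglue : S_GLUE) (h : Mdl M q) {L : ℕ} (hL : 0 < L) :
    (∀ b, 1 / 4 ≤ pr (Us L M) q b) ∧ pr (Us L M) q true ≤ 1 / 2 := by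
  obtain ⟨g1, g2, g3, g4, g5, g6⟩ := hglue 1 L M one_pos hL h.hM q h.q0 (by linarith [h.q2])
  have hL1 : (1 : ℝ) ≤ L := by exact_mod_cast hL
  obtain ⟨r1, r2⟩ := pow_le_half h.q0.le h.q2 (n := Fintype.card (Us L M))
    (hL1.trans h.lam1)
  refine ⟨?_, by rw [g4]; linarith⟩
  intro b
  cases b
  · rw [g5]; linarith
  · rw [g4]; linarith

lemma Mdl.adq (hglue : S_GLUE) (h : Mdl M q) {L : ℕ} (hL : 0 < L) : Adq (Us L M) q where
  h0 := h.q0.le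
  h1 := by linarith [h.q2]
  hp b := by linarith [(h.prs hglue hL).1 b]

lemma Mdl.par (hglue : S_GLUE) (h : Mdl M q) {N L : ℕ} (hN : 0 < N) (hL : 0 < L)
    (hq : Adq (Us L M) q) : Par N L M q hq where
  hN := hN
  hL := hL
  hM := h.hM
  hpr := (h.prs hglue hL).1
  hlam := h.lam4

lemma exists_L (ε : ℝ) (hε : 0 < ε) : ∃ l : ℕ,
    100 * (4 * ((2 ^ l : ℕ) : ℝ)) * (4 * ((2 ^ l : ℕ) : ℝ) + 2) *
      Real.exp (-((2 ^ l : ℕ) : ℝ) / 2) ≤ 1 ∧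
    8 * Real.sqrt (16 / ((2 ^ l : ℕ) : ℝ)) ≤ ε := by
  have h1 : Tendsto (fun x : ℝ => 100 * (4 * x) * (4 * x + 2) * Real.exp (-x / 2)) atTop (𝓝 0) := by
    have t : Tendsto (fun x : ℝ => x / 2) atTop atTop := tendsto_id.atTop_div_const (by norm_num)
    have a1 := (Real.tendsto_pow_mul_exp_neg_atTop_nhds_zero 1).comp t
    have a2 := (Real.tendsto_pow_mul_exp_neg_atTop_nhds_zero 2).comp t
    have a3 := (a2.const_mul 6400).add (a1.const_mul 1600)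
    simp only [mul_zero, add_zero] at a3
    refine a3.congr fun x => ?_
    simp only [Function.comp]
    have : -(x / 2) = -x / 2 := by ring
    rw [this]
    ring
  have h2 : Tendsto (fun x : ℝ => 8 * Real.sqrt (16 / x)) atTop (𝓝 0) := by
    have a1 : Tendsto (fun x : ℝ => 16 / x) atTop (𝓝 0) := tendsto_id.const_div_atTop 16
    have a2 := (Real.continuous_sqrt.tendsto 0).comp a1
    rw [Real.sqrt_zero] at a2
    have := a2.const_mul 8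
    simpa using this
  have h3 : Tendsto (fun l : ℕ => ((2 ^ l : ℕ) : ℝ)) atTop atTop :=
    tendsto_natCast_atTop_atTop.comp (tendsto_pow_atTop_atTop_of_one_lt (by norm_num))
  have e1 := (h1.comp h3).eventually (gt_mem_nhds (by norm_num : (0 : ℝ) < 1))
  have e2 := (h2.comp h3).eventually (gt_mem_nhds hε)
  obtain ⟨l, hl1, hl2⟩ := (e1.and e2).exists
  exact ⟨l, hl1.le, hl2.le⟩

/-- bound for the error term -/
lemma er_le (N L : ℕ) (hN : 0 < N) (hL : 0 < L) (lam s τ θ : ℝ) (hl1 : (L : ℝ) ≤ lam)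
    (hl4 : lam ≤ 4 * L) (hτ : 0 < τ) (hθ : 1 ≤ θ) (hs : s = θ / ((N : ℝ) * L))
    (hc1 : 100 * (4 * (L : ℝ)) * (4 * (L : ℝ) + 2) * Real.exp (-(L : ℝ) / 2) ≤ 1) :
    er N L lam s τ ≤ θ ^ 4 * (8 / L +
      (4 * (100 * (4 * (L : ℝ)) ^ 2 * (4 * (L : ℝ) + 2) ^ 2) ^ 2 / τ ^ 2 +
        2 * (100 * (4 * (L : ℝ)) * (4 * (L : ℝ) + 2)) ^ 2) / ((N : ℝ) * L)) := by
  have hN1 : (1 : ℝ) ≤ N := by exact_mod_cast hN
  have hL1 : (1 : ℝ) ≤ L := by exact_mod_cast hL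
  have hN0 : (0 : ℝ) < N := by linarith
  have hL0 : (0 : ℝ) < L := by linarith
  obtain ⟨R, hR⟩ : ∃ R, R = (N : ℝ) * L := ⟨_, rfl⟩
  have hR1 : 1 ≤ R := by rw [hR]; nlinarith
  have hR0 : 0 < R := by linarith
  have hNR : (N : ℝ) ≤ R := by rw [hR]; nlinarith
  obtain ⟨C2, hC2⟩ : ∃ C2, C2 = 100 * (4 * (L : ℝ)) * (4 * (L : ℝ) + 2) := ⟨_, rfl⟩
  obtain ⟨C3, hC3⟩ : ∃ C3, C3 = 100 * (4 * (L : ℝ)) ^ 2 * (4 * (L : ℝ) + 2) ^ 2 := ⟨_, rfl⟩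
  have hC20 : 0 < C2 := by rw [hC2]; positivity
  have hC30 : 0 < C3 := by rw [hC3]; positivity
  rw [← hC2, ← hC3]
  have hs0 : 0 < s := by rw [hs]; positivity
  have b1 : c1 L lam ≤ 2 := by
    unfold c1
    have e1 : Real.exp (-lam / 2) ≤ Real.exp (-(L : ℝ) / 2) := Real.exp_le_exp.2 (by linarith)
    have e2 : 100 * (4 * (L : ℝ)) * (lam + 2) * Real.exp (-lam / 2) ≤
        100 * (4 * (L : ℝ)) * (4 * (L : ℝ) + 2) * Real.exp (-(L : ℝ) / 2) := by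
      refine mul_le_mul ?_ e1 (Real.exp_pos _).le (by positivity)
      exact mul_le_mul_of_nonneg_left (by linarith) (by positivity)
    linarith
  have b1' : 0 ≤ c1 L lam := by
    have : 0 ≤ lam := hL0.le.trans hl1
    unfold c1; positivity
  have hlam0 : 0 ≤ lam := hL0.le.trans hl1
  have b2 : c2 L lam ≤ C2 := by
    unfold c2; rw [hC2]
    exact mul_le_mul_of_nonneg_left (by linarith) (by positivity)
  have b2' : 0 ≤ c2 L lam := by unfold c2; positivity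
  have b3 : c3 L lam ≤ C3 := by
    unfold c3; rw [hC3]
    refine mul_le_mul_of_nonneg_left ?_ (by positivity)
    exact pow_le_pow_left₀ (by linarith) (by linarith) 2
  have b3' : 0 ≤ c3 L lam := by unfold c3; positivity
  have sq2 : ∀ x y X Y : ℝ, 0 ≤ x → 0 ≤ y → x ≤ X → y ≤ Y → (x + y) ^ 2 ≤ 2 * X ^ 2 + 2 * Y ^ 2 := by
    intro x y X Y hx hy hxX hyY
    have h1 : x ^ 2 ≤ X ^ 2 := pow_le_pow_left₀ hx hxX 2
    have h2 : y ^ 2 ≤ Y ^ 2 := pow_le_pow_left₀ hy hyY 2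
    nlinarith [sq_nonneg (x - y)]
  have k3 : s ^ 2 * c3 L lam / τ ≤ s ^ 2 * C3 / τ := by
    refine div_le_div_of_nonneg_right ?_ hτ.le
    exact mul_le_mul_of_nonneg_left b3 (sq_nonneg s)
  have k1 := sq2 (s * c1 L lam) (s ^ 2 * c3 L lam / τ) (s * 2) (s ^ 2 * C3 / τ) (by positivity)
    (by positivity) (mul_le_mul_of_nonneg_left b1 hs0.le) k3
  have k2 := sq2 (s * c2 L lam) (s ^ 2 * c3 L lam / τ) (s * C2) (s ^ 2 * C3 / τ) (by positivity)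
    (by positivity) (mul_le_mul_of_nonneg_left b2 hs0.le) k3
  have hsR : s = θ / R := by rw [hs, hR]
  have hNNL : (N : ℝ) * (N * L) = R ^ 2 / L := by
    rw [hR]; field_simp
  have m1 : (N : ℝ) * (N * L) * (s * c1 L lam + s ^ 2 * c3 L lam / τ) ^ 2 ≤
      8 * θ ^ 2 / L + 2 * θ ^ 4 * C3 ^ 2 / (L * R ^ 2 * τ ^ 2) := by
    rw [hNNL]
    calc R ^ 2 / L * (s * c1 L lam + s ^ 2 * c3 L lam / τ) ^ 2
        ≤ R ^ 2 / L * (2 * (s * 2) ^ 2 + 2 * (s ^ 2 * C3 / τ) ^ 2) :=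
          mul_le_mul_of_nonneg_left k1 (by positivity)
      _ = _ := by rw [hsR]; field_simp; ring
  have m2 : (N : ℝ) * (s * c2 L lam + s ^ 2 * c3 L lam / τ) ^ 2 ≤
      2 * θ ^ 2 * C2 ^ 2 / R + 2 * θ ^ 4 * C3 ^ 2 / (R ^ 3 * τ ^ 2) := by
    calc (N : ℝ) * (s * c2 L lam + s ^ 2 * c3 L lam / τ) ^ 2
        ≤ R * (2 * (s * C2) ^ 2 + 2 * (s ^ 2 * C3 / τ) ^ 2) :=
          mul_le_mul hNR k2 (sq_nonneg _) hR0.le
      _ = _ := by rw [hsR]; field_simp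
  have hθ24 : θ ^ 2 ≤ θ ^ 4 := pow_le_pow_right₀ hθ (by norm_num)
  have m3' : 8 * θ ^ 2 / L ≤ θ ^ 4 * (8 / L) := by
    rw [mul_div_assoc', mul_comm (θ ^ 4)]
    exact div_le_div_of_nonneg_right (by linarith) hL0.le
  have m4 : 2 * θ ^ 4 * C3 ^ 2 / (L * R ^ 2 * τ ^ 2) ≤ θ ^ 4 * (2 * C3 ^ 2 / τ ^ 2 / R) := by
    have : θ ^ 4 * (2 * C3 ^ 2 / τ ^ 2 / R) = 2 * θ ^ 4 * C3 ^ 2 / (R * τ ^ 2) := by
      field_simp
    rw [this]
    refine div_le_div_of_nonneg_left (by positivity) (by positivity) ?_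
    refine mul_le_mul_of_nonneg_right ?_ (sq_nonneg τ)
    nlinarith
  have m5 : 2 * θ ^ 2 * C2 ^ 2 / R ≤ θ ^ 4 * (2 * C2 ^ 2 / R) := by
    rw [mul_div_assoc']
    refine div_le_div_of_nonneg_right ?_ hR0.le
    nlinarith [mul_le_mul_of_nonneg_right hθ24 (sq_nonneg C2)]
  have m6 : 2 * θ ^ 4 * C3 ^ 2 / (R ^ 3 * τ ^ 2) ≤ θ ^ 4 * (2 * C3 ^ 2 / τ ^ 2 / R) := by
    have : θ ^ 4 * (2 * C3 ^ 2 / τ ^ 2 / R) = 2 * θ ^ 4 * C3 ^ 2 / (R * τ ^ 2) := by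
      field_simp
    rw [this]
    refine div_le_div_of_nonneg_left (by positivity) (by positivity) ?_
    refine mul_le_mul_of_nonneg_right ?_ (sq_nonneg τ)
    nlinarith [mul_pos hR0 hR0, pow_pos hR0 3]
  rw [← hR]
  have hfin : θ ^ 4 * (8 / L + (4 * C3 ^ 2 / τ ^ 2 + 2 * C2 ^ 2) / R) =
      θ ^ 4 * (8 / L) + (θ ^ 4 * (2 * C3 ^ 2 / τ ^ 2 / R) + (θ ^ 4 * (2 * C2 ^ 2 / R) +
        θ ^ 4 * (2 * C3 ^ 2 / τ ^ 2 / R))) := by
    field_simp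
    ring
  rw [hfin]
  unfold er
  linarith

/-- **the normal approximation** -/
theorem core (hmix : S_MIX) (hcr : S_CRUDE) (hmv : S_MOVE) (hflip : S_FLIP) (hsn : S_SNAKE)
    (hglue : S_GLUE) (havg : S_AVG) (ε : ℝ) (hε : 0 < ε) : ∃ R₀ : ℕ, ∀ R : ℕ, R₀ ≤ R →
      (∃ J, R = 2 ^ J) → ∀ (M : ℕ) (q : ℝ), Mdl M q → ∀ a b θ : ℝ, |a| ≤ 1 → |b| ≤ 1 → 1 ≤ θ →
      ‖ExE q (fun S : Finset (TSP.Ix R 1 M) => Complex.exp (Complex.I *
        ((θ / R * (a * fM R M S + b * (S.card : ℝ)) -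
          ExE q (fun S : Finset (TSP.Ix R 1 M) =>
            θ / R * (a * fM R M S + b * (S.card : ℝ))) : ℝ) : ℂ))) -
        Complex.exp ((-(VrE q fun S : Finset (TSP.Ix R 1 M) =>
          θ / R * (a * fM R M S + b * (S.card : ℝ))) / 2 : ℝ) : ℂ)‖ ≤ ε * θ ^ 4 := by
  obtain ⟨l, hl1, hl2⟩ := exists_L (ε / 4) (by positivity)
  obtain ⟨L, hL⟩ : ∃ L : ℕ, L = 2 ^ l := ⟨_, rfl⟩
  rw [← hL] at hl1 hl2
  have hL0 : 0 < L := by rw [hL]; positivity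
  have hL1 : (1 : ℝ) ≤ L := by exact_mod_cast hL0
  obtain ⟨N₀, hN₀⟩ := charP hmix hcr L hL0 (ε / 4) (by positivity)
  obtain ⟨τ, hτ, hτ2⟩ : ∃ τ : ℝ, 0 < τ ∧ τ ^ 2 = ε / 4 :=
    ⟨Real.sqrt (ε / 4), Real.sqrt_pos.2 (by positivity), Real.sq_sqrt (by positivity)⟩
  obtain ⟨W, hW⟩ : ∃ W, W = 4 * (100 * (4 * (L : ℝ)) ^ 2 * (4 * (L : ℝ) + 2) ^ 2) ^ 2 / τ ^ 2 +
        2 * (100 * (4 * (L : ℝ)) * (4 * (L : ℝ) + 2)) ^ 2 := ⟨_, rfl⟩
  obtain ⟨N₁, hN₁⟩ := exists_nat_ge (W * L / 8)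
  refine ⟨max (L * N₀) (max L N₁), ?_⟩
  rintro R hR ⟨J, hJ⟩ M q hm a b θ ha hb hθ
  have hRL : L ≤ R := (le_max_left _ _).trans ((le_max_right _ _).trans hR)
  have hRN : L * N₀ ≤ R := (le_max_left _ _).trans hR
  have hRN1 : N₁ ≤ R := (le_max_right _ _).trans ((le_max_right _ _).trans hR)
  have hlJ : l ≤ J := by
    rw [hL, hJ] at hRL
    exact (Nat.pow_le_pow_iff_right (by norm_num)).1 hRL
  obtain ⟨J', hJ'⟩ : ∃ J', J = J' + l := ⟨J - l, by omega⟩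
  have hRN' : R = 2 ^ J' * L := by rw [hJ, hJ', hL, pow_add]
  subst hRN'
  have hN0 : N₀ ≤ 2 ^ J' := by
    rw [mul_comm] at hRN
    exact Nat.le_of_mul_le_mul_right hRN hL0
  have hN0' : 0 < 2 ^ J' := by positivity
  have hq := hm.adq hglue hL0
  have hp := hm.par hglue hN0' hL0 hq
  have hlam1 := hm.lam1 (L := L)
  have hlam4 := hm.lam4 (L := L)
  have hcast : ((2 ^ J' * L : ℕ) : ℝ) = ((2 ^ J' : ℕ) : ℝ) * L := by push_cast; ring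
  have hRpos : (0 : ℝ) < ((2 ^ J' : ℕ) : ℝ) * L := by
    have : (0 : ℝ) < ((2 ^ J' : ℕ) : ℝ) := by exact_mod_cast hN0'
    positivity
  rw [hcast]
  have hs0 : 0 ≤ θ / (((2 ^ J' : ℕ) : ℝ) * L) := by positivity
  have h1 := avg_bound hcr hmv hflip hsn hglue havg (hq := hq) hm.q0
    ((hm.prs hglue hL0).1 true) (hm.prs hglue hL0).2 hp hm.q2 (hL1.trans hlam1) a b
    (θ / (((2 ^ J' : ℕ) : ℝ) * L)) τ (ε / 4 * θ ^ 4) ha hb hs0 hτ (by positivity)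
    (fun P hP => hN₀ J' hN0 M q hq hp P hP a b θ ha hb hθ)
  refine h1.trans ?_
  have h2 := er_le (2 ^ J') L hN0' hL0 (q * (Fintype.card (Us L M) : ℝ))
    (θ / (((2 ^ J' : ℕ) : ℝ) * L)) τ θ hlam1 hlam4 hτ hθ rfl hl1
  rw [← hW] at h2
  have hθ4 : 1 ≤ θ ^ 4 := one_le_pow₀ hθ
  have h3 : W / (((2 ^ J' : ℕ) : ℝ) * L) ≤ 8 / L := by
    rw [div_le_div_iff₀ hRpos (by linarith)]
    have h4 : W * L / 8 ≤ ((2 ^ J' : ℕ) : ℝ) * L := by
      refine hN₁.trans ?_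
      rw [← hcast]
      exact_mod_cast hRN1
    linarith
  have h5 : er (2 ^ J') L (q * (Fintype.card (Us L M) : ℝ)) (θ / (((2 ^ J' : ℕ) : ℝ) * L)) τ ≤
      (θ ^ 4) ^ 2 * (16 / L) := by
    refine h2.trans ?_
    have h6 : θ ^ 4 ≤ (θ ^ 4) ^ 2 := by nlinarith
    have h7 : (8 : ℝ) / L + W / (((2 ^ J' : ℕ) : ℝ) * L) ≤ 16 / L := by
      have : (16 : ℝ) / L = 8 / L + 8 / L := by ring
      rw [this]; linarith
    have h8 : (0 : ℝ) ≤ 16 / L := by positivity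
    calc _ ≤ θ ^ 4 * (16 / L) := mul_le_mul_of_nonneg_left h7 (by positivity)
      _ ≤ _ := mul_le_mul_of_nonneg_right h6 h8
  have h9 : Real.sqrt (er (2 ^ J') L (q * (Fintype.card (Us L M) : ℝ))
      (θ / (((2 ^ J' : ℕ) : ℝ) * L)) τ) ≤ θ ^ 4 * Real.sqrt (16 / L) := by
    refine (Real.sqrt_le_sqrt h5).trans (le_of_eq ?_)
    rw [Real.sqrt_mul (by positivity), Real.sqrt_sq (by positivity)]
  have h10 : 8 * Real.sqrt (er (2 ^ J') L (q * (Fintype.card (Us L M) : ℝ))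
      (θ / (((2 ^ J' : ℕ) : ℝ) * L)) τ) ≤ θ ^ 4 * (ε / 4) := by
    calc _ ≤ 8 * (θ ^ 4 * Real.sqrt (16 / L)) := by linarith
      _ = θ ^ 4 * (8 * Real.sqrt (16 / L)) := by ring
      _ ≤ θ ^ 4 * (ε / 4) := mul_le_mul_of_nonneg_left hl2 (by positivity)
  rw [hτ2]
  nlinarith

/-- **the variance is bounded** -/
theorem core_var (hcr : S_CRUDE) (hmv : S_MOVE) (hflip : S_FLIP) (hsn : S_SNAKE)
    (hglue : S_GLUE) (hpoi : S_POI) : ∃ C : ℝ, 0 < C ∧ ∀ R : ℕ, 0 < R → ∀ (M : ℕ) (q : ℝ),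
      Mdl M q → VrE q (fun S : Finset (TSP.Ix R 1 M) => fM R M S / R) ≤ C := by
  obtain ⟨C2, hC2⟩ : ∃ C2 : ℝ, C2 = 1 + 100 * 4 * 6 := ⟨_, rfl⟩
  obtain ⟨C3, hC3⟩ : ∃ C3 : ℝ, C3 = 100 * 4 ^ 2 * 6 ^ 2 := ⟨_, rfl⟩
  refine ⟨Ks 1 + 8 * (C2 + C3) ^ 2, ?_, ?_⟩
  · have := Ks_pos 1
    rw [hC2, hC3]
    positivity
  intro R hR M q hm
  obtain ⟨N, hN⟩ : ∃ N, N = R := ⟨_, rfl⟩
  have hRN : R = N * 1 := by rw [hN, mul_one]
  subst hRN
  have hN0 : 0 < N := by omega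
  have hN1 : (1 : ℝ) ≤ N := by exact_mod_cast hN0
  have hq := hm.adq hglue one_pos
  have hp := hm.par hglue hN0 one_pos hq
  have hlam1 := hm.lam1 (L := 1)
  have hlam4 := hm.lam4 (L := 1)
  have hv := var_bound hcr hmv hflip hsn hglue hpoi (hq := hq) hm.q0
    ((hm.prs hglue one_pos).1 true) (hm.prs hglue one_pos).2 hp hm.q2 (by simpa using hlam1) 1 0
    (1 / (N : ℝ)) (by norm_num) (by norm_num) (by positivity)
  have e1 : (fun S : Finset (TSP.Ix (N * 1) 1 M) => fM (N * 1) M S / ((N * 1 : ℕ) : ℝ)) =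
      fun S => 1 / (N : ℝ) * (1 * fM (N * 1) M S + 0 * (S.card : ℝ)) := by
    funext S
    push_cast
    ring
  rw [e1]
  refine hv.trans ?_
  obtain ⟨lam, hlam⟩ : ∃ lam, lam = q * (Fintype.card (Us 1 M) : ℝ) := ⟨_, rfl⟩
  rw [← hlam] at hlam1 hlam4 ⊢
  simp only [Nat.cast_one, mul_one] at hlam1 hlam4
  have hN0' : (0 : ℝ) < N := by linarith
  have b1 : 0 ≤ c1 1 lam ∧ c1 1 lam ≤ C2 := by
    unfold c1
    have h1 : Real.exp (-lam / 2) ≤ 1 := Real.exp_le_one_iff.2 (by linarith)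
    have h2 := Real.exp_pos (-lam / 2)
    push_cast
    constructor
    · positivity
    · rw [hC2]
      have : 100 * (4 * 1) * (lam + 2) * Real.exp (-lam / 2) ≤ 100 * 4 * 6 * 1 :=
        mul_le_mul (by linarith) h1 h2.le (by norm_num)
      linarith
  have b2 : 0 ≤ c2 1 lam ∧ c2 1 lam ≤ C2 := by
    unfold c2
    push_cast
    constructor
    · positivity
    · rw [hC2]; linarith
  have b3 : 0 ≤ c3 1 lam ∧ c3 1 lam ≤ C3 := by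
    unfold c3
    push_cast
    constructor
    · positivity
    · rw [hC3]
      have : (lam + 2) ^ 2 ≤ 6 ^ 2 := pow_le_pow_left₀ (by linarith) (by linarith) 2
      nlinarith
  have key : ∀ c, 0 ≤ c → c ≤ C2 →
      (1 / (N : ℝ) * c + (1 / (N : ℝ)) ^ 2 * c3 1 lam / 1) ^ 2 ≤ (1 / (N : ℝ)) ^ 2 *
        (C2 + C3) ^ 2 := by
    intro c h0 h1
    rw [← mul_pow]
    refine pow_le_pow_left₀ (by have := b3.1; positivity) ?_ 2
    have h2 : (1 / (N : ℝ)) ^ 2 ≤ 1 / (N : ℝ) := by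
      have : 1 / (N : ℝ) ≤ 1 := by rw [div_le_one hN0']; exact hN1
      have h3 : 0 < 1 / (N : ℝ) := by positivity
      nlinarith
    have h3 : 0 < 1 / (N : ℝ) := by positivity
    have h4 : (1 / (N : ℝ)) ^ 2 * c3 1 lam ≤ 1 / (N : ℝ) * C3 :=
      mul_le_mul h2 b3.2 b3.1 h3.le
    have h5 : 1 / (N : ℝ) * c ≤ 1 / (N : ℝ) * C2 := mul_le_mul_of_nonneg_left h1 h3.le
    rw [div_one]
    linarith
  have her : er N 1 lam (1 / (N : ℝ)) 1 ≤ 2 * (C2 + C3) ^ 2 := by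
    unfold er
    have k1 := key _ b1.1 b1.2
    have k2 := key _ b2.1 b2.2
    have h1 : (N : ℝ) * (N * (1 : ℕ)) *
        (1 / (N : ℝ) * c1 1 lam + (1 / (N : ℝ)) ^ 2 * c3 1 lam / 1) ^ 2 ≤ (C2 + C3) ^ 2 := by
      calc _ ≤ (N : ℝ) * (N * (1 : ℕ)) * ((1 / (N : ℝ)) ^ 2 * (C2 + C3) ^ 2) :=
            mul_le_mul_of_nonneg_left k1 (by positivity)
        _ = _ := by push_cast; field_simp
    have h2 : (N : ℝ) * (1 / (N : ℝ) * c2 1 lam + (1 / (N : ℝ)) ^ 2 * c3 1 lam / 1) ^ 2 ≤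
        (C2 + C3) ^ 2 := by
      calc _ ≤ (N : ℝ) * ((1 / (N : ℝ)) ^ 2 * (C2 + C3) ^ 2) :=
            mul_le_mul_of_nonneg_left k2 (by positivity)
        _ = (C2 + C3) ^ 2 / N := by field_simp
        _ ≤ _ := div_le_self (sq_nonneg _) hN1
    linarith
  have h0 : (1 / (N : ℝ)) ^ 2 * (Ks 1 * ((N : ℝ) * (1 : ℕ)) ^ 2) = Ks 1 := by
    push_cast
    field_simp
  rw [h0]
  linarith

end Pool.Agent.N940.MM
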