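import Pool.Agent.N940.MM.Dep4

/-!
# De-Poissonization with parity, part 5: conclusion (helper222)
-/

set_option autoImplicit false
set_option linter.unusedSectionVars false
set_option linter.unusedVariables false
set_option linter.unusedSimpArgs false

open Filter Topology Finset MeasureTheory ProbabilityTheory

namespace Pool.Agent.N940.MM.Dep

open Pool.Agent.N940.TSP.Dep (Pm Pm_nonneg U exp_lip γ psi psi_pos psi_int J_eval integrable_pow4
  R4 R4_nonneg norm_expI continuous_expI integrable_expI psi_mul_le)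

section fin

variable {ι κ : Type} [Fintype ι] [DecidableEq ι] [Fintype κ] [DecidableEq κ]

/-- **The estimate for one `n`.** -/
lemma core (lab : ι → κ) (F : Finset ι → ℝ) (q C c η : ℝ) (n : ℕ) (hC1 : 1 ≤ C) (hc : 0 < c)
    (hn : 12 ≤ n) (hnC : 16 * C ≤ n) (hne : Even n)
    (h2n : 2 * n ≤ Fintype.card ι) (hq : q = (n : ℝ) / Fintype.card ι)
    (mm : ℕ) (hnm : n ≤ mm) (hmm : ∀ v : κ, (univ.filter fun x => lab x = v).card = mm)
    (hκ : (Fintype.card κ : ℝ) ≤ n) (hκ2 : (n : ℝ) ≤ C * Fintype.card κ)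
    (hinc : ∀ (A : Finset ι) (x y : ι), x ∉ A → y ∉ A → x ≠ y → lab x = lab y → Even A.card →
      |F (insert x (insert y A)) - F A| ≤ C / Real.sqrt n)
    (hV : VrE q F ≤ C)
    (hchar : ∀ α β : ℝ,
      ‖ExE q (fun A : Finset ι => Complex.exp (Complex.I *
          ((α * F A + β * ((A.card : ℝ) / Real.sqrt n) - ExE q (fun A : Finset ι =>
            α * F A + β * ((A.card : ℝ) / Real.sqrt n)) : ℝ) : ℂ))) -
        Complex.exp ((-(VrE q fun A : Finset ι =>
          α * F A + β * ((A.card : ℝ) / Real.sqrt n)) / 2 : ℝ) : ℂ)‖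
        ≤ η * (1 + |α| + |β|) ^ 4)
    (hlow : ∀ β : ℝ, c ≤ VrE q fun A : Finset ι => F A + β * ((A.card : ℝ) / Real.sqrt n)) :
    ∃ s : ℝ, Real.sqrt c ≤ s ∧ ∀ t a₀ B δ : ℝ, |t| / Real.sqrt c ≤ a₀ → 0 < δ → δ ≤ 1 →
      1 + a₀ + a₀ * Real.sqrt (8 * C) ≤ B →
      η * R4 B δ ≤ δ * (Real.sqrt (1 + 2 / δ ^ 2))⁻¹ / 2 →
      η * R4 B (2 * δ) ≤ (Real.sqrt (1 + 2 / δ ^ 2))⁻¹ →
      4 / (n : ℝ) ≤ δ →
      ‖((((Fintype.card ι).choose n : ℂ))⁻¹ *
        ∑ A ∈ (Finset.univ : Finset ι).powersetCard n, Complex.exp (Complex.I *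
          ((t * ((F A - ExE q F) / s) : ℝ) : ℂ))) -
        Complex.exp ((-(t ^ 2) / 2 : ℝ) : ℂ)‖ ≤
        (15 * (a₀ * (C + 2 * Real.sqrt (8 * C)) + 80 * C + 16) + 4 +
          a₀ * Real.sqrt (8 * C)) * δ := by
  have hnR : (12 : ℝ) ≤ n := by exact_mod_cast hn
  have hn0 : (0 : ℝ) < n := by linarith
  have hsn : 0 < Real.sqrt n := Real.sqrt_pos.mpr hn0
  have hg : 0 < Fintype.card ι := by omega
  have hg' : (0 : ℝ) < Fintype.card ι := by exact_mod_cast hg
  have hq0 : 0 ≤ q := by rw [hq]; positivity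
  have hq2 : q ≤ 1 / 2 := by
    rw [hq, div_le_iff₀ hg']
    have : (2 : ℝ) * n ≤ Fintype.card ι := by exact_mod_cast h2n
    linarith
  have hη : 0 ≤ η := by
    have h := (norm_nonneg _).trans (hchar 0 0)
    simpa using h
  -- variance algebra
  set X : Finset ι → ℝ := fun A => (A.card : ℝ) / Real.sqrt n with hX
  obtain ⟨hm1, hm2, hm3⟩ := mom (ι := ι) n (by omega) h2n q hq
  rw [← hX] at hm1 hm2 hm3
  set v := VrE q F with hv
  set θ := VrE q X with hθ
  set k := CvE q F X with hk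
  have hθ1 : θ ≤ 2 := hm2
  have hθ2 : 1 / 8 ≤ θ := by
    have h1 : (4 / (n : ℝ)) ^ 2 ≤ 1 / 8 := by
      have h2 : 4 / (n : ℝ) ≤ 1 / 3 := by
        rw [div_le_div_iff₀ hn0 (by norm_num)]
        linarith
      have h3 : 0 ≤ 4 / (n : ℝ) := by positivity
      nlinarith
    linarith
  have hθ0 : 0 < θ := by linarith
  have hv0 : 0 ≤ v := VrE_nonneg hq0 hq2 F
  have hC0 : 0 ≤ C := hv0.trans hV
  have hcs : k ^ 2 ≤ v * θ := CvE_sq_le hq0 hq2 F X
  set k' := k / θ with hk'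
  have hk'le : |k'| ≤ Real.sqrt (8 * C) := by
    refine Real.abs_le_sqrt ?_
    rw [hk', div_pow, div_le_iff₀ (by positivity)]
    have h1 : v * θ ≤ C * θ := mul_le_mul_of_nonneg_right hV hθ0.le
    have h2 : C * θ ≤ 8 * C * θ ^ 2 := by nlinarith [mul_nonneg hC0 hθ0.le]
    linarith
  set s2 := v - k ^ 2 / θ with hs2
  have hs2c : c ≤ s2 := by
    have h1 := hlow (-k')
    have h2 : (fun A : Finset ι => F A + -k' * ((A.card : ℝ) / Real.sqrt n)) =
        fun A => 1 * F A + (-k') * X A := by funext A; simp [hX]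
    rw [h2, VrE_comb] at h1
    have h3 : 1 ^ 2 * VrE q F + 2 * 1 * -k' * CvE q F X + (-k') ^ 2 * VrE q X = s2 := by
      rw [← hv, ← hk, ← hθ, hs2, hk']
      field_simp
      ring
    linarith
  have hs20 : 0 < s2 := lt_of_lt_of_le hc hs2c
  refine ⟨Real.sqrt s2, Real.sqrt_le_sqrt hs2c, ?_⟩
  intro t a₀ B δ hta hδ hδ1 hB hr1 hr2 hδn
  set s := Real.sqrt s2 with hs
  have hs0 : 0 < s := Real.sqrt_pos.mpr hs20
  have hss : s ^ 2 = s2 := Real.sq_sqrt hs20.le
  have hsc : Real.sqrt c ≤ s := Real.sqrt_le_sqrt hs2c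
  have hc' : 0 < Real.sqrt c := Real.sqrt_pos.mpr hc
  set a := t / s with ha
  have haa : |a| ≤ a₀ := by
    rw [ha, abs_div, abs_of_pos hs0]
    refine le_trans ?_ hta
    exact div_le_div_of_nonneg_left (abs_nonneg t) hc' hsc
  have ha₀ : 0 ≤ a₀ := (abs_nonneg a).trans haa
  set m₀ := ExE q X with hm₀
  set e := m₀ - Real.sqrt n with he
  have heδ : |e| ≤ δ := hm1.trans hδn
  set x : Finset ι → ℝ := fun A => ((A.card : ℝ) - n) / Real.sqrt n - e with hx
  have hxX : ∀ A, x A = X A - m₀ := by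
    intro A
    simp only [hx, hX, he]
    rw [sub_div, Real.div_sqrt]
    ring
  set f : Finset ι → ℝ := fun A => F A - ExE q F with hf
  set Φ : Finset ι → ℂ := fun A => Complex.exp (Complex.I * ((a * (f A - k' * x A) : ℝ) : ℂ))
    with hΦ
  set J := (Real.sqrt (1 + θ / δ ^ 2))⁻¹ with hJ
  set J2 := (Real.sqrt (1 + θ / (2 * δ) ^ 2))⁻¹ with hJ2
  have hδ2 : 0 < δ ^ 2 := by positivity
  have hJ0 : 0 < J := by
    rw [hJ]; exact inv_pos.mpr (Real.sqrt_pos.mpr (by positivity))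
  have hj0 : (Real.sqrt (1 + 2 / δ ^ 2))⁻¹ ≤ J := by
    rw [hJ]
    refine inv_anti₀ (Real.sqrt_pos.mpr (by positivity)) (Real.sqrt_le_sqrt ?_)
    have : θ / δ ^ 2 ≤ 2 / δ ^ 2 := div_le_div_of_nonneg_right hθ1 hδ2.le
    linarith
  have hJJ : J2 ≤ 2 * J := by
    rw [hJ, hJ2]
    have h1 : Real.sqrt (1 + θ / δ ^ 2) ≤ 2 * Real.sqrt (1 + θ / (2 * δ) ^ 2) := by
      have h2 : (2 : ℝ) * Real.sqrt (1 + θ / (2 * δ) ^ 2) =
          Real.sqrt (4 * (1 + θ / (2 * δ) ^ 2)) := by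
        rw [Real.sqrt_mul (by norm_num)]
        congr 1
        rw [show (4 : ℝ) = 2 ^ 2 by norm_num, Real.sqrt_sq (by norm_num)]
      rw [h2]
      refine Real.sqrt_le_sqrt ?_
      have : 4 * (1 + θ / (2 * δ) ^ 2) = 4 + θ / δ ^ 2 := by
        field_simp
        ring
      rw [this]; linarith
    have h3 : 0 < Real.sqrt (1 + θ / δ ^ 2) := Real.sqrt_pos.mpr (by positivity)
    have h4 : 0 < Real.sqrt (1 + θ / (2 * δ) ^ 2) := Real.sqrt_pos.mpr (by positivity)
    rw [inv_eq_one_div, inv_eq_one_div, mul_one_div, div_le_div_iff₀ h4 h3]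
    linarith
  -- the quadratic form
  have hform : ∀ α β : ℝ, (VrE q fun A : Finset ι => α * F A + β * ((A.card : ℝ) / Real.sqrt n)) =
      α ^ 2 * s2 + (β + α * k') ^ 2 * θ := by
    intro α β
    have h1 := VrE_comb q α β F X
    rw [← hv, ← hk, ← hθ] at h1
    refine h1.trans ?_
    rw [hs2, hk']
    field_simp
    ring
  have hchar' : ∀ α β : ℝ, ‖ExE q (fun A : Finset ι => Complex.exp (Complex.I *
          ((α * f A + β * x A : ℝ) : ℂ))) -
        Complex.exp ((-(α ^ 2 * s2 + (β + α * k') ^ 2 * θ) / 2 : ℝ) : ℂ)‖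
        ≤ η * (1 + |α| + |β|) ^ 4 := by
    intro α β
    have h := hchar α β
    rw [hform] at h
    have e1 : ExE q (fun A : Finset ι => α * F A + β * ((A.card : ℝ) / Real.sqrt n)) =
        α * ExE q F + β * m₀ := by
      rw [ExE_add q (fun A : Finset ι => α * F A) (fun A => β * ((A.card : ℝ) / Real.sqrt n)),
        ExE_mul_left, ExE_mul_left]
    have e2 : ∀ A : Finset ι, α * F A + β * ((A.card : ℝ) / Real.sqrt n) -
        ExE q (fun A : Finset ι => α * F A + β * ((A.card : ℝ) / Real.sqrt n)) =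
        α * f A + β * x A := by
      intro A
      rw [e1, hxX]
      simp only [hf, hX]
      ring
    simp only [e2] at h
    exact h
  -- layer regularity
  set dd := a₀ * (C + 2 * Real.sqrt (8 * C)) with hdd
  have hdd0 : 0 ≤ dd := by positivity
  have hincΦ : ∀ (A : Finset ι) (z w : ι), z ∉ A → w ∉ A → z ≠ w → lab z = lab w →
      Even A.card → ‖Φ (insert z (insert w A)) - Φ A‖ ≤ dd / Real.sqrt n := by
    intro A z w hz hw hzw hl hA
    rw [hΦ]
    refine (exp_lip _ _).trans ?_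
    rw [← mul_sub, abs_mul]
    have hcard : ((insert z (insert w A)).card : ℝ) = (A.card : ℝ) + 2 := by
      rw [Finset.card_insert_of_notMem (by simp [hzw, hz]), Finset.card_insert_of_notMem hw]
      push_cast
      ring
    have e1 : f (insert z (insert w A)) - k' * x (insert z (insert w A)) - (f A - k' * x A) =
        (F (insert z (insert w A)) - F A) - k' * (2 / Real.sqrt n) := by
      simp only [hf, hx, hcard]
      ring
    rw [e1]
    have h1 := hinc A z w hz hw hzw hl hA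
    have h3 : |k' * (2 / Real.sqrt n)| ≤ Real.sqrt (8 * C) * (2 / Real.sqrt n) := by
      rw [abs_mul, abs_of_pos (div_pos two_pos hsn)]
      exact mul_le_mul_of_nonneg_right hk'le (by positivity)
    have h4 : |F (insert z (insert w A)) - F A - k' * (2 / Real.sqrt n)| ≤
        C / Real.sqrt n + Real.sqrt (8 * C) * (2 / Real.sqrt n) :=
      (abs_sub _ _).trans (add_le_add h1 h3)
    calc _ ≤ a₀ * (C / Real.sqrt n + Real.sqrt (8 * C) * (2 / Real.sqrt n)) :=
          mul_le_mul haa h4 (abs_nonneg _) ha₀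
      _ = dd / Real.sqrt n := by rw [hdd]; ring
  have hΦ1 : ∀ A, ‖Φ A‖ ≤ 1 := fun A => by
    rw [hΦ]
    exact (norm_expI _).le
  set K := dd + 80 * C + 16 with hKd
  have hK : 0 ≤ K := by positivity
  have hreg : ∀ m : ℕ, Even m → m ≤ Fintype.card ι → ‖U m Φ - U n Φ‖ ≤
      K * |((m : ℝ) - n) / Real.sqrt n| := by
    intro m hme hm
    exact U_reg2 lab mm hmm n C hC1 (by omega) hnC hnm hκ hκ2 h2n hne Φ hΦ1 dd hdd0 hincΦ m hme hm
  have hlc := layer_close q δ K e n (by omega) hq0 hq2 hδ hK Φ hreg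
  have hak : |a * k'| ≤ a₀ * Real.sqrt (8 * C) := by
    rw [abs_mul]
    exact mul_le_mul haa hk'le (abs_nonneg _) ha₀
  have hBa : 1 + |a| + |a * k'| ≤ B := by linarith
  have hB0 : 1 + |(0 : ℝ)| + |0 * k'| ≤ B := by
    have : 0 ≤ a₀ * Real.sqrt (8 * C) := by positivity
    simp only [abs_zero, zero_mul]
    linarith
  have hsm := smooth_close q δ η a k' s2 θ B hδ hη hθ0.le f x hBa (hchar' a)
  have hsm0 := smooth_close q δ η 0 k' s2 θ B hδ hη hθ0.le f x hB0 (hchar' 0)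
  have hsm2 := smooth_close q (2 * δ) η 0 k' s2 θ B (by positivity) hη hθ0.le f x hB0 (hchar' 0)
  -- the two expectations of the weights
  have hreal : ∀ δ' : ℝ, ExE q (fun A : Finset ι => ((psi δ' (x A) : ℝ) : ℂ) *
        Complex.exp (Complex.I * ((0 * (f A - k' * x A) : ℝ) : ℂ))) =
      ((ExE q (fun A : Finset ι => psi δ' (x A)) : ℝ) : ℂ) := by
    intro δ'
    rw [ExE_sum, ExE_sum, Complex.ofReal_sum]
    refine Finset.sum_congr rfl fun A _ => ?_
    simp
  rw [hreal] at hsm0 hsm2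
  have h01 : Complex.exp ((-((0 : ℝ) ^ 2 * s2) / 2 : ℝ) : ℂ) = 1 := by simp
  rw [h01, one_mul, ← Complex.ofReal_sub, Complex.norm_real, Real.norm_eq_abs] at hsm0 hsm2
  have hE2 : ExE q (fun A : Finset ι => psi (2 * δ) (x A)) ≤ J2 + η * R4 B (2 * δ) := by
    have := (abs_le.mp hsm2).2
    linarith
  have hexp1 : ‖Complex.exp ((-(a ^ 2 * s2) / 2 : ℝ) : ℂ)‖ ≤ 1 := by
    rw [← Complex.ofReal_exp, Complex.norm_real, Real.norm_of_nonneg (Real.exp_pos _).le]
    refine Real.exp_le_one_iff.mpr ?_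
    have : 0 ≤ a ^ 2 * s2 := by positivity
    linarith
  have hj00 : 0 < (Real.sqrt (1 + 2 / δ ^ 2))⁻¹ :=
    inv_pos.mpr (Real.sqrt_pos.mpr (by positivity))
  have hrJ : η * R4 B δ ≤ J / 2 := by
    have h1 : δ * (Real.sqrt (1 + 2 / δ ^ 2))⁻¹ / 2 ≤ J / 2 := by
      have : δ * (Real.sqrt (1 + 2 / δ ^ 2))⁻¹ ≤ 1 * J :=
        mul_le_mul hδ1 hj0 hj00.le (by norm_num)
      linarith
    linarith
  have hrJ2 : η * R4 B δ ≤ δ * J := by
    have h1 : δ * (Real.sqrt (1 + 2 / δ ^ 2))⁻¹ ≤ δ * J := mul_le_mul_of_nonneg_left hj0 hδ.le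
    have h2 : 0 < δ * (Real.sqrt (1 + 2 / δ ^ 2))⁻¹ := by positivity
    linarith
  have hfin := concl _ (U n Φ) _ _ _ J J2 (η * R4 B δ) (η * R4 B (2 * δ)) K δ e hK hδ hJ0 hlc hsm
    hsm0 hE2 hJJ hexp1 hrJ hrJ2 (hr2.trans hj0) heδ
  -- identification
  set T : ℂ := ((((Fintype.card ι).choose n : ℂ))⁻¹ *
        ∑ A ∈ (Finset.univ : Finset ι).powersetCard n, Complex.exp (Complex.I *
          ((t * ((F A - ExE q F) / s) : ℝ) : ℂ))) with hT
  have hU : U n Φ = Complex.exp (Complex.I * ((a * k' * e : ℝ) : ℂ)) * T := by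
    rw [hT]
    unfold U
    rw [mul_left_comm]
    congr 1
    rw [Finset.mul_sum]
    refine Finset.sum_congr rfl fun A hA => ?_
    rw [Finset.mem_powersetCard] at hA
    rw [← Complex.exp_add, ← mul_add, ← Complex.ofReal_add]
    simp only [hΦ, hx, hf, hA.2, sub_self, zero_div, zero_sub]
    congr 3
    rw [ha]
    ring
  have hT1 : ‖T‖ ≤ 1 := by
    rw [hT, norm_mul, norm_inv, Complex.norm_natCast]
    have hcc : (0 : ℝ) < ((Fintype.card ι).choose n : ℝ) := by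
      exact_mod_cast Nat.choose_pos (by omega : n ≤ Fintype.card ι)
    have : ‖∑ A ∈ (univ : Finset ι).powersetCard n, Complex.exp (Complex.I *
          ((t * ((F A - ExE q F) / s) : ℝ) : ℂ))‖ ≤ ((Fintype.card ι).choose n : ℝ) := by
      refine (norm_sum_le _ _).trans ?_
      have h1 : ∀ A ∈ (univ : Finset ι).powersetCard n, ‖Complex.exp (Complex.I *
          ((t * ((F A - ExE q F) / s) : ℝ) : ℂ))‖ ≤ (1 : ℝ) := fun A _ => (norm_expI _).le
      refine (Finset.sum_le_card_nsmul _ _ 1 h1).trans ?_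
      rw [Finset.card_powersetCard, Finset.card_univ, nsmul_eq_mul, mul_one]
    calc _ ≤ ((Fintype.card ι).choose n : ℝ)⁻¹ * ((Fintype.card ι).choose n : ℝ) :=
          mul_le_mul_of_nonneg_left this (by positivity)
      _ = 1 := inv_mul_cancel₀ hcc.ne'
  have hphase : ‖T - U n Φ‖ ≤ a₀ * Real.sqrt (8 * C) * δ := by
    have e1 : T - U n Φ = (Complex.exp (Complex.I * ((0 : ℝ) : ℂ)) -
        Complex.exp (Complex.I * ((a * k' * e : ℝ) : ℂ))) * T := by
      rw [hU]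
      simp only [Complex.ofReal_zero, mul_zero, Complex.exp_zero]
      ring
    rw [e1, norm_mul]
    have h1 := exp_lip 0 (a * k' * e)
    have h2 : |0 - a * k' * e| ≤ a₀ * Real.sqrt (8 * C) * δ := by
      rw [zero_sub, abs_neg, abs_mul]
      exact mul_le_mul hak heδ (abs_nonneg _) (by positivity)
    calc _ ≤ (a₀ * Real.sqrt (8 * C) * δ) * 1 :=
          mul_le_mul (h1.trans h2) hT1 (norm_nonneg _) (by positivity)
      _ = _ := mul_one _
  have hexp2 : (-(a ^ 2 * s2) / 2 : ℝ) = (-(t ^ 2) / 2 : ℝ) := by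
    rw [ha, ← hss, div_pow]
    field_simp
  rw [hexp2] at hfin
  have e3 : T - Complex.exp ((-(t ^ 2) / 2 : ℝ) : ℂ) = (T - U n Φ) +
      (U n Φ - Complex.exp ((-(t ^ 2) / 2 : ℝ) : ℂ)) := by ring
  rw [e3]
  refine (norm_add_le _ _).trans ?_
  have e4 : (15 * K + 4 + a₀ * Real.sqrt (8 * C)) * δ =
      a₀ * Real.sqrt (8 * C) * δ + (15 * K + 4) * δ := by ring
  rw [e4]
  exact add_le_add hphase hfin

end fin

theorem main : Pool.Agent.N940.MM.S_DEP2 := by
  intro ι _ _ κ _ _ lab F q C₀ c η n₀ hC hc hη h1 hmm h2 h3 h4 h5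
  set C := max C₀ 1 with hCd
  have hC1 : 1 ≤ C := le_max_right _ _
  have hCC : C₀ ≤ C := le_max_left _ _
  obtain ⟨n₁, hn₁⟩ := exists_nat_ge (16 * C)
  set N₀ := max n₀ (max 12 n₁) with hN₀
  have hcore : ∀ n, (N₀ ≤ n ∧ Even n) → ∃ s : ℝ, Real.sqrt c ≤ s ∧
      ∀ t a₀ B δ : ℝ, |t| / Real.sqrt c ≤ a₀ → 0 < δ → δ ≤ 1 →
      1 + a₀ + a₀ * Real.sqrt (8 * C) ≤ B →
      η n * R4 B δ ≤ δ * (Real.sqrt (1 + 2 / δ ^ 2))⁻¹ / 2 →
      η n * R4 B (2 * δ) ≤ (Real.sqrt (1 + 2 / δ ^ 2))⁻¹ →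
      4 / (n : ℝ) ≤ δ →
      ‖((((Fintype.card (ι n)).choose n : ℂ))⁻¹ *
        ∑ A ∈ (Finset.univ : Finset (ι n)).powersetCard n, Complex.exp (Complex.I *
          ((t * ((F n A - ExE (q n) (F n)) / s) : ℝ) : ℂ))) -
        Complex.exp ((-(t ^ 2) / 2 : ℝ) : ℂ)‖ ≤
        (15 * (a₀ * (C + 2 * Real.sqrt (8 * C)) + 80 * C + 16) + 4 +
          a₀ * Real.sqrt (8 * C)) * δ := by
    rintro n ⟨hn, hne⟩
    have hn0 : n₀ ≤ n := (le_max_left _ _).trans hn
    have hn12 : 12 ≤ n := ((le_max_left _ _).trans (le_max_right _ _)).trans hn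
    have hnn1 : n₁ ≤ n := ((le_max_right _ _).trans (le_max_right _ _)).trans hn
    have hnC : 16 * C ≤ n := hn₁.trans (by exact_mod_cast hnn1)
    obtain ⟨⟨mm, hm1, hm2⟩, hk1, hk2⟩ := hmm n hn0
    refine core (lab n) (F n) (q n) C c (η n) n hC1 hc hn12 hnC hne (h1 n hn0).2.1
      (h1 n hn0).2.2 mm hm1 hm2 hk1 ?_ ?_ ((h3 n hn0).trans hCC) (h4 n hn0) (h5 n hn0)
    · exact hk2.trans (mul_le_mul_of_nonneg_right hCC (Nat.cast_nonneg _))
    · intro A x y hx hy hxy hl hA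
      exact (h2 n hn0 A x y hx hy hxy hl hA).trans
        (div_le_div_of_nonneg_right hCC (Real.sqrt_nonneg _))
  choose! s hs using hcore
  refine ⟨Real.sqrt c, fun n => if N₀ ≤ n ∧ Even n then s n else Real.sqrt c,
    Real.sqrt_pos.mpr hc, ?_, ?_⟩
  · intro n
    by_cases hn : N₀ ≤ n ∧ Even n
    · simp only [hn, if_true, and_self]
      exact (hs n hn).1
    · simp only [hn, if_false]
      exact le_refl _
  · intro t
    rw [Metric.tendsto_atTop]
    intro ε hε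
    set a₀ := |t| / Real.sqrt c with ha₀
    have ha₀0 : 0 ≤ a₀ := by positivity
    set B := 1 + a₀ + a₀ * Real.sqrt (8 * C) with hB
    set K := 15 * (a₀ * (C + 2 * Real.sqrt (8 * C)) + 80 * C + 16) + 4 +
          a₀ * Real.sqrt (8 * C) with hK
    have hK0 : 0 < K := by positivity
    set δ := min 1 (ε / (2 * K)) with hδd
    have hδ0 : 0 < δ := lt_min one_pos (by positivity)
    have hδ1 : δ ≤ 1 := min_le_left _ _
    have hKδ : K * δ < ε := by
      have : δ ≤ ε / (2 * K) := min_le_right _ _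
      calc K * δ ≤ K * (ε / (2 * K)) := mul_le_mul_of_nonneg_left this hK0.le
        _ = ε / 2 := by field_simp
        _ < ε := by linarith
    have hj00 : 0 < (Real.sqrt (1 + 2 / δ ^ 2))⁻¹ :=
      inv_pos.mpr (Real.sqrt_pos.mpr (by positivity))
    have e1 : ∀ᶠ n in atTop, η n * R4 B δ < δ * (Real.sqrt (1 + 2 / δ ^ 2))⁻¹ / 2 := by
      have h : Tendsto (fun n => η n * R4 B δ) atTop (𝓝 (0 * R4 B δ)) := hη.mul_const _
      rw [zero_mul] at h
      exact h.eventually_lt_const (by positivity)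
    have e2 : ∀ᶠ n in atTop, η n * R4 B (2 * δ) < (Real.sqrt (1 + 2 / δ ^ 2))⁻¹ := by
      have h : Tendsto (fun n => η n * R4 B (2 * δ)) atTop (𝓝 (0 * R4 B (2 * δ))) :=
        hη.mul_const _
      rw [zero_mul] at h
      exact h.eventually_lt_const hj00
    have e3 : ∀ᶠ n : ℕ in atTop, 4 / (n : ℝ) < δ := by
      have h : Tendsto (fun n : ℕ => 4 / (n : ℝ)) atTop (𝓝 0) :=
        tendsto_const_div_atTop_nhds_zero_nat 4
      exact h.eventually_lt_const hδ0
    obtain ⟨N, hN⟩ := (e1.and (e2.and (e3.and (eventually_ge_atTop N₀)))).exists_forall_of_atTop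
    refine ⟨N, fun k hk => ?_⟩
    obtain ⟨g1, g2, g3, g4⟩ := hN (2 * k) (by omega)
    have g5 : N₀ ≤ 2 * k ∧ Even (2 * k) := ⟨g4, even_two_mul k⟩
    rw [dist_eq_norm]
    have g6 : (if N₀ ≤ 2 * k ∧ Even (2 * k) then s (2 * k) else Real.sqrt c) = s (2 * k) :=
      if_pos g5
    simp only [g6]
    exact lt_of_le_of_lt ((hs (2 * k) g5).2 t a₀ B δ le_rfl hδ0 hδ1 le_rfl g1.le g2.le g3.le) hKδ

end Pool.Agent.N940.MM.Dep

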