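import Pool.Agent.N940.MM.Stm
import Pool.Agent.N940.TSP.Dep2

/-!
# De-Poissonization with parity, part 1: pairs of points with the same label (helper222)
-/

set_option autoImplicit false
set_option linter.unusedSectionVars false
set_option linter.unusedVariables false

open Filter Topology Finset

namespace Pool.Agent.N940.MM.Dep

section comb

variable {ι κ : Type} [Fintype ι] [DecidableEq ι] [Fintype κ] [DecidableEq κ] (lab : ι → κ)

/-- ordered pairs with the same label -/
def Q2 : Finset (ι × ι) := univ.filter fun p => p.1 ≠ p.2 ∧ lab p.1 = lab p.2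

/-- the pairs in a set -/
def IN (A : Finset ι) : Finset (ι × ι) := (Q2 lab).filter fun p => p.1 ∈ A ∧ p.2 ∈ A

/-- the pairs outside a set -/
def OU (A : Finset ι) : Finset (ι × ι) := (Q2 lab).filter fun p => p.1 ∉ A ∧ p.2 ∉ A

lemma mem_Q2 {p : ι × ι} : p ∈ Q2 lab ↔ p.1 ≠ p.2 ∧ lab p.1 = lab p.2 := by
  simp [Q2]

lemma mem_IN {A : Finset ι} {p : ι × ι} :
    p ∈ IN lab A ↔ (p.1 ≠ p.2 ∧ lab p.1 = lab p.2) ∧ p.1 ∈ A ∧ p.2 ∈ A := by
  simp [IN, Q2]

lemma mem_OU {A : Finset ι} {p : ι × ι} :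
    p ∈ OU lab A ↔ (p.1 ≠ p.2 ∧ lab p.1 = lab p.2) ∧ p.1 ∉ A ∧ p.2 ∉ A := by
  simp [OU, Q2]

lemma double_count2 {E : Type} [AddCommMonoid E] (m : ℕ) (Ψ : Finset ι → Finset ι → E) :
    ∑ A ∈ (univ : Finset ι).powersetCard m, ∑ p ∈ OU lab A, Ψ A (insert p.1 (insert p.2 A)) =
      ∑ A ∈ (univ : Finset ι).powersetCard (m + 2), ∑ p ∈ IN lab A,
        Ψ ((A.erase p.1).erase p.2) A := by
  rw [Finset.sum_sigma', Finset.sum_sigma']
  refine Finset.sum_bij' (fun a _ => ⟨insert a.2.1 (insert a.2.2 a.1), a.2⟩)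
    (fun a _ => ⟨(a.1.erase a.2.1).erase a.2.2, a.2⟩) ?_ ?_ ?_ ?_ ?_
  · rintro ⟨A, p⟩ h
    simp only [Finset.mem_sigma, Finset.mem_powersetCard, mem_OU, mem_IN] at h ⊢
    obtain ⟨⟨-, h1⟩, ⟨h2, h3⟩, h4, h5⟩ := h
    refine ⟨⟨Finset.subset_univ _, ?_⟩, ⟨h2, h3⟩, Finset.mem_insert_self _ _,
      Finset.mem_insert_of_mem (Finset.mem_insert_self _ _)⟩
    rw [Finset.card_insert_of_notMem, Finset.card_insert_of_notMem h5, h1]
    rw [Finset.mem_insert]
    push Not
    exact ⟨h2, h4⟩
  · rintro ⟨A, p⟩ h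
    simp only [Finset.mem_sigma, Finset.mem_powersetCard, mem_OU, mem_IN] at h ⊢
    obtain ⟨⟨-, h1⟩, ⟨h2, h3⟩, h4, h5⟩ := h
    refine ⟨⟨Finset.subset_univ _, ?_⟩, ⟨h2, h3⟩, ?_, ?_⟩
    · rw [Finset.card_erase_of_mem, Finset.card_erase_of_mem h4, h1]
      · rfl
      · exact Finset.mem_erase.2 ⟨fun e => h2 e.symm, h5⟩
    · simp
    · simp
  · rintro ⟨A, p⟩ h
    simp only [Finset.mem_sigma, Finset.mem_powersetCard, mem_OU, mem_IN] at h ⊢
    obtain ⟨⟨-, h1⟩, ⟨h2, h3⟩, h4, h5⟩ := h
    congr 1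
    rw [Finset.erase_insert, Finset.erase_insert h5]
    rw [Finset.mem_insert]
    push Not
    exact ⟨h2, h4⟩
  · rintro ⟨A, p⟩ h
    simp only [Finset.mem_sigma, Finset.mem_powersetCard, mem_OU, mem_IN] at h ⊢
    obtain ⟨⟨-, h1⟩, ⟨h2, h3⟩, h4, h5⟩ := h
    congr 1
    rw [Finset.insert_erase, Finset.insert_erase h4]
    exact Finset.mem_erase.2 ⟨fun e => h2 e.symm, h5⟩
  · rintro ⟨A, p⟩ h
    simp only [Finset.mem_sigma, Finset.mem_powersetCard, mem_OU, mem_IN] at h ⊢
    obtain ⟨⟨-, h1⟩, ⟨h2, h3⟩, h4, h5⟩ := h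
    rw [Finset.erase_insert, Finset.erase_insert h5]
    rw [Finset.mem_insert]
    push Not
    exact ⟨h2, h4⟩

/-! ### supersets of a given size -/

lemma card_sup (S : Finset ι) (r : ℕ) (h : S.card ≤ r) :
    (((univ : Finset ι).powersetCard r).filter fun A => S ⊆ A).card =
      (Fintype.card ι - S.card).choose (r - S.card) := by
  have e : ((univ : Finset ι).powersetCard r).filter (fun A => S ⊆ A) =
      (Sᶜ.powersetCard (r - S.card)).image (fun A => A ∪ S) := by
    ext A
    simp only [Finset.mem_filter, Finset.mem_powersetCard, Finset.mem_image]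
    constructor
    · rintro ⟨⟨-, h1⟩, h2⟩
      refine ⟨A \ S, ⟨?_, ?_⟩, ?_⟩
      · intro x hx
        rw [Finset.mem_sdiff] at hx
        exact Finset.mem_compl.2 hx.2
      · rw [Finset.card_sdiff_of_subset h2, h1]
      · exact Finset.sdiff_union_of_subset h2
    · rintro ⟨B, ⟨h1, h2⟩, rfl⟩
      have hd : Disjoint B S := by
        rw [Finset.disjoint_left]
        intro x hx hx'
        exact Finset.mem_compl.1 (h1 hx) hx'
      refine ⟨⟨Finset.subset_univ _, ?_⟩, Finset.subset_union_right⟩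
      rw [Finset.card_union_of_disjoint hd, h2]
      omega
  rw [e, Finset.card_image_of_injOn, Finset.card_powersetCard, Finset.card_compl]
  intro B hB B' hB' hBB
  have hd : ∀ B ∈ (Sᶜ.powersetCard (r - S.card) : Finset (Finset ι)), (B ∪ S) \ S = B := by
    intro B hB
    rw [Finset.mem_powersetCard] at hB
    rw [Finset.union_sdiff_right]
    apply Finset.sdiff_eq_self_of_disjoint
    rw [Finset.disjoint_left]
    intro x hx hx'
    exact Finset.mem_compl.1 (hB.1 hx) hx'
  have h1 := hd B (by exact_mod_cast hB)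
  have h2 := hd B' (by exact_mod_cast hB')
  beta_reduce at hBB
  rw [← h1, hBB, h2]

/-- the probability that a random set of size `r` contains `k` given elements -/
noncomputable def PP (g r k : ℕ) : ℝ := (r.descFactorial k : ℝ) / (g.descFactorial k : ℝ)

lemma PP_nonneg (g r k : ℕ) : 0 ≤ PP g r k := by unfold PP; positivity

lemma cnt_eq (S : Finset ι) (r : ℕ) (hr : r ≤ Fintype.card ι) :
    ((((univ : Finset ι).powersetCard r).filter fun A => S ⊆ A).card : ℝ) =
      ((Fintype.card ι).choose r : ℝ) * PP (Fintype.card ι) r S.card := by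
  set g := Fintype.card ι with hg
  set k := S.card with hk
  have hkg : k ≤ g := by rw [hk, hg]; exact Finset.card_le_univ S
  have hpos : (0 : ℝ) < (g.descFactorial k : ℝ) := by
    exact_mod_cast Nat.pos_of_ne_zero (by
      intro h0
      rw [Nat.descFactorial_eq_zero_iff_lt] at h0
      omega)
  by_cases h : k ≤ r
  · rw [card_sup S r h]
    unfold PP
    rw [← hg, ← hk, ← mul_div_assoc, eq_div_iff hpos.ne']
    have h1 := Nat.choose_mul (n := g) (k := r) (s := k) h
    have h2 : (g - k).choose (r - k) * g.descFactorial k = g.choose r * r.descFactorial k := by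
      rw [Nat.descFactorial_eq_factorial_mul_choose, Nat.descFactorial_eq_factorial_mul_choose]
      calc (g - k).choose (r - k) * (k.factorial * g.choose k) =
            k.factorial * (g.choose k * (g - k).choose (r - k)) := by ring
        _ = k.factorial * (g.choose r * r.choose k) := by rw [h1]
        _ = _ := by ring
    exact_mod_cast h2
  · have h0 : r.descFactorial k = 0 := Nat.descFactorial_eq_zero_iff_lt.2 (by omega)
    have h1 : ((univ : Finset ι).powersetCard r).filter (fun A => S ⊆ A) = ∅ := by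
      ext A
      simp only [Finset.mem_filter, Finset.mem_powersetCard, Finset.notMem_empty, iff_false]
      rintro ⟨⟨-, h1⟩, h2⟩
      have := Finset.card_le_card h2
      omega
    rw [h1]
    unfold PP
    rw [h0]
    simp

lemma PP_two {g r : ℕ} (hr : 2 ≤ r) (hg : r ≤ g) :
    PP g r 2 = (r : ℝ) * (r - 1) / ((g : ℝ) * (g - 1)) := by
  have h : ∀ n : ℕ, 2 ≤ n → (n.descFactorial 2 : ℝ) = (n : ℝ) * (n - 1) := by
    intro n hn
    rw [Nat.descFactorial_succ, Nat.descFactorial_one, Nat.cast_mul, Nat.cast_sub (by omega)]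
    push_cast
    ring
  unfold PP
  rw [h r hr, h g (by omega)]

lemma PP_succ {g r k : ℕ} (hk : k ≤ r) (hg : r ≤ g) :
    PP g r (k + 1) = PP g r k * (((r : ℝ) - k) / ((g : ℝ) - k)) := by
  unfold PP
  rw [Nat.descFactorial_succ, Nat.descFactorial_succ, Nat.cast_mul, Nat.cast_mul,
    Nat.cast_sub hk, Nat.cast_sub (hk.trans hg), mul_div_mul_comm]
  ring

lemma ratio_le {g r : ℝ} {k l : ℝ} (hkl : k ≤ l) (hlr : l ≤ r) (hr : r ≤ g) (hlg : l < g) :
    (r - l) / (g - l) ≤ (r - k) / (g - k) := by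
  rw [div_le_div_iff₀ (by linarith) (by linarith)]
  nlinarith

lemma PP_three {g r : ℕ} (hr : 3 ≤ r) (hg : r ≤ g) : PP g r 3 ≤ PP g r 2 * ((r : ℝ) / g) := by
  rw [PP_succ (by omega) hg]
  refine mul_le_mul_of_nonneg_left ?_ (PP_nonneg _ _ _)
  have h1 : (3 : ℝ) ≤ r := by exact_mod_cast hr
  have h2 : (r : ℝ) ≤ g := by exact_mod_cast hg
  have := ratio_le (k := 0) (l := ((2 : ℕ) : ℝ)) (r := (r : ℝ)) (g := (g : ℝ)) (by norm_num)
    (by push_cast; linarith) h2 (by push_cast; linarith)
  simpa using this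

lemma PP_four {g r : ℕ} (hr : 4 ≤ r) (hg : r ≤ g) : PP g r 4 ≤ PP g r 2 * PP g r 2 := by
  rw [PP_succ (k := 3) (by omega) hg, PP_succ (k := 2) (by omega) hg, mul_assoc]
  refine mul_le_mul_of_nonneg_left ?_ (PP_nonneg _ _ _)
  rw [PP_two (by omega) hg]
  have h1 : (4 : ℝ) ≤ r := by exact_mod_cast hr
  have h2 : (r : ℝ) ≤ g := by exact_mod_cast hg
  have e1 := ratio_le (k := 0) (l := ((2 : ℕ) : ℝ)) (r := (r : ℝ)) (g := (g : ℝ)) (by norm_num)
    (by push_cast; linarith) h2 (by push_cast; linarith)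
  have e2 := ratio_le (k := 1) (l := ((3 : ℕ) : ℝ)) (r := (r : ℝ)) (g := (g : ℝ)) (by norm_num)
    (by push_cast; linarith) h2 (by push_cast; linarith)
  have e3 : (r : ℝ) * (r - 1) / ((g : ℝ) * (g - 1)) = ((r : ℝ) - 0) / ((g : ℝ) - 0) *
      (((r : ℝ) - 1) / ((g : ℝ) - 1)) := by
    rw [sub_zero, sub_zero, mul_div_mul_comm]
  rw [e3]
  refine mul_le_mul e1 e2 ?_ ?_
  · apply div_nonneg <;> push_cast <;> linarith
  · apply div_nonneg <;> push_cast <;> linarith

lemma PP_anti {g r k : ℕ} (hk : k < r) (hg : r ≤ g) : PP g r (k + 1) ≤ PP g r k := by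
  rw [PP_succ hk.le hg]
  have h1 : (k : ℝ) < r := by exact_mod_cast hk
  have h2 : (r : ℝ) ≤ g := by exact_mod_cast hg
  refine mul_le_of_le_one_right (PP_nonneg _ _ _) ?_
  rw [div_le_one (by linarith)]
  linarith

/-! ### moments of the number of pairs -/

/-- number of pairs in a set -/
noncomputable def TT (A : Finset ι) : ℝ := ((IN lab A).card : ℝ)

lemma TT_eq (A : Finset ι) : TT lab A = ∑ p ∈ Q2 lab, if ({p.1, p.2} : Finset ι) ⊆ A then (1 : ℝ) else 0 := by
  unfold TT IN
  rw [Finset.card_filter]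
  push_cast
  refine Finset.sum_congr rfl fun p _ => ?_
  have : (p.1 ∈ A ∧ p.2 ∈ A) ↔ ({p.1, p.2} : Finset ι) ⊆ A := by
    rw [Finset.insert_subset_iff, Finset.singleton_subset_iff]
  simp only [this]

lemma sum_ind (S : Finset ι) (r : ℕ) (hr : r ≤ Fintype.card ι) :
    ∑ A ∈ (univ : Finset ι).powersetCard r, (if S ⊆ A then (1 : ℝ) else 0) =
      ((Fintype.card ι).choose r : ℝ) * PP (Fintype.card ι) r S.card := by
  rw [← cnt_eq S r hr, Finset.sum_boole]

lemma first_moment (r : ℕ) (hr : r ≤ Fintype.card ι) :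
    ∑ A ∈ (univ : Finset ι).powersetCard r, TT lab A =
      ((Fintype.card ι).choose r : ℝ) * ((Q2 lab).card * PP (Fintype.card ι) r 2) := by
  simp only [TT_eq]
  rw [Finset.sum_comm]
  have h : ∀ p ∈ Q2 lab, ∑ A ∈ (univ : Finset ι).powersetCard r,
      (if ({p.1, p.2} : Finset ι) ⊆ A then (1 : ℝ) else 0) =
      ((Fintype.card ι).choose r : ℝ) * PP (Fintype.card ι) r 2 := by
    intro p hp
    rw [sum_ind _ r hr, Finset.card_pair ((mem_Q2 lab).1 hp).1]
  rw [Finset.sum_congr rfl h, Finset.sum_const, nsmul_eq_mul]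
  ring

/-- the number of pairs which meet a given pair -/
lemma meet_card (mm : ℕ) (hmm : ∀ v : κ, (univ.filter fun x => lab x = v).card = mm)
    {p : ι × ι} (hpp : p.1 ≠ p.2) :
    ((Q2 lab).filter fun p' => ({p.1, p.2, p'.1, p'.2} : Finset ι).card < 4).card ≤ 4 * mm := by
  have h : (Q2 lab).filter (fun p' => ({p.1, p.2, p'.1, p'.2} : Finset ι).card < 4) ⊆
      (((univ.filter fun x => lab x = lab p.1).image fun x => (p.1, x)) ∪
        ((univ.filter fun x => lab x = lab p.1).image fun x => (x, p.1))) ∪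
      (((univ.filter fun x => lab x = lab p.2).image fun x => (p.2, x)) ∪
        ((univ.filter fun x => lab x = lab p.2).image fun x => (x, p.2))) := by
    rintro ⟨a, b⟩ hp'
    rw [Finset.mem_filter, mem_Q2] at hp'
    obtain ⟨⟨h1, h2⟩, h3⟩ := hp'
    simp only at h1 h2 h3
    simp only [Finset.mem_union, Finset.mem_image, Finset.mem_filter, Finset.mem_univ, true_and,
      Prod.mk.injEq]
    by_contra hc
    push Not at hc
    obtain ⟨⟨c1, c2⟩, c3, c4⟩ := hc
    have ha1 : a ≠ p.1 := fun e => c1 b (by rw [← e]; exact h2.symm) e.symm rfl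
    have hb1 : b ≠ p.1 := fun e => c2 a (by rw [← e]; exact h2) rfl e.symm
    have ha2 : a ≠ p.2 := fun e => c3 b (by rw [← e]; exact h2.symm) e.symm rfl
    have hb2 : b ≠ p.2 := fun e => c4 a (by rw [← e]; exact h2) rfl e.symm
    have : ({p.1, p.2, a, b} : Finset ι).card = 4 := by
      rw [Finset.card_insert_of_notMem, Finset.card_insert_of_notMem,
        Finset.card_pair h1]
      · simp only [Finset.mem_insert, Finset.mem_singleton]
        push Not
        exact ⟨ha2.symm, hb2.symm⟩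
      · simp only [Finset.mem_insert, Finset.mem_singleton]
        push Not
        exact ⟨hpp, ha1.symm, hb1.symm⟩
    omega
  refine (Finset.card_le_card h).trans ?_
  have i1 : ∀ (v : κ) (f : ι → ι × ι),
      ((univ.filter fun x => lab x = v).image f).card ≤ mm := fun v f => by
    refine Finset.card_image_le.trans ?_
    rw [hmm]
  refine (Finset.card_union_le _ _).trans ?_
  have a1 := Finset.card_union_le ((univ.filter fun x => lab x = lab p.1).image fun x => (p.1, x))
    ((univ.filter fun x => lab x = lab p.1).image fun x => (x, p.1))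
  have a2 := Finset.card_union_le ((univ.filter fun x => lab x = lab p.2).image fun x => (p.2, x))
    ((univ.filter fun x => lab x = lab p.2).image fun x => (x, p.2))
  have b1 := i1 (lab p.1) (fun x => (p.1, x))
  have b2 := i1 (lab p.1) (fun x => (x, p.1))
  have b3 := i1 (lab p.2) (fun x => (p.2, x))
  have b4 := i1 (lab p.2) (fun x => (x, p.2))
  omega

lemma same_card {p : ι × ι} (hpp : p.1 ≠ p.2) :
    ((Q2 lab).filter fun p' => ({p.1, p.2, p'.1, p'.2} : Finset ι).card < 3).card ≤ 2 := by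
  have h : (Q2 lab).filter (fun p' => ({p.1, p.2, p'.1, p'.2} : Finset ι).card < 3) ⊆
      {(p.1, p.2), (p.2, p.1)} := by
    rintro ⟨a, b⟩ hp'
    rw [Finset.mem_filter, mem_Q2] at hp'
    obtain ⟨⟨h1, h2⟩, h3⟩ := hp'
    simp only at h1 h2 h3
    have hp2 : ({p.1, p.2} : Finset ι).card = 2 := Finset.card_pair hpp
    have hsub : ({p.1, p.2} : Finset ι) ⊆ {p.1, p.2, a, b} := by
      intro x hx
      simp only [Finset.mem_insert, Finset.mem_singleton] at hx ⊢
      tauto
    have heq : ({p.1, p.2} : Finset ι) = {p.1, p.2, a, b} :=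
      Finset.eq_of_subset_of_card_le hsub (by omega)
    have ha : a ∈ ({p.1, p.2} : Finset ι) := by rw [heq]; simp
    have hb : b ∈ ({p.1, p.2} : Finset ι) := by rw [heq]; simp
    simp only [Finset.mem_insert, Finset.mem_singleton, Prod.mk.injEq] at ha hb ⊢
    rcases ha with ha | ha <;> rcases hb with hb | hb
    · exact absurd (ha.trans hb.symm) h1
    · exact Or.inl ⟨ha, hb⟩
    · exact Or.inr ⟨ha, hb⟩
    · exact absurd (ha.trans hb.symm) h1
  refine (Finset.card_le_card h).trans ?_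
  exact Finset.card_le_two

lemma four_card {p p' : ι × ι} : ({p.1, p.2, p'.1, p'.2} : Finset ι).card ≤ 4 :=
  Finset.card_le_four

lemma two_card {p p' : ι × ι} (hpp : p.1 ≠ p.2) :
    2 ≤ ({p.1, p.2, p'.1, p'.2} : Finset ι).card := by
  rw [← Finset.card_pair hpp]
  refine Finset.card_le_card fun x hx => ?_
  simp only [Finset.mem_insert, Finset.mem_singleton] at hx ⊢
  tauto

lemma second_moment (mm : ℕ) (hmm : ∀ v : κ, (univ.filter fun x => lab x = v).card = mm)
    (r : ℕ) (hr : r ≤ Fintype.card ι) :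
    ∑ A ∈ (univ : Finset ι).powersetCard r, TT lab A ^ 2 ≤
      ((Fintype.card ι).choose r : ℝ) * ((Q2 lab).card * ((Q2 lab).card * PP (Fintype.card ι) r 4 +
        4 * mm * PP (Fintype.card ι) r 3 + 2 * PP (Fintype.card ι) r 2)) := by
  set g := Fintype.card ι with hg
  have e1 : ∀ A : Finset ι, TT lab A ^ 2 = ∑ p ∈ Q2 lab, ∑ p' ∈ Q2 lab,
      if ({p.1, p.2, p'.1, p'.2} : Finset ι) ⊆ A then (1 : ℝ) else 0 := by
    intro A
    rw [sq, TT_eq, Finset.sum_mul_sum]
    refine Finset.sum_congr rfl fun p _ => Finset.sum_congr rfl fun p' _ => ?_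
    have : ({p.1, p.2, p'.1, p'.2} : Finset ι) ⊆ A ↔
        (({p.1, p.2} : Finset ι) ⊆ A ∧ ({p'.1, p'.2} : Finset ι) ⊆ A) := by
      simp only [Finset.insert_subset_iff, Finset.singleton_subset_iff]
      tauto
    by_cases h1 : ({p.1, p.2} : Finset ι) ⊆ A <;> by_cases h2 : ({p'.1, p'.2} : Finset ι) ⊆ A <;>
      simp [this, h1, h2]
  simp only [e1]
  rw [Finset.sum_comm]
  have e2 : ∀ p ∈ Q2 lab, ∑ A ∈ (univ : Finset ι).powersetCard r, ∑ p' ∈ Q2 lab,
      (if ({p.1, p.2, p'.1, p'.2} : Finset ι) ⊆ A then (1 : ℝ) else 0) ≤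
      (g.choose r : ℝ) * ((Q2 lab).card * PP g r 4 + 4 * mm * PP g r 3 + 2 * PP g r 2) := by
    intro p hp
    have hpp := ((mem_Q2 lab).1 hp).1
    rw [Finset.sum_comm]
    have e3 : ∀ p' ∈ Q2 lab, ∑ A ∈ (univ : Finset ι).powersetCard r,
        (if ({p.1, p.2, p'.1, p'.2} : Finset ι) ⊆ A then (1 : ℝ) else 0) ≤
        (g.choose r : ℝ) * (PP g r 4 +
          (if ({p.1, p.2, p'.1, p'.2} : Finset ι).card < 4 then PP g r 3 else 0) +
          (if ({p.1, p.2, p'.1, p'.2} : Finset ι).card < 3 then PP g r 2 else 0)) := by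
      intro p' hp'
      rw [sum_ind _ r hr]
      refine mul_le_mul_of_nonneg_left ?_ (Nat.cast_nonneg _)
      have c1 := four_card (p := p) (p' := p')
      have c2 := two_card (p := p) (p' := p') hpp
      have n4 := PP_nonneg g r 4
      have n3 := PP_nonneg g r 3
      have n2 := PP_nonneg g r 2
      rcases (by omega : ({p.1, p.2, p'.1, p'.2} : Finset ι).card = 2 ∨
        ({p.1, p.2, p'.1, p'.2} : Finset ι).card = 3 ∨
        ({p.1, p.2, p'.1, p'.2} : Finset ι).card = 4) with h | h | h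
      · rw [h]; norm_num; linarith
      · rw [h]; norm_num; linarith
      · rw [h]; norm_num; exact le_rfl
    refine (Finset.sum_le_sum e3).trans ?_
    rw [← Finset.mul_sum, Finset.sum_add_distrib, Finset.sum_add_distrib, Finset.sum_const,
      nsmul_eq_mul, ← Finset.sum_filter, ← Finset.sum_filter, Finset.sum_const, Finset.sum_const,
      nsmul_eq_mul, nsmul_eq_mul]
    refine mul_le_mul_of_nonneg_left ?_ (Nat.cast_nonneg _)
    have m1 := meet_card lab mm hmm hpp
    have m2 := same_card lab hpp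
    have m1' : ((((Q2 lab).filter fun p' => ({p.1, p.2, p'.1, p'.2} : Finset ι).card < 4).card : ℕ) : ℝ) ≤
        4 * mm := by exact_mod_cast m1
    have m2' : ((((Q2 lab).filter fun p' => ({p.1, p.2, p'.1, p'.2} : Finset ι).card < 3).card : ℕ) : ℝ) ≤
        2 := by exact_mod_cast m2
    have n3 := PP_nonneg g r 3
    have n2 := PP_nonneg g r 2
    have q1 := mul_le_mul_of_nonneg_right m1' n3
    have q2 := mul_le_mul_of_nonneg_right m2' n2
    linarith
  refine (Finset.sum_le_sum e2).trans ?_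
  rw [Finset.sum_const, nsmul_eq_mul]
  exact le_of_eq (by ring)

/-- number of pairs -/
lemma card_Q2 (mm : ℕ) (hmm : ∀ v : κ, (univ.filter fun x => lab x = v).card = mm) :
    (Q2 lab).card = Fintype.card ι * (mm - 1) ∧ Fintype.card ι = Fintype.card κ * mm := by
  constructor
  · unfold Q2
    have e : (univ.filter fun p : ι × ι => p.1 ≠ p.2 ∧ lab p.1 = lab p.2) =
        (univ : Finset ι).biUnion fun x => ((univ.filter fun y => lab y = lab x).erase x).image
          fun y => (x, y) := by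
      ext ⟨a, b⟩
      simp only [Finset.mem_filter, Finset.mem_univ, true_and, Finset.mem_biUnion,
        Finset.mem_image, Finset.mem_erase, Prod.mk.injEq]
      constructor
      · rintro ⟨h1, h2⟩
        exact ⟨a, b, ⟨fun e => h1 e.symm, h2.symm⟩, rfl, rfl⟩
      · rintro ⟨x, y, ⟨h1, h2⟩, rfl, rfl⟩
        exact ⟨fun e => h1 e.symm, h2.symm⟩
    rw [e, Finset.card_biUnion]
    · have h1 : ∀ x ∈ (univ : Finset ι), (((univ.filter fun y => lab y = lab x).erase x).image
          fun y => (x, y)).card = mm - 1 := by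
        intro x _
        rw [Finset.card_image_of_injective _ (fun y y' h => by simpa using h),
          Finset.card_erase_of_mem (by simp), hmm]
      rw [Finset.sum_congr rfl h1, Finset.sum_const, Finset.card_univ, smul_eq_mul]
    · intro x _ x' _ hxx
      rw [Function.onFun, Finset.disjoint_left]
      rintro ⟨a, b⟩ h1 h2
      simp only [Finset.mem_image, Prod.mk.injEq] at h1 h2
      obtain ⟨y, -, rfl, -⟩ := h1
      obtain ⟨y', -, h3, -⟩ := h2
      exact hxx h3.symm
  · rw [← Finset.card_univ, Finset.card_eq_sum_card_fiberwise (f := lab) (t := univ)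
      (fun x _ => Finset.mem_univ _), Finset.sum_congr rfl fun v _ => hmm v, Finset.sum_const,
      Finset.card_univ, smul_eq_mul]

end comb

end Pool.Agent.N940.MM.Dep
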