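import Pool.Agent.N940.MM.Dep1

/-!
# De-Poissonization with parity, part 2: regularity of the layer averages (helper222)
-/

set_option autoImplicit false
set_option linter.unusedSectionVars false
set_option linter.unusedVariables false

open Filter Topology Finset

namespace Pool.Agent.N940.MM.Dep

open Pool.Agent.N940.TSP.Dep (U)

section reg

variable {ι κ : Type} [Fintype ι] [DecidableEq ι] [Fintype κ] [DecidableEq κ] (lab : ι → κ)

lemma sum_OU (j : ℕ) : ∑ A ∈ (univ : Finset ι).powersetCard j, ((OU lab A).card : ℝ) =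
    ∑ A ∈ (univ : Finset ι).powersetCard (j + 2), TT lab A := by
  have h := double_count2 lab j (fun _ _ => (1 : ℝ))
  simp only [Finset.sum_const, nsmul_eq_mul, mul_one] at h
  exact h

lemma OU_le (A : Finset ι) : (OU lab A).card ≤ (Q2 lab).card :=
  Finset.card_le_card (Finset.filter_subset _ _)

lemma OU_ge (mm : ℕ) (hmm : ∀ v : κ, (univ.filter fun x => lab x = v).card = mm) (A : Finset ι) :
    (Q2 lab).card ≤ (OU lab A).card + 2 * A.card * mm := by
  have h : Q2 lab ⊆ OU lab A ∪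
      ((A.biUnion fun x => (univ.filter fun y => lab y = lab x).image fun y => (x, y)) ∪
      (A.biUnion fun x => (univ.filter fun y => lab y = lab x).image fun y => (y, x))) := by
    rintro ⟨a, b⟩ hp
    rw [mem_Q2] at hp
    obtain ⟨h1, h2⟩ := hp
    simp only [Finset.mem_union, mem_OU, Finset.mem_biUnion, Finset.mem_image, Finset.mem_filter,
      Finset.mem_univ, true_and, Prod.mk.injEq]
    by_cases ha : a ∈ A
    · exact Or.inr (Or.inl ⟨a, ha, b, h2.symm, rfl, rfl⟩)
    · by_cases hb : b ∈ A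
      · exact Or.inr (Or.inr ⟨b, hb, a, h2, rfl, rfl⟩)
      · exact Or.inl ⟨⟨h1, h2⟩, ha, hb⟩
  have i1 : ∀ f : ι → ι → ι × ι, (A.biUnion fun x =>
      (univ.filter fun y => lab y = lab x).image (f x)).card ≤ A.card * mm := by
    intro f
    refine Finset.card_biUnion_le.trans ?_
    refine (Finset.sum_le_card_nsmul _ _ mm fun x _ => ?_).trans (le_of_eq (smul_eq_mul _ _))
    refine Finset.card_image_le.trans ?_
    rw [hmm]
  have h1 := (Finset.card_le_card h).trans (Finset.card_union_le _ _)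
  have h2 := Finset.card_union_le
    (A.biUnion fun x => (univ.filter fun y => lab y = lab x).image fun y => (x, y))
    (A.biUnion fun x => (univ.filter fun y => lab y = lab x).image fun y => (y, x))
  have h3 := i1 (fun x y => (x, y))
  have h4 := i1 (fun x y => (y, x))
  have h5 : 2 * A.card * mm = A.card * mm + A.card * mm := by ring
  omega

/-- one step of the layer averages -/
lemma step_le (mm : ℕ) (hmm : ∀ v : κ, (univ.filter fun x => lab x = v).card = mm) (j : ℕ)
    (hj : j + 2 ≤ Fintype.card ι) (hje : Even j) (hj2 : 2 ≤ j) (Φ : Finset ι → ℂ)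
    (hΦ : ∀ A, ‖Φ A‖ ≤ 1) (δ : ℝ)
    (hδ : ∀ (A : Finset ι) (x y : ι), x ∉ A → y ∉ A → x ≠ y → lab x = lab y → Even A.card →
      ‖Φ (insert x (insert y A)) - Φ A‖ ≤ δ)
    (hb : 4 * (j : ℝ) * mm ≤ (Q2 lab).card) (hQ : 0 < (Q2 lab).card) :
    ‖U (j + 2) Φ - U j Φ‖ ≤ δ +
      Real.sqrt ((4 * mm * (((j + 2 : ℕ) : ℝ) / Fintype.card ι) + 2) /
        ((Q2 lab).card * PP (Fintype.card ι) (j + 2) 2)) +
      4 * j * mm / (Q2 lab).card := by
  set g := Fintype.card ι with hg
  set r := j + 2 with hr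
  set a0 : ℝ := ((Q2 lab).card : ℝ) with ha0
  set ET : ℝ := a0 * PP g r 2 with hET
  have ha0p : 0 < a0 := by rw [ha0]; exact_mod_cast hQ
  have hr4 : 4 ≤ r := by omega
  have hrR : (4 : ℝ) ≤ r := by exact_mod_cast hr4
  have hgR : (r : ℝ) ≤ g := by exact_mod_cast hj
  have hPP2 : 0 < PP g r 2 := by
    rw [PP_two (by omega) hj]
    apply div_pos <;> apply mul_pos <;> linarith
  have hETp : 0 < ET := mul_pos ha0p hPP2
  have hNr : (0 : ℝ) < (g.choose r : ℝ) := by exact_mod_cast Nat.choose_pos hj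
  have hNj : (0 : ℝ) < (g.choose j : ℝ) := by exact_mod_cast Nat.choose_pos (by omega : j ≤ g)
  set M : ℝ := (g.choose r : ℝ) * ET with hM
  have hMp : 0 < M := mul_pos hNr hETp
  have hM1 : ∑ A ∈ (univ : Finset ι).powersetCard r, TT lab A = M := first_moment lab r hj
  have hM2 : ∑ A ∈ (univ : Finset ι).powersetCard j, ((OU lab A).card : ℝ) = M := by
    rw [sum_OU, hM1]
  -- the three terms
  set X1 : ℂ := (((g.choose r : ℕ) : ℂ))⁻¹ * ∑ A ∈ (univ : Finset ι).powersetCard r,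
    ((1 - TT lab A / ET : ℝ) : ℂ) * Φ A with hX1
  set X2 : ℂ := ((M : ℝ) : ℂ)⁻¹ * ∑ A ∈ (univ : Finset ι).powersetCard j, ∑ p ∈ OU lab A,
    (Φ (insert p.1 (insert p.2 A)) - Φ A) with hX2
  set X3 : ℂ := ∑ A ∈ (univ : Finset ι).powersetCard j,
    ((((OU lab A).card : ℝ) / M - ((g.choose j : ℝ))⁻¹ : ℝ) : ℂ) * Φ A with hX3
  have hsplit : U r Φ - U j Φ = X1 + X2 + X3 := by
    have d1 := double_count2 lab j (fun _ B => Φ B)
    have d2 : ∀ A : Finset ι, ∑ p ∈ IN lab A, Φ A = ((TT lab A : ℝ) : ℂ) * Φ A := by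
      intro A
      rw [Finset.sum_const, nsmul_eq_mul]
      unfold TT
      push_cast
      rfl
    simp only [d2] at d1
    have d3 : ∀ A : Finset ι, ∑ p ∈ OU lab A, (Φ (insert p.1 (insert p.2 A)) - Φ A) =
        ∑ p ∈ OU lab A, Φ (insert p.1 (insert p.2 A)) - ((OU lab A).card : ℂ) * Φ A := by
      intro A
      rw [Finset.sum_sub_distrib, Finset.sum_const, nsmul_eq_mul]
    have c1 : ((g.choose r : ℕ) : ℂ) ≠ 0 := by exact_mod_cast hNr.ne'
    have c2 : ((ET : ℝ) : ℂ) ≠ 0 := by exact_mod_cast hETp.ne'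
    have c3 : ((M : ℝ) : ℂ) ≠ 0 := by exact_mod_cast hMp.ne'
    have c4 : ((M : ℝ) : ℂ) = ((g.choose r : ℕ) : ℂ) * ((ET : ℝ) : ℂ) := by
      rw [hM]; push_cast; rfl
    have t1 : X1 = U r Φ - ((M : ℝ) : ℂ)⁻¹ * ∑ A ∈ (univ : Finset ι).powersetCard r,
        ((TT lab A : ℝ) : ℂ) * Φ A := by
      rw [hX1]
      unfold U
      rw [← hg, c4]
      have : ∀ A : Finset ι, ((1 - TT lab A / ET : ℝ) : ℂ) * Φ A =
          Φ A - ((ET : ℝ) : ℂ)⁻¹ * (((TT lab A : ℝ) : ℂ) * Φ A) := by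
        intro A
        push_cast
        field_simp
      simp only [this]
      rw [Finset.sum_sub_distrib, ← Finset.mul_sum, mul_inv]
      ring
    have t2 : X2 = ((M : ℝ) : ℂ)⁻¹ * ∑ A ∈ (univ : Finset ι).powersetCard r,
        ((TT lab A : ℝ) : ℂ) * Φ A - ((M : ℝ) : ℂ)⁻¹ *
          ∑ A ∈ (univ : Finset ι).powersetCard j, ((OU lab A).card : ℂ) * Φ A := by
      rw [hX2]
      simp only [d3]
      rw [Finset.sum_sub_distrib, d1, mul_sub]
    have t3 : X3 = ((M : ℝ) : ℂ)⁻¹ * ∑ A ∈ (univ : Finset ι).powersetCard j,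
        ((OU lab A).card : ℂ) * Φ A - U j Φ := by
      rw [hX3]
      unfold U
      rw [← hg]
      have : ∀ A : Finset ι, ((((OU lab A).card : ℝ) / M - ((g.choose j : ℝ))⁻¹ : ℝ) : ℂ) * Φ A =
          ((M : ℝ) : ℂ)⁻¹ * (((OU lab A).card : ℂ) * Φ A) - (((g.choose j : ℕ) : ℂ))⁻¹ * Φ A := by
        intro A
        push_cast
        field_simp
      simp only [this]
      rw [Finset.sum_sub_distrib, ← Finset.mul_sum, ← Finset.mul_sum]
    rw [t1, t2, t3]
    ring
  rw [hsplit]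
  -- the first term
  have b1 : ‖X1‖ ≤ Real.sqrt ((4 * mm * ((r : ℝ) / g) + 2) / ET) := by
    have s1 : ‖X1‖ ≤ (g.choose r : ℝ)⁻¹ * ∑ A ∈ (univ : Finset ι).powersetCard r,
        |1 - TT lab A / ET| := by
      rw [hX1, norm_mul, norm_inv, Complex.norm_natCast]
      refine mul_le_mul_of_nonneg_left ?_ (by positivity)
      refine (norm_sum_le _ _).trans (Finset.sum_le_sum fun A _ => ?_)
      rw [norm_mul, Complex.norm_real, Real.norm_eq_abs]
      exact mul_le_of_le_one_right (abs_nonneg _) (hΦ A)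
    refine s1.trans ?_
    apply Real.le_sqrt_of_sq_le
    have cs := sq_sum_le_card_mul_sum_sq (s := (univ : Finset ι).powersetCard r)
      (f := fun A => |1 - TT lab A / ET|)
    simp only [sq_abs] at cs
    rw [Finset.card_powersetCard, Finset.card_univ, ← hg] at cs
    have sm := second_moment lab mm hmm r hj
    rw [← hg, ← ha0] at sm
    have p3 := PP_three (g := g) (r := r) (by omega) hj
    have p4 := PP_four (g := g) (r := r) (by omega) hj
    have sm2 : ∑ A ∈ (univ : Finset ι).powersetCard r, TT lab A ^ 2 ≤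
        (g.choose r : ℝ) * (ET ^ 2 + (4 * mm * ((r : ℝ) / g) + 2) * ET) := by
      refine sm.trans (mul_le_mul_of_nonneg_left ?_ hNr.le)
      have q1 : a0 * PP g r 4 ≤ a0 * (PP g r 2 * PP g r 2) := mul_le_mul_of_nonneg_left p4 ha0p.le
      have q2 : 4 * (mm : ℝ) * PP g r 3 ≤ 4 * mm * (PP g r 2 * ((r : ℝ) / g)) :=
        mul_le_mul_of_nonneg_left p3 (by positivity)
      calc a0 * (a0 * PP g r 4 + 4 * mm * PP g r 3 + 2 * PP g r 2) ≤
            a0 * (a0 * (PP g r 2 * PP g r 2) + 4 * mm * (PP g r 2 * ((r : ℝ) / g)) +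
              2 * PP g r 2) := mul_le_mul_of_nonneg_left (by linarith) ha0p.le
        _ = ET ^ 2 + (4 * mm * ((r : ℝ) / g) + 2) * ET := by rw [hET]; ring
    have e2 : ∑ A ∈ (univ : Finset ι).powersetCard r, (1 - TT lab A / ET) ^ 2 =
        (g.choose r : ℝ) - 2 * M / ET + (∑ A ∈ (univ : Finset ι).powersetCard r, TT lab A ^ 2) /
          ET ^ 2 := by
      have : ∀ A : Finset ι, (1 - TT lab A / ET) ^ 2 =
          1 - 2 * (TT lab A / ET) + TT lab A ^ 2 / ET ^ 2 := by
        intro A; ring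
      simp only [this]
      rw [Finset.sum_add_distrib, Finset.sum_sub_distrib, Finset.sum_const,
        Finset.card_powersetCard, Finset.card_univ, ← Finset.mul_sum, ← Finset.sum_div,
        ← Finset.sum_div, hM1, nsmul_eq_mul, mul_one]
      ring
    have e3 : ∑ A ∈ (univ : Finset ι).powersetCard r, (1 - TT lab A / ET) ^ 2 ≤
        (g.choose r : ℝ) * ((4 * mm * ((r : ℝ) / g) + 2) / ET) := by
      rw [e2]
      have h1 : (∑ A ∈ (univ : Finset ι).powersetCard r, TT lab A ^ 2) / ET ^ 2 ≤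
          (g.choose r : ℝ) * (ET ^ 2 + (4 * mm * ((r : ℝ) / g) + 2) * ET) / ET ^ 2 :=
        div_le_div_of_nonneg_right sm2 (by positivity)
      have h2 : (g.choose r : ℝ) * (ET ^ 2 + (4 * mm * ((r : ℝ) / g) + 2) * ET) / ET ^ 2 =
          (g.choose r : ℝ) + (g.choose r : ℝ) * ((4 * mm * ((r : ℝ) / g) + 2) / ET) := by
        field_simp
      have h3 : 2 * M / ET = 2 * (g.choose r : ℝ) := by
        rw [hM]; field_simp
      rw [h3]
      linarith
    rw [mul_pow, inv_pow]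
    calc ((g.choose r : ℝ) ^ 2)⁻¹ *
          (∑ A ∈ (univ : Finset ι).powersetCard r, |1 - TT lab A / ET|) ^ 2 ≤
        ((g.choose r : ℝ) ^ 2)⁻¹ * ((g.choose r : ℝ) * ((g.choose r : ℝ) *
          ((4 * mm * ((r : ℝ) / g) + 2) / ET))) := by
          refine mul_le_mul_of_nonneg_left ?_ (by positivity)
          exact cs.trans (mul_le_mul_of_nonneg_left e3 hNr.le)
      _ = _ := by field_simp
  -- the second term
  have b2 : ‖X2‖ ≤ δ := by
    rw [hX2, norm_mul, norm_inv, Complex.norm_real, Real.norm_of_nonneg hMp.le]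
    have h1 : ‖∑ A ∈ (univ : Finset ι).powersetCard j, ∑ p ∈ OU lab A,
        (Φ (insert p.1 (insert p.2 A)) - Φ A)‖ ≤ M * δ := by
      calc _ ≤ ∑ A ∈ (univ : Finset ι).powersetCard j, ∑ p ∈ OU lab A, δ := by
            refine (norm_sum_le _ _).trans (Finset.sum_le_sum fun A hA => ?_)
            refine (norm_sum_le _ _).trans (Finset.sum_le_sum fun p hp => ?_)
            rw [Finset.mem_powersetCard] at hA
            rw [mem_OU] at hp
            exact hδ A p.1 p.2 hp.2.1 hp.2.2 hp.1.1 hp.1.2 (by rw [hA.2]; exact hje)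
        _ = M * δ := by
            simp only [Finset.sum_const, nsmul_eq_mul]
            rw [← Finset.sum_mul, hM2]
    calc M⁻¹ * _ ≤ M⁻¹ * (M * δ) := mul_le_mul_of_nonneg_left h1 (by positivity)
      _ = δ := by field_simp
  -- the third term
  have b3 : ‖X3‖ ≤ 4 * j * mm / a0 := by
    have hOU : ∀ A ∈ (univ : Finset ι).powersetCard j,
        a0 - 2 * j * mm ≤ ((OU lab A).card : ℝ) ∧ ((OU lab A).card : ℝ) ≤ a0 := by
      intro A hA
      rw [Finset.mem_powersetCard] at hA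
      have h1 := OU_ge lab mm hmm A
      rw [hA.2] at h1
      have h2 := OU_le lab A
      constructor
      · have : a0 ≤ ((OU lab A).card : ℝ) + 2 * j * mm := by rw [ha0]; exact_mod_cast h1
        linarith
      · rw [ha0]; exact_mod_cast h2
    have hcard : ((univ : Finset ι).powersetCard j).card = g.choose j := by
      rw [Finset.card_powersetCard, Finset.card_univ]
    have hMlo : (g.choose j : ℝ) * (a0 - 2 * j * mm) ≤ M := by
      rw [← hM2, ← hcard, ← nsmul_eq_mul]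
      exact Finset.card_nsmul_le_sum _ _ _ fun A hA => (hOU A hA).1
    have hMhi : M ≤ (g.choose j : ℝ) * a0 := by
      rw [← hM2, ← hcard, ← nsmul_eq_mul]
      exact Finset.sum_le_card_nsmul _ _ _ fun A hA => (hOU A hA).2
    have hterm : ∀ A ∈ (univ : Finset ι).powersetCard j,
        ‖((((OU lab A).card : ℝ) / M - ((g.choose j : ℝ))⁻¹ : ℝ) : ℂ) * Φ A‖ ≤
          2 * j * mm / M := by
      intro A hA
      obtain ⟨h1, h2⟩ := hOU A hA
      rw [norm_mul, Complex.norm_real, Real.norm_eq_abs]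
      refine (mul_le_of_le_one_right (abs_nonneg _) (hΦ A)).trans ?_
      have e1 : ((OU lab A).card : ℝ) / M - ((g.choose j : ℝ))⁻¹ =
          ((g.choose j : ℝ) * (OU lab A).card - M) / ((g.choose j : ℝ) * M) := by
        field_simp
      rw [e1, abs_div, abs_of_pos (mul_pos hNj hMp), div_le_div_iff₀ (mul_pos hNj hMp) hMp]
      have h3 : |(g.choose j : ℝ) * (OU lab A).card - M| ≤ (g.choose j : ℝ) * (2 * j * mm) := by
        rw [abs_le]
        constructor
        · nlinarith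
        · nlinarith
      calc _ ≤ ((g.choose j : ℝ) * (2 * j * mm)) * M := mul_le_mul_of_nonneg_right h3 hMp.le
        _ = _ := by ring
    have h4 : ‖X3‖ ≤ (g.choose j : ℝ) * (2 * j * mm / M) := by
      rw [hX3]
      refine (norm_sum_le _ _).trans ?_
      have h5 := Finset.sum_le_card_nsmul _ _ _ hterm
      rwa [hcard, nsmul_eq_mul] at h5
    refine h4.trans ?_
    have h5 : (g.choose j : ℝ) * (a0 / 2) ≤ M := by
      refine le_trans (mul_le_mul_of_nonneg_left ?_ hNj.le) hMlo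
      linarith
    rw [← mul_div_assoc, div_le_div_iff₀ hMp ha0p]
    have h6 : 0 ≤ 4 * (j : ℝ) * mm := by positivity
    nlinarith
  calc ‖X1 + X2 + X3‖ ≤ ‖X1‖ + ‖X2‖ + ‖X3‖ := norm_add₃_le
    _ ≤ _ := by linarith

/-- one step of the layer averages, explicit -/
lemma step_num (mm : ℕ) (hmm : ∀ v : κ, (univ.filter fun x => lab x = v).card = mm) (n : ℕ)
    (C : ℝ) (hC : 1 ≤ C) (hn4 : 4 ≤ n) (hnC : 16 * C ≤ n) (hnm : n ≤ mm)
    (hκ : (Fintype.card κ : ℝ) ≤ n) (hκ2 : (n : ℝ) ≤ C * Fintype.card κ) (j : ℕ)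
    (hj : j + 2 ≤ Fintype.card ι) (hje : Even j) (hj1 : n ≤ 2 * j) (hj2 : 2 * (j + 2) ≤ 4 * n)
    (Φ : Finset ι → ℂ) (hΦ : ∀ A, ‖Φ A‖ ≤ 1) (δ : ℝ)
    (hδ : ∀ (A : Finset ι) (x y : ι), x ∉ A → y ∉ A → x ≠ y → lab x = lab y → Even A.card →
      ‖Φ (insert x (insert y A)) - Φ A‖ ≤ δ / Real.sqrt n) :
    ‖U (j + 2) Φ - U j Φ‖ ≤ (δ + 80 * C + 16) / Real.sqrt n := by
  obtain ⟨hQ, hg⟩ := card_Q2 lab mm hmm
  set g := Fintype.card ι with hgdef
  set K := Fintype.card κ with hK
  set r := j + 2 with hr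
  have hnR : (4 : ℝ) ≤ n := by exact_mod_cast hn4
  have hn0 : (0 : ℝ) < n := by linarith
  have hsn : 0 < Real.sqrt n := Real.sqrt_pos.mpr hn0
  have hsn1 : 1 ≤ Real.sqrt n := Real.one_le_sqrt.2 (by linarith)
  have hmmR : (n : ℝ) ≤ mm := by exact_mod_cast hnm
  have hmm4 : (4 : ℝ) ≤ mm := by linarith
  have hK0 : (0 : ℝ) < K := by
    refine lt_of_not_ge fun h => ?_
    have : C * (K : ℝ) ≤ 0 := mul_nonpos_of_nonneg_of_nonpos (by linarith) h
    linarith
  have hgR : (g : ℝ) = K * mm := by exact_mod_cast hg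
  have hQR : ((Q2 lab).card : ℝ) = g * (mm - 1) := by
    rw [hQ, Nat.cast_mul, Nat.cast_sub (by omega)]
    push_cast
    ring
  have hg0 : (0 : ℝ) < g := by rw [hgR]; positivity
  have hrg : (r : ℝ) ≤ g := by exact_mod_cast hj
  have hrR : (r : ℝ) = j + 2 := by rw [hr]; push_cast; ring
  have hj1R : (n : ℝ) ≤ 2 * j := by exact_mod_cast hj1
  have hj2R : 2 * (r : ℝ) ≤ 4 * n := by exact_mod_cast hj2
  have hr0 : (0 : ℝ) < r := by rw [hrR]; positivity
  have hQ0 : 0 < ((Q2 lab).card : ℝ) := by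
    rw [hQR]; apply mul_pos hg0; linarith
  -- K (mm - 1) is large
  have hKm : (n : ℝ) * n ≤ 2 * C * (K * (mm - 1)) := by
    have h1 : (mm : ℝ) ≤ 2 * (mm - 1) := by linarith
    have h2 : (n : ℝ) * n ≤ (C * K) * mm := mul_le_mul hκ2 hmmR hn0.le (by positivity)
    have h3 : (C * K) * (mm : ℝ) ≤ (C * K) * (2 * (mm - 1)) :=
      mul_le_mul_of_nonneg_left h1 (by positivity)
    linarith
  have hjn : (j : ℝ) ≤ 2 * n := by linarith
  have hb0 : 4 * (j : ℝ) ≤ K * (mm - 1) := by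
    have h1 : 4 * (j : ℝ) * (2 * C) ≤ 2 * C * (K * (mm - 1)) := by
      refine le_trans ?_ hKm
      calc 4 * (j : ℝ) * (2 * C) ≤ 4 * (2 * n) * (2 * C) := by
            apply mul_le_mul_of_nonneg_right (by linarith) (by linarith)
        _ = n * (16 * C) := by ring
        _ ≤ n * n := mul_le_mul_of_nonneg_left hnC hn0.le
    have h2 : 0 < 2 * C := by linarith
    have h3 : 2 * C * (4 * (j : ℝ)) ≤ 2 * C * (K * (mm - 1)) := by linarith
    exact le_of_mul_le_mul_left h3 h2
  have hb : 4 * (j : ℝ) * mm ≤ ((Q2 lab).card : ℝ) := by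
    rw [hQR, hgR]
    have : 4 * (j : ℝ) * mm ≤ (K * (mm - 1)) * mm :=
      mul_le_mul_of_nonneg_right hb0 (by linarith)
    linarith
  have h := step_le lab mm hmm j hj hje (by omega) Φ hΦ (δ / Real.sqrt n) hδ hb
    (by exact_mod_cast hQ0)
  refine h.trans ?_
  rw [← hgdef, ← hr]
  -- the expectation of the number of pairs
  have hET : (n : ℝ) / 8 ≤ ((Q2 lab).card : ℝ) * PP g r 2 := by
    rw [PP_two (by omega) hj, hQR]
    have hg1 : (0 : ℝ) < g - 1 := by linarith
    have e1 : (g : ℝ) * (mm - 1) * ((r : ℝ) * (r - 1) / ((g : ℝ) * (g - 1))) =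
        ((mm - 1) * (r * (r - 1))) / (g - 1) := by
      field_simp
    rw [e1, le_div_iff₀ hg1]
    have h1 : (n : ℝ) / 2 * (n / 2) ≤ r * (r - 1) := by
      apply mul_le_mul <;> linarith
    have h2 : (g : ℝ) ≤ n * mm := by
      rw [hgR]; exact mul_le_mul_of_nonneg_right hκ (by linarith)
    have h3 : (mm : ℝ) ≤ 2 * (mm - 1) := by linarith
    calc (n : ℝ) / 8 * (g - 1) ≤ n / 8 * (n * mm) := by
          apply mul_le_mul_of_nonneg_left _ (by positivity)
          linarith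
      _ ≤ n / 8 * (n * (2 * (mm - 1))) := by gcongr
      _ = (mm - 1) * (n / 2 * (n / 2)) := by ring
      _ ≤ (mm - 1) * (r * (r - 1)) := mul_le_mul_of_nonneg_left h1 (by linarith)
  have hV : (4 * (mm : ℝ) * ((r : ℝ) / g) + 2) ≤ 8 * C + 2 := by
    have e1 : 4 * (mm : ℝ) * ((r : ℝ) / g) = 4 * r / K := by
      rw [hgR]
      field_simp
    rw [e1]
    have : 4 * (r : ℝ) / K ≤ 8 * C := by
      rw [div_le_iff₀ hK0]
      linarith
    linarith
  have hET0 : 0 < ((Q2 lab).card : ℝ) * PP g r 2 := lt_of_lt_of_le (by positivity) hET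
  have hs : Real.sqrt ((4 * (mm : ℝ) * ((r : ℝ) / g) + 2) / (((Q2 lab).card : ℝ) * PP g r 2)) ≤
      (64 * C + 16) / Real.sqrt n := by
    rw [Real.sqrt_le_left (by positivity), div_pow, Real.sq_sqrt hn0.le]
    have h1 : (4 * (mm : ℝ) * ((r : ℝ) / g) + 2) / (((Q2 lab).card : ℝ) * PP g r 2) ≤
        (8 * C + 2) / (n / 8) := div_le_div₀ (by linarith) hV (by positivity) hET
    refine h1.trans ?_
    have h2 : (8 * C + 2) / ((n : ℝ) / 8) = (64 * C + 16) / n := by
      field_simp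
      ring
    rw [h2]
    apply div_le_div_of_nonneg_right _ hn0.le
    nlinarith
  have ht : 4 * (j : ℝ) * mm / ((Q2 lab).card : ℝ) ≤ 16 * C / Real.sqrt n := by
    rw [hQR, hgR, div_le_div_iff₀ (by rw [← hgR]; apply mul_pos hg0; linarith) hsn]
    have h1 : Real.sqrt n ≤ n := by
      have := Real.mul_self_sqrt hn0.le
      nlinarith
    have h2 : 4 * (j : ℝ) * mm * Real.sqrt n ≤ 4 * (2 * n) * mm * n := by
      gcongr
    have h3 : (4 * (2 * (n : ℝ)) * mm * n) ≤ 16 * C * (K * mm * (mm - 1)) := by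
      have h4 := mul_le_mul_of_nonneg_left hKm (by positivity : 0 ≤ 8 * (mm : ℝ))
      calc 4 * (2 * (n : ℝ)) * mm * n = 8 * mm * (n * n) := by ring
        _ ≤ 8 * mm * (2 * C * (K * (mm - 1))) := h4
        _ = _ := by ring
    linarith
  have e : (δ + 80 * C + 16) / Real.sqrt n = δ / Real.sqrt n + (64 * C + 16) / Real.sqrt n +
      16 * C / Real.sqrt n := by ring
  rw [e]
  linarith

/-- **Regularity of the layer averages.** -/
lemma U_reg2 (mm : ℕ) (hmm : ∀ v : κ, (univ.filter fun x => lab x = v).card = mm) (n : ℕ)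
    (C : ℝ) (hC : 1 ≤ C) (hn4 : 8 ≤ n) (hnC : 16 * C ≤ n) (hnm : n ≤ mm)
    (hκ : (Fintype.card κ : ℝ) ≤ n) (hκ2 : (n : ℝ) ≤ C * Fintype.card κ)
    (hgn : 2 * n ≤ Fintype.card ι) (hne : Even n)
    (Φ : Finset ι → ℂ) (hΦ : ∀ A, ‖Φ A‖ ≤ 1) (δ : ℝ) (hδ0 : 0 ≤ δ)
    (hδ : ∀ (A : Finset ι) (x y : ι), x ∉ A → y ∉ A → x ≠ y → lab x = lab y → Even A.card →
      ‖Φ (insert x (insert y A)) - Φ A‖ ≤ δ / Real.sqrt n) (m : ℕ) (hme : Even m)
    (hm : m ≤ Fintype.card ι) :
    ‖U m Φ - U n Φ‖ ≤ (δ + 80 * C + 16) * |((m : ℝ) - n) / Real.sqrt n| := by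
  have hnR : (8 : ℝ) ≤ n := by exact_mod_cast hn4
  have hn0 : (0 : ℝ) < n := by linarith
  have hsn : 0 < Real.sqrt n := Real.sqrt_pos.mpr hn0
  set L := (δ + 80 * C + 16) / Real.sqrt n with hL
  have hL0 : 0 ≤ L := by rw [hL]; positivity
  have hU1 : ∀ k, k ≤ Fintype.card ι → ‖U k Φ‖ ≤ 1 := by
    intro k hk
    unfold U
    rw [norm_mul, norm_inv, Complex.norm_natCast]
    have hc : (0 : ℝ) < ((Fintype.card ι).choose k : ℝ) := by exact_mod_cast Nat.choose_pos hk
    have : ‖∑ A ∈ (univ : Finset ι).powersetCard k, Φ A‖ ≤ ((Fintype.card ι).choose k : ℝ) := by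
      refine (norm_sum_le _ _).trans ?_
      refine (Finset.sum_le_card_nsmul _ _ 1 fun A _ => hΦ A).trans ?_
      rw [Finset.card_powersetCard, Finset.card_univ, nsmul_eq_mul, mul_one]
    calc _ ≤ ((Fintype.card ι).choose k : ℝ)⁻¹ * ((Fintype.card ι).choose k : ℝ) :=
          mul_le_mul_of_nonneg_left this (by positivity)
      _ = 1 := inv_mul_cancel₀ hc.ne'
  have habs : |((m : ℝ) - n) / Real.sqrt n| = |(m : ℝ) - n| / Real.sqrt n := by
    rw [abs_div, abs_of_pos hsn]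
  have hgoal : (δ + 80 * C + 16) * |((m : ℝ) - n) / Real.sqrt n| = L * |(m : ℝ) - n| := by
    rw [habs, hL]; ring
  rw [hgoal]
  -- telescoping
  have tel : ∀ (a i : ℕ), Even a → n ≤ 2 * a → 2 * (a + 2 * i) ≤ 4 * n →
      a + 2 * i ≤ Fintype.card ι → ‖U (a + 2 * i) Φ - U a Φ‖ ≤ L * (2 * i) := by
    intro a i ha h1 h2 h3
    induction i with
    | zero => simp
    | succ i ih =>
      have ih' := ih (by omega) (by omega)
      have h4 := step_num lab mm hmm n C hC (by omega) hnC hnm hκ hκ2 (a + 2 * i) (by omega)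
        (ha.add ⟨i, by ring⟩) (by omega) (by omega) Φ hΦ δ hδ
      have e1 : a + 2 * (i + 1) = a + 2 * i + 2 := by ring
      rw [e1]
      have e2 : U (a + 2 * i + 2) Φ - U a Φ =
          (U (a + 2 * i + 2) Φ - U (a + 2 * i) Φ) + (U (a + 2 * i) Φ - U a Φ) := by ring
      rw [e2]
      refine (norm_add_le _ _).trans ?_
      push_cast
      rw [← hL] at h4
      linarith
  by_cases hfar : n < 2 * m ∧ 2 * m < 3 * n
  · rcases le_total m n with hmn | hmn
    · obtain ⟨i, hi⟩ : ∃ i, n = m + 2 * i := by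
        obtain ⟨a, ha⟩ := hme
        obtain ⟨b, hb⟩ := hne
        exact ⟨b - a, by omega⟩
      have h1 := tel m i hme (by omega) (by omega) (by omega)
      rw [← hi] at h1
      rw [← norm_neg, neg_sub]
      refine h1.trans (le_of_eq ?_)
      have : (n : ℝ) = m + 2 * i := by exact_mod_cast hi
      rw [this, abs_of_nonpos (by
        have : (0 : ℝ) ≤ i := Nat.cast_nonneg i
        linarith)]
      ring
    · obtain ⟨i, hi⟩ : ∃ i, m = n + 2 * i := by
        obtain ⟨a, ha⟩ := hme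
        obtain ⟨b, hb⟩ := hne
        exact ⟨a - b, by omega⟩
      have h1 := tel n i hne (by omega) (by omega) (by omega)
      rw [← hi] at h1
      refine h1.trans (le_of_eq ?_)
      have : (m : ℝ) = n + 2 * i := by exact_mod_cast hi
      rw [this, abs_of_nonneg (by
        have : (0 : ℝ) ≤ i := Nat.cast_nonneg i
        linarith)]
      ring
  · have h1 : ‖U m Φ - U n Φ‖ ≤ 2 := by
      refine (norm_sub_le _ _).trans ?_
      have := hU1 m hm
      have := hU1 n (by omega)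
      linarith
    refine h1.trans ?_
    have h2 : (n : ℝ) / 2 ≤ |(m : ℝ) - n| := by
      rcases not_and_or.1 hfar with h | h
      · have : 2 * (m : ℝ) ≤ n := by exact_mod_cast (not_lt.1 h)
        rw [abs_of_nonpos (by linarith)]
        linarith
      · have : 3 * (n : ℝ) ≤ 2 * m := by exact_mod_cast (not_lt.1 h)
        rw [abs_of_nonneg (by linarith)]
        linarith
    have h3 : 4 / Real.sqrt n ≤ L := by
      rw [hL]
      apply div_le_div_of_nonneg_right _ hsn.le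
      linarith
    have h4 : Real.sqrt n * Real.sqrt n = n := Real.mul_self_sqrt hn0.le
    have h5 : 1 ≤ Real.sqrt n := Real.one_le_sqrt.2 (by linarith)
    calc (2 : ℝ) ≤ 2 * Real.sqrt n := by linarith
      _ = 4 / Real.sqrt n * (n / 2) := by
          rw [show 4 / Real.sqrt n * ((n : ℝ) / 2) = 2 * (n / Real.sqrt n) by ring, Real.div_sqrt]
      _ ≤ L * |(m : ℝ) - n| := mul_le_mul h3 h2 (by positivity) hL0

end reg

end Pool.Agent.N940.MM.Dep
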