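import Pool.Agent.N940.MM.Dep2

/-!
# De-Poissonization with parity, part 3: moments of the number of points (helper222)
-/

set_option autoImplicit false
set_option linter.unusedSectionVars false
set_option linter.unusedVariables false
set_option linter.unusedSimpArgs false

open Filter Topology Finset

namespace Pool.Agent.N940.MM.Dep

open Pool.Agent.N940.TSP.Dep (Pm Pm_nonneg sum_Pm sum_Pm_mul sum_Pm_sq mu_nonneg U)
open Pool.Agent.N940.TSP (mu)

/-! ### binomial sums with signs -/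

lemma bin0 (x y : ℝ) (g : ℕ) :
    ∑ m ∈ range (g + 1), (g.choose m : ℝ) * x ^ m * y ^ (g - m) = (x + y) ^ g := by
  rw [add_pow]
  exact Finset.sum_congr rfl fun m _ => by ring

lemma bin1 (x y : ℝ) (g : ℕ) :
    ∑ m ∈ range (g + 2), ((g + 1).choose m : ℝ) * x ^ m * y ^ (g + 1 - m) * m =
      (g + 1) * x * (x + y) ^ g := by
  rw [Finset.sum_range_succ', ← bin0, Finset.mul_sum]
  simp only [Nat.cast_zero, mul_zero, add_zero]
  refine Finset.sum_congr rfl fun m _ => ?_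
  have h := Nat.add_one_mul_choose_eq g m
  have h2 : ((g : ℝ) + 1) * (g.choose m : ℝ) = ((g + 1).choose (m + 1) : ℝ) * ((m : ℝ) + 1) := by
    exact_mod_cast h
  have h3 : g + 1 - (m + 1) = g - m := by omega
  rw [h3]
  push_cast
  calc _ = (((g + 1).choose (m + 1) : ℝ) * ((m : ℝ) + 1)) * (x ^ (m + 1) * y ^ (g - m)) := by ring
    _ = _ := by rw [← h2]; ring

lemma bin2 (x y : ℝ) (g : ℕ) :
    ∑ m ∈ range (g + 3), ((g + 2).choose m : ℝ) * x ^ m * y ^ (g + 2 - m) * (m * (m - 1)) =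
      (g + 2) * (g + 1) * x ^ 2 * (x + y) ^ g := by
  have e : ((g : ℝ) + 2) * (g + 1) * x ^ 2 * (x + y) ^ g =
      ((g + 2) * x) * ((g + 1) * x * (x + y) ^ g) := by ring
  rw [e, ← bin1, Finset.sum_range_succ', Finset.mul_sum]
  simp only [Nat.cast_zero, zero_mul, mul_zero, add_zero]
  refine Finset.sum_congr rfl fun m _ => ?_
  have h := Nat.add_one_mul_choose_eq (g + 1) m
  have h2 : ((g : ℝ) + 2) * ((g + 1).choose m : ℝ) =
      ((g + 2).choose (m + 1) : ℝ) * ((m : ℝ) + 1) := by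
    have h' : (((g + 1 + 1 : ℕ) : ℝ)) * ((g + 1).choose m : ℝ) =
      ((g + 1 + 1).choose (m + 1) : ℝ) * ((m + 1 : ℕ) : ℝ) := by exact_mod_cast h
    push_cast at h'
    have e2 : (g : ℝ) + 1 + 1 = g + 2 := by ring
    rw [e2] at h'
    exact h'
  have h3 : g + 2 - (m + 1) = g + 1 - m := by omega
  rw [h3]
  push_cast
  calc _ = (((g + 2).choose (m + 1) : ℝ) * ((m : ℝ) + 1)) *
        (x ^ (m + 1) * y ^ (g + 1 - m) * m) := by ring
    _ = _ := by rw [← h2]; ring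

lemma Pm_sign (g : ℕ) (q : ℝ) (m : ℕ) :
    Pm g q m * (-1) ^ m = (g.choose m : ℝ) * (-q) ^ m * (1 - q) ^ (g - m) := by
  unfold Pm
  rw [neg_pow q m]
  ring

lemma sg0 (g : ℕ) (q : ℝ) :
    ∑ m ∈ range (g + 1), Pm g q m * (-1) ^ m = (1 - 2 * q) ^ g := by
  simp only [Pm_sign]
  rw [bin0]
  congr 1; ring

lemma sg1 (g : ℕ) (q : ℝ) (hg : 1 ≤ g) :
    ∑ m ∈ range (g + 1), Pm g q m * (-1) ^ m * m = -(g * q) * (1 - 2 * q) ^ (g - 1) := by
  obtain ⟨k, rfl⟩ : ∃ k, g = k + 1 := ⟨g - 1, by omega⟩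
  simp only [Pm_sign]
  rw [bin1, Nat.add_sub_cancel]
  have : -q + (1 - q) = 1 - 2 * q := by ring
  rw [this]
  push_cast
  ring

lemma sg2 (g : ℕ) (q : ℝ) (hg : 2 ≤ g) :
    ∑ m ∈ range (g + 1), Pm g q m * (-1) ^ m * (m * (m - 1)) =
      g * (g - 1) * q ^ 2 * (1 - 2 * q) ^ (g - 2) := by
  obtain ⟨k, rfl⟩ : ∃ k, g = k + 2 := ⟨g - 2, by omega⟩
  simp only [Pm_sign]
  rw [bin2, Nat.add_sub_cancel]
  have : -q + (1 - q) = 1 - 2 * q := by ring
  rw [this]
  push_cast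
  ring

section alg

variable {ι : Type} [Fintype ι] [DecidableEq ι]

/-- probability of an even number of points -/
noncomputable def PE (ι : Type) [Fintype ι] [DecidableEq ι] (q : ℝ) : ℝ :=
  TSP.Ex q (fun A : Finset ι => if Even A.card then (1 : ℝ) else 0)

lemma ExE_def {E : Type} [AddCommGroup E] [Module ℝ E] (q : ℝ) (f : Finset ι → E) :
    ExE q f = (PE ι q)⁻¹ • TSP.Ex q (fun A : Finset ι => if Even A.card then f A else 0) := rfl

/-- expectation over the even sets of a function of the number of points -/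
lemma ev_card (q : ℝ) (w : ℕ → ℝ) :
    TSP.Ex q (fun A : Finset ι => if Even A.card then w A.card else 0) =
      (∑ m ∈ range (Fintype.card ι + 1), Pm (Fintype.card ι) q m * w m +
        ∑ m ∈ range (Fintype.card ι + 1), Pm (Fintype.card ι) q m * (-1) ^ m * w m) / 2 := by
  rw [TSP.Dep.Ex_card (ι := ι) q (fun m => if Even m then w m else 0), ← Finset.sum_add_distrib,
    Finset.sum_div]
  refine Finset.sum_congr rfl fun m _ => ?_
  split_ifs with h
  · rw [h.neg_one_pow]; ring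
  · rw [(Nat.not_even_iff_odd.1 h).neg_one_pow]; ring

lemma PE_eq (q : ℝ) : PE ι q = (1 + (1 - 2 * q) ^ Fintype.card ι) / 2 := by
  unfold PE
  have h := ev_card (ι := ι) q (fun _ => 1)
  simp only [mul_one] at h
  rw [h, sum_Pm, sg0]

lemma PE_ge (q : ℝ) (hq : q ≤ 1 / 2) : 1 / 2 ≤ PE ι q := by
  rw [PE_eq]
  have : 0 ≤ (1 - 2 * q) ^ Fintype.card ι := pow_nonneg (by linarith) _
  linarith

lemma PE_pos (q : ℝ) (hq : q ≤ 1 / 2) : 0 < PE ι q := by
  linarith [PE_ge (ι := ι) q hq]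

lemma PE_le (q : ℝ) (hq0 : 0 ≤ q) (hq : q ≤ 1 / 2) : PE ι q ≤ 1 := by
  rw [PE_eq]
  have : (1 - 2 * q) ^ Fintype.card ι ≤ 1 := pow_le_one₀ (by linarith) (by linarith)
  linarith

lemma ExE_add {E : Type} [AddCommGroup E] [Module ℝ E] (q : ℝ) (f h : Finset ι → E) :
    ExE q (fun B => f B + h B) = ExE q f + ExE q h := by
  rw [ExE_def, ExE_def, ExE_def, ← smul_add, ← TSP.Dep.Ex_add]
  congr 2
  funext A
  split_ifs <;> simp

lemma ExE_sub {E : Type} [AddCommGroup E] [Module ℝ E] (q : ℝ) (f h : Finset ι → E) :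
    ExE q (fun B => f B - h B) = ExE q f - ExE q h := by
  rw [ExE_def, ExE_def, ExE_def, ← smul_sub, ← TSP.Dep.Ex_sub]
  congr 2
  funext A
  split_ifs <;> simp

lemma ExE_mul_left (q a : ℝ) (f : Finset ι → ℝ) :
    ExE q (fun B => a * f B) = a * ExE q f := by
  rw [ExE_def, ExE_def, smul_eq_mul, smul_eq_mul, mul_left_comm, ← TSP.Dep.Ex_mul_left q a]
  congr 2
  funext A
  split_ifs <;> simp

lemma ExE_const (q a : ℝ) (hq : q ≤ 1 / 2) : ExE q (fun _ : Finset ι => a) = a := by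
  have h := ExE_mul_left (ι := ι) q a (fun _ => 1)
  simp only [mul_one] at h
  rw [h, ExE_def, smul_eq_mul]
  have : (PE ι q)⁻¹ * TSP.Ex q (fun A : Finset ι => if Even A.card then (1 : ℝ) else 0) = 1 :=
    inv_mul_cancel₀ (PE_pos q hq).ne'
  rw [this, mul_one]

lemma ExE_nonneg {q : ℝ} (h0 : 0 ≤ q) (h1 : q ≤ 1 / 2) (f : Finset ι → ℝ) (hf : ∀ B, 0 ≤ f B) :
    0 ≤ ExE q f := by
  rw [ExE_def, smul_eq_mul]
  refine mul_nonneg (inv_nonneg.2 (PE_pos q h1).le) (TSP.Dep.Ex_nonneg h0 (by linarith) _ fun B => ?_)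
  split_ifs
  · exact hf B
  · exact le_rfl

/-- covariance -/
noncomputable def CvE (q : ℝ) (f h : Finset ι → ℝ) : ℝ :=
  ExE q (fun B => (f B - ExE q f) * (h B - ExE q h))

lemma VrE_comb (q α β : ℝ) (f h : Finset ι → ℝ) :
    VrE q (fun A => α * f A + β * h A) =
      α ^ 2 * VrE q f + 2 * α * β * CvE q f h + β ^ 2 * VrE q h := by
  have e : ExE q (fun A => α * f A + β * h A) = α * ExE q f + β * ExE q h := by
    rw [ExE_add, ExE_mul_left, ExE_mul_left]
  have e2 : (fun B : Finset ι => ((fun A => α * f A + β * h A) B -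
      ExE q (fun A => α * f A + β * h A)) ^ 2) =
      fun B => (α ^ 2 * (f B - ExE q f) ^ 2 + 2 * α * β * ((f B - ExE q f) * (h B - ExE q h))) +
        β ^ 2 * (h B - ExE q h) ^ 2 := by
    funext A
    rw [e]
    ring
  unfold VrE CvE
  rw [e2, ExE_add, ExE_add, ExE_mul_left, ExE_mul_left, ExE_mul_left]

lemma VrE_nonneg {q : ℝ} (h0 : 0 ≤ q) (h1 : q ≤ 1 / 2) (f : Finset ι → ℝ) : 0 ≤ VrE q f :=
  ExE_nonneg h0 h1 _ fun _ => sq_nonneg _

lemma CvE_sq_le {q : ℝ} (h0 : 0 ≤ q) (h1 : q ≤ 1 / 2) (f h : Finset ι → ℝ) :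
    CvE q f h ^ 2 ≤ VrE q f * VrE q h := by
  have key : ∀ β : ℝ, 0 ≤ VrE q f + 2 * β * CvE q f h + β ^ 2 * VrE q h := fun β => by
    have := VrE_nonneg h0 h1 (fun A => 1 * f A + β * h A)
    rw [VrE_comb] at this
    linarith
  rcases (VrE_nonneg h0 h1 h).eq_or_lt with hh | hh
  · -- variance of `h` zero
    have hc : CvE q f h = 0 := by
      by_contra hne
      have h2 := key (-(VrE q f + 1) / (2 * CvE q f h))
      rw [← hh] at h2
      have : 2 * (-(VrE q f + 1) / (2 * CvE q f h)) * CvE q f h = -(VrE q f + 1) := by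
        field_simp
      rw [this] at h2
      linarith
    rw [hc, ← hh]; simp
  · have h2 := key (-(CvE q f h) / VrE q h)
    have e : VrE q f + 2 * (-(CvE q f h) / VrE q h) * CvE q f h +
        (-(CvE q f h) / VrE q h) ^ 2 * VrE q h = VrE q f - CvE q f h ^ 2 / VrE q h := by
      field_simp
      ring
    rw [e] at h2
    have h3 : CvE q f h ^ 2 / VrE q h ≤ VrE q f := by linarith
    rwa [div_le_iff₀ hh] at h3

/-- the variance is the second moment minus the square of the mean -/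
lemma VrE_shift (q a : ℝ) (hq : q ≤ 1 / 2) (f : Finset ι → ℝ) :
    VrE q f = ExE q (fun A => (f A - a) ^ 2) - (ExE q f - a) ^ 2 := by
  have e1 : (fun A : Finset ι => (f A - a) ^ 2) = fun A => ((f A - ExE q f) ^ 2 +
      2 * (ExE q f - a) * (f A - ExE q f)) + (ExE q f - a) ^ 2 := by
    funext A; ring
  have e2 : ExE q (fun A : Finset ι => f A - ExE q f) = 0 := by
    rw [ExE_sub q f (fun _ => ExE q f), ExE_const q _ hq, sub_self]
  rw [e1, ExE_add q (fun A : Finset ι => (f A - ExE q f) ^ 2 +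
      2 * (ExE q f - a) * (f A - ExE q f)) (fun _ => (ExE q f - a) ^ 2),
    ExE_add q (fun A : Finset ι => (f A - ExE q f) ^ 2)
      (fun A => 2 * (ExE q f - a) * (f A - ExE q f)), ExE_mul_left, e2, ExE_const q _ hq]
  unfold VrE
  ring

/-! ### the moments -/

/-- the powers are tiny -/
lemma zpow_le (g n : ℕ) (hn : 1 ≤ n) (h2n : 2 * n ≤ g) (q : ℝ) (hq : q = (n : ℝ) / g) :
    (1 - 2 * q) ^ (g - 1) ≤ 2 / (n : ℝ) ^ 2 := by
  have hnR : (1 : ℝ) ≤ n := by exact_mod_cast hn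
  have hgR : 2 * (n : ℝ) ≤ g := by exact_mod_cast h2n
  have hg0 : (0 : ℝ) < g := by linarith
  have hz : 0 ≤ 1 - 2 * q := by
    rw [hq, sub_nonneg, ← mul_div_assoc, div_le_one hg0]
    exact hgR
  have h1 : 1 - 2 * q ≤ Real.exp (-(2 * q)) := by
    have := Real.add_one_le_exp (-(2 * q))
    linarith
  have h2 : (1 - 2 * q) ^ (g - 1) ≤ Real.exp (-(n : ℝ)) := by
    refine (pow_le_pow_left₀ hz h1 _).trans ?_
    rw [← Real.exp_nat_mul]
    apply Real.exp_le_exp.2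
    rw [Nat.cast_sub (by omega), Nat.cast_one, hq]
    have e1 : ((g : ℝ) - 1) * -(2 * ((n : ℝ) / g)) = -(n : ℝ) - n * ((g - 2) / g) := by
      field_simp
      ring
    rw [e1]
    have : 0 ≤ (n : ℝ) * (((g : ℝ) - 2) / g) := by
      apply mul_nonneg (by linarith)
      apply div_nonneg _ hg0.le
      linarith
    linarith
  refine h2.trans ?_
  rw [Real.exp_neg, inv_eq_one_div]
  have h3 := Real.quadratic_le_exp_of_nonneg (x := (n : ℝ)) (by linarith)
  rw [div_le_div_iff₀ (Real.exp_pos _) (by positivity)]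
  nlinarith

/-- the mean of the number of points -/
lemma mean_card (n : ℕ) (hn : 1 ≤ n) (h2n : 2 * n ≤ Fintype.card ι) (q : ℝ)
    (hq : q = (n : ℝ) / Fintype.card ι) :
    |ExE q (fun A : Finset ι => (A.card : ℝ)) - n| ≤ 4 / n := by
  set g := Fintype.card ι with hg
  have hnR : (1 : ℝ) ≤ n := by exact_mod_cast hn
  have hgR : 2 * (n : ℝ) ≤ g := by exact_mod_cast h2n
  have hg0 : (0 : ℝ) < g := by linarith
  have hq0 : 0 ≤ q := by rw [hq]; positivity
  have hz : 0 ≤ 1 - 2 * q := by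
    rw [hq, sub_nonneg, ← mul_div_assoc, div_le_one hg0]
    exact hgR
  have hz1 : 1 - 2 * q ≤ 1 := by linarith
  have hP := PE_pos (ι := ι) q (by linarith)
  have hgq : (g : ℝ) * q = n := by rw [hq]; field_simp
  have e0 : ExE q (fun A : Finset ι => (A.card : ℝ)) =
      (PE ι q)⁻¹ * ((n - n * (1 - 2 * q) ^ (g - 1)) / 2) := by
    rw [ExE_def, smul_eq_mul, ev_card (ι := ι) q (fun m => (m : ℝ)), sum_Pm_mul, sg1 _ _ (by omega),
      ← hg, hgq]
    ring
  have hP2 : PE ι q = (1 + (1 - 2 * q) ^ g) / 2 := PE_eq q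
  set z := 1 - 2 * q with hzd
  have hzg : z ^ g ≤ z ^ (g - 1) := pow_le_pow_of_le_one hz hz1 (by omega)
  have hzg0 : 0 ≤ z ^ g := pow_nonneg hz _
  have hzl := zpow_le g n hn h2n q hq
  rw [← hzd] at hzl
  have e1 : ExE q (fun A : Finset ι => (A.card : ℝ)) - n =
      -(n * (z ^ (g - 1) + z ^ g) / (1 + z ^ g)) := by
    rw [e0, hP2]
    have : (1 : ℝ) + z ^ g ≠ 0 := by positivity
    field_simp
    ring
  rw [e1, abs_neg, abs_of_nonneg (by positivity), div_le_div_iff₀ (by positivity) (by linarith)]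
  have h3 : (n : ℝ) ^ 2 * z ^ (g - 1) ≤ 2 := by
    rw [le_div_iff₀ (by positivity)] at hzl
    linarith
  have h4 : (n : ℝ) * (z ^ (g - 1) + z ^ g) * n ≤ 2 * (n ^ 2 * z ^ (g - 1)) := by
    nlinarith
  nlinarith

/-- the second moment of the number of points -/
lemma sec_card (n : ℕ) (hn : 1 ≤ n) (h2n : 2 * n ≤ Fintype.card ι) (q : ℝ)
    (hq : q = (n : ℝ) / Fintype.card ι) :
    (n : ℝ) / 4 ≤ ExE q (fun A : Finset ι => ((A.card : ℝ) - n) ^ 2) ∧
    ExE q (fun A : Finset ι => ((A.card : ℝ) - n) ^ 2) ≤ 2 * n := by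
  set g := Fintype.card ι with hg
  have hnR : (1 : ℝ) ≤ n := by exact_mod_cast hn
  have hgR : 2 * (n : ℝ) ≤ g := by exact_mod_cast h2n
  have hg0 : (0 : ℝ) < g := by linarith
  have hq0 : 0 ≤ q := by rw [hq]; positivity
  have hz : 0 ≤ 1 - 2 * q := by
    rw [hq, sub_nonneg, ← mul_div_assoc, div_le_one hg0]
    exact hgR
  have hz1 : 1 - 2 * q ≤ 1 := by linarith
  have hP := PE_pos (ι := ι) q (by linarith)
  have hPl := PE_ge (ι := ι) q (by linarith)
  have hPu := PE_le (ι := ι) q hq0 (by linarith)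
  have hgq : (g : ℝ) * q = n := by rw [hq]; field_simp
  have hsq : ∑ m ∈ range (g + 1), Pm g q m * ((m : ℝ) - n) ^ 2 = n * (1 - q) := by
    have := sum_Pm_sq g q
    rwa [hgq] at this
  constructor
  · rw [ExE_def, smul_eq_mul, ev_card (ι := ι) q (fun m => ((m : ℝ) - n) ^ 2), ← hg, hsq]
    have e1 : ∑ m ∈ range (g + 1), Pm g q m * (-1) ^ m * ((m : ℝ) - n) ^ 2 =
        g * (g - 1) * q ^ 2 * (1 - 2 * q) ^ (g - 2) +
          (1 - 2 * n) * (-(g * q) * (1 - 2 * q) ^ (g - 1)) + n ^ 2 * (1 - 2 * q) ^ g := by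
      rw [← sg2 g q (by omega), ← sg1 g q (by omega), ← sg0 g q, Finset.mul_sum, Finset.mul_sum,
        ← Finset.sum_add_distrib, ← Finset.sum_add_distrib]
      exact Finset.sum_congr rfl fun m _ => by ring
    rw [e1, hgq]
    have h1 : 0 ≤ (g : ℝ) * (g - 1) * q ^ 2 * (1 - 2 * q) ^ (g - 2) := by
      have : 0 ≤ (g : ℝ) - 1 := by linarith
      have := pow_nonneg hz (g - 2)
      positivity
    have h2 : 0 ≤ (1 - 2 * (n : ℝ)) * (-(n : ℝ) * (1 - 2 * q) ^ (g - 1)) := by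
      have := pow_nonneg hz (g - 1)
      have h3 : 0 ≤ (2 * (n : ℝ) - 1) * ((n : ℝ) * (1 - 2 * q) ^ (g - 1)) := by
        apply mul_nonneg (by linarith)
        positivity
      linarith
    have h3 : 0 ≤ (n : ℝ) ^ 2 * (1 - 2 * q) ^ g := by
      have := pow_nonneg hz g
      positivity
    have h4 : (n : ℝ) * (1 / 2) ≤ n * (1 - q) := by
      apply mul_le_mul_of_nonneg_left _ (by linarith)
      linarith
    have h5 : (1 : ℝ) ≤ (PE ι q)⁻¹ := (one_le_inv₀ hP).2 hPu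
    calc (n : ℝ) / 4 = 1 * (n / 4) := by ring
      _ ≤ _ := mul_le_mul h5 (by linarith) (by linarith) (by positivity)
  · rw [ExE_def, smul_eq_mul]
    have h1 : TSP.Ex q (fun A : Finset ι => if Even A.card then ((A.card : ℝ) - n) ^ 2 else 0) ≤
        TSP.Ex q (fun A : Finset ι => ((A.card : ℝ) - n) ^ 2) := by
      have h2 : 0 ≤ TSP.Ex q (fun A : Finset ι => ((A.card : ℝ) - n) ^ 2 -
          if Even A.card then ((A.card : ℝ) - n) ^ 2 else 0) := by
        refine TSP.Dep.Ex_nonneg hq0 (by linarith) _ fun A => ?_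
        split_ifs
        · rw [sub_self]
        · rw [sub_zero]; exact sq_nonneg _
      rw [TSP.Dep.Ex_sub q (fun A : Finset ι => ((A.card : ℝ) - n) ^ 2)
        (fun A => if Even A.card then ((A.card : ℝ) - n) ^ 2 else 0)] at h2
      linarith
    rw [TSP.Dep.Ex_card (ι := ι) q (fun m => ((m : ℝ) - n) ^ 2), ← hg, hsq] at h1
    have h2 : (PE ι q)⁻¹ ≤ 2 := by
      rw [inv_le_comm₀ hP (by norm_num)]
      linarith
    have h3 : (n : ℝ) * (1 - q) ≤ n := by nlinarith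
    calc _ ≤ 2 * (n : ℝ) := mul_le_mul h2 (h1.trans h3)
          (TSP.Dep.Ex_nonneg hq0 (by linarith) _ fun A => by split_ifs <;> positivity) (by norm_num)

/-- bounds for the normalized number of points -/
lemma mom (n : ℕ) (hn : 1 ≤ n) (h2n : 2 * n ≤ Fintype.card ι) (q : ℝ)
    (hq : q = (n : ℝ) / Fintype.card ι) :
    |ExE q (fun A : Finset ι => (A.card : ℝ) / Real.sqrt n) - Real.sqrt n| ≤ 4 / n ∧
    VrE q (fun A : Finset ι => (A.card : ℝ) / Real.sqrt n) ≤ 2 ∧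
    1 / 4 - (4 / (n : ℝ)) ^ 2 ≤ VrE q (fun A : Finset ι => (A.card : ℝ) / Real.sqrt n) := by
  have hnR : (1 : ℝ) ≤ n := by exact_mod_cast hn
  have hn0 : (0 : ℝ) < n := by linarith
  have hsn : 0 < Real.sqrt n := Real.sqrt_pos.mpr hn0
  have hsn1 : 1 ≤ Real.sqrt n := Real.one_le_sqrt.2 hnR
  have hgR : 2 * (n : ℝ) ≤ Fintype.card ι := by exact_mod_cast h2n
  have hg0 : (0 : ℝ) < Fintype.card ι := by linarith
  have hq2 : q ≤ 1 / 2 := by
    rw [hq, div_le_iff₀ hg0]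
    linarith
  have e1 : ∀ A : Finset ι, (A.card : ℝ) / Real.sqrt n = (Real.sqrt n)⁻¹ * (A.card : ℝ) :=
    fun A => by ring
  have hm := mean_card (ι := ι) n hn h2n q hq
  have h1 : |ExE q (fun A : Finset ι => (A.card : ℝ) / Real.sqrt n) - Real.sqrt n| ≤ 4 / n := by
    simp only [e1]
    rw [ExE_mul_left]
    have e2 : (Real.sqrt n)⁻¹ * ExE q (fun A : Finset ι => (A.card : ℝ)) - Real.sqrt n =
        (Real.sqrt n)⁻¹ * (ExE q (fun A : Finset ι => (A.card : ℝ)) - n) := by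
      have := Real.mul_self_sqrt hn0.le
      field_simp
      nlinarith
    rw [e2, abs_mul, abs_of_pos (inv_pos.2 hsn)]
    calc (Real.sqrt n)⁻¹ * |ExE q (fun A : Finset ι => (A.card : ℝ)) - n| ≤ 1 * (4 / n) :=
          mul_le_mul (inv_le_one_of_one_le₀ hsn1) hm (abs_nonneg _) (by norm_num)
      _ = 4 / n := one_mul _
  have hsh := VrE_shift (ι := ι) q (Real.sqrt n) hq2
    (fun A : Finset ι => (A.card : ℝ) / Real.sqrt n)
  have e3 : ExE q (fun A : Finset ι => ((A.card : ℝ) / Real.sqrt n - Real.sqrt n) ^ 2) =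
      (n : ℝ)⁻¹ * ExE q (fun A : Finset ι => ((A.card : ℝ) - n) ^ 2) := by
    rw [← ExE_mul_left]
    congr 1
    funext A
    have h2 := Real.sq_sqrt hn0.le
    have h3 : (A.card : ℝ) / Real.sqrt n - Real.sqrt n = ((A.card : ℝ) - n) / Real.sqrt n := by
      field_simp
      linarith
    rw [h3, div_pow, h2]
    ring
  rw [e3] at hsh
  obtain ⟨h4, h5⟩ := sec_card (ι := ι) n hn h2n q hq
  refine ⟨h1, ?_, ?_⟩
  · rw [hsh]
    have h6 : (n : ℝ)⁻¹ * ExE q (fun A : Finset ι => ((A.card : ℝ) - n) ^ 2) ≤ 2 := by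
      calc _ ≤ (n : ℝ)⁻¹ * (2 * n) := mul_le_mul_of_nonneg_left h5 (by positivity)
        _ = 2 := by field_simp
    have := sq_nonneg (ExE q (fun A : Finset ι => (A.card : ℝ) / Real.sqrt n) - Real.sqrt n)
    linarith
  · rw [hsh]
    have h6 : 1 / 4 ≤ (n : ℝ)⁻¹ * ExE q (fun A : Finset ι => ((A.card : ℝ) - n) ^ 2) := by
      calc (1 : ℝ) / 4 = (n : ℝ)⁻¹ * (n / 4) := by field_simp
        _ ≤ _ := mul_le_mul_of_nonneg_left h4 (by positivity)
    have h7 : (ExE q (fun A : Finset ι => (A.card : ℝ) / Real.sqrt n) - Real.sqrt n) ^ 2 ≤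
        (4 / (n : ℝ)) ^ 2 := sq_le_sq' (by linarith [(abs_le.1 h1).1]) (abs_le.1 h1).2
    linarith

end alg

end Pool.Agent.N940.MM.Dep
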