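import Pool.Agent.N940.MM.Dep3
import Pool.Agent.N940.TSP.Dep2

/-!
# De-Poissonization with parity, part 4: Gaussian smoothing and the estimate for one `n`
(helper222)
-/

set_option autoImplicit false
set_option linter.unusedSectionVars false
set_option linter.unusedVariables false
set_option linter.unusedSimpArgs false

open Filter Topology Finset MeasureTheory ProbabilityTheory

namespace Pool.Agent.N940.MM.Dep

open Pool.Agent.N940.TSP.Dep (Pm Pm_nonneg U exp_lip γ psi psi_pos psi_int J_eval integrable_pow4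
  R4 R4_nonneg norm_expI continuous_expI integrable_expI psi_mul_le)


section fin

variable {ι : Type} [Fintype ι] [DecidableEq ι]

/-- the weights of the conditional law -/
noncomputable def nuE (q : ℝ) (A : Finset ι) : ℝ :=
  (PE ι q)⁻¹ * (if Even A.card then TSP.mu q A else 0)

lemma ExE_sum {E : Type} [AddCommGroup E] [Module ℝ E] (q : ℝ) (f : Finset ι → E) :
    ExE q f = ∑ A : Finset ι, nuE q A • f A := by
  rw [ExE_def]
  unfold TSP.Ex
  rw [Finset.smul_sum]
  refine Finset.sum_congr rfl fun A _ => ?_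
  unfold nuE
  by_cases h : Even A.card
  · simp only [h, if_true, smul_smul]
  · simp only [h, if_false, smul_zero, mul_zero, zero_smul]

/-- exchange of the Gaussian average and the finite expectation -/
lemma smooth_eq (q δ : ℝ) (hδ : 0 < δ) (u x : Finset ι → ℝ) :
    ExE q (fun A : Finset ι => ((psi δ (x A) : ℝ) : ℂ) * Complex.exp (Complex.I * (u A : ℂ))) =
      ∫ G : ℝ, ExE q (fun A : Finset ι =>
        Complex.exp (Complex.I * ((u A + G / δ * x A : ℝ) : ℂ))) ∂γ := by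
  simp only [ExE_sum]
  rw [integral_finsetSum]
  · refine Finset.sum_congr rfl fun A _ => ?_
    rw [integral_smul]
    congr 1
    rw [psi_int δ (x A) hδ, ← integral_mul_const]
    refine integral_congr_ae (ae_of_all _ fun G => ?_)
    beta_reduce
    rw [← Complex.exp_add]
    congr 1
    push_cast
    ring
  · intro A _
    refine Integrable.smul _ (integrable_expI ?_)
    fun_prop

/-- the smoothed characteristic function -/
lemma smooth_close (q δ η a k' s2 θ B : ℝ) (hδ : 0 < δ) (hη : 0 ≤ η) (hθ : 0 ≤ θ)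
    (f x : Finset ι → ℝ) (hB : 1 + |a| + |a * k'| ≤ B)
    (hchar : ∀ β : ℝ, ‖ExE q (fun A : Finset ι => Complex.exp (Complex.I *
          ((a * f A + β * x A : ℝ) : ℂ))) -
        Complex.exp ((-(a ^ 2 * s2 + (β + a * k') ^ 2 * θ) / 2 : ℝ) : ℂ)‖
        ≤ η * (1 + |a| + |β|) ^ 4) :
    ‖ExE q (fun A : Finset ι => ((psi δ (x A) : ℝ) : ℂ) *
        Complex.exp (Complex.I * ((a * (f A - k' * x A) : ℝ) : ℂ))) -
      Complex.exp ((-(a ^ 2 * s2) / 2 : ℝ) : ℂ) * (((Real.sqrt (1 + θ / δ ^ 2))⁻¹ : ℝ) : ℂ)‖ ≤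
      η * R4 B δ := by
  have hτ : 0 ≤ θ / δ ^ 2 := by positivity
  rw [smooth_eq q δ hδ, ← J_eval _ hτ, ← integral_complex_ofReal, ← integral_const_mul]
  have hint1 : Integrable (fun G : ℝ => ExE q (fun A : Finset ι =>
        Complex.exp (Complex.I * ((a * (f A - k' * x A) + G / δ * x A : ℝ) : ℂ)))) γ := by
    simp only [ExE_sum]
    refine integrable_finsetSum _ fun A _ => ?_
    refine Integrable.smul _ (integrable_expI ?_)
    fun_prop
  have hint2 : Integrable (fun G : ℝ => Complex.exp ((-(a ^ 2 * s2) / 2 : ℝ) : ℂ) *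
      ((Real.exp (-(θ / δ ^ 2 * G ^ 2) / 2) : ℝ) : ℂ)) γ := by
    refine Integrable.const_mul ?_ _
    refine Integrable.of_bound (by fun_prop) 1 (ae_of_all _ fun G => ?_)
    rw [Complex.norm_real, Real.norm_of_nonneg (Real.exp_pos _).le]
    refine Real.exp_le_one_iff.mpr ?_
    have : 0 ≤ θ / δ ^ 2 * G ^ 2 := by positivity
    linarith
  rw [← integral_sub hint1 hint2]
  unfold R4
  rw [← integral_const_mul]
  refine norm_integral_le_of_norm_le ((integrable_pow4 B δ).const_mul η) (ae_of_all _ fun G => ?_)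
  have h := hchar (G / δ - a * k')
  have e1 : ∀ A : Finset ι, a * f A + (G / δ - a * k') * x A =
      a * (f A - k' * x A) + G / δ * x A := fun A => by ring
  simp only [e1] at h
  have e2 : Complex.exp ((-(a ^ 2 * s2 + (G / δ - a * k' + a * k') ^ 2 * θ) / 2 : ℝ) : ℂ) =
      Complex.exp ((-(a ^ 2 * s2) / 2 : ℝ) : ℂ) *
        ((Real.exp (-(θ / δ ^ 2 * G ^ 2) / 2) : ℝ) : ℂ) := by
    rw [Complex.ofReal_exp, ← Complex.exp_add]
    congr 1
    push_cast
    field_simp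
    ring
  rw [e2] at h
  refine h.trans ?_
  refine mul_le_mul_of_nonneg_left ?_ hη
  refine pow_le_pow_left₀ (by positivity) ?_ 4
  have h3 : |G / δ - a * k'| ≤ |G| / δ + |a * k'| := by
    refine (abs_sub _ _).trans ?_
    rw [abs_div, abs_of_pos hδ]
  linarith

/-- the averages with the smoothing weight against the fixed layer -/
lemma layer_close (q δ K e : ℝ) (n : ℕ) (hn : 1 ≤ n) (h0 : 0 ≤ q) (h1 : q ≤ 1 / 2) (hδ : 0 < δ)
    (hK : 0 ≤ K) (Φ : Finset ι → ℂ)
    (hreg : ∀ m : ℕ, Even m → m ≤ Fintype.card ι →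
      ‖U m Φ - U n Φ‖ ≤ K * |((m : ℝ) - n) / Real.sqrt n|) :
    ‖ExE q (fun A : Finset ι =>
        ((psi δ (((A.card : ℝ) - n) / Real.sqrt n - e) : ℝ) : ℂ) * Φ A) -
      U n Φ * ((ExE q (fun A : Finset ι =>
        psi δ (((A.card : ℝ) - n) / Real.sqrt n - e)) : ℝ) : ℂ)‖ ≤
      K * ((2 * δ) * ExE q (fun A : Finset ι =>
          psi (2 * δ) (((A.card : ℝ) - n) / Real.sqrt n - e)) +
        |e| * ExE q (fun A : Finset ι => psi δ (((A.card : ℝ) - n) / Real.sqrt n - e))) := by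
  have hP := PE_pos (ι := ι) q h1
  set g := Fintype.card ι with hg
  set w : ℕ → ℝ := fun m => if Even m then psi δ (((m : ℝ) - n) / Real.sqrt n - e) else 0 with hw
  set w2 : ℕ → ℝ := fun m => if Even m then psi (2 * δ) (((m : ℝ) - n) / Real.sqrt n - e) else 0
    with hw2
  have hw0 : ∀ m, 0 ≤ w m := by
    intro m
    simp only [hw]
    split_ifs
    · exact (psi_pos _ _).le
    · exact le_rfl
  have t1 : ExE q (fun A : Finset ι =>
        ((psi δ (((A.card : ℝ) - n) / Real.sqrt n - e) : ℝ) : ℂ) * Φ A) =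
      (((PE ι q)⁻¹ : ℝ) : ℂ) * ∑ m ∈ range (g + 1), ((Pm g q m * w m : ℝ) : ℂ) * U m Φ := by
    rw [← TSP.Dep.Ex_layer q w Φ, ExE_def, Complex.real_smul]
    congr 2
    funext A
    simp only [hw]
    split_ifs <;> simp
  have t2 : ExE q (fun A : Finset ι => psi δ (((A.card : ℝ) - n) / Real.sqrt n - e)) =
      (PE ι q)⁻¹ * ∑ m ∈ range (g + 1), Pm g q m * w m := by
    rw [← TSP.Dep.Ex_card (ι := ι) q w, ExE_def, smul_eq_mul]
  have t3 : ExE q (fun A : Finset ι => psi (2 * δ) (((A.card : ℝ) - n) / Real.sqrt n - e)) =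
      (PE ι q)⁻¹ * ∑ m ∈ range (g + 1), Pm g q m * w2 m := by
    rw [← TSP.Dep.Ex_card (ι := ι) q w2, ExE_def, smul_eq_mul]
  rw [t1, t2, t3]
  have t4 : (((PE ι q)⁻¹ : ℝ) : ℂ) * ∑ m ∈ range (g + 1), ((Pm g q m * w m : ℝ) : ℂ) * U m Φ -
      U n Φ * (((PE ι q)⁻¹ * ∑ m ∈ range (g + 1), Pm g q m * w m : ℝ) : ℂ) =
      (((PE ι q)⁻¹ : ℝ) : ℂ) * ∑ m ∈ range (g + 1),
        ((Pm g q m * w m : ℝ) : ℂ) * (U m Φ - U n Φ) := by
    have : ∀ m : ℕ, ((Pm g q m * w m : ℝ) : ℂ) * (U m Φ - U n Φ) =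
        ((Pm g q m * w m : ℝ) : ℂ) * U m Φ - U n Φ * ((Pm g q m * w m : ℝ) : ℂ) := by
      intro m; ring
    simp only [this]
    rw [Finset.sum_sub_distrib, ← Finset.mul_sum, Complex.ofReal_mul, Complex.ofReal_sum]
    ring
  rw [t4, norm_mul, Complex.norm_real, Real.norm_of_nonneg (inv_nonneg.2 hP.le)]
  have t5 : K * ((2 * δ) * ((PE ι q)⁻¹ * ∑ m ∈ range (g + 1), Pm g q m * w2 m) +
      |e| * ((PE ι q)⁻¹ * ∑ m ∈ range (g + 1), Pm g q m * w m)) =
      (PE ι q)⁻¹ * ∑ m ∈ range (g + 1), K * ((2 * δ) * (Pm g q m * w2 m) +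
        |e| * (Pm g q m * w m)) := by
    rw [← Finset.mul_sum, Finset.sum_add_distrib, ← Finset.mul_sum, ← Finset.mul_sum]
    ring
  rw [t5]
  refine mul_le_mul_of_nonneg_left ?_ (inv_nonneg.2 hP.le)
  refine (norm_sum_le _ _).trans (Finset.sum_le_sum fun m hm => ?_)
  have hm' : m ≤ Fintype.card ι := Nat.lt_succ_iff.mp (Finset.mem_range.mp hm)
  have hPm : 0 ≤ Pm g q m := Pm_nonneg h0 (by linarith) _ _
  rw [norm_mul, Complex.norm_real, Real.norm_of_nonneg (mul_nonneg hPm (hw0 m))]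
  by_cases hme : Even m
  · have h2 := hreg m hme hm'
    set y := ((m : ℝ) - n) / Real.sqrt n with hy
    have hwm : w m = psi δ (y - e) := by simp only [hw, hme, if_true, hy]
    have hwm2 : w2 m = psi (2 * δ) (y - e) := by simp only [hw2, hme, if_true, hy]
    rw [hwm, hwm2]
    have h3 : psi δ (y - e) * |y - e| ≤ 2 * δ * psi (2 * δ) (y - e) := psi_mul_le δ (y - e) hδ
    have h4 : |y| ≤ |y - e| + |e| := by
      have := abs_add_le (y - e) e
      rwa [sub_add_cancel] at this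
    calc Pm g q m * psi δ (y - e) * ‖U m Φ - U n Φ‖
        ≤ Pm g q m * psi δ (y - e) * (K * |y|) :=
          mul_le_mul_of_nonneg_left h2 (mul_nonneg hPm (psi_pos _ _).le)
      _ ≤ Pm g q m * psi δ (y - e) * (K * (|y - e| + |e|)) :=
          mul_le_mul_of_nonneg_left (mul_le_mul_of_nonneg_left h4 hK)
            (mul_nonneg hPm (psi_pos _ _).le)
      _ = (Pm g q m * K) * (psi δ (y - e) * |y - e|) + K * (|e| * (Pm g q m * psi δ (y - e))) := by
          ring
      _ ≤ (Pm g q m * K) * (2 * δ * psi (2 * δ) (y - e)) +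
          K * (|e| * (Pm g q m * psi δ (y - e))) := by
          have := mul_le_mul_of_nonneg_left h3 (mul_nonneg hPm hK)
          linarith
      _ = _ := by ring
  · have hwm : w m = 0 := by simp only [hw, hme, if_false]
    have hwm2 : w2 m = 0 := by simp only [hw2, hme, if_false]
    rw [hwm, hwm2]
    simp

end fin

/-- the final inequality -/
lemma concl (W u e : ℂ) (E0 E2 J J2 r r' K δ d : ℝ) (hK : 0 ≤ K) (hδ : 0 < δ) (hJ : 0 < J)
    (h1 : ‖W - u * (E0 : ℂ)‖ ≤ K * ((2 * δ) * E2 + |d| * E0)) (h2 : ‖W - e * (J : ℂ)‖ ≤ r)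
    (h3 : |E0 - J| ≤ r) (h4 : E2 ≤ J2 + r') (h5 : J2 ≤ 2 * J) (he : ‖e‖ ≤ 1)
    (hr : r ≤ J / 2) (hr2 : r ≤ δ * J) (hr' : r' ≤ J) (hd : |d| ≤ δ) :
    ‖u - e‖ ≤ (15 * K + 4) * δ := by
  have hE0 : J / 2 ≤ E0 := by
    have := (abs_le.mp h3).1
    linarith
  have hE0u : E0 ≤ 3 / 2 * J := by
    have := (abs_le.mp h3).2
    linarith
  have hE0' : 0 < E0 := by linarith
  have h6 : ‖(u - e) * (E0 : ℂ)‖ ≤ K * ((2 * δ) * E2 + |d| * E0) + r + r := by
    have e1 : (u - e) * (E0 : ℂ) = -(W - u * (E0 : ℂ)) + (W - e * (J : ℂ)) +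
        e * ((J - E0 : ℝ) : ℂ) := by push_cast; ring
    rw [e1]
    refine (norm_add_le _ _).trans (add_le_add ((norm_add_le _ _).trans (add_le_add ?_ h2)) ?_)
    · rwa [norm_neg]
    · rw [norm_mul, Complex.norm_real, Real.norm_eq_abs, abs_sub_comm]
      calc ‖e‖ * |E0 - J| ≤ 1 * |E0 - J| := mul_le_mul_of_nonneg_right he (abs_nonneg _)
        _ ≤ r := by rw [one_mul]; exact h3
  rw [norm_mul, Complex.norm_real, Real.norm_of_nonneg hE0'.le] at h6
  have h7 : E2 ≤ 3 * J := by linarith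
  have h8 : K * ((2 * δ) * E2 + |d| * E0) ≤ K * (15 / 2 * (δ * J)) := by
    refine mul_le_mul_of_nonneg_left ?_ hK
    have i1 : (2 * δ) * E2 ≤ (2 * δ) * (3 * J) := mul_le_mul_of_nonneg_left h7 (by linarith)
    have i2 : |d| * E0 ≤ δ * (3 / 2 * J) := mul_le_mul hd hE0u hE0'.le hδ.le
    linarith
  have h9 : ‖u - e‖ * (J / 2) ≤ ‖u - e‖ * E0 := mul_le_mul_of_nonneg_left hE0 (norm_nonneg _)
  have h10 : ‖u - e‖ * (J / 2) ≤ ((15 * K + 4) * δ) * (J / 2) := by
    have : ((15 * K + 4) * δ) * (J / 2) = K * (15 / 2 * (δ * J)) + 2 * (δ * J) := by ring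
    rw [this]
    linarith
  exact le_of_mul_le_mul_right h10 (by positivity)

end Pool.Agent.N940.MM.Dep
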