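import Pool.Agent.N940.MM.Stm
import Pool.Agent.N940.TSP.FinV
import Pool.Agent.N940.TSP.Link

/-!
# From random subsets of a fine grid to independent uniform points of the unit square

Proof of `S_FIN2`.
-/

set_option autoImplicit false

open MeasureTheory Filter Topology Pointwise

namespace Pool.Agent.N940.MM.FinStep

open Pool.Agent.N940.TSP (gp sp Ix)
open Pool.Agent.N940.TSP.FinV (U P kap measurable_kap measurable_kaps U_kap ae_mem dist_gp)
open Pool.Agent.N940.TSP.FinStep (norm_exp_sub)

/-- the length of the shortest perfect matching -/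
noncomputable def Mn (k : ℕ) (x : Fin (2 * k) → ℝ × ℝ) : ℝ :=
  ⨅ σ : {σ : Equiv.Perm (Fin (2 * k)) // (∀ i, σ (σ i) = i) ∧ ∀ i, σ i ≠ i},
    (1/2 : ℝ) * ∑ i : Fin (2 * k),
      Real.sqrt (((x i).1 - (x (σ.1 i)).1) ^ 2 + ((x i).2 - (x (σ.1 i)).2) ^ 2)

theorem measurable_Mn (k : ℕ) : Measurable (Mn k) := by
  unfold Mn
  refine Measurable.iInf fun σ => ?_
  fun_prop

theorem avgC (n m : ℕ) (hm : 1 ≤ m) (Ψ : (Fin n → Fin m × Fin m) → ℂ) :
    ∫ x, Ψ (fun i => kap m hm (x i)) ∂(P n) = ((m : ℂ) ^ (2 * n))⁻¹ * ∑ k, Ψ k := by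
  have : IsProbabilityMeasure (U.map (kap m hm)) :=
    Measure.isProbabilityMeasure_map (measurable_kap m hm).aemeasurable
  have hmap : (P n).map (fun x i => kap m hm (x i)) =
      Measure.pi (fun _ : Fin n => U.map (kap m hm)) := by
    unfold P
    exact Measure.pi_map_pi (f := fun _ => kap m hm) fun _ => (measurable_kap m hm).aemeasurable
  have h1 : ∫ x, Ψ (fun i => kap m hm (x i)) ∂(P n) =
      ∫ k, Ψ k ∂((P n).map (fun x i => kap m hm (x i))) := by
    rw [integral_map (measurable_kaps n m hm).aemeasurable]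
    exact (Measurable.of_discrete).aestronglyMeasurable
  rw [h1, hmap, integral_fintype .of_finite, Finset.mul_sum]
  refine Finset.sum_congr rfl fun k _ => ?_
  rw [measureReal_def, Measure.pi_singleton]
  simp only [U_kap]
  rw [Finset.prod_const, Finset.card_univ, Fintype.card_fin]
  have hm0 : (0 : ℝ) < m := by exact_mod_cast hm
  rw [ENNReal.toReal_pow, ENNReal.toReal_mul, ENNReal.toReal_ofReal (by positivity)]
  rw [Complex.real_smul]
  congr 1
  push_cast
  rw [pow_mul, ← inv_pow]
  congr 1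
  rw [one_div, pow_two, mul_inv]

theorem mt_scale {ι : Type} (X : ι → ℂ) (A : Finset ι) {a : ℝ} (ha : 0 < a) :
    mt (fun i => (a : ℂ) * X i) A = a * mt X A := by
  have hd : ∀ i j, dist ((a : ℂ) * X i) ((a : ℂ) * X j) = a * dist (X i) (X j) := by
    intro i j
    rw [dist_eq_norm, dist_eq_norm, ← mul_sub, norm_mul, Complex.norm_of_nonneg ha.le]
  have hset : {c : ℝ | ∃ σ : ι → ι, (∀ i ∈ A, σ i ∈ A ∧ σ i ≠ i ∧ σ (σ i) = i) ∧
      c = (∑ i ∈ A, dist ((a : ℂ) * X i) ((a : ℂ) * X (σ i))) / 2} =
      a • {c : ℝ | ∃ σ : ι → ι, (∀ i ∈ A, σ i ∈ A ∧ σ i ≠ i ∧ σ (σ i) = i) ∧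
      c = (∑ i ∈ A, dist (X i) (X (σ i))) / 2} := by
    ext r
    simp only [Set.mem_ofPred_eq, Set.mem_smul_set, smul_eq_mul]
    constructor
    · rintro ⟨σ, hσ, rfl⟩
      refine ⟨_, ⟨σ, hσ, rfl⟩, ?_⟩
      simp only [hd]
      rw [← Finset.mul_sum]
      ring
    · rintro ⟨_, ⟨σ, hσ, rfl⟩, rfl⟩
      refine ⟨σ, hσ, ?_⟩
      simp only [hd]
      rw [← Finset.mul_sum]
      ring
  unfold mt
  rw [hset, Real.sInf_smul_of_nonneg ha.le, smul_eq_mul]

theorem close (hlip : S_LIP) (hinv : S_INV) (k m : ℕ) (hm : 1 ≤ m) :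
    ∀ᵐ x ∂(P (2 * k)), |Mn k x - mt (fun i => gp m (kap m hm (x i))) Finset.univ| ≤
      4 * k / m := by
  filter_upwards [ae_mem (2 * k)] with x hmem
  have e : Mn k x = mt (fun i => toC (x i)) Finset.univ := hinv k x
  rw [e]
  refine (hlip (Fin (2 * k)) _ _ Finset.univ).trans ?_
  calc ∑ i : Fin (2 * k), dist (toC (x i)) (gp m (kap m hm (x i)))
      ≤ ∑ i : Fin (2 * k), (2 / m : ℝ) :=
        Finset.sum_le_sum fun i _ => dist_gp m hm (x i) (hmem i)
    _ = 4 * k / m := by
        rw [Finset.sum_const, Finset.card_univ, Fintype.card_fin, nsmul_eq_mul]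
        push_cast
        ring

/-- the two functionals agree on injective maps -/
theorem mt_inj (himg : S_IMG) (R M n : ℕ) (hR : 0 < R) (hM : 0 < M) (k : Fin n → Ix R 1 M)
    (hk : Function.Injective k) :
    mt (fun i => gp (R * 1 * M) (k i)) Finset.univ =
      fM R M (Finset.univ.image k) / (R : ℝ) := by
  have hR0 : (0 : ℝ) < R := by exact_mod_cast hR
  have h1 := himg (Fin n) (Ix R 1 M) k (sp R 1 M) Finset.univ hk
  have h2 : (fun i => sp R 1 M (k i)) = fun i => (((R : ℝ) : ℝ) : ℂ) * gp (R * 1 * M) (k i) := by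
    funext i
    have h3 := Pool.Agent.N940.TSP.Link.sp_eq R 1 M hR one_pos hM (k i)
    rw [h3]
    push_cast
    rw [mul_one]
  have h4 : mt (fun i => (((R : ℝ) : ℝ) : ℂ) * gp (R * 1 * M) (k i)) Finset.univ =
      (R : ℝ) * mt (fun i => gp (R * 1 * M) (k i)) Finset.univ :=
    mt_scale (fun i => gp (R * 1 * M) (k i)) Finset.univ hR0
  rw [eq_div_iff hR0.ne']
  unfold fM
  rw [← h1, h2, h4, mul_comm]

theorem main (hlip : S_LIP) (himg : S_IMG) (hinv : S_INV) : S_FIN2 := by
  intro R M c s s₀ n₀ hs₀ hyp hs hchar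
  intro Ω mΩ Pr hPr X hXm hXi hXl
  refine ⟨fun k => c (2 * k), fun k => s (2 * k), fun k => hs₀.trans_le (hs _), fun f => ?_⟩
  set W : ∀ k, (Fin (2 * k) → ℝ × ℝ) → ℝ := fun k x => (Mn k x - c (2 * k)) / s (2 * k) with hW
  have hWm : ∀ k, Measurable (W k) := fun k => ((measurable_Mn k).sub_const _).div_const _
  set μ : ℕ → Measure ℝ := fun k => (P (2 * k)).map (W k) with hμ
  have hprob : ∀ k, IsProbabilityMeasure (μ k) := fun k =>
    Measure.isProbabilityMeasure_map (hWm k).aemeasurable
  set Pm : ℕ → ProbabilityMeasure ℝ := fun k => ⟨μ k, inferInstance⟩ with hPm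
  set G : ProbabilityMeasure ℝ := ⟨ProbabilityTheory.gaussianReal 0 1, inferInstance⟩ with hG
  have hcf : ∀ θ : ℝ, Tendsto (fun k => charFun (μ k) θ) atTop
      (𝓝 (Complex.exp ((-(θ ^ 2) / 2 : ℝ) : ℂ))) := by
    intro θ
    have hbound : ∀ k, n₀ ≤ 2 * k → 1 ≤ k → ‖charFun (μ k) θ -
        (((Fintype.card (Ix (R (2 * k)) 1 (M (2 * k)))).choose (2 * k) : ℂ))⁻¹ *
        ∑ A ∈ (Finset.univ : Finset (Ix (R (2 * k)) 1 (M (2 * k)))).powersetCard (2 * k),
          Complex.exp (Complex.I * ((θ * ((fM (R (2 * k)) (M (2 * k)) A / (R (2 * k) : ℝ) -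
            c (2 * k)) / s (2 * k)) : ℝ) : ℂ))‖ ≤ |θ| * (1 / (k : ℝ)) / s₀ + 2 * (1 / (k : ℝ)) := by
      intro k hk hk1
      obtain ⟨hR, hM, -, hM3⟩ := hyp (2 * k) hk
      set n := 2 * k with hn
      set m := R n * 1 * M n with hmdef
      have hm1 : 1 ≤ m := Nat.mul_pos (Nat.mul_pos hR one_pos) hM
      have hmM : M n ≤ m := by
        calc M n = 1 * 1 * M n := by ring
          _ ≤ R n * 1 * M n := Nat.mul_le_mul_right _ (Nat.mul_le_mul_right _ hR)
      have hm3 : n ^ 3 ≤ m := hM3.trans hmM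
      have hm0 : (0 : ℝ) < m := by exact_mod_cast hm1
      have hk0 : (1 : ℝ) ≤ k := by exact_mod_cast hk1
      have hm3' : (2 * (k : ℝ)) ^ 3 ≤ m := by exact_mod_cast hm3
      have hn1 : 1 ≤ n := by omega
      have hcard : Fintype.card (Ix (R n) 1 (M n)) = m * m := by
        rw [Fintype.card_prod, Fintype.card_fin]
      have hnm : n ≤ m := (Nat.le_self_pow (by norm_num) n).trans hm3
      have hng : n ≤ Fintype.card (Ix (R n) 1 (M n)) := by
        rw [hcard]
        exact hnm.trans (Nat.le_mul_of_pos_left m hm1)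
      have hg1 : 1 ≤ Fintype.card (Ix (R n) 1 (M n)) := hn1.trans hng
      have cmp := Pool.Agent.N940.TSP.Link.compare (α := Ix (R n) 1 (M n)) n hng hg1
        (fun A => Complex.exp (Complex.I * ((θ * ((fM (R n) (M n) A / (R n : ℝ) -
            c n) / s n) : ℝ) : ℂ)))
        (fun k => Complex.exp (Complex.I *
          ((θ * ((mt (fun i => gp m (k i)) Finset.univ - c n) / s n) : ℝ) : ℂ)))
        (fun A => Pool.Agent.N940.TSP.Link.norm_exp_I _)
        (fun k => Pool.Agent.N940.TSP.Link.norm_exp_I _) (fun _ => True)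
        (fun k hk _ => by
          rw [mt_inj himg (R n) (M n) n hR hM k hk])
      have hpow : ((m : ℕ) : ℂ) ^ (2 * n) =
          (Fintype.card (Ix (R n) 1 (M n)) : ℂ) ^ n := by
        rw [hcard, pow_mul]
        push_cast
        rw [pow_two]
      rw [← hpow] at cmp
      have hav := avgC n m hm1 (fun k => Complex.exp (Complex.I *
          ((θ * ((mt (fun i => gp m (k i)) Finset.univ - c n) / s n) : ℝ) : ℂ)))
      have h1 : charFun (μ k) θ = ∫ x, Complex.exp (Complex.I * ((θ * W k x : ℝ) : ℂ)) ∂(P n) := by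
        rw [charFun_apply_real, hμ]
        rw [integral_map (hWm k).aemeasurable (by fun_prop)]
        congr 1
        funext x
        congr 1
        push_cast
        ring
      have hi1 : Integrable (fun x => Complex.exp (Complex.I * ((θ * W k x : ℝ) : ℂ))) (P n) := by
        refine Integrable.of_bound (C := 1) ?_ ?_
        · have := hWm k
          fun_prop
        · refine Eventually.of_forall fun x => ?_
          rw [Complex.norm_exp_I_mul_ofReal]
      have hi2 : Integrable (fun x : Fin n → ℝ × ℝ => Complex.exp (Complex.I *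
          ((θ * ((mt (fun i => gp m (kap m hm1 (x i))) Finset.univ - c n) / s n) : ℝ) : ℂ)))
          (P n) := by
        refine Integrable.of_bound (C := 1) ?_ ?_
        · have h2 : Measurable (fun k : Fin n → Fin m × Fin m => Complex.exp (Complex.I *
            ((θ * ((mt (fun i => gp m (k i)) Finset.univ - c n) / s n) : ℝ) : ℂ))) :=
              Measurable.of_discrete
          exact (h2.comp (measurable_kaps n m hm1)).aestronglyMeasurable
        · refine Eventually.of_forall fun x => ?_
          rw [Complex.norm_exp_I_mul_ofReal]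
      have h3 : ‖charFun (μ k) θ - ∫ x, Complex.exp (Complex.I *
          ((θ * ((mt (fun i => gp m (kap m hm1 (x i))) Finset.univ - c n) / s n) : ℝ) : ℂ))
            ∂(P n)‖ ≤ |θ| * (4 * k / m) / s₀ := by
        rw [h1, ← integral_sub hi1 hi2]
        have h3 := norm_integral_le_of_norm_le_const (μ := P n)
          (f := fun x => Complex.exp (Complex.I * ((θ * W k x : ℝ) : ℂ)) -
            Complex.exp (Complex.I * ((θ * ((mt (fun i => gp m (kap m hm1 (x i)))
              Finset.univ - c n) / s n) : ℝ) : ℂ)))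
          (C := |θ| * (4 * k / m) / s₀) (by
            filter_upwards [close hlip hinv k m hm1] with x hx
            refine (norm_exp_sub _ _).trans ?_
            have hsn := hs n
            have hsp : 0 < s n := hs₀.trans_le hsn
            have e : θ * W k x -
                θ * ((mt (fun i => gp m (kap m hm1 (x i))) Finset.univ - c n) / s n) =
                θ * (Mn k x - mt (fun i => gp m (kap m hm1 (x i))) Finset.univ) / s n := by
              simp only [hW]
              ring
            rw [e, abs_div, abs_mul, abs_of_pos hsp]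
            gcongr
            exact hx)
        refine h3.trans (le_of_eq ?_)
        simp
      rw [hav] at h3
      have h4 := norm_sub_le_norm_sub_add_norm_sub (charFun (μ k) θ)
        (((m : ℂ) ^ (2 * n))⁻¹ * ∑ k : Fin n → Fin m × Fin m, Complex.exp (Complex.I *
          ((θ * ((mt (fun i => gp m (k i)) Finset.univ - c n) / s n) : ℝ) : ℂ)))
        ((((Fintype.card (Ix (R n) 1 (M n))).choose n : ℂ))⁻¹ *
        ∑ A ∈ (Finset.univ : Finset (Ix (R n) 1 (M n))).powersetCard n,
          Complex.exp (Complex.I * ((θ * ((fM (R n) (M n) A / (R n : ℝ) -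
            c n) / s n) : ℝ) : ℂ)))
      refine h4.trans (add_le_add (h3.trans ?_) (cmp.trans ?_))
      · have h5 : 4 * (k : ℝ) / m ≤ 1 / k := by
          rw [div_le_div_iff₀ hm0 (by linarith)]
          nlinarith [mul_nonneg (mul_nonneg (by linarith : (0 : ℝ) ≤ k)
            (by linarith : (0 : ℝ) ≤ k)) (sub_nonneg.2 hk0)]
        gcongr
      · have h6 : (((Finset.univ : Finset (Fin n → Ix (R n) 1 (M n))).filter
            (fun _ => ¬ True)).card : ℝ) = 0 := by
          simp
        rw [h6, mul_zero, zero_div, add_zero, hcard]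
        refine mul_le_mul_of_nonneg_left ?_ (by norm_num)
        have hn' : (n : ℝ) = 2 * k := by
          rw [hn]
          push_cast
          ring
        have hmn : (n : ℝ) ^ 3 ≤ m := by exact_mod_cast hm3
        have hnk : (k : ℝ) ≤ n := by
          rw [hn']
          linarith
        have hm1' : (1 : ℝ) ≤ m := by exact_mod_cast hm1
        push_cast
        rw [div_le_div_iff₀ (by positivity) (by linarith), one_mul]
        calc (n : ℝ) ^ 2 * (k : ℝ) ≤ (n : ℝ) ^ 2 * n := by gcongr
          _ = (n : ℝ) ^ 3 := by ring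
          _ ≤ (m : ℝ) := hmn
          _ ≤ (m : ℝ) * (m : ℝ) := by nlinarith
    have hz : Tendsto (fun k : ℕ => |θ| * (1 / (k : ℝ)) / s₀ + 2 * (1 / (k : ℝ))) atTop
        (𝓝 0) := by
      have h0 := tendsto_one_div_atTop_nhds_zero_nat (𝕜 := ℝ)
      have := ((h0.const_mul |θ|).div_const s₀).add (h0.const_mul 2)
      simpa using this
    have hdiff : Tendsto (fun k => charFun (μ k) θ -
        (((Fintype.card (Ix (R (2 * k)) 1 (M (2 * k)))).choose (2 * k) : ℂ))⁻¹ *
        ∑ A ∈ (Finset.univ : Finset (Ix (R (2 * k)) 1 (M (2 * k)))).powersetCard (2 * k),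
          Complex.exp (Complex.I * ((θ * ((fM (R (2 * k)) (M (2 * k)) A / (R (2 * k) : ℝ) -
            c (2 * k)) / s (2 * k)) : ℝ) : ℂ))) atTop (𝓝 0) := by
      refine squeeze_zero_norm' ?_ hz
      filter_upwards [eventually_ge_atTop n₀, eventually_ge_atTop 1] with k hk hk1
      exact hbound k (by omega) hk1
    have := hdiff.add (hchar θ)
    simpa using this
  have hlim : Tendsto Pm atTop (𝓝 G) := by
    rw [ProbabilityMeasure.tendsto_iff_tendsto_charFun]
    intro θ
    have e1 : charFun (G : Measure ℝ) θ = Complex.exp ((-(θ ^ 2) / 2 : ℝ) : ℂ) := by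
      change charFun (ProbabilityTheory.gaussianReal 0 1) θ = _
      rw [ProbabilityTheory.charFun_gaussianReal]
      congr 1
      push_cast
      ring
    rw [e1]
    exact hcf θ
  have h1 := (ProbabilityMeasure.tendsto_iff_forall_integral_tendsto.1 hlim) f
  refine h1.congr fun k => ?_
  have hlaw : Pr.map (fun ω (i : Fin (2 * k)) => X i.val ω) = P (2 * k) := by
    have hi : ProbabilityTheory.iIndepFun (fun i : Fin (2 * k) => X i.val) Pr :=
      hXi.precomp Fin.val_injective
    rw [(ProbabilityTheory.iIndepFun_iff_map_fun_eq_pi_map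
      (fun i => (hXm _).aemeasurable)).1 hi]
    unfold P
    congr 1
    funext i
    exact hXl i.val
  have hXX : Measurable (fun ω (i : Fin (2 * k)) => X i.val ω) :=
    measurable_pi_lambda _ fun i => hXm _
  change ∫ y, f y ∂(μ k) = _
  rw [hμ]
  change ∫ y, f y ∂((P (2 * k)).map (W k)) = _
  rw [integral_map (hWm k).aemeasurable f.continuous.aestronglyMeasurable, ← hlaw,
    integral_map hXX.aemeasurable]
  · rfl
  · exact (f.continuous.measurable.comp (hWm k)).aestronglyMeasurable

end Pool.Agent.N940.MM.FinStep
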