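import Pool.Agent.N940.MM.Hoef

/-!
# A bounded function is far from a nearly Gaussian sum
-/

set_option autoImplicit false
set_option linter.unusedSectionVars false
set_option linter.unusedVariables false

namespace Pool.Agent.N940.MM

open Finset

variable {ι Ω : Type} [Fintype ι] [DecidableEq ι] [Fintype Ω]

lemma exp_lower {x : ℝ} (hx : |x| ≤ 1) : 1 + x + x ^ 2 / 4 ≤ Real.exp x := by
  have h := Real.abs_exp_sub_one_sub_id_le hx
  -- better: use third order
  have h3 := Real.exp_bound (x := x) hx (n := 3) (by norm_num)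
  have e : ∑ m ∈ range 3, x ^ m / (m.factorial : ℝ) = 1 + x + x ^ 2 / 2 := by
    simp [Finset.sum_range_succ, Nat.factorial]
  rw [e] at h3
  have h4 : |x| ^ 3 * ((Nat.succ 3 : ℕ) / ((Nat.factorial 3 : ℕ) * (3 : ℕ)) : ℝ) =
      |x| ^ 3 * (2 / 9) := by
    norm_num [Nat.factorial]
  rw [h4] at h3
  have h5 := (abs_le.1 h3).1
  have h6 : |x| ^ 3 ≤ x ^ 2 := by
    have : |x| ^ 3 = x ^ 2 * |x| := by
      rw [pow_succ, sq_abs]
    rw [this]
    nlinarith [sq_nonneg x, abs_nonneg x]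
  nlinarith [sq_nonneg x]

lemma exp_upper {x : ℝ} (hx : |x| ≤ 1) : Real.exp x ≤ 1 + x + x ^ 2 := by
  have h := Real.abs_exp_sub_one_sub_id_le hx
  have := (abs_le.1 h).2
  linarith

lemma one_add_ge_exp {y : ℝ} (h0 : 0 ≤ y) (h1 : y ≤ 1) : Real.exp (y / 2) ≤ 1 + y := by
  have h : |y / 2| ≤ 1 := by
    rw [abs_of_nonneg (by linarith)]
    linarith
  have := exp_upper h
  nlinarith

lemma abs_exp_sub_exp (x y : ℝ) :
    |Real.exp x - Real.exp y| ≤ |x - y| * (Real.exp x + Real.exp y) := by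
  wlog h : y ≤ x generalizing x y
  · have := this y x (le_of_not_ge h)
    rw [abs_sub_comm, abs_sub_comm x y, add_comm (Real.exp x)]
    exact this
  · have h1 : Real.exp y ≤ Real.exp x := Real.exp_le_exp.2 h
    rw [abs_of_nonneg (by linarith), abs_of_nonneg (by linarith : (0 : ℝ) ≤ x - y)]
    have h2 : y - x + 1 ≤ Real.exp (y - x) := Real.add_one_le_exp _
    have h3 : Real.exp y = Real.exp (y - x) * Real.exp x := by
      rw [← Real.exp_add]; ring_nf
    have h4 : Real.exp x - Real.exp y ≤ (x - y) * Real.exp x := by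
      rw [h3]
      nlinarith [Real.exp_pos x]
    have h5 : 0 ≤ (x - y) * Real.exp y := mul_nonneg (by linarith) (Real.exp_pos y).le
    linarith

/-- Cauchy-Schwarz -/
lemma Ex_cs {q : Wt ι Ω} (f g : (ι → Ω) → ℝ) :
    Ex q (fun A => f A * g A) ≤
      Real.sqrt (Ex q fun A => f A ^ 2) * Real.sqrt (Ex q fun A => g A ^ 2) := by
  have h := Finset.sum_mul_sq_le_sq_mul_sq univ
    (fun A : ι → Ω => Real.sqrt (mu q A) * f A) (fun A => Real.sqrt (mu q A) * g A)
  have e1 : ∑ A : ι → Ω, (Real.sqrt (mu q A) * f A) * (Real.sqrt (mu q A) * g A) =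
      Ex q (fun A => f A * g A) := by
    unfold Ex
    refine sum_congr rfl fun A _ => ?_
    have := Real.mul_self_sqrt (mu_nonneg q A)
    rw [smul_eq_mul]
    calc _ = (Real.sqrt (mu q A) * Real.sqrt (mu q A)) * (f A * g A) := by ring
      _ = _ := by rw [this]
  have e2 : ∀ f : (ι → Ω) → ℝ, ∑ A : ι → Ω, (Real.sqrt (mu q A) * f A) ^ 2 =
      Ex q (fun A => f A ^ 2) := by
    intro f
    unfold Ex
    refine sum_congr rfl fun A _ => ?_
    rw [mul_pow, Real.sq_sqrt (mu_nonneg q A), smul_eq_mul]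
  rw [e1, e2, e2] at h
  have n1 : 0 ≤ Ex q (fun A => f A ^ 2) := Ex_nonneg fun _ => sq_nonneg _
  have n2 : 0 ≤ Ex q (fun A => g A ^ 2) := Ex_nonneg fun _ => sq_nonneg _
  rw [← Real.sqrt_mul n1]
  exact Real.le_sqrt_of_sq_le h

lemma Ex_abs_le {q : Wt ι Ω} (f : (ι → Ω) → ℝ) :
    |Ex q f| ≤ Ex q fun A => |f A| := by
  unfold Ex
  refine (Finset.abs_sum_le_sum_abs _ _).trans (le_of_eq ?_)
  refine sum_congr rfl fun A _ => ?_
  rw [smul_eq_mul, smul_eq_mul, abs_mul, abs_of_nonneg (mu_nonneg q A)]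

lemma Ex_abs_le_sqrt {q : Wt ι Ω} (f : (ι → Ω) → ℝ) :
    Ex q (fun A => |f A|) ≤ Real.sqrt (Ex q fun A => f A ^ 2) := by
  have := Ex_cs (q := q) (fun A => |f A|) (fun _ => 1)
  simp only [mul_one, sq_abs, one_pow] at this
  rw [Ex_const, Real.sqrt_one, mul_one] at this
  exact this

/-- the variance of a sum of independent centred functions -/
lemma Ex_sum_sq {κ : Type} [DecidableEq κ] {q : Wt ι Ω} (T : Finset κ) (cell : κ → Finset ι)
    (hd : ∀ c ∈ T, ∀ d ∈ T, c ≠ d → Disjoint (cell c) (cell d))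
    (u : κ → (ι → Ω) → ℝ) (hu : ∀ c ∈ T, Dep (cell c) (u c)) (h0 : ∀ c ∈ T, Ex q (u c) = 0) :
    Ex q (fun A => (∑ c ∈ T, u c A) ^ 2) = ∑ c ∈ T, Ex q fun A => (u c A) ^ 2 := by
  have e : (fun A => (∑ c ∈ T, u c A) ^ 2) = fun A => ∑ c ∈ T, ∑ d ∈ T, u c A * u d A := by
    funext A
    rw [sq, Finset.sum_mul_sum]
  rw [e, Ex_sum]
  refine sum_congr rfl fun c hc => ?_
  rw [Ex_sum, Finset.sum_eq_single_of_mem c hc]
  · congr 1
    funext A
    ring
  · intro d hd' hdc
    rw [Ex_mul_indep (hu c hc) (hu d hd') (hd c hc d hd' (Ne.symm hdc)), h0 c hc, zero_mul]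

lemma step {κ : Type} [DecidableEq κ] {q : Wt ι Ω} {b C L δ : ℝ}
    (hb : 0 < b) (hC : 0 ≤ C) (hL : L = 16 * (C + 1) / b) (hδ : 2 * L * δ ≤ 1)
    (T : Finset κ) (cell : κ → Finset ι)
    (hd : ∀ c ∈ T, ∀ d ∈ T, c ≠ d → Disjoint (cell c) (cell d))
    (u : (ι → Ω) → ℝ) (v : κ → (ι → Ω) → ℝ) (hv : ∀ c ∈ T, Dep (cell c) (v c))
    (hv0 : ∀ c ∈ T, Ex q (v c) = 0) (hu : ∀ A, |u A| ≤ C) (hvb : ∀ c ∈ T, ∀ A, |v c A| ≤ δ)
    (hτ1 : b / 2 ≤ ∑ c ∈ T, Ex q fun A => (v c A) ^ 2)
    (hτ2 : ∑ c ∈ T, (Ex q fun A => (v c A) ^ 2) ≤ C ^ 2) :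
    ((Real.exp (2 * L ^ 2 * C ^ 2) + Real.exp (L * C)) ^ 2)⁻¹ ≤
      Ex q fun A => (u A - ∑ c ∈ T, v c A) ^ 2 := by
  have hL0 : 0 < L := by rw [hL]; positivity
  set τ := ∑ c ∈ T, Ex q fun A => (v c A) ^ 2 with hτ
  set Y : (ι → Ω) → ℝ := fun A => ∑ c ∈ T, v c A with hY
  have hLv : ∀ c ∈ T, ∀ A, |2 * (L * v c A)| ≤ 1 := by
    intro c hc A
    have := hvb c hc A
    rw [abs_mul, abs_mul, abs_of_pos hL0, abs_of_pos (by norm_num : (0 : ℝ) < 2)]
    nlinarith
  have hLv' : ∀ c ∈ T, ∀ A, |L * v c A| ≤ 1 := by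
    intro c hc A
    have := hLv c hc A
    rw [abs_mul, abs_of_pos (by norm_num : (0 : ℝ) < 2)] at this
    linarith [abs_nonneg (L * v c A)]
  -- exponential moments
  have hprod : ∀ s : ℝ, Ex q (fun A => Real.exp (s * Y A)) =
      ∏ c ∈ T, Ex q fun A => Real.exp (s * v c A) := by
    intro s
    rw [← Ex_prod_indep q T cell hd (fun c A => Real.exp (s * v c A))
      (fun c hc => (hv c hc).comp (fun x => Real.exp (s * x)))]
    congr 1
    funext A
    rw [← Real.exp_sum, hY, Finset.mul_sum]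
  have hlow : Real.exp (L ^ 2 * τ / 8) ≤ Ex q fun A => Real.exp (L * Y A) := by
    rw [hprod]
    have e1 : Real.exp (L ^ 2 * τ / 8) =
        ∏ c ∈ T, Real.exp (L ^ 2 * (Ex q fun A => (v c A) ^ 2) / 8) := by
      rw [← Real.exp_sum, hτ]
      congr 1
      rw [Finset.mul_sum, Finset.sum_div]
    rw [e1]
    refine Finset.prod_le_prod (fun c _ => (Real.exp_pos _).le) fun c hc => ?_
    have e2 : 1 + L ^ 2 * (Ex q fun A => (v c A) ^ 2) / 4 ≤
        Ex q fun A => Real.exp (L * v c A) := by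
      have e3 : Ex q (fun A => 1 + (L * v c A + L ^ 2 / 4 * (v c A) ^ 2)) ≤
          Ex q fun A => Real.exp (L * v c A) := by
        refine Ex_mono fun A => ?_
        have := exp_lower (hLv' c hc A)
        nlinarith
      have e4 : Ex q (fun A => 1 + (L * v c A + L ^ 2 / 4 * (v c A) ^ 2)) =
          1 + L ^ 2 * (Ex q fun A => (v c A) ^ 2) / 4 := by
        rw [Ex_add, Ex_add, Ex_const, Ex_mul_left, Ex_mul_left, hv0 c hc]
        ring
      linarith
    refine le_trans ?_ e2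
    have n0 : 0 ≤ Ex q fun A => (v c A) ^ 2 := Ex_nonneg fun _ => sq_nonneg _
    have n1 : L ^ 2 * (Ex q fun A => (v c A) ^ 2) ≤ 1 := by
      rw [← Ex_mul_left]
      rw [← Ex_const (ι := ι) (Ω := Ω) q (1 : ℝ)]
      refine Ex_mono fun A => ?_
      have := hLv' c hc A
      have h2 : (L * v c A) ^ 2 ≤ 1 := by
        rw [← sq_abs]
        nlinarith [abs_nonneg (L * v c A)]
      nlinarith
    have := one_add_ge_exp (y := L ^ 2 * (Ex q fun A => (v c A) ^ 2) / 4) (by positivity)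
      (by linarith)
    refine le_trans (le_of_eq ?_) this
    congr 1
    ring
  have hupp : Ex q (fun A => Real.exp (L * Y A) ^ 2) ≤ Real.exp (4 * L ^ 2 * C ^ 2) := by
    have e0 : (fun A => Real.exp (L * Y A) ^ 2) = fun A => Real.exp ((2 * L) * Y A) := by
      funext A
      rw [← Real.exp_nat_mul]
      congr 1
      push_cast
      ring
    rw [e0, hprod]
    have e1 : Real.exp (4 * L ^ 2 * τ) =
        ∏ c ∈ T, Real.exp (4 * L ^ 2 * (Ex q fun A => (v c A) ^ 2)) := by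
      rw [← Real.exp_sum, hτ]
      congr 1
      rw [Finset.mul_sum]
    have e5 : Real.exp (4 * L ^ 2 * τ) ≤ Real.exp (4 * L ^ 2 * C ^ 2) := by
      apply Real.exp_le_exp.2
      have : 0 ≤ 4 * L ^ 2 := by positivity
      nlinarith
    refine le_trans ?_ e5
    rw [e1]
    refine Finset.prod_le_prod (fun c _ => Ex_nonneg fun _ => (Real.exp_pos _).le)
      fun c hc => ?_
    have e3 : Ex q (fun A => Real.exp (2 * L * v c A)) ≤
        Ex q (fun A => 1 + (2 * L * v c A + 4 * L ^ 2 * (v c A) ^ 2)) := by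
      refine Ex_mono fun A => ?_
      have h2 : |2 * L * v c A| ≤ 1 := by
        have := hLv c hc A
        rwa [mul_assoc]
      have := exp_upper h2
      nlinarith
    have e4 : Ex q (fun A => 1 + (2 * L * v c A + 4 * L ^ 2 * (v c A) ^ 2)) =
        1 + 4 * L ^ 2 * (Ex q fun A => (v c A) ^ 2) := by
      rw [Ex_add, Ex_add, Ex_const, Ex_mul_left, Ex_mul_left, hv0 c hc]
      ring
    have e6 := Real.add_one_le_exp (4 * L ^ 2 * (Ex q fun A => (v c A) ^ 2))
    linarith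
  -- comparison
  set e := Ex q fun A => (u A - Y A) ^ 2 with he
  have hcomp : Real.exp (L ^ 2 * τ / 8) - Real.exp (L * C) ≤
      L * Real.sqrt e * (Real.exp (2 * L ^ 2 * C ^ 2) + Real.exp (L * C)) := by
    have f1 : Ex q (fun A => Real.exp (L * u A)) ≤ Real.exp (L * C) := by
      rw [← Ex_const (ι := ι) (Ω := Ω) q (Real.exp (L * C))]
      refine Ex_mono fun A => Real.exp_le_exp.2 ?_
      have := (abs_le.1 (hu A)).2
      nlinarith
    have f2 : Ex q (fun A => Real.exp (L * Y A)) - Ex q (fun A => Real.exp (L * u A)) ≤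
        Ex q (fun A => L * (|u A - Y A| * Real.exp (L * Y A)) +
          L * Real.exp (L * C) * |u A - Y A|) := by
      rw [← Ex_sub]
      refine Ex_mono fun A => ?_
      have g1 := abs_exp_sub_exp (L * Y A) (L * u A)
      have g2 : |L * Y A - L * u A| = L * |u A - Y A| := by
        rw [← mul_sub, abs_mul, abs_of_pos hL0, abs_sub_comm]
      have g3 : Real.exp (L * u A) ≤ Real.exp (L * C) := by
        apply Real.exp_le_exp.2
        have := (abs_le.1 (hu A)).2
        nlinarith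
      have g4 := le_abs_self (Real.exp (L * Y A) - Real.exp (L * u A))
      rw [g2] at g1
      have g5 : 0 ≤ L * |u A - Y A| := by positivity
      nlinarith [Real.exp_pos (L * Y A), Real.exp_pos (L * u A)]
    have f3 : Ex q (fun A => L * (|u A - Y A| * Real.exp (L * Y A)) +
          L * Real.exp (L * C) * |u A - Y A|) ≤
        L * (Real.sqrt e * Real.exp (2 * L ^ 2 * C ^ 2)) +
          L * Real.exp (L * C) * Real.sqrt e := by
      rw [Ex_add, Ex_mul_left, Ex_mul_left]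
      have g1 := Ex_cs (q := q) (fun A => |u A - Y A|) (fun A => Real.exp (L * Y A))
      simp only [sq_abs] at g1
      have g2 : Real.sqrt (Ex q fun A => Real.exp (L * Y A) ^ 2) ≤
          Real.exp (2 * L ^ 2 * C ^ 2) := by
        rw [Real.sqrt_le_left (Real.exp_pos _).le]
        refine hupp.trans (le_of_eq ?_)
        rw [← Real.exp_nat_mul]
        congr 1
        push_cast
        ring
      have g3 := Ex_abs_le_sqrt (q := q) (fun A => u A - Y A)
      have g4 : Real.sqrt e * Real.sqrt (Ex q fun A => Real.exp (L * Y A) ^ 2) ≤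
          Real.sqrt e * Real.exp (2 * L ^ 2 * C ^ 2) :=
        mul_le_mul_of_nonneg_left g2 (Real.sqrt_nonneg _)
      have g5 := mul_le_mul_of_nonneg_left (g1.trans g4) hL0.le
      have g6 := mul_le_mul_of_nonneg_left g3 (by positivity : 0 ≤ L * Real.exp (L * C))
      exact add_le_add g5 g6
    linarith
  have hmain : L ≤ L * Real.sqrt e * (Real.exp (2 * L ^ 2 * C ^ 2) + Real.exp (L * C)) := by
    refine le_trans ?_ hcomp
    have k1 : L * C + L ≤ L ^ 2 * τ / 8 := by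
      have : L * (C + 1) = L ^ 2 * b / 16 := by
        rw [hL]
        field_simp
      have : L ^ 2 * b / 16 ≤ L ^ 2 * τ / 8 := by
        have : 0 ≤ L ^ 2 := sq_nonneg L
        nlinarith
      linarith
    have k2 : Real.exp (L * C + L) ≤ Real.exp (L ^ 2 * τ / 8) := Real.exp_le_exp.2 k1
    have k3 : Real.exp (L * C + L) = Real.exp (L * C) * Real.exp L := Real.exp_add _ _
    have k4 : L + 1 ≤ Real.exp L := Real.add_one_le_exp L
    have k5 : 1 ≤ Real.exp (L * C) := Real.one_le_exp (by positivity)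
    nlinarith
  have hE : 0 < Real.exp (2 * L ^ 2 * C ^ 2) + Real.exp (L * C) := by positivity
  have h5 : 1 ≤ Real.sqrt e * (Real.exp (2 * L ^ 2 * C ^ 2) + Real.exp (L * C)) := by
    have : L * 1 ≤ L * (Real.sqrt e * (Real.exp (2 * L ^ 2 * C ^ 2) + Real.exp (L * C))) := by
      linarith
    exact le_of_mul_le_mul_left this hL0
  have h6 : (Real.exp (2 * L ^ 2 * C ^ 2) + Real.exp (L * C))⁻¹ ≤ Real.sqrt e := by
    rw [inv_le_iff_one_le_mul₀ hE]
    exact h5
  have he0 : 0 ≤ e := Ex_nonneg fun _ => sq_nonneg _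
  calc ((Real.exp (2 * L ^ 2 * C ^ 2) + Real.exp (L * C)) ^ 2)⁻¹
      = ((Real.exp (2 * L ^ 2 * C ^ 2) + Real.exp (L * C))⁻¹) ^ 2 := by rw [inv_pow]
    _ ≤ Real.sqrt e ^ 2 := by
        refine pow_le_pow_left₀ (inv_nonneg.2 hE.le) h6 2
    _ = e := Real.sq_sqrt he0

end Pool.Agent.N940.MM
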