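import Pool.Agent.N940.MM.FlipB
import Pool.Agent.N940.MM.Step

/-!
# The effect of changing two parities
-/

set_option autoImplicit false
set_option linter.unusedSectionVars false
set_option linter.unusedVariables false

namespace Pool.Agent.N940.MM.Flip

open Finset

/-! ### marginals of product measures -/

section marg

variable {X Ω : Type} [Fintype X] [DecidableEq X] [Fintype Ω] [DecidableEq Ω]

lemma Ex_prod (W : Wt X Ω) (φ : X → Ω → ℝ) :
    Ex W (fun A => ∏ z, φ z (A z)) = ∏ z, ∑ o, W.w z o * φ z o := by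
  have h := Finset.prod_univ_sum (fun _ : X => (univ : Finset Ω)) (fun z o => W.w z o * φ z o)
  rw [Fintype.piFinset_univ] at h
  rw [h]
  unfold Ex mu
  refine sum_congr rfl fun A _ => ?_
  rw [smul_eq_mul, ← Finset.prod_mul_distrib]

lemma Ex_two (W : Wt X Ω) {x y : X} (hxy : x ≠ y) (B B' : Ω) :
    Ex W (fun A => (if A x = B then (1 : ℝ) else 0) * (if A y = B' then 1 else 0)) =
      W.w x B * W.w y B' := by
  let φ : X → Ω → ℝ := fun z o => if z = x then (if o = B then 1 else 0) else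
    if z = y then (if o = B' then 1 else 0) else 1
  have e1 : ∀ f : X → ℝ, (∀ z, z ≠ x → z ≠ y → f z = 1) → ∏ z, f z = f x * f y := by
    intro f hf
    have h1 : ∏ z ∈ ({x, y} : Finset X), f z = ∏ z, f z := by
      refine Finset.prod_subset (subset_univ _) fun z _ hz => ?_
      simp only [mem_insert, mem_singleton, not_or] at hz
      exact hf z hz.1 hz.2
    rw [← h1, Finset.prod_pair hxy]
  have e2 : (fun A : X → Ω => (if A x = B then (1 : ℝ) else 0) * (if A y = B' then 1 else 0)) =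
      fun A => ∏ z, φ z (A z) := by
    funext A
    rw [e1 (fun z => φ z (A z)) (fun z h1 h2 => by simp [φ, h1, h2])]
    simp [φ, hxy.symm]
  rw [e2, Ex_prod, e1 _ (fun z h1 h2 => by simp [φ, h1, h2, W.sm])]
  simp [φ, hxy.symm]

lemma Ex_pair (W : Wt X Ω) {x y : X} (hxy : x ≠ y) (F : Ω → Ω → ℝ) :
    Ex W (fun A => F (A x) (A y)) = ∑ B, ∑ B', W.w x B * W.w y B' * F B B' := by
  have e : (fun A : X → Ω => F (A x) (A y)) = fun A => ∑ B ∈ (univ : Finset Ω),
      ∑ B' ∈ (univ : Finset Ω), F B B' •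
        ((if A x = B then (1 : ℝ) else 0) * (if A y = B' then 1 else 0)) := by
    funext A
    rw [Finset.sum_eq_single (A x), Finset.sum_eq_single (A y)]
    · simp
    · intro B' _ hB'
      simp [Ne.symm hB']
    · intro h; exact absurd (mem_univ _) h
    · intro B _ hB
      refine Finset.sum_eq_zero fun B' _ => ?_
      simp [Ne.symm hB]
    · intro h; exact absurd (mem_univ _) h
  rw [e, Ex_sum]
  refine sum_congr rfl fun B _ => ?_
  rw [Ex_sum]
  refine sum_congr rfl fun B' _ => ?_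
  rw [Ex_smul, Ex_two W hxy]
  rw [smul_eq_mul]
  ring

/-- change the values at two places -/
def upd (x y : X) (A : X → Ω) (B B' : Ω) : X → Ω := Function.update (Function.update A x B) y B'

lemma upd_x {x y : X} (hxy : x ≠ y) (A : X → Ω) (B B' : Ω) : upd x y A B B' x = B := by
  simp [upd, hxy]

lemma upd_y {x y : X} (A : X → Ω) (B B' : Ω) : upd x y A B B' y = B' := by
  simp [upd]

lemma upd_ne {x y z : X} (h1 : z ≠ x) (h2 : z ≠ y) (A : X → Ω) (B B' : Ω) :
    upd x y A B B' z = A z := by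
  simp [upd, h1, h2]

lemma mix_upd {x y : X} (hxy : x ≠ y) (A C : X → Ω) :
    mix ({x, y} : Finset X)ᶜ A C = upd x y A (C x) (C y) := by
  funext z
  by_cases h1 : z = x
  · subst h1
    rw [upd_x hxy]
    simp [mix]
  · by_cases h2 : z = y
    · subst h2
      rw [upd_y]
      simp [mix]
    · rw [upd_ne h1 h2]
      simp [mix, h1, h2]

lemma Av_eq (W : Wt X Ω) {x y : X} (hxy : x ≠ y) (g : (X → Ω) → ℝ) (A : X → Ω) :
    Av W ({x, y} : Finset X)ᶜ g A = ∑ B, ∑ B', W.w x B * W.w y B' * g (upd x y A B B') := by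
  unfold Av
  simp only [mix_upd hxy]
  exact Ex_pair W hxy (fun B B' => g (upd x y A B B'))

/-- functions of the other places have the same expectation -/
lemma Ex_change (W W' : Wt X Ω) (V : Finset X) (hW : ∀ z, z ∉ V → W.w z = W'.w z)
    {F : (X → Ω) → ℝ} (hF : Dep Vᶜ F) : Ex W F = Ex W' F := by
  have e1 : Ex W F = ∑ p : (X → Ω) × (X → Ω), (mu W p.1 * mu W' p.2) * F p.1 := by
    rw [Fintype.sum_prod_type]
    unfold Ex
    refine sum_congr rfl fun A _ => ?_
    show _ = ∑ C : X → Ω, (mu W A * mu W' C) * F A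
    rw [← Finset.sum_mul, ← Finset.mul_sum, sum_mu, mul_one, smul_eq_mul]
  have e2 : Ex W' F = ∑ p : (X → Ω) × (X → Ω), (mu W p.1 * mu W' p.2) * F p.2 := by
    rw [Fintype.sum_prod_type_right]
    unfold Ex
    refine sum_congr rfl fun A _ => ?_
    show _ = ∑ C : X → Ω, (mu W C * mu W' A) * F A
    rw [← Finset.sum_mul, ← Finset.sum_mul, sum_mu, one_mul, smul_eq_mul]
  rw [e1, e2]
  refine Finset.sum_nbij' (fun p => (mix V p.1 p.2, mix V p.2 p.1))
    (fun p => (mix V p.1 p.2, mix V p.2 p.1)) ?_ ?_ ?_ ?_ ?_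
  · intros; exact mem_univ _
  · intros; exact mem_univ _
  · intro p _; simp only [mix_mix]
  · intro p _; simp only [mix_mix]
  · intro p _
    have h1 : mu W (mix V p.1 p.2) * mu W' (mix V p.2 p.1) = mu W p.1 * mu W' p.2 := by
      unfold mu
      rw [← Finset.prod_mul_distrib, ← Finset.prod_mul_distrib]
      refine Finset.prod_congr rfl fun z _ => ?_
      simp only [mix]
      split_ifs with hz
      · rfl
      · rw [hW z hz]
        exact mul_comm _ _
    have h2 : F (mix V p.2 p.1) = F p.1 := hF _ _ fun z hz => by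
      rw [mem_compl] at hz
      simp [mix, hz]
    show mu W p.1 * mu W' p.2 * F p.1 =
      mu W (mix V p.1 p.2) * mu W' (mix V p.2 p.1) * F (mix V p.2 p.1)
    rw [h1, h2]

lemma Ex_mono_supp {W : Wt X Ω} {f g : (X → Ω) → ℝ} (h : ∀ A, mu W A ≠ 0 → f A ≤ g A) :
    Ex W f ≤ Ex W g := by
  unfold Ex
  refine sum_le_sum fun A _ => ?_
  by_cases h1 : mu W A = 0
  · rw [h1, zero_smul, zero_smul]
  · exact smul_le_smul_of_nonneg_left (h A h1) (mu_nonneg W A)

lemma Ex_mul (W : Wt X Ω) (c : ℝ) (f : (X → Ω) → ℝ) : Ex W (fun A => c * f A) = c * Ex W f :=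
  Ex_smul W c f

/-- decomposition of the variance -/
lemma Vr_decomp (W : Wt X Ω) (S : Finset X) (g : (X → Ω) → ℝ) :
    Vr W g = Ex W (fun A => (Av W S g A - Ex W g) ^ 2) +
      Ex W (Av W S (fun A => (g A - Av W S g A) ^ 2)) := by
  rw [Ex_Av]
  unfold Vr
  set c := Ex W g with hc
  set m := Av W S g with hm
  have hd : Dep S m := Dep_Av W S g
  have e1 : (fun A => (g A - c) ^ 2) = fun A =>
      ((m A - c) ^ 2 + (g A - m A) ^ 2) + 2 * ((m A - c) * (g A - m A)) := by
    funext A; ring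
  have e2 : Ex W (fun A => (m A - c) * (g A - m A)) = 0 := by
    rw [← Ex_Av W S]
    have hd' : Dep S (fun A => m A - c) := by
      intro A B hAB
      show m A - c = m B - c
      rw [hd A B hAB]
    rw [Av_mul hd' (fun A => g A - m A), Av_sub, ← hm]
    have : Av W S m = m := hd.Av_eq
    rw [this]
    simp only [sub_self, mul_zero]
    exact Ex_const W 0
  rw [e1, Ex_add, Ex_add, Ex_mul, e2]
  ring

lemma Ex_sq_mono {W : Wt X Ω} {f : (X → Ω) → ℝ} {k : ℝ} (hk : 0 ≤ k)
    (h : ∀ A, mu W A ≠ 0 → |f A| ≤ k) : Ex W (fun A => f A ^ 2) ≤ k ^ 2 := by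
  rw [← Ex_const W (k ^ 2)]
  refine Ex_mono_supp fun A hA => ?_
  rw [← sq_abs]
  exact pow_le_pow_left₀ (abs_nonneg _) (h A hA) 2

/-- Minkowski -/
lemma sd_sub {W : Wt X Ω} {f g : (X → Ω) → ℝ} {k : ℝ} (hk : 0 ≤ k)
    (h : ∀ A, mu W A ≠ 0 → |f A - g A| ≤ k) :
    |Real.sqrt (Ex W fun A => (f A - Ex W f) ^ 2) -
      Real.sqrt (Ex W fun A => (g A - Ex W g) ^ 2)| ≤ k := by
  set F : (X → Ω) → ℝ := fun A => f A - Ex W f with hF
  set H : (X → Ω) → ℝ := fun A => g A - Ex W g with hH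
  have n1 : 0 ≤ Ex W (fun A => F A ^ 2) := Ex_nonneg fun _ => sq_nonneg _
  have n2 : 0 ≤ Ex W (fun A => H A ^ 2) := Ex_nonneg fun _ => sq_nonneg _
  have cs := Ex_cs (q := W) F H
  have e1 : Ex W (fun A => (F A - H A) ^ 2) =
      Ex W (fun A => F A ^ 2) + Ex W (fun A => H A ^ 2) - 2 * Ex W (fun A => F A * H A) := by
    rw [← Ex_mul, ← Ex_add, ← Ex_sub]
    congr 1
    funext A
    ring
  have e2 : Ex W (fun A => (F A - H A) ^ 2) = Ex W (fun A => (f A - g A) ^ 2) -
      (Ex W f - Ex W g) ^ 2 := by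
    have e : (fun A => (F A - H A) ^ 2) = fun A => ((f A - g A) ^ 2 + (Ex W f - Ex W g) ^ 2) -
        (2 * (Ex W f - Ex W g)) * (f A - g A) := by
      funext A
      simp only [hF, hH]
      ring
    rw [e, Ex_sub, Ex_add, Ex_mul, Ex_sub, Ex_const]
    ring
  have e3 := Ex_sq_mono (W := W) (f := fun A => f A - g A) hk h
  have s1 := Real.sq_sqrt n1
  have s2 := Real.sq_sqrt n2
  set a := Real.sqrt (Ex W (fun A => F A ^ 2))
  set a' := Real.sqrt (Ex W (fun A => H A ^ 2))
  have : (a - a') ^ 2 ≤ k ^ 2 := by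
    nlinarith [sq_nonneg (Ex W f - Ex W g)]
  exact abs_le_of_sq_le_sq this hk

lemma sqrt_aux {a a' e e' K k τ : ℝ} (ha : 0 ≤ a) (ha' : 0 ≤ a') (h : |a - a'| ≤ k)
    (he : e ≤ K) (he' : 0 ≤ e') (hK : 0 ≤ K) (hτ : 0 < τ) :
    Real.sqrt (a ^ 2 + e + τ ^ 2) ≤ Real.sqrt (a' ^ 2 + e' + τ ^ 2) + (k + K / (2 * τ)) := by
  have hk : 0 ≤ k := (abs_nonneg _).trans h
  set t := Real.sqrt (a' ^ 2 + τ ^ 2) with ht
  have t1 : t ≤ Real.sqrt (a' ^ 2 + e' + τ ^ 2) := Real.sqrt_le_sqrt (by linarith)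
  have t2 : t ^ 2 = a' ^ 2 + τ ^ 2 := Real.sq_sqrt (by positivity)
  have t3 : τ ≤ t := by
    rw [ht]
    exact Real.le_sqrt_of_sq_le (by nlinarith)
  have t4 : a' ≤ t := by
    rw [ht]
    exact Real.le_sqrt_of_sq_le (by nlinarith)
  have hq : 0 ≤ K / (2 * τ) := by positivity
  have t5 : Real.sqrt (a ^ 2 + e + τ ^ 2) ≤ t + (k + K / (2 * τ)) := by
    apply Real.sqrt_le_iff.2
    refine ⟨by linarith, ?_⟩
    have h1 : a ≤ a' + k := by
      have := (abs_le.1 h).2
      linarith
    have h2 : a ^ 2 ≤ (a' + k) ^ 2 := pow_le_pow_left₀ ha h1 2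
    have h3 : K ≤ 2 * t * (K / (2 * τ)) := by
      have : 2 * t * (K / (2 * τ)) = K * (t / τ) := by
        field_simp
      rw [this]
      have h4 : 1 ≤ t / τ := by
        rw [le_div_iff₀ hτ]
        linarith
      nlinarith
    have h5 : a' * k ≤ t * k := mul_le_mul_of_nonneg_right t4 hk
    have h6 : 0 ≤ k * (K / (2 * τ)) := mul_nonneg hk hq
    nlinarith [sq_nonneg (K / (2 * τ))]
  linarith

end marg

/-! ### parities -/

section par

variable {X U : Type} [Fintype X] [DecidableEq X] [Fintype U] [DecidableEq U]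

lemma evA_iff (A : X → Finset U) : evA A ↔ evn (fun z => par (A z)) := by
  unfold evA evn
  rw [Finset.even_sum_iff_even_card_odd]
  simp [par]

lemma evn_iff (P : X → Bool) : evn P ↔ (∑ z, (if P z = true then (1 : ZMod 2) else 0)) = 0 := by
  unfold evn
  rw [← Finset.natCast_card_filter, ZMod.natCast_eq_zero_iff_even]

lemma evn_flp {x y : X} (hxy : x ≠ y) {P : X → Bool} (h : evn P) : evn (flp x y P) := by
  rw [evn_iff] at h ⊢
  have e : ∀ z, (if flp x y P z = true then (1 : ZMod 2) else 0) =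
      (if P z = true then (1 : ZMod 2) else 0) + ((if z = x then 1 else 0) +
        (if z = y then 1 else 0)) := by
    intro z
    unfold flp
    have h2 : (1 : ZMod 2) + 1 = 0 := by decide
    by_cases h1 : z = x
    · subst h1
      cases hP : P z <;> simp [hxy, h2]
    · by_cases h3 : z = y
      · subst h3
        cases hP : P z <;> simp [h1, h2]
      · simp [h1, h3]
  simp only [e, sum_add_distrib, h, zero_add, sum_ite_eq', mem_univ, if_true]
  decide

lemma flp_x {x y : X} (P : X → Bool) : flp x y P x = !P x := by simp [flp]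

lemma flp_y {x y : X} (P : X → Bool) : flp x y P y = !P y := by simp [flp]

lemma flp_ne {x y z : X} (h1 : z ≠ x) (h2 : z ≠ y) (P : X → Bool) : flp x y P z = P z := by
  simp [flp, h1, h2]

lemma flp_flp {x y : X} (P : X → Bool) : flp x y (flp x y P) = P := by
  funext z
  simp only [flp]
  split_ifs <;> simp

lemma evA_upd {x y : X} (hxy : x ≠ y) {P : X → Bool} (hP : evn P) {A : X → Finset U}
    (hA : ∀ z, z ≠ x → z ≠ y → par (A z) = P z) {B B' : Finset U} (h : gd (P x) (P y) B B') :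
    evA (upd x y A B B') := by
  rw [evA_iff]
  rcases h with ⟨h1, h2⟩ | ⟨h1, h2⟩
  · have : (fun z => par (upd x y A B B' z)) = P := by
      funext z
      by_cases hx : z = x
      · subst hx; rw [upd_x hxy, h1]
      · by_cases hy : z = y
        · subst hy; rw [upd_y, h2]
        · rw [upd_ne hx hy, hA z hx hy]
    rw [this]
    exact hP
  · have : (fun z => par (upd x y A B B' z)) = flp x y P := by
      funext z
      by_cases hx : z = x
      · subst hx; rw [upd_x hxy, h1, flp_x]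
      · by_cases hy : z = y
        · subst hy; rw [upd_y, h2, flp_y]
        · rw [upd_ne hx hy, hA z hx hy, flp_ne hx hy]
    rw [this]
    exact evn_flp hxy hP

lemma supp_par {q : ℝ} (hq : Adq U q) {P : X → Bool} {A : X → Finset U}
    (h : mu (WP hq P) A ≠ 0) (z : X) : par (A z) = P z := by
  by_contra h1
  apply h
  unfold mu
  refine Finset.prod_eq_zero (mem_univ z) ?_
  show wb q (P z) (A z) = 0
  unfold wb
  rw [if_neg h1]

lemma Av_E2 {q : ℝ} (hq : Adq U q) {x y : X} (hxy : x ≠ y) (P : X → Bool)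
    (g : (X → Finset U) → ℝ) (A : X → Finset U) :
    Av (WP hq P) ({x, y} : Finset X)ᶜ g A =
      E2 q (P x) (P y) (fun B B' => g (upd x y A B B')) :=
  Av_eq (WP hq P) hxy g A

lemma upd_upd {x y : X} (A : X → Finset U) (B B' C C' : Finset U) :
    upd x y (upd x y A B B') C C' = upd x y A C C' := by
  funext z
  by_cases hy : z = y
  · subst hy; simp [upd]
  · by_cases hx : z = x
    · subst hx; simp [upd, hy]
    · simp [upd, hx, hy]

/-- the general scheme -/
theorem lift {q : ℝ} (hq : Adq U q) {x y : X} (hxy : x ≠ y) (P : X → Bool)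
    (g : (X → Finset U) → ℝ) {k K τ : ℝ} (hk : 0 ≤ k) (hK : 0 ≤ K) (hτ : 0 < τ)
    (b1 : ∀ A : X → Finset U, (∀ z, z ≠ x → z ≠ y → par (A z) = P z) →
      |E2 q (P x) (P y) (fun B B' => g (upd x y A B B')) -
        E2 q (!P x) (!P y) (fun B B' => g (upd x y A B B'))| ≤ k)
    (b2 : ∀ A : X → Finset U, (∀ z, z ≠ x → z ≠ y → par (A z) = P z) →
      E2 q (P x) (P y) (fun B B' => (g (upd x y A B B') -
        E2 q (P x) (P y) (fun B B' => g (upd x y A B B'))) ^ 2) ≤ K)
    (b3 : ∀ A : X → Finset U, (∀ z, z ≠ x → z ≠ y → par (A z) = P z) →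
      E2 q (!P x) (!P y) (fun B B' => (g (upd x y A B B') -
        E2 q (!P x) (!P y) (fun B B' => g (upd x y A B B'))) ^ 2) ≤ K) :
    |Ex (WP hq P) g - Ex (WP hq (flp x y P)) g| ≤ k ∧
      |Real.sqrt (Vr (WP hq P) g + τ ^ 2) - Real.sqrt (Vr (WP hq (flp x y P)) g + τ ^ 2)| ≤
        k + K / (2 * τ) := by
  set W := WP hq P with hW
  set W' := WP hq (flp x y P) with hW'
  set S : Finset X := ({x, y} : Finset X)ᶜ with hS
  set m := Av W S g with hm
  set m' := Av W' S g with hm'
  have eW : ∀ z, z ∉ ({x, y} : Finset X) → W.w z = W'.w z := by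
    intro z hz
    simp only [mem_insert, mem_singleton, not_or] at hz
    funext B
    show wb q (P z) B = wb q (flp x y P z) B
    rw [flp_ne hz.1 hz.2]
  have dm : Dep S m := Dep_Av W S g
  have dm' : Dep S m' := Dep_Av W' S g
  have em : ∀ A, m A = E2 q (P x) (P y) (fun B B' => g (upd x y A B B')) := fun A =>
    Av_E2 hq hxy P g A
  have em' : ∀ A, m' A = E2 q (!P x) (!P y) (fun B B' => g (upd x y A B B')) := fun A => by
    have := Av_E2 hq hxy (flp x y P) g A
    rw [flp_x, flp_y] at this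
    exact this
  have hsup : ∀ A, mu W A ≠ 0 → ∀ z, z ≠ x → z ≠ y → par (A z) = P z := fun A hA z _ _ =>
    supp_par hq hA z
  have hsup' : ∀ A, mu W' A ≠ 0 → ∀ z, z ≠ x → z ≠ y → par (A z) = P z := fun A hA z h1 h2 => by
    rw [supp_par hq hA z, flp_ne h1 h2]
  have c1 : ∀ A, mu W A ≠ 0 → |m A - m' A| ≤ k := fun A hA => by
    rw [em, em']
    exact b1 A (hsup A hA)
  have E1 : Ex W g = Ex W m := (Ex_Av W S g).symm
  have E2' : Ex W' g = Ex W m' := by
    rw [← Ex_Av W' S g]
    exact (Ex_change W W' {x, y} eW dm').symm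
  have hv : ∀ A, mu W A ≠ 0 → Av W S (fun A => (g A - m A) ^ 2) A ≤ K := by
    intro A hA
    have e : Av W S (fun A => (g A - m A) ^ 2) A = E2 q (P x) (P y) (fun B B' =>
        (g (upd x y A B B') - m (upd x y A B B')) ^ 2) := Av_E2 hq hxy P _ A
    rw [e]
    have e' : ∀ B B', m (upd x y A B B') = E2 q (P x) (P y)
        (fun B B' => g (upd x y A B B')) := by
      intro B B'
      rw [em]
      simp only [upd_upd]
    simp only [e']
    exact b2 A (hsup A hA)
  have hv' : ∀ A, mu W' A ≠ 0 → Av W' S (fun A => (g A - m' A) ^ 2) A ≤ K := by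
    intro A hA
    have e : Av W' S (fun A => (g A - m' A) ^ 2) A = E2 q (!P x) (!P y) (fun B B' =>
        (g (upd x y A B B') - m' (upd x y A B B')) ^ 2) := by
      have := Av_E2 hq hxy (flp x y P) (fun A => (g A - m' A) ^ 2) A
      rw [flp_x, flp_y] at this
      exact this
    rw [e]
    have e' : ∀ B B', m' (upd x y A B B') = E2 q (!P x) (!P y)
        (fun B B' => g (upd x y A B B')) := by
      intro B B'
      rw [em']
      simp only [upd_upd]
    simp only [e']
    exact b3 A (hsup' A hA)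
  constructor
  · rw [E1, E2', ← Ex_sub]
    refine (Ex_abs_le (q := W) _).trans ?_
    rw [← Ex_const (ι := X) W k]
    exact Ex_mono_supp c1
  · have V1 : Vr W g = (Real.sqrt (Ex W fun A => (m A - Ex W m) ^ 2)) ^ 2 +
        Ex W (Av W S (fun A => (g A - m A) ^ 2)) := by
      rw [Real.sq_sqrt (Ex_nonneg fun _ => sq_nonneg _), Vr_decomp W S g, ← hm, ← E1]
    have V2 : Vr W' g = (Real.sqrt (Ex W fun A => (m' A - Ex W m') ^ 2)) ^ 2 +
        Ex W' (Av W' S (fun A => (g A - m' A) ^ 2)) := by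
      rw [Real.sq_sqrt (Ex_nonneg fun _ => sq_nonneg _), Vr_decomp W' S g, ← hm', E2']
      congr 1
      refine (Ex_change W W' {x, y} eW ?_).symm
      intro A B hAB
      show (m' A - Ex W m') ^ 2 = (m' B - Ex W m') ^ 2
      rw [dm' A B hAB]
    have n1 : 0 ≤ Ex W (Av W S (fun A => (g A - m A) ^ 2)) := by
      rw [Ex_Av]
      exact Ex_nonneg fun _ => sq_nonneg _
    have n2 : 0 ≤ Ex W' (Av W' S (fun A => (g A - m' A) ^ 2)) := by
      rw [Ex_Av]
      exact Ex_nonneg fun _ => sq_nonneg _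
    have l1 : Ex W (Av W S (fun A => (g A - m A) ^ 2)) ≤ K := by
      rw [← Ex_const (ι := X) W K]
      exact Ex_mono_supp hv
    have l2 : Ex W' (Av W' S (fun A => (g A - m' A) ^ 2)) ≤ K := by
      rw [← Ex_const (ι := X) W' K]
      exact Ex_mono_supp hv'
    have sd := sd_sub (W := W) (f := m) (g := m') hk c1
    have sd' := sd
    rw [abs_sub_comm] at sd'
    have r1 := sqrt_aux (Real.sqrt_nonneg _) (Real.sqrt_nonneg _) sd l1 n2 hK hτ
    have r2 := sqrt_aux (Real.sqrt_nonneg _) (Real.sqrt_nonneg _) sd' l2 n1 hK hτ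
    rw [V1, V2, abs_le]
    constructor <;> linarith

end par

/-- **the effect of changing two parities** -/
theorem main : S_FLIP := by
  intro X U _ _ _ _ q hq h1 hl g P hP x y hxy θ D τ hθ hD hτ hcr
  have h0 := hq.h0
  have hU : 0 < Fintype.card U := by
    by_contra h
    have : Fintype.card U = 0 := by omega
    rw [this] at hl
    norm_num at hl
  obtain ⟨u0⟩ : Nonempty U := Fintype.card_pos_iff.1 hU
  have hD0 : 0 ≤ D := by linarith
  have hθD : 0 ≤ θ * D := mul_nonneg hθ hD0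
  -- comparison with a base configuration
  have base : ∀ A : X → Finset U, (∀ z, z ≠ x → z ≠ y → par (A z) = P z) →
      ∃ c0 : ℝ, ∀ B B', gd (P x) (P y) B B' →
        |g (upd x y A B B') - c0| ≤ θ * D * (B.card + B'.card + 2) := by
    intro A hA
    obtain ⟨C, hC, hC1⟩ : ∃ C : Finset U, gd (P x) (P y) C ∅ ∧ C.card ≤ 1 := by
      have p0 : par (∅ : Finset U) = false := by simp [par]
      have p1 : par ({u0} : Finset U) = true := by simp [par]
      cases hx : P x <;> cases hy : P y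
      · exact ⟨∅, Or.inl ⟨p0, p0⟩, by simp⟩
      · exact ⟨{u0}, Or.inr ⟨by simp [p1], by simp [p0]⟩, by simp⟩
      · exact ⟨{u0}, Or.inl ⟨p1, p0⟩, by simp⟩
      · exact ⟨∅, Or.inr ⟨by simp [p0], by simp [p0]⟩, by simp⟩
    refine ⟨g (upd x y A C ∅), fun B B' hB => ?_⟩
    have h := hcr (upd x y A B B') (upd x y A C ∅) (evA_upd hxy hP hA hB)
      (evA_upd hxy hP hA hC) (fun z h2 h3 => by rw [upd_ne h2 h3, upd_ne h2 h3])
    rw [upd_x hxy, upd_y, upd_x hxy, upd_y] at h
    refine h.trans (mul_le_mul_of_nonneg_left ?_ hθD)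
    have : (C.card : ℝ) ≤ 1 := by exact_mod_cast hC1
    rw [card_empty]
    push_cast
    linarith
  set la := q * (Fintype.card U : ℝ) with hla
  have hK0 : 0 ≤ 24 * (θ * D) ^ 2 * (la + 2) ^ 2 := by positivity
  have hKτ : 24 * (θ * D) ^ 2 * (la + 2) ^ 2 / (2 * τ) ≤
      θ ^ 2 * (100 * D ^ 2 * (la + 2) ^ 2) / τ := by
    rw [div_le_div_iff₀ (by positivity) hτ]
    have : 0 ≤ (θ * D) ^ 2 * (la + 2) ^ 2 * τ := by positivity
    nlinarith
  have b2 : ∀ A : X → Finset U, (∀ z, z ≠ x → z ≠ y → par (A z) = P z) →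
      E2 q (P x) (P y) (fun B B' => (g (upd x y A B B') -
        E2 q (P x) (P y) (fun B B' => g (upd x y A B B'))) ^ 2) ≤
        24 * (θ * D) ^ 2 * (la + 2) ^ 2 := by
    intro A hA
    obtain ⟨c0, hc0⟩ := base A hA
    exact var1 h0 h1 hl hθD hc0
  have b3 : ∀ A : X → Finset U, (∀ z, z ≠ x → z ≠ y → par (A z) = P z) →
      E2 q (!P x) (!P y) (fun B B' => (g (upd x y A B B') -
        E2 q (!P x) (!P y) (fun B B' => g (upd x y A B B'))) ^ 2) ≤
        24 * (θ * D) ^ 2 * (la + 2) ^ 2 := by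
    intro A hA
    obtain ⟨c0, hc0⟩ := base A hA
    exact var1 h0 h1 hl hθD (fun B B' hB => hc0 B B' (gd_not' hB))
  refine ⟨?_, fun hsw => ?_⟩
  · have b1 : ∀ A : X → Finset U, (∀ z, z ≠ x → z ≠ y → par (A z) = P z) →
        |E2 q (P x) (P y) (fun B B' => g (upd x y A B B')) -
          E2 q (!P x) (!P y) (fun B B' => g (upd x y A B B'))| ≤ 100 * (θ * D) * (la + 2) := by
      intro A hA
      obtain ⟨c0, hc0⟩ := base A hA
      exact pair_crude h0 h1 hl hθD hc0
    obtain ⟨r1, r2⟩ := lift hq hxy P g (by positivity) hK0 hτ b1 b2 b3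
    have e : 100 * (θ * D) * (la + 2) = θ * (100 * D * (la + 2)) := by ring
    rw [e] at r1 r2
    exact ⟨r1, r2.trans (by linarith)⟩
  · have b1 : ∀ A : X → Finset U, (∀ z, z ≠ x → z ≠ y → par (A z) = P z) →
        |E2 q (P x) (P y) (fun B B' => g (upd x y A B B')) -
          E2 q (!P x) (!P y) (fun B B' => g (upd x y A B B'))| ≤
          θ + 100 * (θ * D) * (la + 2) * Real.exp (-la / 2) := by
      intro A hA
      obtain ⟨c0, hc0⟩ := base A hA
      refine pair_swap h0 h1 hl hθD hθ hc0 ?_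
      intro B B' u hB hu hu'
      have h := hsw (upd x y A B B') u (evA_upd hxy hP hA hB) (by rw [upd_x hxy]; exact hu)
        (by rw [upd_y]; exact hu')
      rw [upd_x hxy, upd_y] at h
      have e : Function.update (Function.update (upd x y A B B') x (B.erase u)) y
          (insert u B') = upd x y A (B.erase u) (insert u B') := upd_upd A B B' _ _
      rw [e] at h
      exact h
    obtain ⟨r1, r2⟩ := lift hq hxy P g (by positivity) hK0 hτ b1 b2 b3
    have e : θ + 100 * (θ * D) * (la + 2) * Real.exp (-la / 2) =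
        θ * (1 + 100 * D * (la + 2) * Real.exp (-la / 2)) := by ring
    rw [e] at r1 r2
    exact ⟨r1, r2.trans (by linarith)⟩

end Pool.Agent.N940.MM.Flip
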