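import Pool.Agent.N940.MM.Stm
import Pool.Agent.N940.TSP.Abs

/-!
# Changing two parities: pairs of Bernoulli sets
-/

set_option autoImplicit false
set_option linter.unusedSectionVars false
set_option linter.unusedVariables false

namespace Pool.Agent.N940.MM.Flip

open Finset

section one

variable {U : Type} [Fintype U] [DecidableEq U]

lemma mu_eq (q : ℝ) (B : Finset U) : TSP.mu q B = ∏ v : U, (if v ∈ B then q else 1 - q) := by
  unfold TSP.mu
  rw [Finset.prod_ite, Finset.prod_const, Finset.prod_const]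
  have e1 : (univ.filter fun v => v ∈ B) = B := by ext; simp
  have e2 : (univ.filter fun v => v ∉ B) = Bᶜ := by ext; simp
  rw [e1, e2]

lemma sum_sign (q : ℝ) :
    ∑ B : Finset U, (-1 : ℝ) ^ B.card * TSP.mu q B = (1 - 2 * q) ^ Fintype.card U := by
  have h := Fintype.sum_pow_mul_eq_add_pow U (-q) (1 - q)
  have e : (-q + (1 - q)) = 1 - 2 * q := by ring
  rw [e] at h
  rw [← h]
  refine sum_congr rfl fun B _ => ?_
  unfold TSP.mu
  rw [neg_pow q, card_compl]
  ring

lemma par_false {B : Finset U} : par B = false ↔ Even B.card := by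
  simp [par]

lemma par_true {B : Finset U} : par B = true ↔ Odd B.card := by
  simp [par]

lemma pr_add (q : ℝ) : pr U q true + pr U q false = 1 := by
  unfold pr
  rw [← sum_add_distrib, ← TSP.sum_mu (ι := U) q]
  refine sum_congr rfl fun B _ => ?_
  cases par B <;> simp

lemma pr_sub (q : ℝ) : pr U q false - pr U q true = (1 - 2 * q) ^ Fintype.card U := by
  rw [← sum_sign]
  unfold pr
  rw [← sum_sub_distrib]
  refine sum_congr rfl fun B _ => ?_
  cases h : par B
  · rw [par_false] at h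
    simp [h.neg_one_pow]
  · rw [par_true] at h
    simp [h.neg_one_pow]

lemma ee_bound {q : ℝ} (h0 : 0 ≤ q) (h1 : q ≤ 1 / 2) :
    0 ≤ (1 - 2 * q) ^ Fintype.card U ∧
      (1 - 2 * q) ^ Fintype.card U ≤ Real.exp (-(2 * (q * Fintype.card U))) := by
  have h2 : 0 ≤ 1 - 2 * q := by linarith
  refine ⟨pow_nonneg h2 _, ?_⟩
  have h3 : 1 - 2 * q ≤ Real.exp (-(2 * q)) := by
    have := Real.add_one_le_exp (-(2 * q))
    linarith
  refine (pow_le_pow_left₀ h2 h3 _).trans (le_of_eq ?_)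
  rw [← Real.exp_nat_mul]
  congr 1
  ring

lemma exp_neg_two_lt : Real.exp (-2) < 0.136 := by
  have h := Real.exp_neg_one_lt_d9
  have h1 : Real.exp (-2) = Real.exp (-1) * Real.exp (-1) := by
    rw [← Real.exp_add]; norm_num
  have h0 := Real.exp_pos (-1)
  rw [h1]
  nlinarith

lemma pr_bound {q : ℝ} (h0 : 0 ≤ q) (h1 : q ≤ 1 / 2) (hl : 1 ≤ q * Fintype.card U) (b : Bool) :
    0.43 ≤ pr U q b := by
  have e1 := pr_add (U := U) q
  have e2 := pr_sub (U := U) q
  obtain ⟨k0, k1⟩ := ee_bound (U := U) h0 h1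
  have k2 : Real.exp (-(2 * (q * Fintype.card U))) ≤ Real.exp (-2) :=
    Real.exp_le_exp.2 (by linarith)
  have k3 := exp_neg_two_lt
  cases b <;> norm_num at k3 ⊢ <;> linarith

lemma mu_le {q : ℝ} (h0 : 0 ≤ q) (h1 : q ≤ 1 / 2) (B : Finset U) :
    TSP.mu q B ≤ Real.exp (-(q * Fintype.card U)) := by
  have h2 : 0 ≤ 1 - q := by linarith
  have h3 : TSP.mu q B ≤ ∏ v : U, (1 - q) := by
    rw [mu_eq]
    refine Finset.prod_le_prod (fun v _ => ?_) (fun v _ => ?_)
    · split_ifs <;> linarith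
    · split_ifs <;> linarith
  refine h3.trans ?_
  rw [Finset.prod_const, Finset.card_univ]
  have h4 : 1 - q ≤ Real.exp (-q) := by
    have := Real.add_one_le_exp (-q)
    linarith
  refine (pow_le_pow_left₀ h2 h4 _).trans (le_of_eq ?_)
  rw [← Real.exp_nat_mul]
  congr 1
  ring

lemma m1 {q : ℝ} (h0 : 0 ≤ q) (h1 : q ≤ 1) :
    TSP.Ex q (fun B : Finset U => (B.card : ℝ)) = q * Fintype.card U := by
  have h := (TSP.Abs.mom U q h0 h1 univ).1
  simpa using h

lemma m2 {q : ℝ} (h0 : 0 ≤ q) (h1 : q ≤ 1) :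
    TSP.Ex q (fun B : Finset U => (B.card : ℝ) ^ 2) ≤ (q * Fintype.card U + 1) ^ 2 := by
  have h := (TSP.Abs.mom U q h0 h1 univ).2.1
  simpa using h

/-! ### pairs -/

/-- expectation over independent pairs of Bernoulli sets -/
noncomputable def G (q : ℝ) (f : Finset U → Finset U → ℝ) : ℝ :=
  TSP.Ex q (fun B => TSP.Ex q (fun B' => f B B'))

lemma G_mono {q : ℝ} (h0 : 0 ≤ q) (h1 : q ≤ 1) {f g : Finset U → Finset U → ℝ}
    (h : ∀ B B', f B B' ≤ g B B') : G q f ≤ G q g :=
  TSP.Ex_mono h0 h1 fun B => TSP.Ex_mono h0 h1 fun B' => h B B'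

lemma G_nonneg {q : ℝ} (h0 : 0 ≤ q) (h1 : q ≤ 1) {f : Finset U → Finset U → ℝ}
    (h : ∀ B B', 0 ≤ f B B') : 0 ≤ G q f :=
  TSP.Ex_nonneg h0 h1 fun B => TSP.Ex_nonneg h0 h1 fun B' => h B B'

lemma G_add (q : ℝ) (f g : Finset U → Finset U → ℝ) :
    G q (fun B B' => f B B' + g B B') = G q f + G q g := by
  unfold G
  simp only [TSP.Ex_add]

lemma G_sub (q : ℝ) (f g : Finset U → Finset U → ℝ) :
    G q (fun B B' => f B B' - g B B') = G q f - G q g := by
  unfold G
  simp only [TSP.Ex_sub]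

lemma G_mul (q c : ℝ) (f : Finset U → Finset U → ℝ) :
    G q (fun B B' => c * f B B') = c * G q f := by
  unfold G
  simp only [TSP.Ex_mul_left]

lemma G_const (q c : ℝ) : G q (fun _ _ : Finset U => c) = c := by
  unfold G
  simp only [TSP.Ex_const]

lemma G_sum (q : ℝ) (f : Finset U → Finset U → ℝ) :
    G q f = ∑ p : Finset U × Finset U, TSP.mu q p.1 * TSP.mu q p.2 * f p.1 p.2 := by
  unfold G TSP.Ex
  rw [Fintype.sum_prod_type]
  refine sum_congr rfl fun B _ => ?_
  rw [smul_eq_mul, mul_sum]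
  refine sum_congr rfl fun B' _ => ?_
  rw [smul_eq_mul]
  ring

lemma G_abs {q : ℝ} (h0 : 0 ≤ q) (h1 : q ≤ 1) (f : Finset U → Finset U → ℝ) :
    |G q f| ≤ G q (fun B B' => |f B B'|) := by
  rw [G_sum, G_sum]
  refine (Finset.abs_sum_le_sum_abs _ _).trans (le_of_eq ?_)
  refine sum_congr rfl fun p _ => ?_
  rw [abs_mul, abs_of_nonneg (mul_nonneg (TSP.mu_nonneg h0 h1 _) (TSP.mu_nonneg h0 h1 _))]

lemma G_m1 {q : ℝ} (h0 : 0 ≤ q) (h1 : q ≤ 1) :
    G q (fun B B' : Finset U => (B.card : ℝ) + B'.card + 2) = 2 * (q * Fintype.card U) + 2 := by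
  unfold G
  simp only [TSP.Ex_add, TSP.Ex_const, m1 h0 h1]
  ring

lemma G_m2 {q : ℝ} (h0 : 0 ≤ q) (h1 : q ≤ 1) :
    G q (fun B B' : Finset U => ((B.card : ℝ) + B'.card + 2) ^ 2) ≤
      4 * (q * Fintype.card U + 2) ^ 2 := by
  have e : (fun B B' : Finset U => ((B.card : ℝ) + B'.card + 2) ^ 2) = fun B B' : Finset U =>
      ((B.card : ℝ) ^ 2 + 4 * B.card + 4) + ((B'.card : ℝ) ^ 2 + (2 * B.card + 4) * B'.card) := by
    funext B B'
    ring
  have k1 := m1 (U := U) h0 h1
  have k2 := m2 (U := U) h0 h1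
  have k3 : G q (fun B B' : Finset U => ((B.card : ℝ) + B'.card + 2) ^ 2) =
      2 * TSP.Ex q (fun B : Finset U => (B.card : ℝ) ^ 2) + 8 * (q * Fintype.card U) + 4 +
        2 * (q * Fintype.card U) ^ 2 := by
    rw [e]
    unfold G
    simp only [TSP.Ex_add, TSP.Ex_const, TSP.Ex_mul_left, k1]
    have e2 : (fun B : Finset U => (2 * (B.card : ℝ) + 4) * (q * Fintype.card U)) =
        fun B : Finset U => (2 * (q * Fintype.card U)) * (B.card : ℝ) +
          4 * (q * Fintype.card U) := by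
      funext B; ring
    rw [e2, TSP.Ex_add, TSP.Ex_mul_left, k1, TSP.Ex_const]
    ring
  rw [k3]
  nlinarith

/-! ### the involution -/

/-- an element of a nonempty set, as a set -/
noncomputable def ch (S : Finset U) : Finset U := if h : S.Nonempty then {h.choose} else ∅

lemma ch_subset (S : Finset U) : ch S ⊆ S := by
  unfold ch
  split_ifs with h
  · exact singleton_subset_iff.2 h.choose_spec
  · exact empty_subset _

lemma exists_ch {S : Finset U} (h : S.Nonempty) : ∃ u ∈ S, ch S = {u} := by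
  refine ⟨h.choose, h.choose_spec, ?_⟩
  unfold ch
  rw [dif_pos h]

/-- move an element from one set to the other -/
noncomputable def ph (p : Finset U × Finset U) : Finset U × Finset U :=
  (symmDiff p.1 (ch (symmDiff p.1 p.2)), symmDiff p.2 (ch (symmDiff p.1 p.2)))

lemma ph_symm (p : Finset U × Finset U) : symmDiff (ph p).1 (ph p).2 = symmDiff p.1 p.2 := by
  unfold ph
  simp only [symmDiff_symmDiff_symmDiff_comm, symmDiff_self, symmDiff_bot]

lemma ph_ph (p : Finset U × Finset U) : ph (ph p) = p := by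
  have h := ph_symm p
  obtain ⟨s, hs⟩ : ∃ s, s = ch (symmDiff p.1 p.2) := ⟨_, rfl⟩
  have h1 : ph (ph p) = (symmDiff (ph p).1 (ch (symmDiff (ph p).1 (ph p).2)),
    symmDiff (ph p).2 (ch (symmDiff (ph p).1 (ph p).2))) := rfl
  rw [h1, h]
  unfold ph
  simp only [symmDiff_symmDiff_cancel_right]

lemma mu_symm (q : ℝ) (B B' s : Finset U) (h : s ⊆ symmDiff B B') :
    TSP.mu q (symmDiff B s) * TSP.mu q (symmDiff B' s) = TSP.mu q B * TSP.mu q B' := by
  simp only [mu_eq]
  rw [← Finset.prod_mul_distrib, ← Finset.prod_mul_distrib]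
  refine Finset.prod_congr rfl fun v _ => ?_
  by_cases hv : v ∈ s
  · have h2 := h hv
    rw [mem_symmDiff] at h2
    simp only [mem_symmDiff, hv]
    rcases h2 with ⟨h2, h3⟩ | ⟨h2, h3⟩
    · simp [h2, h3, mul_comm]
    · simp [h2, h3, mul_comm]
  · simp only [mem_symmDiff, hv]
    simp

lemma mu_ph (q : ℝ) (p : Finset U × Finset U) :
    TSP.mu q (ph p).1 * TSP.mu q (ph p).2 = TSP.mu q p.1 * TSP.mu q p.2 :=
  mu_symm q p.1 p.2 _ (ch_subset _)

lemma G_ph (q : ℝ) (f : Finset U → Finset U → ℝ) :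
    G q f = G q (fun B B' => f (ph (B, B')).1 (ph (B, B')).2) := by
  rw [G_sum, G_sum]
  refine Finset.sum_nbij' ph ph ?_ ?_ ?_ ?_ ?_
  · intros; exact mem_univ _
  · intros; exact mem_univ _
  · intro p _; exact ph_ph p
  · intro p _; exact ph_ph p
  · intro p _
    show _ = TSP.mu q (ph p).1 * TSP.mu q (ph p).2 * f (ph (ph p)).1 (ph (ph p)).2
    rw [ph_ph, mu_ph]

lemma symmDiff_single_of_mem {B : Finset U} {u : U} (h : u ∈ B) : symmDiff B {u} = B.erase u := by
  ext v
  simp only [mem_symmDiff, mem_singleton, mem_erase]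
  constructor
  · rintro (⟨h1, h2⟩ | ⟨h1, h2⟩)
    · exact ⟨h2, h1⟩
    · exact absurd (h1 ▸ h) h2
  · rintro ⟨h1, h2⟩
    exact Or.inl ⟨h2, h1⟩

lemma symmDiff_single_of_notMem {B : Finset U} {u : U} (h : u ∉ B) :
    symmDiff B {u} = insert u B := by
  ext v
  simp only [mem_symmDiff, mem_singleton, mem_insert]
  constructor
  · rintro (⟨h1, h2⟩ | ⟨h1, h2⟩)
    · exact Or.inr h1
    · exact Or.inl h1
  · rintro (h1 | h1)
    · exact Or.inr ⟨h1, fun h2 => h (h1 ▸ h2)⟩
    · exact Or.inl ⟨h1, fun h2 => h (h2 ▸ h1)⟩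

lemma par_symm (B : Finset U) (u : U) : par (symmDiff B {u}) = !par B := by
  by_cases h : u ∈ B
  · rw [symmDiff_single_of_mem h]
    have h1 : (B.erase u).card + 1 = B.card := card_erase_add_one h
    unfold par
    rw [← h1]
    by_cases h2 : Odd (B.erase u).card
    · have : ¬ Odd ((B.erase u).card + 1) := by
        rw [Nat.not_odd_iff_even]
        exact h2.add_one
      simp [h2, this]
    · have : Odd ((B.erase u).card + 1) := (Nat.not_odd_iff_even.1 h2).add_one
      simp [h2, this]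
  · rw [symmDiff_single_of_notMem h]
    unfold par
    rw [card_insert_of_notMem h]
    by_cases h2 : Odd B.card
    · have : ¬ Odd (B.card + 1) := by
        rw [Nat.not_odd_iff_even]
        exact h2.add_one
      simp [h2, this]
    · have : Odd (B.card + 1) := (Nat.not_odd_iff_even.1 h2).add_one
      simp [h2, this]

end one

end Pool.Agent.N940.MM.Flip
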