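import Pool.Agent.N940.MM.FlipA

/-!
# Changing two parities: estimates for pairs of Bernoulli sets
-/

set_option autoImplicit false
set_option linter.unusedSectionVars false
set_option linter.unusedVariables false

namespace Pool.Agent.N940.MM.Flip

open Finset

section two

variable {U : Type} [Fintype U] [DecidableEq U]

/-- expectation over independent pairs of sets with given parities -/
noncomputable def E2 (q : ℝ) (a b : Bool) (h : Finset U → Finset U → ℝ) : ℝ :=
  ∑ B, ∑ B', wb q a B * wb q b B' * h B B'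

/-- indicator of given parities -/
def ind (a b : Bool) (B B' : Finset U) : ℝ := if par B = a ∧ par B' = b then 1 else 0

lemma ind_nonneg (a b : Bool) (B B' : Finset U) : 0 ≤ ind a b B B' := by
  unfold ind; split_ifs <;> norm_num

lemma ind_le (a b : Bool) (B B' : Finset U) : ind a b B B' ≤ 1 := by
  unfold ind; split_ifs <;> norm_num

lemma E2_eq (q : ℝ) (a b : Bool) (h : Finset U → Finset U → ℝ) :
    E2 q a b h = (pr U q a * pr U q b)⁻¹ * G q (fun B B' => ind a b B B' * h B B') := by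
  unfold E2
  rw [G_sum, mul_sum, Fintype.sum_prod_type]
  refine sum_congr rfl fun B _ => sum_congr rfl fun B' _ => ?_
  unfold wb ind
  by_cases h1 : par B = a
  · by_cases h2 : par B' = b
    · simp only [h1, h2, and_self, if_true, mul_inv]
      ring
    · simp [h2]
  · simp [h1]

lemma G_ind (q : ℝ) (a b : Bool) :
    G q (fun B B' : Finset U => ind a b B B') = pr U q a * pr U q b := by
  rw [G_sum, Fintype.sum_prod_type]
  unfold pr
  rw [sum_mul_sum]
  refine sum_congr rfl fun B _ => sum_congr rfl fun B' _ => ?_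
  unfold ind
  by_cases h1 : par B = a
  · by_cases h2 : par B' = b
    · simp [h1, h2]
    · simp [h2]
  · simp [h1]

/-- the total parity is the given one -/
def gd (a b : Bool) (B B' : Finset U) : Prop :=
  (par B = a ∧ par B' = b) ∨ (par B = !a ∧ par B' = !b)

lemma gd_not {a b : Bool} {B B' : Finset U} (h : gd a b B B') : gd (!a) (!b) B B' := by
  unfold gd at *
  simp only [Bool.not_not]
  exact h.symm

lemma gd_not' {a b : Bool} {B B' : Finset U} (h : gd (!a) (!b) B B') : gd a b B B' := by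
  unfold gd at *
  simp only [Bool.not_not] at h
  exact h.symm

variable {q : ℝ} (h0 : 0 ≤ q) (h1 : q ≤ 1 / 2) (hl : 1 ≤ q * Fintype.card U)

include h0 h1 hl

lemma Z_bound (a b : Bool) : 1 / 6 ≤ pr U q a * pr U q b := by
  have k1 := pr_bound h0 h1 hl a
  have k2 := pr_bound h0 h1 hl b
  nlinarith

lemma Z_inv (a b : Bool) : (pr U q a * pr U q b)⁻¹ ≤ 6 := by
  have := Z_bound h0 h1 hl a b
  rw [inv_le_comm₀ (by linarith) (by norm_num)]
  linarith

lemma Z_pos (a b : Bool) : 0 < pr U q a * pr U q b := by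
  have := Z_bound h0 h1 hl a b
  linarith

lemma E2_le {a b : Bool} {h g : Finset U → Finset U → ℝ}
    (hh : ∀ B B', par B = a → par B' = b → h B B' ≤ g B B') (hg : ∀ B B', 0 ≤ g B B') :
    E2 q a b h ≤ 6 * G q g := by
  rw [E2_eq]
  have k1 : G q (fun B B' => ind a b B B' * h B B') ≤ G q g := by
    refine G_mono h0 (by linarith) fun B B' => ?_
    unfold ind
    split_ifs with h3
    · rw [one_mul]; exact hh B B' h3.1 h3.2
    · rw [zero_mul]; exact hg B B'
  have k2 := Z_inv h0 h1 hl a b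
  have k3 := Z_pos h0 h1 hl a b
  have k4 : 0 ≤ G q g := G_nonneg h0 (by linarith) hg
  calc _ ≤ (pr U q a * pr U q b)⁻¹ * G q g :=
        mul_le_mul_of_nonneg_left k1 (inv_nonneg.2 k3.le)
    _ ≤ _ := mul_le_mul_of_nonneg_right k2 k4

lemma E2_mono {a b : Bool} {h g : Finset U → Finset U → ℝ}
    (hh : ∀ B B', par B = a → par B' = b → h B B' ≤ g B B') :
    E2 q a b h ≤ E2 q a b g := by
  rw [E2_eq, E2_eq]
  have k3 := Z_pos h0 h1 hl a b
  refine mul_le_mul_of_nonneg_left ?_ (inv_nonneg.2 k3.le)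
  refine G_mono h0 (by linarith) fun B B' => ?_
  unfold ind
  split_ifs with h3
  · rw [one_mul, one_mul]; exact hh B B' h3.1 h3.2
  · rw [zero_mul, zero_mul]

lemma E2_const (a b : Bool) (c : ℝ) : E2 q a b (fun _ _ : Finset U => c) = c := by
  rw [E2_eq]
  have e : (fun B B' : Finset U => ind a b B B' * c) = fun B B' => c * ind a b B B' := by
    funext B B'; ring
  have k3 := (Z_pos h0 h1 hl a b).ne'
  rw [e, G_mul, G_ind, mul_comm c, inv_mul_cancel_left₀ k3]

omit h0 h1 hl in
lemma E2_add (a b : Bool) (f g : Finset U → Finset U → ℝ) :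
    E2 q a b (fun B B' => f B B' + g B B') = E2 q a b f + E2 q a b g := by
  rw [E2_eq, E2_eq, E2_eq, ← mul_add, ← G_add]
  congr 2
  funext B B'
  ring

omit h0 h1 hl in
lemma E2_sub (a b : Bool) (f g : Finset U → Finset U → ℝ) :
    E2 q a b (fun B B' => f B B' - g B B') = E2 q a b f - E2 q a b g := by
  rw [E2_eq, E2_eq, E2_eq, ← mul_sub, ← G_sub]
  congr 2
  funext B B'
  ring

omit h0 h1 hl in
lemma E2_mul (a b : Bool) (c : ℝ) (f : Finset U → Finset U → ℝ) :
    E2 q a b (fun B B' => c * f B B') = c * E2 q a b f := by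
  rw [E2_eq, E2_eq]
  have e : (fun B B' : Finset U => ind a b B B' * (c * f B B')) =
      fun B B' => c * (ind a b B B' * f B B') := by
    funext B B'; ring
  rw [e, G_mul]
  ring

lemma E2_abs (a b : Bool) (f : Finset U → Finset U → ℝ) :
    |E2 q a b f| ≤ E2 q a b (fun B B' => |f B B'|) := by
  rw [abs_le]
  constructor
  · have := E2_mono h0 h1 hl (a := a) (b := b) (h := fun B B' => (-1) * |f B B'|) (g := f)
      (fun B B' _ _ => by linarith [neg_abs_le (f B B')])
    rw [E2_mul] at this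
    linarith
  · exact E2_mono h0 h1 hl fun B B' _ _ => le_abs_self _

lemma E2_nonneg (a b : Bool) {f : Finset U → Finset U → ℝ} (hf : ∀ B B', 0 ≤ f B B') :
    0 ≤ E2 q a b f := by
  rw [E2_eq]
  refine mul_nonneg (inv_nonneg.2 (Z_pos h0 h1 hl a b).le) (G_nonneg h0 (by linarith) ?_)
  intro B B'
  exact mul_nonneg (ind_nonneg _ _ _ _) (hf B B')

section bd

variable {a b : Bool} {h : Finset U → Finset U → ℝ} {c0 D : ℝ} (hD : 0 ≤ D)
  (bd : ∀ B B', gd a b B B' → |h B B' - c0| ≤ D * (B.card + B'.card + 2))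

include hD bd

lemma crude1 : |E2 q a b h - c0| ≤ 12 * D * (q * Fintype.card U + 1) := by
  have e : E2 q a b h - c0 = E2 q a b (fun B B' => h B B' - c0) := by
    rw [E2_sub, E2_const h0 h1 hl]
  rw [e]
  refine (E2_abs h0 h1 hl a b _).trans ?_
  have k1 : E2 q a b (fun B B' => |h B B' - c0|) ≤
      6 * G q (fun B B' : Finset U => D * ((B.card : ℝ) + B'.card + 2)) :=
    E2_le h0 h1 hl (fun B B' hB hB' => bd B B' (Or.inl ⟨hB, hB'⟩)) (fun B B' => by positivity)
  rw [G_mul, G_m1 h0 (by linarith)] at k1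
  refine k1.trans (le_of_eq ?_)
  ring

lemma var1 : E2 q a b (fun B B' => (h B B' - E2 q a b h) ^ 2) ≤
    24 * D ^ 2 * (q * Fintype.card U + 2) ^ 2 := by
  set m := E2 q a b h with hm
  have e1 : E2 q a b (fun B B' => (h B B' - c0) ^ 2) =
      E2 q a b (fun B B' => (h B B' - m) ^ 2) + (m - c0) ^ 2 := by
    have e : (fun B B' => (h B B' - c0) ^ 2) = fun B B' =>
        (h B B' - m) ^ 2 + (2 * (m - c0) * (h B B' - m) + (m - c0) ^ 2) := by
      funext B B'; ring
    rw [e, E2_add, E2_add, E2_mul, E2_sub, E2_const h0 h1 hl, E2_const h0 h1 hl, ← hm]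
    ring
  have k1 : E2 q a b (fun B B' => (h B B' - c0) ^ 2) ≤
      6 * G q (fun B B' : Finset U => D ^ 2 * ((B.card : ℝ) + B'.card + 2) ^ 2) := by
    refine E2_le h0 h1 hl (fun B B' hB hB' => ?_) (fun B B' => by positivity)
    have h2 := bd B B' (Or.inl ⟨hB, hB'⟩)
    rw [← mul_pow, ← sq_abs]
    exact pow_le_pow_left₀ (abs_nonneg _) h2 2
  rw [G_mul] at k1
  have k2 := G_m2 (U := U) h0 (by linarith : q ≤ 1)
  have k3 : D ^ 2 * G q (fun B B' : Finset U => ((B.card : ℝ) + B'.card + 2) ^ 2) ≤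
      D ^ 2 * (4 * (q * Fintype.card U + 2) ^ 2) := mul_le_mul_of_nonneg_left k2 (sq_nonneg D)
  have k4 := sq_nonneg (m - c0)
  linarith

end bd

/-- changing the two parities, crude bound -/
theorem pair_crude {a b : Bool} {h : Finset U → Finset U → ℝ} {c0 D : ℝ} (hD : 0 ≤ D)
    (bd : ∀ B B', gd a b B B' → |h B B' - c0| ≤ D * (B.card + B'.card + 2)) :
    |E2 q a b h - E2 q (!a) (!b) h| ≤ 100 * D * (q * Fintype.card U + 2) := by
  have k1 := crude1 h0 h1 hl hD bd
  have k2 := crude1 h0 h1 hl hD (a := !a) (b := !b) (fun B B' hg => bd B B' (gd_not' hg))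
  have k3 : |E2 q a b h - E2 q (!a) (!b) h| ≤
      |E2 q a b h - c0| + |E2 q (!a) (!b) h - c0| := by
    have : E2 q a b h - E2 q (!a) (!b) h = (E2 q a b h - c0) - (E2 q (!a) (!b) h - c0) := by ring
    rw [this]
    exact abs_sub _ _
  have k4 : 0 ≤ D * (q * Fintype.card U) := by positivity
  nlinarith

omit h0 h1 hl in
lemma ph_spec {B B' : Finset U} (hne : B ≠ B') : ∃ u : U,
    (u ∈ B ∧ u ∉ B' ∧ ph (B, B') = (B.erase u, insert u B')) ∨
    (u ∉ B ∧ u ∈ B' ∧ ph (B, B') = (insert u B, B'.erase u)) := by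
  have h2 : (symmDiff B B').Nonempty := by
    rw [Finset.nonempty_iff_ne_empty]
    intro h3
    exact hne (symmDiff_eq_bot.1 h3)
  obtain ⟨u, hu, hc⟩ := exists_ch h2
  refine ⟨u, ?_⟩
  have e : ph (B, B') = (symmDiff B {u}, symmDiff B' {u}) := by
    unfold ph
    simp only [hc]
  rw [mem_symmDiff] at hu
  rcases hu with ⟨h3, h4⟩ | ⟨h3, h4⟩
  · left
    exact ⟨h3, h4, by rw [e, symmDiff_single_of_mem h3, symmDiff_single_of_notMem h4]⟩
  · right
    exact ⟨h4, h3, by rw [e, symmDiff_single_of_mem h3, symmDiff_single_of_notMem h4]⟩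

omit h0 h1 hl in
lemma ph_diag (B : Finset U) : ph (B, B) = (B, B) := by
  unfold ph ch
  simp

omit h0 h1 hl in
lemma par_erase {B : Finset U} {u : U} (h : u ∈ B) : par (B.erase u) = !par B := by
  rw [← symmDiff_single_of_mem h, par_symm]

omit h0 h1 hl in
lemma par_insert {B : Finset U} {u : U} (h : u ∉ B) : par (insert u B) = !par B := by
  rw [← symmDiff_single_of_notMem h, par_symm]

omit h0 h1 hl in
lemma Z_sub (a b : Bool) : |pr U q a * pr U q b - pr U q (!a) * pr U q (!b)| ≤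
    |(1 - 2 * q) ^ Fintype.card U| := by
  have e1 := pr_add (U := U) q
  have e2 := pr_sub (U := U) q
  have e3 : pr U q true = (1 - (1 - 2 * q) ^ Fintype.card U) / 2 := by linarith
  have e4 : pr U q false = (1 + (1 - 2 * q) ^ Fintype.card U) / 2 := by linarith
  obtain ⟨e, he⟩ : ∃ e, e = (1 - 2 * q) ^ Fintype.card U := ⟨_, rfl⟩
  rw [← he] at e3 e4 ⊢
  cases a <;> cases b <;> simp only [Bool.not_true, Bool.not_false, e3, e4]
  · have : (1 + e) / 2 * ((1 + e) / 2) - (1 - e) / 2 * ((1 - e) / 2) = e := by ring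
    rw [this]
  · have : (1 + e) / 2 * ((1 - e) / 2) - (1 - e) / 2 * ((1 + e) / 2) = 0 := by ring
    rw [this, abs_zero]
    exact abs_nonneg _
  · have : (1 - e) / 2 * ((1 + e) / 2) - (1 + e) / 2 * ((1 - e) / 2) = 0 := by ring
    rw [this, abs_zero]
    exact abs_nonneg _
  · have : (1 - e) / 2 * ((1 - e) / 2) - (1 + e) / 2 * ((1 + e) / 2) = -e := by ring
    rw [this, abs_neg]

/-- indicator of unequal sets -/
noncomputable def nq (B B' : Finset U) : ℝ := if B = B' then 0 else 1

lemma diag_bound {a b : Bool} {f : Finset U → Finset U → ℝ} {D : ℝ} (hD : 0 ≤ D)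
    (bd : ∀ B B', gd a b B B' → |f B B'| ≤ D * (B.card + B'.card + 2)) :
    |G q (fun B B' => ind a b B B' * ((1 - nq B B') * f B B'))| ≤
      2 * D * (q * Fintype.card U + 1) * Real.exp (-(q * Fintype.card U)) := by
  have h1' : q ≤ 1 := by linarith
  refine (G_abs h0 h1' _).trans ?_
  have k1 : G q (fun B B' => |ind a b B B' * ((1 - nq B B') * f B B')|) ≤
      G q (fun B B' : Finset U => if B' = B then D * (2 * B.card + 2) else 0) := by
    refine G_mono h0 h1' fun B B' => ?_
    by_cases hB : B' = B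
    · subst hB
      rw [if_pos rfl]
      unfold nq
      rw [if_pos rfl, sub_zero, one_mul, abs_mul, abs_of_nonneg (ind_nonneg _ _ _ _)]
      unfold ind
      split_ifs with h3
      · have := bd B' B' (Or.inl h3)
        rw [one_mul]
        refine this.trans (le_of_eq ?_)
        ring
      · rw [zero_mul]; positivity
    · rw [if_neg hB]
      unfold nq
      rw [if_neg (Ne.symm hB)]
      simp
  refine k1.trans ?_
  unfold G
  have e1 : (fun B : Finset U => TSP.Ex q (fun B' : Finset U =>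
      if B' = B then D * (2 * (B.card : ℝ) + 2) else 0)) =
      fun B => TSP.mu q B * (D * (2 * (B.card : ℝ) + 2)) := by
    funext B
    unfold TSP.Ex
    simp
  rw [e1]
  have k2 : TSP.Ex q (fun B : Finset U => TSP.mu q B * (D * (2 * (B.card : ℝ) + 2))) ≤
      TSP.Ex q (fun B : Finset U => Real.exp (-(q * Fintype.card U)) *
        (D * (2 * (B.card : ℝ) + 2))) :=
    TSP.Ex_mono h0 h1' fun B => mul_le_mul_of_nonneg_right (mu_le h0 h1 B) (by positivity)
  refine k2.trans (le_of_eq ?_)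
  rw [TSP.Ex_mul_left, TSP.Ex_mul_left, TSP.Ex_add, TSP.Ex_mul_left, m1 h0 h1', TSP.Ex_const]
  ring

/-- changing the two parities, swap bound -/
theorem pair_swap {a b : Bool} {h : Finset U → Finset U → ℝ} {c0 D θ : ℝ} (hD : 0 ≤ D)
    (hθ : 0 ≤ θ)
    (bd : ∀ B B', gd a b B B' → |h B B' - c0| ≤ D * (B.card + B'.card + 2))
    (sw : ∀ (B B' : Finset U) (u : U), gd a b B B' → u ∈ B → u ∉ B' →
      |h B B' - h (B.erase u) (insert u B')| ≤ θ) :
    |E2 q a b h - E2 q (!a) (!b) h| ≤
      θ + 100 * D * (q * Fintype.card U + 2) * Real.exp (-(q * Fintype.card U) / 2) := by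
  have h1' : q ≤ 1 := by linarith
  set f : Finset U → Finset U → ℝ := fun B B' => h B B' - c0 with hf
  set Z := pr U q a * pr U q b with hZ
  set Z' := pr U q (!a) * pr U q (!b) with hZ'
  have kZ := Z_pos h0 h1 hl a b
  have kZ' := Z_pos h0 h1 hl (!a) (!b)
  have iZ := Z_inv h0 h1 hl a b
  have iZ' := Z_inv h0 h1 hl (!a) (!b)
  rw [← hZ] at kZ iZ
  rw [← hZ'] at kZ' iZ'
  have nZ : 0 < Z⁻¹ := inv_pos.2 kZ
  have nZ' : 0 < Z'⁻¹ := inv_pos.2 kZ'
  set α1 := G q (fun B B' => ind a b B B' * (nq B B' * f B B')) with hα1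
  set α2 := G q (fun B B' => ind (!a) (!b) B B' * (nq B B' * f B B')) with hα2
  set β1 := G q (fun B B' => ind a b B B' * ((1 - nq B B') * f B B')) with hβ1
  set β2 := G q (fun B B' => ind (!a) (!b) B B' * ((1 - nq B B') * f B B')) with hβ2
  have eE : ∀ a' b' : Bool, E2 q a' b' h = c0 + (pr U q a' * pr U q b')⁻¹ *
      (G q (fun B B' => ind a' b' B B' * (nq B B' * f B B')) +
        G q (fun B B' => ind a' b' B B' * ((1 - nq B B') * f B B'))) := by
    intro a' b'
    have e1 : E2 q a' b' h = E2 q a' b' (fun B B' => c0 + f B B') := by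
      congr 1
      funext B B'
      rw [hf]
      ring
    rw [e1, E2_add, E2_const h0 h1 hl, E2_eq, ← G_add]
    congr 3
    funext B B'
    ring
  have eE1 : E2 q a b h = c0 + Z⁻¹ * (α1 + β1) := eE a b
  have eE2 : E2 q (!a) (!b) h = c0 + Z'⁻¹ * (α2 + β2) := eE (!a) (!b)
  have bβ1 : |β1| ≤ 2 * D * (q * Fintype.card U + 1) * Real.exp (-(q * Fintype.card U)) :=
    diag_bound h0 h1 hl hD bd
  have bβ2 : |β2| ≤ 2 * D * (q * Fintype.card U + 1) * Real.exp (-(q * Fintype.card U)) :=
    diag_bound h0 h1 hl hD (fun B B' hg => bd B B' (gd_not' hg))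
  -- the transported expectation
  have e2 : α2 = G q (fun B B' => ind a b B B' *
      (nq B B' * f (ph (B, B')).1 (ph (B, B')).2)) := by
    rw [hα2, G_ph]
    congr 1
    funext B B'
    by_cases hB : B = B'
    · subst hB
      rw [ph_diag]
      unfold nq
      simp
    · obtain ⟨u, hu⟩ := ph_spec hB
      have n1 : nq B B' = 1 := by unfold nq; rw [if_neg hB]
      have n2 : nq (ph (B, B')).1 (ph (B, B')).2 = 1 := by
        unfold nq
        rw [if_neg]
        intro h3
        have h4 := ph_symm (B, B')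
        rw [h3, symmDiff_self] at h4
        exact hB (symmDiff_eq_bot.1 h4.symm)
      have n3 : ind (!a) (!b) (ph (B, B')).1 (ph (B, B')).2 = ind a b B B' := by
        unfold ind
        rcases hu with ⟨h3, h4, h5⟩ | ⟨h3, h4, h5⟩
        · rw [h5]
          simp only [par_erase h3, par_insert h4, Bool.not_inj_iff]
        · rw [h5]
          simp only [par_erase h4, par_insert h3, Bool.not_inj_iff]
      rw [n1, n2, n3]
  have bα : |α1 - α2| ≤ θ * Z := by
    rw [e2, hα1, ← G_sub]
    refine (G_abs h0 h1' _).trans ?_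
    have k1 : G q (fun B B' : Finset U => θ * ind a b B B') = θ * Z := by
      rw [G_mul, G_ind]
    rw [← k1]
    refine G_mono h0 h1' fun B B' => ?_
    by_cases hi : par B = a ∧ par B' = b
    · have n0 : ind a b B B' = 1 := by unfold ind; rw [if_pos hi]
      rw [n0]
      by_cases hB : B = B'
      · subst hB
        unfold nq
        simpa using hθ
      · have n1 : nq B B' = 1 := by unfold nq; rw [if_neg hB]
        rw [n1]
        simp only [one_mul, mul_one, hf]
        obtain ⟨u, hu⟩ := ph_spec hB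
        rcases hu with ⟨h3, h4, h5⟩ | ⟨h3, h4, h5⟩
        · rw [h5]
          have := sw B B' u (Or.inl hi) h3 h4
          have e : h B B' - c0 - (h (B.erase u) (insert u B') - c0) =
              h B B' - h (B.erase u) (insert u B') := by ring
          rw [e]
          exact this
        · rw [h5]
          have := sw (insert u B) (B'.erase u) u (Or.inr ⟨by rw [par_insert h3, hi.1],
            by rw [par_erase h4, hi.2]⟩) (mem_insert_self _ _) (notMem_erase _ _)
          rw [erase_insert h3, insert_erase h4] at this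
          have e : h B B' - c0 - (h (insert u B) (B'.erase u) - c0) =
              -(h (insert u B) (B'.erase u) - h B B') := by ring
          rw [e, abs_neg]
          exact this
    · have n0 : ind a b B B' = 0 := by unfold ind; rw [if_neg hi]
      rw [n0]
      simp
  have bα2 : |α2| ≤ D * (2 * (q * Fintype.card U) + 2) := by
    rw [hα2]
    refine (G_abs h0 h1' _).trans ?_
    rw [← G_m1 h0 h1', ← G_mul]
    refine G_mono h0 h1' fun B B' => ?_
    by_cases hi : par B = (!a) ∧ par B' = (!b)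
    · have n0 : ind (!a) (!b) B B' = 1 := by unfold ind; rw [if_pos hi]
      rw [n0, one_mul, abs_mul]
      have k1 : |nq B B'| ≤ 1 := by
        unfold nq
        split_ifs <;> simp
      have k2 := bd B B' (Or.inr hi)
      calc _ ≤ 1 * |f B B'| := mul_le_mul_of_nonneg_right k1 (abs_nonneg _)
        _ = |f B B'| := one_mul _
        _ ≤ _ := k2
    · have n0 : ind (!a) (!b) B B' = 0 := by unfold ind; rw [if_neg hi]
      rw [n0, zero_mul, abs_zero]
      positivity
  set la := q * (Fintype.card U : ℝ) with hla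
  have x0 : 0 < Real.exp (-la / 2) := Real.exp_pos _
  have x1 : Real.exp (-la) ≤ Real.exp (-la / 2) := Real.exp_le_exp.2 (by linarith)
  have x2 : |Z - Z'| ≤ Real.exp (-la / 2) := by
    refine (Z_sub a b).trans ?_
    obtain ⟨y0, y1⟩ := ee_bound (U := U) h0 h1
    rw [abs_of_nonneg y0]
    exact y1.trans (Real.exp_le_exp.2 (by linarith))
  have x3 : |Z⁻¹ - Z'⁻¹| ≤ 36 * Real.exp (-la / 2) := by
    have e : Z⁻¹ - Z'⁻¹ = Z⁻¹ * Z'⁻¹ * (Z' - Z) := by
      field_simp
    rw [e, abs_mul, abs_of_pos (mul_pos nZ nZ'), abs_sub_comm]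
    have k1 : Z⁻¹ * Z'⁻¹ ≤ 36 := by nlinarith
    exact mul_le_mul k1 x2 (abs_nonneg _) (by norm_num)
  have e5 : E2 q a b h - E2 q (!a) (!b) h =
      Z⁻¹ * (α1 - α2) + (Z⁻¹ - Z'⁻¹) * α2 + Z⁻¹ * β1 - Z'⁻¹ * β2 := by
    rw [eE1, eE2]; ring
  rw [e5]
  have t1 : |Z⁻¹ * (α1 - α2)| ≤ θ := by
    rw [abs_mul, abs_of_pos nZ]
    calc Z⁻¹ * |α1 - α2| ≤ Z⁻¹ * (θ * Z) := mul_le_mul_of_nonneg_left bα nZ.le
      _ = θ := by field_simp
  have t2 : |(Z⁻¹ - Z'⁻¹) * α2| ≤ 36 * Real.exp (-la / 2) * (D * (2 * la + 2)) := by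
    rw [abs_mul]
    exact mul_le_mul x3 bα2 (abs_nonneg _) (by positivity)
  have hb : 0 ≤ 2 * D * (la + 1) := by
    have : 0 ≤ D * la := by nlinarith
    nlinarith
  have t3 : |Z⁻¹ * β1| ≤ 6 * (2 * D * (la + 1) * Real.exp (-la / 2)) := by
    rw [abs_mul, abs_of_pos nZ]
    exact mul_le_mul iZ (bβ1.trans (mul_le_mul_of_nonneg_left x1 hb)) (abs_nonneg _) (by norm_num)
  have t4 : |Z'⁻¹ * β2| ≤ 6 * (2 * D * (la + 1) * Real.exp (-la / 2)) := by
    rw [abs_mul, abs_of_pos nZ']
    exact mul_le_mul iZ' (bβ2.trans (mul_le_mul_of_nonneg_left x1 hb)) (abs_nonneg _) (by norm_num)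
  have t5 : |Z⁻¹ * (α1 - α2) + (Z⁻¹ - Z'⁻¹) * α2 + Z⁻¹ * β1 - Z'⁻¹ * β2| ≤
      |Z⁻¹ * (α1 - α2)| + |(Z⁻¹ - Z'⁻¹) * α2| + |Z⁻¹ * β1| + |Z'⁻¹ * β2| := by
    refine (abs_sub _ _).trans ?_
    refine add_le_add ?_ le_rfl
    refine (abs_add_le _ _).trans ?_
    refine add_le_add ?_ le_rfl
    exact abs_add_le _ _
  have t6 : 0 ≤ D * Real.exp (-la / 2) := mul_nonneg hD x0.le
  have t7 : 0 ≤ D * Real.exp (-la / 2) * la := mul_nonneg t6 (by linarith)
  refine t5.trans ?_
  nlinarith

end two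

end Pool.Agent.N940.MM.Flip
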