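import Pool.Agent.N940.MM.Stm
import Pool.Agent.N940.TSP.CutB

/-!
# Cutting a minimum matching at the boundary of a square (`S_MIX`, `S_LOW`)
-/

set_option autoImplicit false

open Filter Topology

namespace Pool.Agent.N940.MM.Geo1

open Finset
open Pool.Agent.N940.TSP.CutB (BP gb cc gb_dist crossing frontier_sub cc_of_nonpos cc_of_mem
  cc_of_ge)

section comb

variable {ι : Type} [DecidableEq ι]

/-- the cost of a point: fixed points are matched to the boundary, at the cost `d` -/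
noncomputable def ct (X : ι → ℂ) (d : ℂ → ℝ) (σ : ι → ι) (i : ι) : ℝ :=
  if σ i = i then d (X i) else dist (X i) (X (σ i)) / 2

/-- the costs of the matchings with boundary -/
def mbs (X : ι → ℂ) (d : ℂ → ℝ) (A : Finset ι) : Set ℝ :=
  {c : ℝ | ∃ σ : ι → ι, (∀ i ∈ A, σ i ∈ A ∧ σ (σ i) = i) ∧ c = ∑ i ∈ A, ct X d σ i}

/-- the minimal cost of a matching with boundary -/
noncomputable def mb (X : ι → ℂ) (d : ℂ → ℝ) (A : Finset ι) : ℝ := sInf (mbs X d A)

variable {X : ι → ℂ} {d : ℂ → ℝ}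

lemma ct_nonneg (hd : ∀ z, 0 ≤ d z) (σ : ι → ι) (i : ι) : 0 ≤ ct X d σ i := by
  unfold ct
  split_ifs
  · exact hd _
  · positivity

lemma mbs_nonempty (A : Finset ι) : (mbs X d A).Nonempty :=
  ⟨_, id, fun i hi => ⟨hi, rfl⟩, rfl⟩

lemma mbs_bdd (hd : ∀ z, 0 ≤ d z) (A : Finset ι) : BddBelow (mbs X d A) := by
  refine ⟨0, ?_⟩
  rintro _ ⟨σ, -, rfl⟩
  exact Finset.sum_nonneg fun i _ => ct_nonneg hd σ i

lemma mb_le (hd : ∀ z, 0 ≤ d z) {A : Finset ι} {σ : ι → ι}
    (h : ∀ i ∈ A, σ i ∈ A ∧ σ (σ i) = i) : mb X d A ≤ ∑ i ∈ A, ct X d σ i :=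
  csInf_le (mbs_bdd hd A) ⟨σ, h, rfl⟩

lemma mt_le {A : Finset ι} {σ : ι → ι} (h : ∀ i ∈ A, σ i ∈ A ∧ σ i ≠ i ∧ σ (σ i) = i) :
    mt X A ≤ (∑ i ∈ A, dist (X i) (X (σ i))) / 2 := by
  apply csInf_le
  · refine ⟨0, ?_⟩
    rintro _ ⟨σ, -, rfl⟩
    positivity
  · exact ⟨σ, h, rfl⟩

/-- a set with a fixed point free involution has an even number of elements -/
lemma even_of_invol {A : Finset ι} {σ : ι → ι}
    (h : ∀ i ∈ A, σ i ∈ A ∧ σ i ≠ i ∧ σ (σ i) = i) : Even A.card := by
  have h1 : ∑ i ∈ A, (1 : ZMod 2) = 0 := by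
    refine Finset.sum_involution (fun i _ => σ i) ?_ ?_ ?_ ?_
    · intro i _
      decide
    · intro i hi _
      exact (h i hi).2.1
    · intro i hi
      exact (h i hi).1
    · intro i hi
      exact (h i hi).2.2
  rw [Finset.sum_const, nsmul_eq_mul, mul_one] at h1
  exact (ZMod.natCast_eq_zero_iff_even).1 h1

/-- matching the points of a set in the order of their parameters -/
lemma pairing {r : ℝ} {t : ι → ℝ} (hr : 0 ≤ r) : ∀ (n : ℕ) (F : Finset ι) (s : ℝ),
    F.card = 2 * n → s ≤ 4 → (∀ i ∈ F, s ≤ t i ∧ t i ≤ 4) →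
    (∀ i ∈ F, ∀ j ∈ F, dist (X i) (X j) ≤ d (X i) + d (X j) + r * |t i - t j|) →
    ∃ τ : ι → ι, (∀ i ∈ F, τ i ∈ F ∧ τ i ≠ i ∧ τ (τ i) = i) ∧
      (∑ i ∈ F, dist (X i) (X (τ i))) / 2 ≤ ∑ i ∈ F, d (X i) + r * (4 - s) := by
  intro n
  induction n with
  | zero =>
    intro F s hF hs _ _
    have hF0 : F = ∅ := by
      rw [← Finset.card_eq_zero]; omega
    subst hF0
    refine ⟨id, by simp, ?_⟩
    simp only [Finset.sum_empty, zero_div, zero_add]
    exact mul_nonneg hr (by linarith)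
  | succ n ih =>
    intro F s hF hs ht hd
    have hne : F.Nonempty := by
      rw [← Finset.card_pos]; omega
    obtain ⟨i, hi, hmin⟩ := Finset.exists_min_image F t hne
    have hc1 : (F.erase i).card = 2 * n + 1 := by
      rw [Finset.card_erase_of_mem hi]; omega
    have hne1 : (F.erase i).Nonempty := by
      rw [← Finset.card_pos]; omega
    obtain ⟨j, hj, hminj⟩ := Finset.exists_min_image (F.erase i) t hne1
    have hji : j ≠ i := Finset.ne_of_mem_erase hj
    have hjF : j ∈ F := Finset.mem_of_mem_erase hj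
    set G : Finset ι := (F.erase i).erase j with hG
    have hcG : G.card = 2 * n := by
      rw [hG, Finset.card_erase_of_mem hj]; omega
    have hGF : ∀ k ∈ G, k ∈ F ∧ k ≠ i ∧ k ≠ j := by
      intro k hk
      rw [hG, Finset.mem_erase, Finset.mem_erase] at hk
      exact ⟨hk.2.2, hk.2.1, hk.1⟩
    obtain ⟨τ, hτ, hsum⟩ := ih G (t j) hcG (ht j hjF).2
      (fun k hk => ⟨hminj k (Finset.mem_of_mem_erase hk), (ht k (hGF k hk).1).2⟩)
      (fun k hk l hl => hd k (hGF k hk).1 l (hGF l hl).1)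
    set τ' : ι → ι := fun k => if k = i then j else if k = j then i else τ k with hτ'
    have e1 : τ' i = j := by simp [hτ']
    have e2 : τ' j = i := by simp [hτ', hji]
    have e3 : ∀ k ∈ G, τ' k = τ k := by
      intro k hk
      obtain ⟨-, h1, h2⟩ := hGF k hk
      simp [hτ', h1, h2]
    have hiG : i ∉ insert j G := by
      rw [Finset.mem_insert, not_or]
      exact ⟨hji.symm, fun h => (hGF i h).2.1 rfl⟩
    have hjG : j ∉ G := fun h => (hGF j h).2.2 rfl
    have hFG : F = insert i (insert j G) := by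
      rw [hG, Finset.insert_erase hj, Finset.insert_erase hi]
    refine ⟨τ', ?_, ?_⟩
    · intro k hk
      rw [hFG, Finset.mem_insert, Finset.mem_insert] at hk
      rcases hk with rfl | rfl | hk
      · rw [e1, e2]
        exact ⟨hjF, hji, rfl⟩
      · rw [e2, e1]
        exact ⟨hi, hji.symm, rfl⟩
      · rw [e3 k hk, e3 _ (hτ k hk).1]
        exact ⟨(hGF _ (hτ k hk).1).1, (hτ k hk).2.1, (hτ k hk).2.2⟩
    · have hs1 : ∑ k ∈ F, dist (X k) (X (τ' k)) =
          dist (X i) (X j) + (dist (X j) (X i) + ∑ k ∈ G, dist (X k) (X (τ k))) := by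
        conv_lhs => rw [hFG]
        rw [Finset.sum_insert hiG, Finset.sum_insert hjG, e1, e2]
        congr 2
        exact Finset.sum_congr rfl fun k hk => by rw [e3 k hk]
      have hs2 : ∑ k ∈ F, d (X k) = d (X i) + (d (X j) + ∑ k ∈ G, d (X k)) := by
        conv_lhs => rw [hFG]
        rw [Finset.sum_insert hiG, Finset.sum_insert hjG]
      have h1 := hd i hi j hjF
      have h2 : |t i - t j| = t j - t i := by
        rw [abs_sub_comm, abs_of_nonneg]
        linarith [hmin j hjF]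
      rw [h2] at h1
      have h3 : r * (t j - t i) ≤ r * (t j - s) :=
        mul_le_mul_of_nonneg_left (by linarith [(ht i hi).1]) hr
      rw [hs1, hs2, dist_comm (X j) (X i)]
      nlinarith

/-- upper bound for the matching functional -/
lemma mt_le_mb {r : ℝ} {t : ι → ℝ} (hr : 0 ≤ r) (B : Finset ι) (hB : Even B.card)
    (ht : ∀ i ∈ B, 0 ≤ t i ∧ t i ≤ 4)
    (hd2 : ∀ i ∈ B, ∀ j ∈ B, dist (X i) (X j) ≤ d (X i) + d (X j) + r * |t i - t j|) :
    (∃ σ : ι → ι, ∀ i ∈ B, σ i ∈ B ∧ σ i ≠ i ∧ σ (σ i) = i) ∧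
      mt X B ≤ mb X d B + 4 * r := by
  have key : ∀ σ : ι → ι, (∀ i ∈ B, σ i ∈ B ∧ σ (σ i) = i) →
      ∃ σ' : ι → ι, (∀ i ∈ B, σ' i ∈ B ∧ σ' i ≠ i ∧ σ' (σ' i) = i) ∧
        (∑ i ∈ B, dist (X i) (X (σ' i))) / 2 ≤ ∑ i ∈ B, ct X d σ i + 4 * r := by
    intro σ hσ
    set F : Finset ι := B.filter fun i => σ i = i with hF
    set G : Finset ι := B.filter fun i => ¬ σ i = i with hG
    have hGinv : ∀ i ∈ G, σ i ∈ G ∧ σ i ≠ i ∧ σ (σ i) = i := by
      intro i hi
      rw [hG, Finset.mem_filter] at hi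
      obtain ⟨hiB, hne⟩ := hi
      refine ⟨?_, hne, (hσ i hiB).2⟩
      rw [hG, Finset.mem_filter]
      refine ⟨(hσ i hiB).1, ?_⟩
      rw [(hσ i hiB).2]
      exact fun h => hne h.symm
    have hGe : Even G.card := even_of_invol hGinv
    have hcard : F.card + G.card = B.card := Finset.card_filter_add_card_filter_not _
    have hFe : Even F.card := by
      have h1 : Even (F.card + G.card) := by rw [hcard]; exact hB
      exact (Nat.even_add.1 h1).2 hGe
    obtain ⟨n, hn⟩ := hFe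
    have hFB : ∀ i ∈ F, i ∈ B ∧ σ i = i := fun i hi => by
      rw [hF, Finset.mem_filter] at hi
      exact hi
    obtain ⟨τ, hτ, hsum⟩ := pairing (X := X) (d := d) (t := t) hr n F 0 (by omega) (by norm_num)
      (fun i hi => ht i (hFB i hi).1) (fun i hi j hj => hd2 i (hFB i hi).1 j (hFB j hj).1)
    have hsplit : ∀ f : ι → ℝ, ∑ i ∈ B, f i = ∑ i ∈ F, f i + ∑ i ∈ G, f i := fun f =>
      (Finset.sum_filter_add_sum_filter_not B _ f).symm
    set σ' : ι → ι := fun i => if σ i = i then τ i else σ i with hσ'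
    have e1 : ∀ i, σ i = i → σ' i = τ i := fun i hi => by simp [hσ', hi]
    have e2 : ∀ i, ¬ σ i = i → σ' i = σ i := fun i hi => by simp [hσ', hi]
    refine ⟨σ', ?_, ?_⟩
    · intro i hi
      by_cases h : σ i = i
      · have hiF : i ∈ F := by rw [hF, Finset.mem_filter]; exact ⟨hi, h⟩
        obtain ⟨h1, h2, h3⟩ := hτ i hiF
        rw [e1 i h, e1 _ (hFB _ h1).2]
        exact ⟨(hFB _ h1).1, h2, h3⟩
      · have hiG : i ∈ G := by rw [hG, Finset.mem_filter]; exact ⟨hi, h⟩
        obtain ⟨h1, h2, h3⟩ := hGinv i hiG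
        have h4 : ¬ σ (σ i) = σ i := by rw [h3]; exact fun h' => h h'.symm
        rw [e2 i h, e2 _ h4]
        exact ⟨(hσ i hi).1, h2, h3⟩
    · rw [hsplit, hsplit, add_div]
      have h1 : ∑ i ∈ F, dist (X i) (X (σ' i)) = ∑ i ∈ F, dist (X i) (X (τ i)) :=
        Finset.sum_congr rfl fun i hi => by rw [e1 i (hFB i hi).2]
      have h2 : ∑ i ∈ F, ct X d σ i = ∑ i ∈ F, d (X i) :=
        Finset.sum_congr rfl fun i hi => by rw [ct, if_pos (hFB i hi).2]
      have h3 : (∑ i ∈ G, dist (X i) (X (σ' i))) / 2 = ∑ i ∈ G, ct X d σ i := by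
        rw [Finset.sum_div]
        refine Finset.sum_congr rfl fun i hi => ?_
        have hi' := (hGinv i hi).2.1
        rw [ct, if_neg hi', e2 i hi']
      rw [h1, h2, h3]
      linarith
  refine ⟨?_, ?_⟩
  · obtain ⟨σ', h, -⟩ := key id fun i hi => ⟨hi, rfl⟩
    exact ⟨σ', h⟩
  · have h1 : mt X B - 4 * r ≤ mb X d B := by
      refine le_csInf (mbs_nonempty B) ?_
      rintro _ ⟨σ, hσ, rfl⟩
      obtain ⟨σ', h2, h3⟩ := key σ hσ
      have h4 := mt_le (X := X) h2
      linarith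
    linarith

/-- subadditivity -/
lemma mb_union_le (hd : ∀ z, 0 ≤ d z) {A H : Finset ι} (hAH : Disjoint A H) :
    mb X d (A ∪ H) ≤ mb X d A + mb X d H := by
  have key : ∀ c ∈ mbs X d A, ∀ c' ∈ mbs X d H, mb X d (A ∪ H) ≤ c + c' := by
    rintro _ ⟨σ, hσ, rfl⟩ _ ⟨ρ, hρ, rfl⟩
    set τ : ι → ι := fun i => if i ∈ A then σ i else ρ i with hτ
    have hHA : ∀ i ∈ H, i ∉ A := fun i hi hA => Finset.disjoint_left.1 hAH hA hi
    have e1 : ∀ i ∈ A, τ i = σ i := fun i hi => by simp [hτ, hi]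
    have e2 : ∀ i ∈ H, τ i = ρ i := fun i hi => by simp [hτ, hHA i hi]
    have h1 : ∀ i ∈ A ∪ H, τ i ∈ A ∪ H ∧ τ (τ i) = i := by
      intro i hi
      rw [Finset.mem_union] at hi
      rcases hi with hi | hi
      · rw [e1 i hi, e1 _ (hσ i hi).1]
        exact ⟨Finset.mem_union_left _ (hσ i hi).1, (hσ i hi).2⟩
      · rw [e2 i hi, e2 _ (hρ i hi).1]
        exact ⟨Finset.mem_union_right _ (hρ i hi).1, (hρ i hi).2⟩
    refine (mb_le hd h1).trans (le_of_eq ?_)
    rw [Finset.sum_union hAH]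
    congr 1
    · exact Finset.sum_congr rfl fun i hi => by rw [ct, ct, e1 i hi]
    · exact Finset.sum_congr rfl fun i hi => by rw [ct, ct, e2 i hi]
  have h1 : ∀ c ∈ mbs X d A, mb X d (A ∪ H) - c ≤ mb X d H := fun c hc =>
    le_csInf (mbs_nonempty H) fun c' hc' => by linarith [key c hc c' hc']
  have h2 : mb X d (A ∪ H) - mb X d H ≤ mb X d A :=
    le_csInf (mbs_nonempty A) fun c hc => by linarith [h1 c hc]
  linarith

/-- cutting a matching -/
lemma mb_add_le (hd : ∀ z, 0 ≤ d z) {A H : Finset ι} (hAH : Disjoint A H)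
    (hc : ∀ i ∈ A, ∀ j ∈ H, d (X i) + d (X j) ≤ dist (X i) (X j)) {σ : ι → ι}
    (hσ : ∀ i ∈ A ∪ H, σ i ∈ A ∪ H ∧ σ i ≠ i ∧ σ (σ i) = i) :
    mb X d A + mb X d H ≤ (∑ i ∈ A ∪ H, dist (X i) (X (σ i))) / 2 := by
  have hHA : ∀ i ∈ H, i ∉ A := fun i hi hA => Finset.disjoint_left.1 hAH hA hi
  have hHof : ∀ i ∈ A ∪ H, i ∉ A → i ∈ H := fun i hi hA => by
    rw [Finset.mem_union] at hi
    exact hi.resolve_left hA
  -- general bound for one part
  have part : ∀ S : Finset ι, (∀ i ∈ S, i ∈ A ∪ H) →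
      mb X d S ≤ ∑ i ∈ S, (if σ i ∈ S then dist (X i) (X (σ i)) / 2 else d (X i)) := by
    intro S hS
    set ρ : ι → ι := fun i => if σ i ∈ S then σ i else i with hρ
    have e1 : ∀ i, σ i ∈ S → ρ i = σ i := fun i hi => by simp [hρ, hi]
    have e2 : ∀ i, σ i ∉ S → ρ i = i := fun i hi => by simp [hρ, hi]
    have h1 : ∀ i ∈ S, ρ i ∈ S ∧ ρ (ρ i) = i := by
      intro i hi
      by_cases h : σ i ∈ S
      · have h2 := (hσ i (hS i hi)).2.2
        rw [e1 i h, e1 (σ i) (by rw [h2]; exact hi)]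
        exact ⟨h, h2⟩
      · rw [e2 i h, e2 i h]
        exact ⟨hi, rfl⟩
    refine (mb_le hd h1).trans (le_of_eq ?_)
    refine Finset.sum_congr rfl fun i hi => ?_
    by_cases h : σ i ∈ S
    · rw [if_pos h, ct, e1 i h, if_neg (hσ i (hS i hi)).2.1]
    · rw [if_neg h, ct, if_pos (e2 i h)]
  have hA := part A fun i hi => Finset.mem_union_left _ hi
  have hH := part H fun i hi => Finset.mem_union_right _ hi
  -- the sum of the two parts
  set f : ι → ℝ := fun i => if (i ∈ A ↔ σ i ∈ A) then dist (X i) (X (σ i)) / 2 else d (X i)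
    with hf
  have hsum : ∑ i ∈ A, (if σ i ∈ A then dist (X i) (X (σ i)) / 2 else d (X i)) +
      ∑ i ∈ H, (if σ i ∈ H then dist (X i) (X (σ i)) / 2 else d (X i)) = ∑ i ∈ A ∪ H, f i := by
    rw [Finset.sum_union hAH]
    congr 1
    · refine Finset.sum_congr rfl fun i hi => ?_
      simp only [hf, hi, true_iff]
    · refine Finset.sum_congr rfl fun i hi => ?_
      have h1 : (σ i ∈ H) ↔ (i ∈ A ↔ σ i ∈ A) := by
        have h2 := (hσ i (Finset.mem_union_right _ hi)).1
        have h3 := hHA i hi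
        constructor
        · intro h
          exact iff_of_false h3 (hHA _ h)
        · intro h
          exact hHof _ h2 fun h' => h3 (h.2 h')
      simp only [hf]
      by_cases h : σ i ∈ H
      · rw [if_pos h, if_pos (h1.1 h)]
      · rw [if_neg h, if_neg fun h' => h (h1.2 h')]
  -- symmetrize
  have hfσ : ∑ i ∈ A ∪ H, f (σ i) = ∑ i ∈ A ∪ H, f i := by
    refine Finset.sum_nbij' σ σ (fun i hi => (hσ i hi).1) (fun i hi => (hσ i hi).1)
      (fun i hi => (hσ i hi).2.2) (fun i hi => (hσ i hi).2.2) (fun i hi => rfl)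
  have hle : ∑ i ∈ A ∪ H, (f i + f (σ i)) ≤ ∑ i ∈ A ∪ H, dist (X i) (X (σ i)) := by
    refine Finset.sum_le_sum fun i hi => ?_
    obtain ⟨h1, h2, h3⟩ := hσ i hi
    simp only [hf, h3]
    by_cases h : (i ∈ A ↔ σ i ∈ A)
    · rw [if_pos h, if_pos h.symm, dist_comm (X (σ i)) (X i)]
      linarith
    · have h' : ¬ (σ i ∈ A ↔ i ∈ A) := fun h' => h h'.symm
      rw [if_neg h, if_neg h']
      by_cases hiA : i ∈ A
      · have hs : σ i ∈ H := hHof _ h1 fun h4 => h (iff_of_true hiA h4)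
        exact hc i hiA _ hs
      · have hs : σ i ∈ A := by
          by_contra h4
          exact h (iff_of_false hiA h4)
        have h5 := hc _ hs i (hHof i hi hiA)
        rw [dist_comm, add_comm]
        exact h5
  rw [Finset.sum_add_distrib, hfσ] at hle
  linarith

end comb

/-! ### the square -/

lemma isCompact_BP (a b : ℝ) {r : ℝ} (hr : 0 < r) : IsCompact (BP a b r) := by
  refine isCompact_Icc.image_of_continuousOn ?_
  have h : LipschitzOnWith (Real.toNNReal r) (gb a b r) (Set.Icc 0 4) := by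
    refine LipschitzOnWith.of_dist_le_mul fun s hs t ht => ?_
    rw [Real.coe_toNNReal r hr.le]
    rcases le_total s t with h | h
    · refine (gb_dist hr hs.1 h ht.2).trans (le_of_eq ?_)
      rw [dist_comm s t, Real.dist_eq, abs_of_nonneg (by linarith)]
    · rw [dist_comm (gb a b r s)]
      refine (gb_dist hr ht.1 h hs.2).trans (le_of_eq ?_)
      rw [Real.dist_eq, abs_of_nonneg (by linarith)]
  exact h.continuousOn

lemma BP_side {a b r : ℝ} {w : ℂ} (hw : w ∈ BP a b r) :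
    w.re = a ∨ w.re = a + r ∨ w.im = b ∨ w.im = b + r := by
  obtain ⟨t, ⟨h0, h4⟩, rfl⟩ := hw
  simp only [gb]
  rcases le_total t 1 with h1 | h1
  · right; right; left
    rw [cc_of_nonpos (by linarith : t - 1 ≤ 0), cc_of_nonpos (by linarith : t - 3 ≤ 0)]
    ring
  rcases le_total t 2 with h2 | h2
  · right; left
    rw [cc_of_ge h1, cc_of_nonpos (by linarith : t - 2 ≤ 0)]
    ring
  rcases le_total t 3 with h3 | h3
  · right; right; right
    rw [cc_of_ge (by linarith : 1 ≤ t - 1), cc_of_nonpos (by linarith : t - 3 ≤ 0)]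
    ring
  · left
    rw [cc_of_ge h1, cc_of_ge (by linarith : 1 ≤ t - 2)]
    ring

lemma BP_nonempty (a b r : ℝ) : (BP a b r).Nonempty := ⟨_, 0, ⟨le_rfl, by norm_num⟩, rfl⟩

/-- distance to the boundary of the square -/
noncomputable def dd (a b r : ℝ) (z : ℂ) : ℝ := Metric.infDist z (BP a b r)

lemma dd_nonneg (a b r : ℝ) (z : ℂ) : 0 ≤ dd a b r z := Metric.infDist_nonneg

lemma dd_cross {a b r : ℝ} (hr : 0 < r) {x y : ℂ} (hx : x ∈ Sq a b r) (hy : y ∉ Sq a b r) :
    dd a b r x + dd a b r y ≤ dist x y := by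
  obtain ⟨w, hw, hd⟩ := crossing (Sq a b r) hx hy
  have hwB : w ∈ BP a b r := frontier_sub hr hw
  have h1 : dd a b r x ≤ dist x w := Metric.infDist_le_dist_of_mem hwB
  have h2 : dd a b r y ≤ dist y w := Metric.infDist_le_dist_of_mem hwB
  rw [dist_comm y w] at h2
  linarith

lemma exists_param {a b r : ℝ} (hr : 0 < r) (z : ℂ) :
    ∃ t : ℝ, (0 ≤ t ∧ t ≤ 4) ∧ dist z (gb a b r t) = dd a b r z := by
  obtain ⟨w, ⟨t, ht, rfl⟩, h⟩ := (isCompact_BP a b hr).exists_infDist_eq_dist (BP_nonempty a b r) z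
  exact ⟨t, ⟨ht.1, ht.2⟩, h.symm⟩

/-- nearest parameter -/
noncomputable def tt (a b : ℝ) {r : ℝ} (hr : 0 < r) (z : ℂ) : ℝ := (exists_param (a := a) (b := b) hr z).choose

lemma tt_mem (a b : ℝ) {r : ℝ} (hr : 0 < r) (z : ℂ) : 0 ≤ tt a b hr z ∧ tt a b hr z ≤ 4 :=
  (exists_param (a := a) (b := b) hr z).choose_spec.1

lemma tt_dist (a b : ℝ) {r : ℝ} (hr : 0 < r) (z : ℂ) :
    dist z (gb a b r (tt a b hr z)) = dd a b r z :=
  (exists_param (a := a) (b := b) hr z).choose_spec.2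

lemma dist_le_dd (a b : ℝ) {r : ℝ} (hr : 0 < r) (x y : ℂ) :
    dist x y ≤ dd a b r x + dd a b r y + r * |tt a b hr x - tt a b hr y| := by
  have h1 := tt_dist a b hr x
  have h2 := tt_dist a b hr y
  have hx := tt_mem a b hr x
  have hy := tt_mem a b hr y
  have h3 : dist (gb a b r (tt a b hr x)) (gb a b r (tt a b hr y)) ≤
      r * |tt a b hr x - tt a b hr y| := by
    rcases le_total (tt a b hr x) (tt a b hr y) with h | h
    · rw [abs_sub_comm, abs_of_nonneg (by linarith)]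
      exact gb_dist hr hx.1 h hy.2
    · rw [abs_of_nonneg (by linarith), dist_comm]
      exact gb_dist hr hy.1 h hx.2
  have h4 := dist_triangle4 x (gb a b r (tt a b hr x)) (gb a b r (tt a b hr y)) y
  rw [dist_comm (gb a b r (tt a b hr y)) y] at h4
  linarith

section main

variable {ι : Type} [DecidableEq ι]

/-- the matching functional of the union -/
lemma claim (X : ι → ℂ) {a b r : ℝ} (hr : 0 < r) (A H : Finset ι)
    (hA : ∀ i ∈ A, X i ∈ Sq a b r) (hH : ∀ i ∈ H, X i ∉ Sq a b r) (he : Even (A.card + H.card)) :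
    mb X (dd a b r) A + mb X (dd a b r) H ≤ mt X (A ∪ H) ∧
      mt X (A ∪ H) ≤ mb X (dd a b r) A + mb X (dd a b r) H + 4 * r := by
  have hdis : Disjoint A H := by
    rw [Finset.disjoint_left]
    exact fun i h1 h2 => hH i h2 (hA i h1)
  have hcard : Even (A ∪ H).card := by rwa [Finset.card_union_of_disjoint hdis]
  obtain ⟨⟨σ, hσ⟩, h2⟩ := mt_le_mb (X := X) (d := dd a b r) (t := fun i => tt a b hr (X i)) hr.le
    (A ∪ H) hcard (fun i _ => tt_mem a b hr (X i)) (fun i _ j _ => dist_le_dd a b hr (X i) (X j))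
  refine ⟨?_, ?_⟩
  · refine le_csInf ⟨_, σ, hσ, rfl⟩ ?_
    rintro _ ⟨ρ, hρ, rfl⟩
    exact mb_add_le (dd_nonneg a b r) hdis
      (fun i hi j hj => dd_cross hr (hA i hi) (hH j hj)) hρ
  · have h3 := mb_union_le (X := X) (dd_nonneg a b r) hdis
    linarith

end main

theorem mix : S_MIX := by
  intro ι _ X a b r hr A A' H H' hA hA' hH hH' h1 h2 h3
  have p1 : Even (A'.card + H.card) := by
    rw [Nat.even_add] at h1 h2 ⊢
    tauto
  have p2 : Even (A.card + H'.card) := by
    rw [Nat.even_add] at h1 h3 ⊢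
    tauto
  have p3 : Even (A'.card + H'.card) := by
    rw [Nat.even_add] at h1 h2 h3 ⊢
    tauto
  obtain ⟨a1, a2⟩ := claim X hr A H hA hH h1
  obtain ⟨b1, b2⟩ := claim X hr A' H hA' hH p1
  obtain ⟨c1, c2⟩ := claim X hr A H' hA hH' p2
  obtain ⟨d1, d2⟩ := claim X hr A' H' hA' hH' p3
  rw [abs_le]
  constructor <;> linarith

theorem low : S_LOW := by
  intro ι _ X a b r δ hr hδ A H hAe hHe hH hA hsep
  have hAS : ∀ i ∈ A, X i ∈ Sq a b r := by
    intro i hi
    obtain ⟨h1, h2, h3, h4⟩ := hA i hi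
    exact ⟨by linarith, by linarith, by linarith, by linarith⟩
  obtain ⟨h1, -⟩ := claim X hr A H hAS hH (hAe.add hHe)
  -- the part outside
  have h2 : mt X H ≤ mb X (dd a b r) H + 4 * r :=
    (mt_le_mb (X := X) (d := dd a b r) (t := fun i => tt a b hr (X i)) hr.le H hHe
      (fun i _ => tt_mem a b hr (X i)) (fun i _ j _ => dist_le_dd a b hr (X i) (X j))).2
  -- the part inside
  have h3 : δ / 2 * A.card ≤ mb X (dd a b r) A := by
    refine le_csInf (mbs_nonempty A) ?_
    rintro _ ⟨σ, hσ, rfl⟩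
    have h4 : ∀ i ∈ A, δ / 2 ≤ ct X (dd a b r) σ i := by
      intro i hi
      unfold ct
      split_ifs with h
      · rw [dd, Metric.le_infDist (BP_nonempty a b r)]
        intro w hw
        obtain ⟨k1, k2, k3, k4⟩ := hA i hi
        have hre : |(X i).re - w.re| ≤ dist (X i) w := by
          rw [dist_eq_norm, ← Complex.sub_re]
          exact Complex.abs_re_le_norm _
        have him : |(X i).im - w.im| ≤ dist (X i) w := by
          rw [dist_eq_norm, ← Complex.sub_im]
          exact Complex.abs_im_le_norm _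
        rcases BP_side hw with h5 | h5 | h5 | h5
        · rw [h5] at hre
          have := le_abs_self ((X i).re - a)
          linarith
        · rw [h5] at hre
          have := neg_abs_le ((X i).re - (a + r))
          linarith
        · rw [h5] at him
          have := le_abs_self ((X i).im - b)
          linarith
        · rw [h5] at him
          have := neg_abs_le ((X i).im - (b + r))
          linarith
      · have := hsep i hi (σ i) (hσ i hi).1 (fun h' => h h'.symm)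
        linarith
    calc δ / 2 * A.card = ∑ i ∈ A, δ / 2 := by
          rw [Finset.sum_const, nsmul_eq_mul]; ring
      _ ≤ _ := Finset.sum_le_sum h4
  linarith

end Pool.Agent.N940.MM.Geo1
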