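import Pool.Agent.N940.MM.Stm

/-!
# Elementary properties of the minimum matching
-/

set_option autoImplicit false

open Filter Topology

namespace Pool.Agent.N940.MM.Geo2

open Finset

section basic

variable {ι : Type} {X : ι → ℂ}

/-- a fixed point free involution of a set -/
def va (A : Finset ι) (σ : ι → ι) : Prop := ∀ i ∈ A, σ i ∈ A ∧ σ i ≠ i ∧ σ (σ i) = i

/-- the cost of a matching -/
noncomputable def co (X : ι → ℂ) (A : Finset ι) (σ : ι → ι) : ℝ :=
  (∑ i ∈ A, dist (X i) (X (σ i))) / 2

lemma mt_le {A : Finset ι} {σ : ι → ι} (h : va A σ) : mt X A ≤ co X A σ := by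
  apply csInf_le
  · refine ⟨0, ?_⟩
    rintro _ ⟨σ, -, rfl⟩
    positivity
  · exact ⟨σ, h, rfl⟩

/-- a set with a fixed point free involution has an even number of elements -/
lemma even_of_va {A : Finset ι} {σ : ι → ι} (h : va A σ) : Even A.card := by
  have h1 : ∑ i ∈ A, (1 : ZMod 2) = 0 := by
    refine Finset.sum_involution (fun i _ => σ i) ?_ ?_ ?_ ?_
    · intro i _
      decide
    · intro i hi _
      exact (h i hi).2.1
    · intro i hi
      exact (h i hi).1
    · intro i hi
      exact (h i hi).2.2
  rw [Finset.sum_const, nsmul_eq_mul, mul_one] at h1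
  exact (ZMod.natCast_eq_zero_iff_even).1 h1

variable [DecidableEq ι]

/-- matching two more elements -/
def upd (σ : ι → ι) (x y : ι) : ι → ι := fun k => if k = x then y else if k = y then x else σ k

lemma ins {B : Finset ι} {σ : ι → ι} (h : va B σ) {u w : ι} (hu : u ∉ B) (hw : w ∉ B)
    (huw : u ≠ w) : va (insert u (insert w B)) (upd σ u w) ∧
      co X (insert u (insert w B)) (upd σ u w) = dist (X u) (X w) + co X B σ := by
  have e1 : upd σ u w u = w := by simp [upd]
  have e2 : upd σ u w w = u := by simp [upd, huw.symm]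
  have e3 : ∀ k ∈ B, upd σ u w k = σ k := by
    intro k hk
    have h1 : k ≠ u := fun h => hu (h ▸ hk)
    have h2 : k ≠ w := fun h => hw (h ▸ hk)
    simp [upd, h1, h2]
  refine ⟨?_, ?_⟩
  · intro k hk
    rw [Finset.mem_insert, Finset.mem_insert] at hk
    rcases hk with rfl | rfl | hk
    · rw [e1, e2]
      exact ⟨by simp, huw.symm, rfl⟩
    · rw [e2, e1]
      exact ⟨by simp, huw, rfl⟩
    · rw [e3 k hk, e3 _ (h k hk).1]
      exact ⟨by simp [(h k hk).1], (h k hk).2.1, (h k hk).2.2⟩
  · have hu' : u ∉ insert w B := by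
      rw [Finset.mem_insert, not_or]
      exact ⟨huw, hu⟩
    unfold co
    rw [Finset.sum_insert hu', Finset.sum_insert hw, e1, e2,
      Finset.sum_congr rfl fun k hk => by rw [e3 k hk], dist_comm (X w) (X u)]
    ring

lemma rem {B : Finset ι} {σ : ι → ι} (h : va B σ) {u : ι} (hu : u ∈ B) :
    va ((B.erase u).erase (σ u)) σ ∧
      co X B σ = dist (X u) (X (σ u)) + co X ((B.erase u).erase (σ u)) σ := by
  obtain ⟨h1, h2, h3⟩ := h u hu
  have h4 : σ u ∈ B.erase u := Finset.mem_erase.2 ⟨h2, h1⟩
  refine ⟨?_, ?_⟩
  · intro k hk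
    rw [Finset.mem_erase, Finset.mem_erase] at hk
    obtain ⟨k1, k2, k3⟩ := hk
    obtain ⟨l1, l2, l3⟩ := h k k3
    refine ⟨?_, l2, l3⟩
    rw [Finset.mem_erase, Finset.mem_erase]
    refine ⟨?_, ?_, l1⟩
    · intro e
      apply k2
      rw [← l3, e, h3]
    · intro e
      apply k1
      rw [← l3, e]
  · unfold co
    rw [← Finset.add_sum_erase B _ hu, ← Finset.add_sum_erase (B.erase u) _ h4, h3,
      dist_comm (X (σ u)) (X u)]
    ring

lemma exists_va : ∀ (n : ℕ) (A : Finset ι), A.card = 2 * n → ∃ σ : ι → ι, va A σ := by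
  intro n
  induction n with
  | zero =>
    intro A hA
    have : A = ∅ := by
      rw [← Finset.card_eq_zero]; omega
    subst this
    exact ⟨id, by simp [va]⟩
  | succ n ih =>
    intro A hA
    have hne : A.Nonempty := by
      rw [← Finset.card_pos]; omega
    obtain ⟨i, hi⟩ := hne
    have hc1 : (A.erase i).card = 2 * n + 1 := by
      rw [Finset.card_erase_of_mem hi]; omega
    have hne1 : (A.erase i).Nonempty := by
      rw [← Finset.card_pos]; omega
    obtain ⟨j, hj⟩ := hne1
    have hji : j ≠ i := Finset.ne_of_mem_erase hj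
    have hcG : ((A.erase i).erase j).card = 2 * n := by
      rw [Finset.card_erase_of_mem hj]; omega
    obtain ⟨σ, hσ⟩ := ih _ hcG
    have := (ins (X := fun _ => 0) hσ (u := i) (w := j) (by simp) (by simp) hji.symm).1
    rw [Finset.insert_erase hj, Finset.insert_erase hi] at this
    exact ⟨_, this⟩

lemma le_mt {A : Finset ι} (hA : Even A.card) {b : ℝ} (h : ∀ σ, va A σ → b ≤ co X A σ) :
    b ≤ mt X A := by
  apply le_csInf
  · obtain ⟨n, hn⟩ := hA
    obtain ⟨σ, hσ⟩ := exists_va n A (by omega)
    exact ⟨_, σ, hσ, rfl⟩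
  · rintro _ ⟨σ, hσ, rfl⟩
    exact h σ hσ

lemma add_upper {A : Finset ι} {x y : ι} (hx : x ∉ A) (hy : y ∉ A) (hxy : x ≠ y)
    (hA : Even A.card) : mt X (insert x (insert y A)) ≤ mt X A + dist (X x) (X y) := by
  have : mt X (insert x (insert y A)) - dist (X x) (X y) ≤ mt X A := by
    refine le_mt hA fun σ hσ => ?_
    obtain ⟨h1, h2⟩ := ins (X := X) hσ hx hy hxy
    have := mt_le (X := X) h1
    linarith
  linarith

lemma add_lower {A : Finset ι} {x y : ι} (hx : x ∉ A) (hy : y ∉ A) (hxy : x ≠ y)
    (hA : Even A.card) : mt X A ≤ mt X (insert x (insert y A)) + dist (X x) (X y) := by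
  have hc : Even (insert x (insert y A)).card := by
    have hx' : x ∉ insert y A := by
      rw [Finset.mem_insert, not_or]
      exact ⟨hxy, hx⟩
    rw [Finset.card_insert_of_notMem hx', Finset.card_insert_of_notMem hy]
    obtain ⟨n, hn⟩ := hA
    exact ⟨n + 1, by omega⟩
  have : mt X A - dist (X x) (X y) ≤ mt X (insert x (insert y A)) := by
    refine le_mt hc fun σ hσ => ?_
    set B := insert x (insert y A) with hB
    have hxB : x ∈ B := by simp [hB]
    have hyB : y ∈ B := by simp [hB]
    obtain ⟨h1, h2⟩ := rem (X := X) hσ hxB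
    by_cases hs : σ x = y
    · have e : (B.erase x).erase (σ x) = A := by
        rw [hs]
        ext z
        simp only [hB, Finset.mem_erase, Finset.mem_insert]
        constructor
        · rintro ⟨h1, h2, h3⟩
          tauto
        · intro hz
          refine ⟨fun h => hy (h ▸ hz), fun h => hx (h ▸ hz), Or.inr (Or.inr hz)⟩
      rw [e] at h1 h2
      have := mt_le (X := X) h1
      have h5 : 0 ≤ dist (X x) (X (σ x)) := dist_nonneg
      have h6 : 0 ≤ dist (X x) (X y) := dist_nonneg
      linarith
    · set u := σ x with hu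
      have hyB1 : y ∈ (B.erase x).erase u := by
        rw [Finset.mem_erase, Finset.mem_erase]
        exact ⟨fun h => hs h.symm, hxy.symm, hyB⟩
      obtain ⟨h3, h4⟩ := rem (X := X) h1 hyB1
      set v := σ y with hv
      obtain ⟨hv1, hv2, hv3⟩ := h1 y hyB1
      rw [← hv] at hv1 hv2 hv3
      rw [Finset.mem_erase, Finset.mem_erase] at hv1
      obtain ⟨hu1, hu2, hu3⟩ := hσ x hxB
      rw [← hu] at hu1 hu2 hu3
      have hvu : v ≠ u := hv1.1
      have hvx : v ≠ x := hv1.2.1
      have hvB : v ∈ B := hv1.2.2
      have huA : u ∈ A := by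
        rw [hB, Finset.mem_insert, Finset.mem_insert] at hu1
        rcases hu1 with h | h | h
        · exact absurd h hu2
        · exact absurd h hs
        · exact h
      have hvA : v ∈ A := by
        rw [hB, Finset.mem_insert, Finset.mem_insert] at hvB
        rcases hvB with h | h | h
        · exact absurd h hvx
        · exact absurd h hv2
        · exact h
      set B2 := (((B.erase x).erase u).erase y).erase v with hB2
      obtain ⟨h5, h6⟩ := ins (X := X) h3 (u := u) (w := v) (by simp [hB2]) (by simp [hB2]) hvu.symm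
      have e : insert u (insert v B2) = A := by
        ext z
        simp only [hB2, hB, Finset.mem_erase, Finset.mem_insert]
        constructor
        · rintro (h | h | h)
          · exact h ▸ huA
          · exact h ▸ hvA
          · tauto
        · intro hz
          have z1 : z ≠ x := fun h => hx (h ▸ hz)
          have z2 : z ≠ y := fun h => hy (h ▸ hz)
          tauto
      rw [e] at h5 h6
      have h7 := mt_le (X := X) h5
      have h8 : dist (X u) (X v) ≤ dist (X x) (X u) + dist (X x) (X y) + dist (X y) (X v) := by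
        have a1 := dist_triangle (X u) (X x) (X v)
        have a2 := dist_triangle (X x) (X y) (X v)
        rw [dist_comm (X u) (X x)] at a1
        linarith
      linarith
  linarith

lemma move_one {A : Finset ι} {x y : ι} (hx : x ∈ A) (hy : y ∉ A) (hA : Even A.card) :
    mt X (insert y (A.erase x)) ≤ mt X A + dist (X x) (X y) := by
  have : mt X (insert y (A.erase x)) - dist (X x) (X y) ≤ mt X A := by
    refine le_mt hA fun σ hσ => ?_
    obtain ⟨h1, h2⟩ := rem (X := X) hσ hx
    set u := σ x with hu
    obtain ⟨hu1, hu2, hu3⟩ := hσ x hx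
    rw [← hu] at hu1 hu2 hu3
    have hyu : y ≠ u := fun h => hy (h ▸ hu1)
    obtain ⟨h5, h6⟩ := ins (X := X) h1 (u := y) (w := u)
      (by
        rw [Finset.mem_erase, Finset.mem_erase]
        tauto) (by simp) hyu
    have e : insert u ((A.erase x).erase u) = A.erase x :=
      Finset.insert_erase (Finset.mem_erase.2 ⟨hu2, hu1⟩)
    rw [e] at h5 h6
    have h7 := mt_le (X := X) h5
    have h8 : dist (X y) (X u) ≤ dist (X x) (X y) + dist (X x) (X u) := by
      have a1 := dist_triangle (X y) (X x) (X u)
      rw [dist_comm (X y) (X x)] at a1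
      linarith
    linarith
  linarith

end basic

theorem add : S_ADD := by
  intro ι _ X A x y hx hy hxy hA
  rw [abs_le]
  have h1 := add_upper (X := X) hx hy hxy hA
  have h2 := add_lower (X := X) hx hy hxy hA
  constructor <;> linarith

theorem move : S_MOVE := by
  intro ι _ X A x y hx hy hA
  rw [abs_le]
  have h1 := move_one (X := X) hx hy hA
  have hxy : x ≠ y := fun h => hy (h ▸ hx)
  have h2 := move_one (X := X) (A := insert y (A.erase x)) (x := y) (y := x) (by simp)
    (by
      rw [Finset.mem_insert, not_or]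
      exact ⟨hxy, by simp⟩)
    (by
      rw [Finset.card_insert_of_notMem (fun h => hy (Finset.mem_of_mem_erase h)),
        Finset.card_erase_of_mem hx]
      have : 0 < A.card := Finset.card_pos.2 ⟨x, hx⟩
      rw [Nat.sub_add_cancel this]
      exact hA)
  rw [Finset.erase_insert (fun h => hy (Finset.mem_of_mem_erase h)), Finset.insert_erase hx,
    dist_comm] at h2
  constructor <;> linarith

lemma crude_aux {ι : Type} [DecidableEq ι] (X : ι → ℂ) (D : ℝ) (hD : 0 ≤ D) (H : Finset ι) :
    ∀ (n : ℕ) (S S' : Finset ι), S.card + S'.card ≤ n → Disjoint S H → Disjoint S' H →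
    (∀ i ∈ S ∪ S', ∀ j ∈ S ∪ S', dist (X i) (X j) ≤ D) →
    Even (S.card + H.card) → Even (S.card + S'.card) →
    |mt X (S ∪ H) - mt X (S' ∪ H)| ≤ D * (S.card + S'.card + 1) := by
  intro n
  induction n using Nat.strong_induction_on with
  | _ n ih =>
    -- removing two elements
    have key : ∀ (S S' : Finset ι), S.card + S'.card ≤ n → Disjoint S H → Disjoint S' H →
        (∀ i ∈ S ∪ S', ∀ j ∈ S ∪ S', dist (X i) (X j) ≤ D) →
        Even (S.card + H.card) → Even (S.card + S'.card) → 2 ≤ S.card →
        |mt X (S ∪ H) - mt X (S' ∪ H)| ≤ D * (S.card + S'.card + 1) := by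
      intro S S' hn h1 h2 h3 h4 h5 h6
      obtain ⟨x, hx⟩ : S.Nonempty := Finset.card_pos.1 (by omega)
      obtain ⟨y, hy⟩ : (S.erase x).Nonempty :=
        Finset.card_pos.1 (by rw [Finset.card_erase_of_mem hx]; omega)
      have hyx : y ≠ x := Finset.ne_of_mem_erase hy
      have hyS : y ∈ S := Finset.mem_of_mem_erase hy
      set T := (S.erase x).erase y with hT
      have hTc : T.card + 2 = S.card := by
        rw [hT, Finset.card_erase_of_mem hy, Finset.card_erase_of_mem hx]; omega
      have hTS : T ⊆ S := (Finset.erase_subset _ _).trans (Finset.erase_subset _ _)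
      have hxH : x ∉ H := Finset.disjoint_left.1 h1 hx
      have hyH : y ∉ H := Finset.disjoint_left.1 h1 hyS
      have hTH : Disjoint T H := Finset.disjoint_of_subset_left hTS h1
      have hih := ih (T.card + S'.card) (by omega) T S' le_rfl hTH h2
        (fun i hi j hj => h3 i (Finset.union_subset_union_left hTS hi) j
          (Finset.union_subset_union_left hTS hj))
        (by
          rw [← hTc] at h4
          have : T.card + 2 + H.card = (T.card + H.card) + 2 := by ring
          rw [this, Nat.even_add] at h4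
          exact h4.2 even_two)
        (by
          rw [← hTc] at h5
          have : T.card + 2 + S'.card = (T.card + S'.card) + 2 := by ring
          rw [this, Nat.even_add] at h5
          exact h5.2 even_two)
      have hST : S ∪ H = insert x (insert y (T ∪ H)) := by
        rw [← Finset.insert_union, ← Finset.insert_union, hT, Finset.insert_erase hy,
          Finset.insert_erase hx]
      have hadd := add ι X (T ∪ H) x y
        (by
          rw [Finset.mem_union, not_or]
          exact ⟨by simp [hT], hxH⟩)
        (by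
          rw [Finset.mem_union, not_or]
          exact ⟨by simp [hT], hyH⟩) hyx.symm
        (by
          rw [Finset.card_union_of_disjoint hTH]
          rw [← hTc] at h4
          have : T.card + 2 + H.card = (T.card + H.card) + 2 := by ring
          rw [this, Nat.even_add] at h4
          exact h4.2 even_two)
      rw [← hST] at hadd
      have hd : dist (X x) (X y) ≤ D := h3 x (Finset.mem_union_left _ hx) y
        (Finset.mem_union_left _ hyS)
      have hc : (S.card : ℝ) = T.card + 2 := by rw [← hTc]; push_cast; ring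
      rw [hc]
      calc |mt X (S ∪ H) - mt X (S' ∪ H)| ≤ |mt X (S ∪ H) - mt X (T ∪ H)| +
            |mt X (T ∪ H) - mt X (S' ∪ H)| := abs_sub_le _ _ _
        _ ≤ D + D * (T.card + S'.card + 1) := add_le_add (hadd.trans hd) hih
        _ ≤ D * (T.card + 2 + S'.card + 1) := by nlinarith
    intro S S' hn h1 h2 h3 h4 h5
    by_cases c1 : 2 ≤ S.card
    · exact key S S' hn h1 h2 h3 h4 h5 c1
    by_cases c2 : 2 ≤ S'.card
    · have := key S' S (by omega) h2 h1 (by rw [Finset.union_comm]; exact h3)
        (by
          have e : S.card + S'.card + (S.card + H.card) = (S'.card + H.card) + 2 * S.card := by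
            ring
          have := h5.add h4
          rw [e, Nat.even_add] at this
          exact this.2 (even_two_mul _))
        (by rw [add_comm]; exact h5) c2
      rw [abs_sub_comm, add_comm (S.card : ℝ)]
      exact this
    -- at most one element each
    have c3 : S.card = S'.card := by
      rcases h5 with ⟨m, hm⟩
      omega
    rcases Nat.lt_or_ge S.card 1 with c4 | c4
    · have e1 : S = ∅ := by
        rw [← Finset.card_eq_zero]; omega
      have e2 : S' = ∅ := by
        rw [← Finset.card_eq_zero]; omega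
      subst e1 e2
      simp [hD]
    · obtain ⟨s, hs⟩ := Finset.card_eq_one.1 (show S.card = 1 by omega)
      obtain ⟨s', hs'⟩ := Finset.card_eq_one.1 (show S'.card = 1 by omega)
      subst hs hs'
      by_cases hss : s = s'
      · subst hss
        rw [sub_self, abs_zero]
        positivity
      · have hsH : s ∉ H := Finset.disjoint_left.1 h1 (by simp)
        have hsH' : s' ∉ H := Finset.disjoint_left.1 h2 (by simp)
        have hm := move ι X ({s} ∪ H) s s' (by simp)
          (by
            rw [Finset.mem_union, not_or]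
            exact ⟨by simp [Ne.symm hss], hsH'⟩)
          (by rw [Finset.card_union_of_disjoint h1]; exact h4)
        have e : insert s' (({s} ∪ H).erase s) = {s'} ∪ H := by
          rw [Finset.singleton_union, Finset.erase_insert hsH, Finset.singleton_union]
        rw [e] at hm
        have hd : dist (X s) (X s') ≤ D := h3 s (by simp) s' (by simp)
        rw [abs_sub_comm]
        refine (hm.trans hd).trans ?_
        simp only [Finset.card_singleton, Nat.cast_one]
        linarith

theorem crude : S_CRUDE := by
  intro ι _ X S S' H D hD h1 h2 h3 h4 h5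
  exact crude_aux X D hD H _ S S' le_rfl h1 h2 h3 h4 h5

lemma mt_odd {ι : Type} (X : ι → ℂ) (A : Finset ι) (hA : ¬ Even A.card) : mt X A = 0 := by
  unfold mt
  have : {c : ℝ | ∃ σ : ι → ι, (∀ i ∈ A, σ i ∈ A ∧ σ i ≠ i ∧ σ (σ i) = i) ∧
    c = (∑ i ∈ A, dist (X i) (X (σ i))) / 2} = ∅ := by
    rw [Set.eq_empty_iff_forall_notMem]
    rintro c ⟨σ, hσ, -⟩
    exact hA (even_of_va hσ)
  rw [this, Real.sInf_empty]

lemma lip_one {ι : Type} [DecidableEq ι] (X Y : ι → ℂ) (A : Finset ι) (hA : Even A.card) :
    mt X A ≤ mt Y A + ∑ i ∈ A, dist (X i) (Y i) := by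
  have : mt X A - ∑ i ∈ A, dist (X i) (Y i) ≤ mt Y A := by
    refine le_mt hA fun σ hσ => ?_
    have h1 := mt_le (X := X) hσ
    have h2 : ∑ i ∈ A, dist (X (σ i)) (Y (σ i)) = ∑ i ∈ A, dist (X i) (Y i) := by
      refine Finset.sum_nbij' σ σ ?_ ?_ ?_ ?_ ?_
      · intro i hi
        exact (hσ i hi).1
      · intro i hi
        exact (hσ i hi).1
      · intro i hi
        exact (hσ i hi).2.2
      · intro i hi
        exact (hσ i hi).2.2
      · intro i hi
        rfl
    have h3 : ∑ i ∈ A, dist (X i) (X (σ i)) ≤ ∑ i ∈ A, dist (Y i) (Y (σ i)) +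
        (∑ i ∈ A, dist (X i) (Y i) + ∑ i ∈ A, dist (X (σ i)) (Y (σ i))) := by
      rw [← Finset.sum_add_distrib, ← Finset.sum_add_distrib]
      refine Finset.sum_le_sum fun i _ => ?_
      have a1 := dist_triangle (X i) (Y i) (X (σ i))
      have a2 := dist_triangle (Y i) (Y (σ i)) (X (σ i))
      rw [dist_comm (Y (σ i)) (X (σ i))] at a2
      linarith
    rw [h2] at h3
    unfold co at h1 ⊢
    linarith
  linarith

theorem lip : S_LIP := by
  intro ι _ X Y A
  by_cases hA : Even A.card
  · rw [abs_le]
    have h1 := lip_one X Y A hA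
    have h2 := lip_one Y X A hA
    have h3 : ∑ i ∈ A, dist (Y i) (X i) = ∑ i ∈ A, dist (X i) (Y i) :=
      Finset.sum_congr rfl fun i _ => dist_comm _ _
    rw [h3] at h2
    constructor <;> linarith
  · rw [mt_odd X A hA, mt_odd Y A hA, sub_self, abs_zero]
    exact Finset.sum_nonneg fun i _ => dist_nonneg

theorem img : S_IMG := by
  intro ι κ _ _ e X A he
  unfold mt
  congr 1
  ext c
  constructor
  · rintro ⟨σ, hσ, rfl⟩
    classical
    refine ⟨fun k => if h : ∃ i, e i = k then e (σ h.choose) else k, ?_, ?_⟩
    · have hk : ∀ i, (if h : ∃ j, e j = e i then e (σ h.choose) else e i) = e (σ i) := by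
        intro i
        have h : ∃ j, e j = e i := ⟨i, rfl⟩
        rw [dif_pos h]
        rw [he h.choose_spec]
      intro k hk'
      obtain ⟨i, hi, rfl⟩ := Finset.mem_image.1 hk'
      simp only [hk]
      exact ⟨Finset.mem_image_of_mem e (hσ i hi).1, fun h => (hσ i hi).2.1 (he h),
        congrArg e (hσ i hi).2.2⟩
    · have hk : ∀ i, (if h : ∃ j, e j = e i then e (σ h.choose) else e i) = e (σ i) := by
        intro i
        have h : ∃ j, e j = e i := ⟨i, rfl⟩
        rw [dif_pos h]
        rw [he h.choose_spec]
      rw [Finset.sum_image fun a _ b _ h => he h]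
      simp only [hk]
  · rintro ⟨σ, hσ, rfl⟩
    classical
    have hk : ∀ i ∈ A, ∀ (h : ∃ j, e j = σ (e i)), e h.choose = σ (e i) := fun i _ h =>
      h.choose_spec
    have hex : ∀ i ∈ A, ∃ j, e j = σ (e i) := by
      intro i hi
      obtain ⟨j, -, hj⟩ := Finset.mem_image.1 (hσ (e i) (Finset.mem_image_of_mem e hi)).1
      exact ⟨j, hj⟩
    have key : ∀ i ∈ A, e (if h : ∃ j, e j = σ (e i) then h.choose else i) = σ (e i) := by
      intro i hi
      rw [dif_pos (hex i hi)]
      exact (hex i hi).choose_spec
    refine ⟨fun i => if h : ∃ j, e j = σ (e i) then h.choose else i, ?_, ?_⟩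
    · intro i hi
      have h1 := hσ (e i) (Finset.mem_image_of_mem e hi)
      have hmem : (if h : ∃ j, e j = σ (e i) then h.choose else i) ∈ A := by
        obtain ⟨j, hj, hj'⟩ := Finset.mem_image.1 h1.1
        rw [← key i hi] at hj'
        rw [← he hj']
        exact hj
      refine ⟨hmem, ?_, ?_⟩
      · intro h
        apply h1.2.1
        rw [← key i hi]
        exact congrArg e h
      · apply he
        rw [key _ hmem, key i hi]
        exact h1.2.2
    · rw [Finset.sum_image fun a _ b _ h => he h]
      congr 1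
      refine Finset.sum_congr rfl fun i hi => ?_
      simp only
      rw [key i hi]

theorem inv : S_INV := by
  intro k x
  unfold mt iInf
  congr 1
  have hd : ∀ i j : Fin (2 * k),
      Real.sqrt (((x i).1 - (x j).1) ^ 2 + ((x i).2 - (x j).2) ^ 2) =
        dist (toC (x i)) (toC (x j)) := by
    intro i j
    rw [Complex.dist_eq_re_im]
    rfl
  ext c
  constructor
  · rintro ⟨σ, rfl⟩
    refine ⟨fun i => σ.1 i, fun i _ => ⟨Finset.mem_univ _, σ.2.2 i, σ.2.1 i⟩, ?_⟩
    simp only [hd]
    ring
  · rintro ⟨σ, hσ, rfl⟩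
    have hinv : Function.Involutive σ := fun i => (hσ i (Finset.mem_univ i)).2.2
    refine ⟨⟨hinv.toPerm, fun i => hinv i, fun i => (hσ i (Finset.mem_univ i)).2.1⟩, ?_⟩
    simp only [hd, Function.Involutive.coe_toPerm]
    ring

end Pool.Agent.N940.MM.Geo2
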