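import Pool.Agent.N940.MM.Stm
import Pool.Agent.N940.TSP.Prod

/-!
# Decomposition of Bernoulli subsets into strips with parities; the snake enumeration
-/

set_option autoImplicit false

namespace Pool.Agent.N940.MM.Glue

open Finset Pool.Agent.N940.MM

/-! ### the bijection between cells and (strip, position) -/

lemma div_mod_inj {n a b c d : ℕ} (hb : b < n) (hd : d < n) (h : a * n + b = c * n + d) :
    a = c ∧ b = d := by
  have hn : 0 < n := by omega
  have h1 : (a * n + b) / n = a := by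
    rw [mul_comm, Nat.mul_add_div hn, Nat.div_eq_of_lt hb, add_zero]
  have h2 : (c * n + d) / n = c := by
    rw [mul_comm, Nat.mul_add_div hn, Nat.div_eq_of_lt hd, add_zero]
  have h3 : a = c := by rw [← h1, ← h2, h]
  subst h3
  exact ⟨rfl, by omega⟩

lemma em_inj {N L M : ℕ} {x y : Xs N L} {u v : Us L M} (h : em N L M x u = em N L M y v) :
    x = y ∧ u = v := by
  obtain ⟨x1, x2⟩ := x
  obtain ⟨y1, y2⟩ := y
  obtain ⟨u1, u2⟩ := u
  obtain ⟨v1, v2⟩ := v
  simp only [em, Prod.mk.injEq, Fin.mk.injEq] at h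
  obtain ⟨h1, h2⟩ := h
  obtain ⟨a1, a2⟩ := div_mod_inj u1.2 v1.2 h1
  obtain ⟨b1, b2⟩ := div_mod_inj u2.2 v2.2 h2
  exact ⟨Prod.ext (Fin.ext a1) (Fin.ext b1), Prod.ext (Fin.ext a2) (Fin.ext b2)⟩

lemma em_bij (N L M : ℕ) :
    Function.Bijective (fun p : Xs N L × Us L M => em N L M p.1 p.2) := by
  rw [Fintype.bijective_iff_injective_and_card]
  refine ⟨fun p p' h => ?_, ?_⟩
  · obtain ⟨h1, h2⟩ := em_inj h
    exact Prod.ext h1 h2
  · simp only [Fintype.card_prod, Fintype.card_fin]
    ring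

lemma em_surj (N L M : ℕ) (k : TSP.Ix (N * L) 1 M) : ∃ x u, em N L M x u = k := by
  obtain ⟨⟨x, u⟩, h⟩ := (em_bij N L M).2 k
  exact ⟨x, u, h⟩

lemma em_mem_gl {N L M : ℕ} {A : Xs N L → Finset (Us L M)} {x : Xs N L} {u : Us L M} :
    em N L M x u ∈ gl N L M A ↔ u ∈ A x := by
  unfold gl
  simp only [mem_biUnion, mem_univ, true_and, mem_image]
  constructor
  · rintro ⟨y, v, hv, h⟩
    obtain ⟨h1, h2⟩ := em_inj h
    subst h1 h2
    exact hv
  · intro h
    exact ⟨x, u, h, rfl⟩

lemma gl_card {N L M : ℕ} (A : Xs N L → Finset (Us L M)) :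
    (gl N L M A).card = ∑ x, (A x).card := by
  unfold gl
  rw [card_biUnion]
  · refine sum_congr rfl fun x _ => ?_
    exact card_image_of_injective _ fun u v h => (em_inj h).2
  · intro x _ y _ hxy
    show Disjoint ((A x).image (em N L M x)) ((A y).image (em N L M y))
    rw [Finset.disjoint_left]
    intro k hk hk'
    obtain ⟨u, _, hu⟩ := mem_image.1 hk
    obtain ⟨v, _, hv⟩ := mem_image.1 hk'
    exact hxy (em_inj (hu.trans hv.symm)).1

lemma cu_gl {N L M : ℕ} (A : Xs N L → Finset (Us L M)) : cu N L M (gl N L M A) = A := by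
  funext x
  ext u
  simp only [cu, mem_filter, mem_univ, true_and]
  exact em_mem_gl

lemma gl_cu {N L M : ℕ} (S : Finset (TSP.Ix (N * L) 1 M)) : gl N L M (cu N L M S) = S := by
  ext k
  obtain ⟨x, u, rfl⟩ := em_surj N L M k
  rw [em_mem_gl]
  simp [cu]

lemma gl_bij (N L M : ℕ) : Function.Bijective (gl N L M) :=
  ⟨fun A B h => by rw [← cu_gl A, h, cu_gl], fun S => ⟨_, gl_cu S⟩⟩

lemma mu_gl {N L M : ℕ} (q : ℝ) (A : Xs N L → Finset (Us L M)) :
    TSP.mu q (gl N L M A) = ∏ x, TSP.mu q (A x) := by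
  unfold TSP.mu
  rw [prod_mul_distrib, prod_pow_eq_pow_sum, prod_pow_eq_pow_sum, gl_card]
  congr 2
  have h1 : ((gl N L M A)ᶜ).card + (gl N L M A).card = Fintype.card (TSP.Ix (N * L) 1 M) := by
    rw [add_comm]; exact card_add_card_compl _
  have h2 : ∑ x, ((A x)ᶜ).card + ∑ x, (A x).card =
      Fintype.card (Xs N L) * Fintype.card (Us L M) := by
    rw [← sum_add_distrib]
    have : ∀ x, ((A x)ᶜ).card + (A x).card = Fintype.card (Us L M) := fun x => by
      rw [add_comm]; exact card_add_card_compl _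
    simp only [this, sum_const, card_univ, smul_eq_mul]
  have h3 : Fintype.card (Xs N L) * Fintype.card (Us L M) =
      Fintype.card (TSP.Ix (N * L) 1 M) := by
    rw [← Fintype.card_prod]
    exact Fintype.card_of_bijective (em_bij N L M)
  rw [gl_card] at h1
  omega

/-! ### the probability of a parity -/

section pr

variable {U : Type} [Fintype U] [DecidableEq U]

lemma sum_sign (q : ℝ) :
    ∑ B : Finset U, (-1 : ℝ) ^ B.card * TSP.mu q B = (1 - 2 * q) ^ Fintype.card U := by
  have h := Fintype.sum_pow_mul_eq_add_pow U (-q) (1 - q)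
  have e : (-q + (1 - q)) = 1 - 2 * q := by ring
  rw [e] at h
  rw [← h]
  refine sum_congr rfl fun B _ => ?_
  rw [TSP.mu, card_compl, neg_pow q]
  ring

lemma pr_true (q : ℝ) : pr U q true = (1 - (1 - 2 * q) ^ Fintype.card U) / 2 := by
  have e : (1 : ℝ) - (1 - 2 * q) ^ Fintype.card U =
      ∑ B : Finset U, TSP.mu q B - ∑ B : Finset U, (-1 : ℝ) ^ B.card * TSP.mu q B := by
    rw [sum_sign, TSP.sum_mu]
  rw [e, ← sum_sub_distrib, sum_div]
  refine sum_congr rfl fun B _ => ?_
  unfold par
  by_cases h : Odd B.card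
  · simp [h, h.neg_one_pow]
  · have h' : Even B.card := Nat.not_odd_iff_even.1 h
    simp [h, h'.neg_one_pow]

lemma pr_false (q : ℝ) : pr U q false = (1 + (1 - 2 * q) ^ Fintype.card U) / 2 := by
  have e : (1 : ℝ) + (1 - 2 * q) ^ Fintype.card U =
      ∑ B : Finset U, TSP.mu q B + ∑ B : Finset U, (-1 : ℝ) ^ B.card * TSP.mu q B := by
    rw [sum_sign, TSP.sum_mu]
  rw [e, ← sum_add_distrib, sum_div]
  refine sum_congr rfl fun B _ => ?_
  unfold par
  by_cases h : Odd B.card
  · simp [h, h.neg_one_pow]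
  · have h' : Even B.card := Nat.not_odd_iff_even.1 h
    simp [h, h'.neg_one_pow]

lemma wt_eq {X : Type} [Fintype X] (q : ℝ) (P : X → Bool) :
    wt (pr U q true) P = ∏ x, pr U q (P x) := by
  unfold wt
  refine prod_congr rfl fun x _ => ?_
  cases P x
  · simp only [Bool.false_eq_true, if_false]
    rw [pr_true, pr_false]; ring
  · simp

lemma pr_mul_wb {q : ℝ} (hq : Adq U q) (b : Bool) (B : Finset U) :
    pr U q b * wb q b B = if par B = b then TSP.mu q B else 0 := by
  unfold wb
  split_ifs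
  · rw [mul_div_cancel₀ _ (hq.hp b).ne']
  · simp

lemma wt_mul_mu {X : Type} [Fintype X] [DecidableEq X] {q : ℝ} (hq : Adq U q) (P : X → Bool)
    (A : X → Finset U) :
    wt (pr U q true) P * mu (WP hq P) A =
      if (fun x => par (A x)) = P then ∏ x, TSP.mu q (A x) else 0 := by
  have e : mu (WP hq P) A = ∏ x, wb q (P x) (A x) := rfl
  rw [wt_eq, e, ← prod_mul_distrib]
  simp only [pr_mul_wb hq]
  by_cases h : (fun x => par (A x)) = P
  · rw [if_pos h]
    refine prod_congr rfl fun x _ => ?_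
    rw [if_pos (congrFun h x)]
  · rw [if_neg h]
    have : ∃ x, par (A x) ≠ P x := by
      by_contra hc
      push Not at hc
      exact h (funext hc)
    obtain ⟨x, hx⟩ := this
    exact prod_eq_zero (mem_univ x) (if_neg hx)

omit [Fintype U] [DecidableEq U] in
lemma evn_par {X : Type} [Fintype X] (A : X → Finset U) :
    evn (fun x => par (A x)) ↔ Even (∑ x, (A x).card) := by
  unfold evn par
  rw [even_sum_iff_even_card_odd]
  simp only [decide_eq_true_eq]

end pr

/-- the main identity, before the normalization -/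
lemma sum_even {N L M : ℕ} {q : ℝ} (hq : Adq (Us L M) q) {E : Type} [AddCommGroup E] [Module ℝ E]
    (f : Finset (TSP.Ix (N * L) 1 M) → E) :
    TSP.Ex q (fun S => if Even S.card then f S else 0) =
      ∑ P : Xs N L → Bool, if evn P then wt (pr (Us L M) q true) P •
        Ex (WP hq P) (fun A => f (gl N L M A)) else 0 := by
  have h1 : TSP.Ex q (fun S => if Even S.card then f S else 0) =
      ∑ A : Xs N L → Finset (Us L M), (∏ x, TSP.mu q (A x)) •
        (if evn (fun x => par (A x)) then f (gl N L M A) else 0) := by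
    unfold TSP.Ex
    rw [← Function.Bijective.sum_comp (gl_bij N L M)]
    refine sum_congr rfl fun A _ => ?_
    rw [mu_gl]
    simp only [evn_par, gl_card]
  rw [h1]
  have h2 : ∀ P : Xs N L → Bool, (if evn P then wt (pr (Us L M) q true) P •
        Ex (WP hq P) (fun A => f (gl N L M A)) else 0) =
      ∑ A : Xs N L → Finset (Us L M), if (fun x => par (A x)) = P then
        (∏ x, TSP.mu q (A x)) • (if evn P then f (gl N L M A) else 0) else 0 := by
    intro P
    split_ifs with hP
    · unfold Ex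
      rw [smul_sum]
      refine sum_congr rfl fun A _ => ?_
      rw [smul_smul, wt_mul_mu hq P A]
      split_ifs
      · rfl
      · rw [zero_smul]
    · simp
  simp only [h2]
  rw [sum_comm]
  refine sum_congr rfl fun A _ => ?_
  rw [sum_ite_eq]
  simp

theorem glue : S_GLUE := by
  intro N L M hN hL hM q hq0 hq1
  refine ⟨gl_card, cu_gl, gl_cu, pr_true q, pr_false q, ?_⟩
  intro hq E _ _ f
  unfold ExE EW
  rw [sum_even hq f, sum_even hq (fun _ => (1 : ℝ))]
  congr 2
  refine sum_congr rfl fun P _ => ?_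
  rw [Ex_const]
  simp

/-! ### the snake -/

theorem snake : S_SNAKE := by
  intro N L hN hL
  set m := N * L with hm
  have hm0 : 0 < m := Nat.mul_pos hN hL
  have hNm : 0 < N * m := Nat.mul_pos hN hm0
  have hT : N * m - 1 + 1 = N * m := by omega
  -- the map
  let e0 : Fin (N * m - 1 + 1) → Fin N × Fin m := fun k =>
    (⟨(k : ℕ) / m, by
        rw [Nat.div_lt_iff_lt_mul hm0]
        have := k.2
        omega⟩,
      ⟨if Even ((k : ℕ) / m) then (k : ℕ) % m else m - 1 - (k : ℕ) % m, by
        have := Nat.mod_lt (k : ℕ) hm0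
        split_ifs <;> omega⟩)
  have hinj : Function.Injective e0 := by
    intro k k' h
    simp only [e0, Prod.mk.injEq, Fin.mk.injEq] at h
    obtain ⟨h1, h2⟩ := h
    rw [h1] at h2
    have a1 := Nat.mod_lt (k : ℕ) hm0
    have a2 := Nat.mod_lt (k' : ℕ) hm0
    have h3 : (k : ℕ) % m = (k' : ℕ) % m := by
      split_ifs at h2
      · exact h2
      · omega
    apply Fin.ext
    rw [← Nat.div_add_mod (k : ℕ) m, ← Nat.div_add_mod (k' : ℕ) m, h1, h3]
  have hbij : Function.Bijective e0 := by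
    rw [Fintype.bijective_iff_injective_and_card]
    refine ⟨hinj, ?_⟩
    simp only [Fintype.card_fin, Fintype.card_prod]
    exact hT
  refine ⟨N * m - 1, Equiv.ofBijective e0 hbij, hT, ?_, ?_⟩
  · intro k
    have hk1 : ((k.succ : Fin (N * m - 1 + 1)) : ℕ) = (k : ℕ) + 1 := Fin.val_succ k
    have hk0 : ((k.castSucc : Fin (N * m - 1 + 1)) : ℕ) = (k : ℕ) := rfl
    simp only [Equiv.ofBijective_apply, e0, hk0, hk1, Fin.mk.injEq]
    have hmod := Nat.mod_lt (k : ℕ) hm0
    have hdm := Nat.div_add_mod (k : ℕ) m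
    by_cases hd : m ∣ (k : ℕ) + 1
    · right
      have h1 : ((k : ℕ) + 1) / m = (k : ℕ) / m + 1 := by
        rw [Nat.succ_div, if_pos hd]
      have h2 : ((k : ℕ) + 1) % m = 0 := Nat.mod_eq_zero_of_dvd hd
      have h3 : (k : ℕ) % m = m - 1 := by
        have h4 := Nat.div_add_mod ((k : ℕ) + 1) m
        rw [h1, h2, mul_add, mul_one] at h4
        omega
      refine ⟨h1.symm, ?_⟩
      rw [h1, h2, h3]
      by_cases hev : Even ((k : ℕ) / m)
      · have : ¬ Even ((k : ℕ) / m + 1) := by
          rw [Nat.not_even_iff_odd]; exact hev.add_one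
        rw [if_pos hev, if_neg this]; omega
      · have : Even ((k : ℕ) / m + 1) := (Nat.not_even_iff_odd.1 hev).add_one
        rw [if_neg hev, if_pos this]; omega
    · left
      have h1 : ((k : ℕ) + 1) / m = (k : ℕ) / m := by
        rw [Nat.succ_div, if_neg hd, add_zero]
      have h2 : ((k : ℕ) + 1) % m = (k : ℕ) % m + 1 := by
        have h4 := Nat.div_add_mod ((k : ℕ) + 1) m
        rw [h1] at h4
        omega
      have h5 : (k : ℕ) % m + 1 < m := by
        rw [← h2]; exact Nat.mod_lt _ hm0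
      refine ⟨h1.symm, ?_⟩
      rw [h1, h2]
      by_cases hev : Even ((k : ℕ) / m)
      · rw [if_pos hev, if_pos hev]; left; rfl
      · rw [if_neg hev, if_neg hev]; right; omega
  · have hcard : (Finset.univ : Finset (Fin N)).card = N := by simp
    refine le_trans ?_ hcard.le
    refine Finset.card_le_card_of_injOn (fun k : Fin (N * m - 1) => (e0 k.succ).1)
      (fun _ _ => mem_coe.2 (mem_univ _)) ?_
    have key : ∀ k : Fin (N * m - 1), (e0 k.castSucc).1 ≠ (e0 k.succ).1 → m ∣ (k : ℕ) + 1 := by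
      intro k hk
      by_contra hd
      apply hk
      have hk1 : ((k.succ : Fin (N * m - 1 + 1)) : ℕ) = (k : ℕ) + 1 := Fin.val_succ k
      simp only [e0, Fin.mk.injEq, hk1, Fin.val_castSucc]
      rw [Nat.succ_div, if_neg hd, add_zero]
    intro k hk k' hk' h
    have d1 := key k (mem_filter.1 (mem_coe.1 hk)).2
    have d2 := key k' (mem_filter.1 (mem_coe.1 hk')).2
    have hk1 : ((k.succ : Fin (N * m - 1 + 1)) : ℕ) = (k : ℕ) + 1 := Fin.val_succ k
    have hk1' : ((k'.succ : Fin (N * m - 1 + 1)) : ℕ) = (k' : ℕ) + 1 := Fin.val_succ k'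
    simp only [e0, Fin.mk.injEq, hk1, hk1'] at h
    apply Fin.ext
    have e1 := Nat.div_mul_cancel d1
    have e2 := Nat.div_mul_cancel d2
    rw [h] at e1
    omega

end Pool.Agent.N940.MM.Glue
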