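import Pool.Agent.N940.MM.Stm

/-!
# Poincare inequality along a chain for parity strings, averaging lemma
-/

set_option autoImplicit false

namespace Pool.Agent.N940.MM.Poi

open Finset

/-! ### product Bernoulli law -/

/-- expectation for independent bits -/
noncomputable def E (n : ℕ) (p : ℝ) (f : (Fin n → Bool) → ℝ) : ℝ := ∑ P, wt p P * f P

lemma wt_cons (n : ℕ) (p : ℝ) (b : Bool) (P : Fin n → Bool) :
    wt p (Fin.cons b P : Fin (n + 1) → Bool) = (if b then p else 1 - p) * wt p P := by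
  unfold wt
  rw [Fin.prod_univ_succ]
  simp

lemma wt_snoc (n : ℕ) (p : ℝ) (b : Bool) (P : Fin n → Bool) :
    wt p (Fin.snoc P b : Fin (n + 1) → Bool) = (if b then p else 1 - p) * wt p P := by
  unfold wt
  rw [Fin.prod_univ_castSucc]
  simp [mul_comm]

lemma sum_cons (n : ℕ) (F : (Fin (n + 1) → Bool) → ℝ) :
    ∑ P, F P = ∑ P : Fin n → Bool, F (Fin.cons true P) +
      ∑ P : Fin n → Bool, F (Fin.cons false P) := by
  rw [← (Fin.consEquiv fun _ : Fin (n + 1) => Bool).sum_comp, Fintype.sum_prod_type]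
  simp [Fin.consEquiv]

lemma sum_snoc {M : Type} [AddCommMonoid M] (n : ℕ) (F : (Fin (n + 1) → Bool) → M) :
    ∑ P, F P = ∑ P : Fin n → Bool, (F (Fin.snoc P true) + F (Fin.snoc P false)) := by
  rw [← (Fin.snocEquiv fun _ : Fin (n + 1) => Bool).sum_comp, Fintype.sum_prod_type]
  simp [Fin.snocEquiv, Finset.sum_add_distrib]

lemma E_succ (n : ℕ) (p : ℝ) (f : (Fin (n + 1) → Bool) → ℝ) :
    E (n + 1) p f = p * E n p (fun P => f (Fin.cons true P)) +
      (1 - p) * E n p (fun P => f (Fin.cons false P)) := by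
  unfold E
  rw [sum_cons]
  simp only [wt_cons, Finset.mul_sum, if_true, mul_assoc]
  simp

lemma E_add (n : ℕ) (p : ℝ) (f g : (Fin n → Bool) → ℝ) :
    E n p (fun P => f P + g P) = E n p f + E n p g := by
  unfold E
  rw [← Finset.sum_add_distrib]
  exact Finset.sum_congr rfl fun P _ => by ring

lemma E_sub (n : ℕ) (p : ℝ) (f g : (Fin n → Bool) → ℝ) :
    E n p (fun P => f P - g P) = E n p f - E n p g := by
  unfold E
  rw [← Finset.sum_sub_distrib]
  exact Finset.sum_congr rfl fun P _ => by ring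

lemma E_smul (n : ℕ) (p c : ℝ) (f : (Fin n → Bool) → ℝ) :
    E n p (fun P => c * f P) = c * E n p f := by
  unfold E
  rw [Finset.mul_sum]
  exact Finset.sum_congr rfl fun P _ => by ring

lemma E_one (n : ℕ) (p : ℝ) : E n p (fun _ => 1) = 1 := by
  induction n with
  | zero => simp [E, wt]
  | succ n ih => rw [E_succ, ih]; ring

lemma E_const (n : ℕ) (p c : ℝ) : E n p (fun _ => c) = c := by
  have := E_smul n p c (fun _ => 1)
  simpa [E_one] using this

lemma wt_nonneg {X : Type} [Fintype X] {p : ℝ} (h0 : 0 ≤ p) (h1 : p ≤ 1) (P : X → Bool) :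
    0 ≤ wt p P := by
  unfold wt
  refine Finset.prod_nonneg fun x _ => ?_
  split_ifs <;> linarith

lemma E_mono (n : ℕ) {p : ℝ} (h0 : 0 ≤ p) (h1 : p ≤ 1) (f g : (Fin n → Bool) → ℝ)
    (h : ∀ P, f P ≤ g P) : E n p f ≤ E n p g :=
  Finset.sum_le_sum fun P _ => mul_le_mul_of_nonneg_left (h P) (wt_nonneg h0 h1 P)

lemma E_abs (n : ℕ) {p : ℝ} (h0 : 0 ≤ p) (h1 : p ≤ 1) (f : (Fin n → Bool) → ℝ) (c : ℝ)
    (h : ∀ P, |f P| ≤ c) : |E n p f| ≤ c := by
  rw [abs_le]
  constructor
  · have := E_mono n h0 h1 (fun _ => -c) f (fun P => (abs_le.mp (h P)).1)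
    rwa [E_const] at this
  · have := E_mono n h0 h1 f (fun _ => c) (fun P => (abs_le.mp (h P)).2)
    rwa [E_const] at this

/-- variance for independent bits -/
noncomputable def Va (n : ℕ) (p : ℝ) (f : (Fin n → Bool) → ℝ) : ℝ :=
  E n p (fun P => (f P - E n p f) ^ 2)

lemma Va_eq (n : ℕ) (p : ℝ) (f : (Fin n → Bool) → ℝ) :
    Va n p f = E n p (fun P => f P ^ 2) - (E n p f) ^ 2 := by
  unfold Va
  have h : (fun P => (f P - E n p f) ^ 2) =
      fun P => (f P ^ 2 - 2 * E n p f * f P) + (E n p f) ^ 2 := by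
    funext P; ring
  rw [h, E_add, E_sub, E_smul, E_const]
  ring

lemma Va_succ (n : ℕ) (p : ℝ) (f : (Fin (n + 1) → Bool) → ℝ) :
    Va (n + 1) p f = p * Va n p (fun P => f (Fin.cons true P)) +
      (1 - p) * Va n p (fun P => f (Fin.cons false P)) +
      p * (1 - p) * (E n p (fun P => f (Fin.cons true P)) -
        E n p (fun P => f (Fin.cons false P))) ^ 2 := by
  rw [Va_eq, Va_eq, Va_eq, E_succ, E_succ]
  ring

/-! ### the flips -/

lemma flp_cons_zero (n : ℕ) (b : Bool) (P : Fin (n + 1) → Bool) :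
    flp (0 : Fin (n + 1)).castSucc (0 : Fin (n + 1)).succ
      (Fin.cons b P : Fin (n + 2) → Bool) =
      Fin.cons (!b) (Function.update P 0 (!(P 0))) := by
  funext z
  refine Fin.cases ?_ (fun z => ?_) z
  · simp [flp]
  · refine Fin.cases ?_ (fun w => ?_) z
    · simp [flp]
    · simp [flp, Fin.ext_iff]

lemma flp_cons_succ (n : ℕ) (b : Bool) (P : Fin (n + 1) → Bool) (k : Fin n) :
    flp (k.succ : Fin (n + 1)).castSucc (k.succ : Fin (n + 1)).succ
      (Fin.cons b P : Fin (n + 2) → Bool) =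
      Fin.cons b (flp k.castSucc k.succ P) := by
  funext z
  refine Fin.cases ?_ (fun z => ?_) z
  · simp [flp, Fin.ext_iff]
  · simp [flp, Fin.ext_iff]

lemma last_cons (n : ℕ) (b : Bool) (P : Fin (n + 1) → Bool) :
    (Function.update (Fin.cons b P : Fin (n + 2) → Bool) (Fin.last (n + 1))
      (!((Fin.cons b P : Fin (n + 2) → Bool) (Fin.last (n + 1))))) =
      Fin.cons b (Function.update P (Fin.last n) (!(P (Fin.last n)))) := by
  rw [← Fin.succ_last, Fin.cons_succ]
  funext z
  refine Fin.cases ?_ (fun z => ?_) z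
  · simp [Function.update, Fin.ext_iff]
  · simp [Function.update]

lemma E_flip0 (n : ℕ) (p : ℝ) (f : (Fin (n + 1) → Bool) → ℝ) :
    E (n + 1) p (fun P => f (Function.update P 0 (!(P 0)))) - E (n + 1) p f =
      (1 - 2 * p) * (E n p (fun P => f (Fin.cons true P)) -
        E n p (fun P => f (Fin.cons false P))) := by
  rw [E_succ, E_succ]
  simp only [Fin.cons_zero, Fin.update_cons_zero, Bool.not_true, Bool.not_false]
  ring

theorem key {p : ℝ} (hp : 1 / 4 ≤ p) (hp' : p ≤ 1 / 2) : ∀ (n : ℕ) (κ : Fin (n + 1) → ℝ),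
    (∀ k, 0 ≤ κ k) → ∃ b W : ℝ, 0 ≤ b ∧ W + b ^ 2 ≤ 4 * ∑ k, κ k ^ 2 ∧
    ∀ Ψ : (Fin (n + 1) → Bool) → ℝ,
      (∀ k : Fin n, ∀ P, |Ψ P - Ψ (flp k.castSucc k.succ P)| ≤ κ k.castSucc) →
      (∀ P, |Ψ P - Ψ (Function.update P (Fin.last n) (!(P (Fin.last n))))| ≤ κ (Fin.last n)) →
      |E n p (fun P => Ψ (Fin.cons true P)) - E n p (fun P => Ψ (Fin.cons false P))| ≤ b ∧
      4 * Va (n + 1) p Ψ ≤ W := by
  have h0 : 0 ≤ p := by linarith
  have h1 : p ≤ 1 := by linarith
  intro n
  induction n with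
  | zero =>
    intro κ hκ
    refine ⟨κ 0, κ 0 ^ 2, hκ 0, ?_, ?_⟩
    · simp only [Fin.sum_univ_succ, Finset.univ_eq_empty, Finset.sum_empty]
      nlinarith [sq_nonneg (κ 0)]
    · intro Ψ _ h2
      have e : |E 0 p (fun P => Ψ (Fin.cons true P)) -
          E 0 p (fun P => Ψ (Fin.cons false P))| ≤ κ 0 := by
        have h := h2 (Fin.cons true (fun i => i.elim0))
        have e1 : (Function.update (Fin.cons true (fun i => i.elim0) : Fin 1 → Bool) (Fin.last 0)
            (!((Fin.cons true (fun i => i.elim0) : Fin 1 → Bool) (Fin.last 0)))) =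
            Fin.cons false (fun i => i.elim0) := by
          funext z
          have hz : z = 0 := by
            have := z.2
            exact Fin.ext (by simp)
          subst hz
          simp
        rw [e1] at h
        rw [← E_sub]
        refine E_abs 0 h0 h1 _ _ fun P => ?_
        have hP : P = fun i => i.elim0 := Subsingleton.elim _ _
        rw [hP]
        exact h
      refine ⟨e, ?_⟩
      rw [Va_succ]
      have hv : ∀ f : (Fin 0 → Bool) → ℝ, Va 0 p f = 0 := by
        intro f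
        simp [Va, E, wt]
      rw [hv, hv]
      set d := E 0 p (fun P => Ψ (Fin.cons true P)) - E 0 p (fun P => Ψ (Fin.cons false P))
      have hd : d ^ 2 ≤ κ 0 ^ 2 := sq_le_sq' (abs_le.mp e).1 (abs_le.mp e).2
      have hpp : 4 * (p * (1 - p)) ≤ 1 := by nlinarith [sq_nonneg (1 - 2 * p)]
      nlinarith [sq_nonneg d, mul_nonneg (sub_nonneg.mpr hpp) (sq_nonneg d)]
  | succ n ih =>
    intro κ hκ
    obtain ⟨b', W', hb', hW', H⟩ := ih (fun k => κ k.succ) (fun k => hκ _)
    refine ⟨κ 0 + b' / 2, W' + (κ 0 + b' / 2) ^ 2, by linarith [hκ 0], ?_, ?_⟩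
    · rw [Fin.sum_univ_succ]
      nlinarith [sq_nonneg (κ 0 - b' / 2)]
    · intro Ψ hΨ1 hΨ2
      have HS : ∀ s : Bool,
          |E n p (fun P => Ψ (Fin.cons s (Fin.cons true P : Fin (n + 1) → Bool))) -
            E n p (fun P => Ψ (Fin.cons s (Fin.cons false P : Fin (n + 1) → Bool)))| ≤ b' ∧
          4 * Va (n + 1) p (fun P => Ψ (Fin.cons s P)) ≤ W' := by
        intro s
        refine H (fun P => Ψ (Fin.cons s P)) ?_ ?_
        · intro k P
          have h := hΨ1 k.succ (Fin.cons s P)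
          rw [flp_cons_succ] at h
          simpa using h
        · intro P
          have h := hΨ2 (Fin.cons s P)
          rw [last_cons] at h
          simpa using h
      have hd : |E (n + 1) p (fun P => Ψ (Fin.cons true P)) -
          E (n + 1) p (fun P => Ψ (Fin.cons false P))| ≤ κ 0 + b' / 2 := by
        have h3 : |E (n + 1) p (fun P => Ψ (Fin.cons true P) -
            Ψ (Fin.cons false (Function.update P 0 (!(P 0)))))| ≤ κ 0 := by
          refine E_abs _ h0 h1 _ _ fun P => ?_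
          have h := hΨ1 0 (Fin.cons true P)
          rw [flp_cons_zero] at h
          simpa using h
        have h4 := E_flip0 n p (fun P => Ψ (Fin.cons false P))
        rw [E_sub] at h3
        have h5 : |(1 - 2 * p) * (E n p (fun P => Ψ (Fin.cons false
            (Fin.cons true P : Fin (n + 1) → Bool))) -
              E n p (fun P => Ψ (Fin.cons false (Fin.cons false P : Fin (n + 1) → Bool))))| ≤
            b' / 2 := by
          rw [abs_mul, abs_of_nonneg (by linarith : 0 ≤ 1 - 2 * p)]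
          have := (HS false).1
          calc _ ≤ (1 / 2) * b' := mul_le_mul (by linarith) this (abs_nonneg _) (by norm_num)
            _ = b' / 2 := by ring
        rw [← h4] at h5
        calc _ = |(E (n + 1) p (fun P => Ψ (Fin.cons true P)) -
            E (n + 1) p (fun P => Ψ (Fin.cons false (Function.update P 0 (!(P 0)))))) +
            (E (n + 1) p (fun P => Ψ (Fin.cons false (Function.update P 0 (!(P 0))))) -
              E (n + 1) p (fun P => Ψ (Fin.cons false P)))| := by congr 1; ring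
          _ ≤ _ := (abs_add_le _ _).trans (add_le_add h3 h5)
      refine ⟨hd, ?_⟩
      rw [Va_succ]
      set d := E (n + 1) p (fun P => Ψ (Fin.cons true P)) -
        E (n + 1) p (fun P => Ψ (Fin.cons false P))
      have hd2 : d ^ 2 ≤ (κ 0 + b' / 2) ^ 2 := sq_le_sq' (abs_le.mp hd).1 (abs_le.mp hd).2
      have hpp : 4 * (p * (1 - p)) ≤ 1 := by nlinarith [sq_nonneg (1 - 2 * p)]
      have hT := (HS true).2
      have hF := (HS false).2
      have e1 : 4 * (p * (1 - p) * d ^ 2) ≤ d ^ 2 := by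
        nlinarith [mul_nonneg (sub_nonneg.mpr hpp) (sq_nonneg d)]
      have e2 : p * (4 * Va (n + 1) p (fun P => Ψ (Fin.cons true P))) ≤ p * W' :=
        mul_le_mul_of_nonneg_left hT h0
      have e3 : (1 - p) * (4 * Va (n + 1) p (fun P => Ψ (Fin.cons false P))) ≤ (1 - p) * W' :=
        mul_le_mul_of_nonneg_left hF (by linarith)
      nlinarith

/-! ### even strings -/

/-- the bit that makes the number of `true`s even -/
def lb {n : ℕ} (P : Fin n → Bool) : Bool := !(decide (evn P))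

lemma evn_iff {X : Type} [Fintype X] (P : X → Bool) :
    evn P ↔ Even (∑ x, if P x = true then 1 else 0) := by
  unfold evn
  rw [Finset.card_filter]

lemma evn_snoc (n : ℕ) (P : Fin n → Bool) (b : Bool) :
    evn (Fin.snoc P b : Fin (n + 1) → Bool) ↔ b = lb P := by
  have h : evn (Fin.snoc P b : Fin (n + 1) → Bool) ↔
      Even ((∑ x, if P x = true then 1 else 0) + if b = true then 1 else 0) := by
    rw [evn_iff, Fin.sum_univ_castSucc]
    simp only [Fin.snoc_castSucc, Fin.snoc_last]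
  rw [h]
  unfold lb
  cases b
  · simp [evn_iff]
  · simp [evn_iff, Nat.even_add_one]

lemma sum_even {M : Type} [AddCommMonoid M] (n : ℕ) (F : (Fin (n + 1) → Bool) → M) :
    ∑ P, (if evn P then F P else 0) = ∑ P : Fin n → Bool, F (Fin.snoc P (lb P)) := by
  rw [sum_snoc]
  refine Finset.sum_congr rfl fun P _ => ?_
  simp only [evn_snoc]
  cases lb P <;> simp

lemma evn_cons (n : ℕ) (P : Fin n → Bool) (b : Bool) :
    evn (Fin.cons b P : Fin (n + 1) → Bool) ↔ b = lb P := by
  have h : evn (Fin.cons b P : Fin (n + 1) → Bool) ↔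
      Even ((if b = true then 1 else 0) + ∑ x, if P x = true then 1 else 0) := by
    rw [evn_iff, Fin.sum_univ_succ]
    simp only [Fin.cons_zero, Fin.cons_succ]
  rw [h, add_comm]
  unfold lb
  cases b
  · simp [evn_iff]
  · simp [evn_iff, Nat.even_add_one]

lemma evn_update {X : Type} [Fintype X] [DecidableEq X] (P : X → Bool) (x : X) :
    evn (Function.update P x (!(P x))) ↔ ¬ evn P := by
  rw [evn_iff, evn_iff, ← Finset.add_sum_erase _ _ (Finset.mem_univ x),
    ← Finset.add_sum_erase _ (fun x => if P x = true then 1 else 0) (Finset.mem_univ x)]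
  have h : (∑ y ∈ Finset.univ.erase x, if (Function.update P x (!(P x))) y = true then 1 else 0) =
      ∑ y ∈ Finset.univ.erase x, if P y = true then 1 else 0 := by
    refine Finset.sum_congr rfl fun y hy => ?_
    rw [Function.update_of_ne (Finset.ne_of_mem_erase hy)]
  rw [h]
  generalize (∑ y ∈ Finset.univ.erase x, if P y = true then 1 else 0) = m
  cases P x
  · simp [Nat.even_add_one, add_comm 1]
  · simp [Nat.even_add_one, add_comm 1]

lemma flp_eq {X : Type} [DecidableEq X] {x y : X} (h : x ≠ y) (P : X → Bool) :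
    flp x y P = Function.update (Function.update P x (!(P x))) y
      (!((Function.update P x (!(P x))) y)) := by
  funext z
  unfold flp
  by_cases h1 : z = y
  · subst h1
    simp [Function.update_of_ne h.symm]
  · by_cases h2 : z = x
    · subst h2
      simp [Function.update_of_ne h]
    · simp [h1, h2]

lemma evn_flp {X : Type} [Fintype X] [DecidableEq X] {x y : X} (h : x ≠ y) (P : X → Bool) :
    evn (flp x y P) ↔ evn P := by
  rw [flp_eq h, evn_update, evn_update, not_not]

lemma even_prob {p : ℝ} (h1 : p ≤ 1 / 2) (n : ℕ) :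
    1 / 2 ≤ E n p (fun P => if evn P then 1 else 0) := by
  induction n with
  | zero => simp [E, wt, evn]; norm_num
  | succ n ih =>
    rw [E_succ]
    have h2 : E n p (fun P => if evn (Fin.cons true P : Fin (n + 1) → Bool) then (1 : ℝ) else 0) =
        1 - E n p (fun P => if evn P then 1 else 0) := by
      have h4 : E n p (fun P => (1 : ℝ) - if evn P then 1 else 0) =
          1 - E n p (fun P => if evn P then 1 else 0) := by
        rw [E_sub, E_one]
      rw [← h4]
      congr 1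
      funext P
      simp only [evn_cons, lb]
      by_cases h : evn P <;> simp [h]
    have h3 : E n p (fun P => if evn (Fin.cons false P : Fin (n + 1) → Bool) then (1 : ℝ) else 0) =
        E n p (fun P => if evn P then 1 else 0) := by
      congr 1
      funext P
      simp only [evn_cons, lb]
      by_cases h : evn P <;> simp [h]
    rw [h2, h3]
    nlinarith

/-! ### general properties of `EW` -/

section EWgen

variable {X : Type} [Fintype X] [DecidableEq X]

/-- the normalization -/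
noncomputable def nr (X : Type) [Fintype X] [DecidableEq X] (p : ℝ) : ℝ :=
  ∑ P : X → Bool, if evn P then wt p P else 0

lemma nr_pos {p : ℝ} (h0 : 0 ≤ p) (h1 : p < 1) : 0 < nr X p := by
  unfold nr
  refine Finset.sum_pos' (fun P _ => ?_) ⟨fun _ => false, Finset.mem_univ _, ?_⟩
  · split_ifs
    · exact wt_nonneg h0 h1.le P
    · exact le_rfl
  · rw [if_pos (by simp [evn])]
    unfold wt
    refine Finset.prod_pos fun x _ => ?_
    simp [h1]

lemma EW_add {E : Type} [AddCommGroup E] [Module ℝ E] (p : ℝ) (f g : (X → Bool) → E) :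
    EW p (fun P => f P + g P) = EW p f + EW p g := by
  unfold EW
  rw [← smul_add, ← Finset.sum_add_distrib]
  congr 1
  refine Finset.sum_congr rfl fun P _ => ?_
  split_ifs <;> simp

lemma EW_sub {E : Type} [AddCommGroup E] [Module ℝ E] (p : ℝ) (f g : (X → Bool) → E) :
    EW p (fun P => f P - g P) = EW p f - EW p g := by
  unfold EW
  rw [← smul_sub, ← Finset.sum_sub_distrib]
  congr 1
  refine Finset.sum_congr rfl fun P _ => ?_
  split_ifs <;> simp [smul_sub]

lemma EW_const {E : Type} [AddCommGroup E] [Module ℝ E] {p : ℝ} (h0 : 0 ≤ p) (h1 : p < 1)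
    (c : E) : EW p (fun _ : X → Bool => c) = c := by
  unfold EW
  have h : (∑ P : X → Bool, if evn P then wt p P • c else 0) = nr X p • c := by
    unfold nr
    rw [Finset.sum_smul]
    refine Finset.sum_congr rfl fun P _ => ?_
    split_ifs <;> simp
  rw [h, smul_smul]
  have := (nr_pos (X := X) h0 h1).ne'
  unfold nr at this ⊢
  rw [inv_mul_cancel₀ this, one_smul]

lemma EW_smul (p c : ℝ) (f : (X → Bool) → ℝ) :
    EW p (fun P => c * f P) = c * EW p f := by
  unfold EW
  simp only [smul_eq_mul]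
  rw [← mul_assoc, mul_comm c, mul_assoc]
  congr 1
  rw [Finset.mul_sum]
  refine Finset.sum_congr rfl fun P _ => ?_
  split_ifs
  · ring
  · simp

lemma EW_mono {p : ℝ} (h0 : 0 ≤ p) (h1 : p < 1) (f g : (X → Bool) → ℝ)
    (h : ∀ P, evn P → f P ≤ g P) : EW p f ≤ EW p g := by
  unfold EW
  simp only [smul_eq_mul]
  refine mul_le_mul_of_nonneg_left ?_ (inv_nonneg.mpr (nr_pos (X := X) h0 h1).le)
  refine Finset.sum_le_sum fun P _ => ?_
  split_ifs with hP
  · exact mul_le_mul_of_nonneg_left (h P hP) (wt_nonneg h0 h1.le P)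
  · exact le_rfl

lemma EW_norm {E : Type} [NormedAddCommGroup E] [NormedSpace ℝ E] {p : ℝ} (h0 : 0 ≤ p)
    (h1 : p < 1) (f : (X → Bool) → E) (g : (X → Bool) → ℝ)
    (h : ∀ P, evn P → ‖f P‖ ≤ g P) : ‖EW p f‖ ≤ EW p g := by
  unfold EW
  have hn := nr_pos (X := X) h0 h1
  unfold nr at hn
  rw [norm_smul, norm_inv, Real.norm_of_nonneg hn.le]
  simp only [smul_eq_mul]
  refine mul_le_mul_of_nonneg_left ?_ (inv_nonneg.mpr hn.le)
  refine (norm_sum_le _ _).trans (Finset.sum_le_sum fun P _ => ?_)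
  split_ifs with hP
  · rw [norm_smul, Real.norm_of_nonneg (wt_nonneg h0 h1.le P)]
    exact mul_le_mul_of_nonneg_left (h P hP) (wt_nonneg h0 h1.le P)
  · simp

lemma EW_var {p : ℝ} (h0 : 0 ≤ p) (h1 : p < 1) (f : (X → Bool) → ℝ) (c : ℝ) :
    EW p (fun P => (f P - c) ^ 2) = EW p (fun P => (f P - EW p f) ^ 2) + (EW p f - c) ^ 2 := by
  have e : ∀ d : ℝ, EW p (fun P => (f P - d) ^ 2) =
      EW p (fun P => f P ^ 2) - 2 * d * EW p f + d ^ 2 := by
    intro d
    have h : (fun P => (f P - d) ^ 2) = fun P => (f P ^ 2 - 2 * d * f P) + d ^ 2 := by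
      funext P; ring
    rw [h, EW_add, EW_sub, EW_smul, EW_const h0 h1]
  rw [e, e]
  ring

lemma EW_nonneg {p : ℝ} (h0 : 0 ≤ p) (h1 : p < 1) (f : (X → Bool) → ℝ)
    (h : ∀ P, evn P → 0 ≤ f P) : 0 ≤ EW p f := by
  have := EW_mono h0 h1 (fun _ => 0) f h
  rwa [EW_const h0 h1] at this

lemma EW_abs_le_sqrt {p : ℝ} (h0 : 0 ≤ p) (h1 : p < 1) (f : (X → Bool) → ℝ) :
    EW p (fun P => |f P|) ≤ Real.sqrt (EW p (fun P => f P ^ 2)) := by
  refine Real.le_sqrt_of_sq_le ?_
  have h := EW_var h0 h1 (fun P => |f P|) 0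
  simp only [sub_zero, sq_abs] at h
  rw [h]
  have := EW_nonneg h0 h1 (fun P : X → Bool => (|f P| - EW p (fun P => |f P|)) ^ 2)
    (fun P _ => sq_nonneg _)
  linarith

end EWgen

/-! ### the Poincare inequality -/

lemma snoc_flp (n : ℕ) (P : Fin (n + 1) → Bool) (b : Bool) (k : Fin n) :
    (Fin.snoc (flp k.castSucc k.succ P) b : Fin (n + 2) → Bool) =
      flp (k.castSucc : Fin (n + 1)).castSucc (k.castSucc : Fin (n + 1)).succ
        (Fin.snoc P b : Fin (n + 2) → Bool) := by
  funext z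
  refine Fin.lastCases ?_ (fun z => ?_) z
  · have h1 := k.2
    simp [flp, Fin.ext_iff]
    omega
  · simp [flp, Fin.ext_iff]

lemma snoc_last (n : ℕ) (P : Fin (n + 1) → Bool) (b : Bool) :
    (Fin.snoc (Function.update P (Fin.last n) (!(P (Fin.last n)))) (!b) : Fin (n + 2) → Bool) =
      flp (Fin.last n).castSucc (Fin.last n).succ
        (Fin.snoc P b : Fin (n + 2) → Bool) := by
  funext z
  refine Fin.lastCases ?_ (fun z => ?_) z
  · simp [flp, Fin.ext_iff]
  · have h1 := z.2
    by_cases h : z = Fin.last n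
    · subst h
      simp [flp, Fin.ext_iff]
    · have h2 : (z : ℕ) ≠ n := fun hh => h (Fin.ext hh)
      have h3 : (z : ℕ) ≠ n + 1 := by omega
      simp [flp, Fin.ext_iff, h2, h3]

lemma lb_flp (n : ℕ) (P : Fin (n + 1) → Bool) (k : Fin n) :
    lb (flp k.castSucc k.succ P) = lb P := by
  have h := evn_flp (Fin.castSucc_lt_succ (i := k)).ne P
  unfold lb
  by_cases h1 : evn P
  · simp [h1, h.mpr h1]
  · have h2 : ¬ evn (flp k.castSucc k.succ P) := fun hh => h1 (h.mp hh)
    simp [h1, h2]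

lemma lb_last (n : ℕ) (P : Fin (n + 1) → Bool) :
    lb (Function.update P (Fin.last n) (!(P (Fin.last n)))) = !(lb P) := by
  have h := evn_update P (Fin.last n)
  unfold lb
  by_cases h1 : evn P
  · have h2 : ¬ evn (Function.update P (Fin.last n) (!(P (Fin.last n)))) := by
      rw [h]; simpa using h1
    simp [h1, h2]
  · simp [h1, h.mpr h1]

lemma nr_half {p : ℝ} (h1 : p ≤ 1 / 2) (n : ℕ) : 1 / 2 ≤ nr (Fin n) p := by
  have h := even_prob h1 n
  unfold E at h
  unfold nr
  simpa using h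

theorem poi : S_POI := by
  intro T p hp hp' Φ κ hΦ
  have h0 : 0 ≤ p := by linarith
  have h1 : p < 1 := by linarith
  cases T with
  | zero =>
    have e : ∀ P : Fin (0 + 1) → Bool, evn P → P = fun _ => false := by
      intro P hP
      rw [evn_iff] at hP
      funext z
      have hz : z = 0 := by
        have := z.2
        exact Fin.ext (by simp)
      subst hz
      by_contra hne
      rw [Bool.not_eq_false] at hne
      rw [Fin.sum_univ_succ] at hP
      simp [hne] at hP
    have h2 : EW p Φ = Φ (fun _ => false) := by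
      have h3 := EW_mono h0 h1 Φ (fun _ => Φ (fun _ => false)) (fun P hP => by rw [e P hP])
      have h4 := EW_mono h0 h1 (fun _ => Φ (fun _ => false)) Φ (fun P hP => by rw [e P hP])
      rw [EW_const h0 h1] at h3 h4
      exact le_antisymm h3 h4
    have h5 := EW_mono h0 h1 (fun P => (Φ P - EW p Φ) ^ 2) (fun _ => 0)
      (fun P hP => by rw [e P hP, h2]; simp)
    rw [EW_const h0 h1] at h5
    simpa using h5
  | succ n =>
    have hκ : ∀ k, 0 ≤ κ k := fun k =>
      (abs_nonneg _).trans (hΦ k (fun _ => false) (by simp [evn]))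
    obtain ⟨b, W, hb, hW, H⟩ := key hp hp' n κ hκ
    set Ψ : (Fin (n + 1) → Bool) → ℝ := fun P => Φ (Fin.snoc P (lb P)) with hΨ
    have h2 : 4 * Va (n + 1) p Ψ ≤ W := by
      refine (H Ψ ?_ ?_).2
      · intro k P
        have h := hΦ k.castSucc (Fin.snoc P (lb P)) ((evn_snoc _ _ _).mpr rfl)
        rw [← snoc_flp] at h
        rw [hΨ]
        simp only [lb_flp]
        exact h
      · intro P
        have h := hΦ (Fin.last n) (Fin.snoc P (lb P)) ((evn_snoc _ _ _).mpr rfl)
        rw [← snoc_last] at h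
        rw [hΨ]
        simp only [lb_last]
        exact h
    have h3 : EW p (fun P => (Φ P - EW p Φ) ^ 2) ≤
        EW p (fun P => (Φ P - E (n + 1) p Ψ) ^ 2) := by
      rw [EW_var h0 h1 Φ (E (n + 1) p Ψ)]
      nlinarith [sq_nonneg (EW p Φ - E (n + 1) p Ψ)]
    have h4 : EW p (fun P => (Φ P - E (n + 1) p Ψ) ^ 2) ≤ 2 * Va (n + 1) p Ψ := by
      unfold EW
      simp only [smul_eq_mul]
      have h5 := nr_half hp' (n + 1 + 1)
      have h6 : (∑ P : Fin (n + 1 + 1) → Bool, if evn P then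
          wt p P * (Φ P - E (n + 1) p Ψ) ^ 2 else 0) ≤ Va (n + 1) p Ψ := by
        rw [sum_even]
        unfold Va
        conv_rhs => unfold E
        refine Finset.sum_le_sum fun P _ => ?_
        rw [wt_snoc]
        have h7 : (if lb P = true then p else 1 - p) ≤ 1 := by split_ifs <;> linarith
        have h8 := wt_nonneg h0 h1.le P
        have h9 : 0 ≤ wt p P * (Ψ P - E (n + 1) p Ψ) ^ 2 := mul_nonneg h8 (sq_nonneg _)
        calc _ = (if lb P = true then p else 1 - p) * (wt p P * (Ψ P - E (n + 1) p Ψ) ^ 2) := by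
              rw [hΨ]; ring
          _ ≤ 1 * (wt p P * (Ψ P - E (n + 1) p Ψ) ^ 2) := mul_le_mul_of_nonneg_right h7 h9
          _ = _ := one_mul _
      have h7 : 0 ≤ Va (n + 1) p Ψ := by
        unfold Va E
        exact Finset.sum_nonneg fun P _ => mul_nonneg (wt_nonneg h0 h1.le P) (sq_nonneg _)
      have h8 : (nr (Fin (n + 1 + 1)) p)⁻¹ ≤ 2 := by
        rw [inv_le_comm₀ (by linarith) (by norm_num)]
        linarith
      calc _ ≤ (nr (Fin (n + 1 + 1)) p)⁻¹ * Va (n + 1) p Ψ := by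
            unfold nr
            exact mul_le_mul_of_nonneg_left h6 (inv_nonneg.mpr (by unfold nr at h5; linarith))
        _ ≤ 2 * Va (n + 1) p Ψ := mul_le_mul_of_nonneg_right h8 h7
    have h5 : 0 ≤ ∑ k, κ k ^ 2 := Finset.sum_nonneg fun k _ => sq_nonneg _
    nlinarith [sq_nonneg b]

/-! ### the averaging lemma -/

lemma exp_lip {a b : ℝ} (ha : 0 ≤ a) (hb : 0 ≤ b) :
    |Real.exp (-a ^ 2 / 2) - Real.exp (-b ^ 2 / 2)| ≤ |a - b| := by
  have h := Convex.norm_image_sub_le_of_norm_hasDerivWithin_le (𝕜 := ℝ)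
    (f := fun x : ℝ => Real.exp (-x ^ 2 / 2)) (f' := fun x => Real.exp (-x ^ 2 / 2) * (-x))
    (s := Set.Ici 0) (C := 1) (x := b) (y := a) ?_ ?_ (convex_Ici 0) hb ha
  · simpa using h
  · intro x _
    have h1 : HasDerivAt (fun x : ℝ => -x ^ 2 / 2) (-x) x := by
      have := ((hasDerivAt_pow 2 x).neg).div_const 2
      refine HasDerivAt.congr_deriv this ?_
      norm_num
      ring
    exact (h1.exp).hasDerivWithinAt
  · intro x hx
    have hx : 0 ≤ x := hx
    rw [norm_mul, norm_neg, Real.norm_of_nonneg (Real.exp_pos _).le, Real.norm_of_nonneg hx]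
    have h1 : x ≤ Real.exp (x ^ 2 / 2) := by
      have := Real.add_one_le_exp (x ^ 2 / 2)
      nlinarith [sq_nonneg (x - 1)]
    have h2 : Real.exp (-x ^ 2 / 2) * Real.exp (x ^ 2 / 2) = 1 := by
      rw [← Real.exp_add]
      rw [show -x ^ 2 / 2 + x ^ 2 / 2 = 0 by ring, Real.exp_zero]
    calc _ ≤ Real.exp (-x ^ 2 / 2) * Real.exp (x ^ 2 / 2) :=
          mul_le_mul_of_nonneg_left h1 (Real.exp_pos _).le
      _ = 1 := h2

lemma exp_half {a b : ℝ} (ha : 0 ≤ a) (hab : a ≤ b) :
    |Real.exp (-a / 2) - Real.exp (-b / 2)| ≤ (b - a) / 2 := by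
  have h1 : Real.exp (-b / 2) ≤ Real.exp (-a / 2) := Real.exp_le_exp.mpr (by linarith)
  rw [abs_of_nonneg (by linarith)]
  have h2 : Real.exp (-b / 2) = Real.exp (-a / 2) * Real.exp (-(b - a) / 2) := by
    rw [← Real.exp_add]; congr 1; ring
  have h3 := Real.add_one_le_exp (-(b - a) / 2)
  have h4 : Real.exp (-a / 2) ≤ 1 := Real.exp_le_one_iff.mpr (by linarith)
  have h5 := Real.exp_pos (-a / 2)
  rw [h2]
  nlinarith

lemma exp_i (θ : ℝ) : ‖Complex.exp (Complex.I * (θ : ℂ)) - 1‖ ≤ |θ| := by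
  have := Real.norm_exp_I_mul_ofReal_sub_one_le (x := θ)
  simpa using this

theorem avg : S_AVG := by
  intro T p hp hp' V S2 Z κ ε τ hε hτ hS2 hZ hV hS
  have h0 : 0 ≤ p := by linarith
  have h1 : p < 1 := by linarith
  set K := ∑ k, κ k ^ 2 with hK
  have hK0 : 0 ≤ K := Finset.sum_nonneg fun k _ => sq_nonneg _
  set S : (Fin (T + 1) → Bool) → ℝ := fun P => Real.sqrt (S2 P + τ ^ 2) with hSd
  have hSs : ∀ P, S P ^ 2 = S2 P + τ ^ 2 := fun P =>
    Real.sq_sqrt (add_nonneg (hS2 P) (sq_nonneg _))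
  have hS0 : ∀ P, 0 ≤ S P := fun P => Real.sqrt_nonneg _
  set m := EW p V with hm
  set vV := EW p (fun P => (V P - m) ^ 2) with hvV
  set mS := EW p S with hmS
  set vS := EW p (fun P => (S P - mS) ^ 2) with hvS
  have pV : vV ≤ 4 * K := poi T p hp hp' V κ hV
  have pS : vS ≤ 4 * K := poi T p hp hp' S κ hS
  have vV0 : 0 ≤ vV := EW_nonneg h0 h1 _ fun P _ => sq_nonneg _
  have vS0 : 0 ≤ vS := EW_nonneg h0 h1 _ fun P _ => sq_nonneg _
  have mS0 : 0 ≤ mS := EW_nonneg h0 h1 _ fun P _ => hS0 P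
  set s2 := EW p S2 with hs2
  have s20 : 0 ≤ s2 := EW_nonneg h0 h1 _ fun P _ => hS2 P
  -- the second moment of S
  have e1 : s2 + τ ^ 2 = mS ^ 2 + vS := by
    have h := EW_var h0 h1 S 0
    simp only [sub_zero] at h
    have h2 : EW p (fun P => S P ^ 2) = s2 + τ ^ 2 := by
      simp only [hSs]
      rw [EW_add, EW_const h0 h1]
    rw [h2] at h
    rw [h]
    ring
  set b := Real.sqrt (s2 + vV + τ ^ 2) with hb
  have hb0 : 0 ≤ b := Real.sqrt_nonneg _
  have hbs : b ^ 2 = s2 + vV + τ ^ 2 := Real.sq_sqrt (by positivity)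
  have hbm : mS ≤ b := by
    refine Real.le_sqrt_of_sq_le ?_
    linarith
  have hbm2 : b - mS ≤ Real.sqrt (vS + vV) := by
    refine Real.le_sqrt_of_sq_le ?_
    nlinarith
  -- pointwise bound
  have hpt : ∀ P, evn P → ‖Complex.exp (Complex.I * ((V P - m : ℝ) : ℂ)) * Z P -
      Complex.exp ((-(s2 + vV) / 2 : ℝ) : ℂ)‖ ≤
      (ε + τ ^ 2) + (|V P - m| + (|S P - mS| + (b - mS))) := by
    intro P hP
    have n1 : ‖Complex.exp (Complex.I * ((V P - m : ℝ) : ℂ))‖ = 1 := by
      rw [mul_comm, Complex.norm_exp_ofReal_mul_I]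
    have a1 : ‖Complex.exp (Complex.I * ((V P - m : ℝ) : ℂ)) *
        (Z P - Complex.exp ((-(S2 P) / 2 : ℝ) : ℂ))‖ ≤ ε := by
      rw [norm_mul, n1, one_mul]
      exact hZ P hP
    have a2 : ‖(Complex.exp (Complex.I * ((V P - m : ℝ) : ℂ)) - 1) *
        Complex.exp ((-(S2 P) / 2 : ℝ) : ℂ)‖ ≤ |V P - m| := by
      rw [norm_mul, ← Complex.ofReal_exp, Complex.norm_real,
        Real.norm_of_nonneg (Real.exp_pos _).le]
      have h4 : Real.exp (-(S2 P) / 2) ≤ 1 := Real.exp_le_one_iff.mpr (by linarith [hS2 P])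
      calc _ ≤ |V P - m| * 1 :=
            mul_le_mul (exp_i _) h4 (Real.exp_pos _).le (abs_nonneg _)
        _ = _ := mul_one _
    have a3 : ‖(Complex.exp ((-(S2 P) / 2 : ℝ) : ℂ)) - Complex.exp ((-(s2 + vV) / 2 : ℝ) : ℂ)‖ ≤
        τ ^ 2 / 2 + |S P - b| + τ ^ 2 / 2 := by
      rw [← Complex.ofReal_exp, ← Complex.ofReal_exp, ← Complex.ofReal_sub, Complex.norm_real,
        Real.norm_eq_abs]
      have b1 := exp_half (hS2 P) (by nlinarith [sq_nonneg τ] : S2 P ≤ S2 P + τ ^ 2)
      have b2 := exp_half (by positivity : 0 ≤ s2 + vV)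
        (by nlinarith [sq_nonneg τ] : s2 + vV ≤ s2 + vV + τ ^ 2)
      have b3 := exp_lip (hS0 P) hb0
      rw [hSs P, hbs] at b3
      rw [abs_sub_comm] at b2
      calc |Real.exp (-(S2 P) / 2) - Real.exp (-(s2 + vV) / 2)| =
          |(Real.exp (-(S2 P) / 2) - Real.exp (-(S2 P + τ ^ 2) / 2)) +
            ((Real.exp (-(S2 P + τ ^ 2) / 2) - Real.exp (-(s2 + vV + τ ^ 2) / 2)) +
            (Real.exp (-(s2 + vV + τ ^ 2) / 2) - Real.exp (-(s2 + vV) / 2)))| := by
              congr 1; ring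
        _ ≤ (S2 P + τ ^ 2 - S2 P) / 2 + (|S P - b| + (s2 + vV + τ ^ 2 - (s2 + vV)) / 2) :=
          (abs_add_le _ _).trans (add_le_add b1 ((abs_add_le _ _).trans (add_le_add b3 b2)))
        _ = _ := by ring
    have a4 : |S P - b| ≤ |S P - mS| + (b - mS) := by
      calc |S P - b| = |(S P - mS) + (mS - b)| := by congr 1; ring
        _ ≤ |S P - mS| + |mS - b| := abs_add_le _ _
        _ = _ := by rw [abs_sub_comm mS b, abs_of_nonneg (by linarith : 0 ≤ b - mS)]
    calc _ = ‖Complex.exp (Complex.I * ((V P - m : ℝ) : ℂ)) *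
          (Z P - Complex.exp ((-(S2 P) / 2 : ℝ) : ℂ)) +
          ((Complex.exp (Complex.I * ((V P - m : ℝ) : ℂ)) - 1) *
            Complex.exp ((-(S2 P) / 2 : ℝ) : ℂ) +
          ((Complex.exp ((-(S2 P) / 2 : ℝ) : ℂ)) -
            Complex.exp ((-(s2 + vV) / 2 : ℝ) : ℂ)))‖ := by congr 1; ring
      _ ≤ ε + (|V P - m| + (τ ^ 2 / 2 + |S P - b| + τ ^ 2 / 2)) :=
        (norm_add_le _ _).trans (add_le_add a1 ((norm_add_le _ _).trans (add_le_add a2 a3)))
      _ ≤ _ := by linarith
  have hc := EW_const (X := Fin (T + 1)) h0 h1 (Complex.exp ((-(s2 + vV) / 2 : ℝ) : ℂ))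
  have hmain := EW_norm h0 h1 (fun P => Complex.exp (Complex.I * ((V P - m : ℝ) : ℂ)) * Z P -
      Complex.exp ((-(s2 + vV) / 2 : ℝ) : ℂ)) _ hpt
  rw [EW_sub, hc] at hmain
  refine hmain.trans ?_
  rw [EW_add p (fun _ => ε + τ ^ 2), EW_const h0 h1, EW_add p (fun P => |V P - m|),
    EW_add p (fun P => |S P - mS|), EW_const h0 h1]
  have c1 : EW p (fun P => |V P - m|) ≤ Real.sqrt (4 * K) :=
    (EW_abs_le_sqrt h0 h1 (fun P => V P - m)).trans (Real.sqrt_le_sqrt pV)
  have c2 : EW p (fun P => |S P - mS|) ≤ Real.sqrt (4 * K) :=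
    (EW_abs_le_sqrt h0 h1 (fun P => S P - mS)).trans (Real.sqrt_le_sqrt pS)
  have c3 : Real.sqrt (4 * K) = 2 * Real.sqrt K := by
    rw [show (4 : ℝ) * K = 2 ^ 2 * K by norm_num, Real.sqrt_mul (by norm_num),
      Real.sqrt_sq (by norm_num)]
  have c4 : b - mS ≤ 4 * Real.sqrt K := by
    refine hbm2.trans ?_
    have : Real.sqrt (vS + vV) ≤ Real.sqrt (4 ^ 2 * K) := Real.sqrt_le_sqrt (by linarith)
    rwa [Real.sqrt_mul (by norm_num), Real.sqrt_sq (by norm_num)] at this
  rw [c3] at c1 c2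
  linarith

end Pool.Agent.N940.MM.Poi
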