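import Mathlib

/-!
# Finite product probability spaces: conditional expectations
-/

set_option autoImplicit false
set_option linter.unusedSectionVars false
set_option linter.unusedVariables false

namespace Pool.Agent.N940.MM

open Finset

/-- a product probability measure on `ι → Ω` -/
structure Wt (ι Ω : Type) [Fintype Ω] where
  /-- the weights -/
  w : ι → Ω → ℝ
  nn : ∀ x o, 0 ≤ w x o
  sm : ∀ x, ∑ o, w x o = 1

section

variable {ι Ω : Type} [Fintype ι] [DecidableEq ι] [Fintype Ω]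

/-- probability of a configuration -/
def mu (q : Wt ι Ω) (B : ι → Ω) : ℝ := ∏ x, q.w x (B x)

/-- expectation -/
def Ex {E : Type} [AddCommGroup E] [Module ℝ E] (q : Wt ι Ω) (f : (ι → Ω) → E) : E :=
  ∑ B : ι → Ω, mu q B • f B

/-- variance -/
def Vr (q : Wt ι Ω) (f : (ι → Ω) → ℝ) : ℝ := Ex q (fun B => (f B - Ex q f) ^ 2)

lemma mu_nonneg (q : Wt ι Ω) (B : ι → Ω) : 0 ≤ mu q B :=
  Finset.prod_nonneg fun x _ => q.nn x (B x)

lemma sum_mu (q : Wt ι Ω) : ∑ B : ι → Ω, mu q B = 1 := by
  unfold mu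
  have h := Finset.prod_univ_sum (fun _ : ι => (univ : Finset Ω)) (fun x o => q.w x o)
  rw [Fintype.piFinset_univ] at h
  rw [← h]
  simp only [q.sm]
  exact Finset.prod_const_one

/-- `A` on `U`, `B` off `U` -/
def mix (U : Finset ι) (A B : ι → Ω) : ι → Ω := fun x => if x ∈ U then A x else B x

lemma mix_mix (V : Finset ι) (B C : ι → Ω) : mix V (mix V B C) (mix V C B) = B := by
  funext x
  simp only [mix]
  split_ifs <;> rfl

lemma mix_assoc (U V : Finset ι) (A B C : ι → Ω) :
    mix V (mix U A B) C = mix (U ∩ V) A (mix V B C) := by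
  funext x
  simp only [mix, mem_inter]
  by_cases h1 : x ∈ U <;> by_cases h2 : x ∈ V <;> simp [h1, h2]

lemma mix_univ (A B : ι → Ω) : mix univ A B = A := by
  funext x
  simp [mix]

lemma mix_empty (A B : ι → Ω) : mix ∅ A B = B := by
  funext x
  simp [mix]

lemma mu_mix (q : Wt ι Ω) (V : Finset ι) (B C : ι → Ω) :
    mu q (mix V B C) * mu q (mix V C B) = mu q B * mu q C := by
  unfold mu
  rw [← Finset.prod_mul_distrib, ← Finset.prod_mul_distrib]
  refine Finset.prod_congr rfl fun x _ => ?_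
  simp only [mix]
  split_ifs
  · rfl
  · exact mul_comm _ _

section general

variable {E : Type} [AddCommGroup E] [Module ℝ E]

lemma Ex_const (q : Wt ι Ω) (c : E) : Ex q (fun _ : ι → Ω => c) = c := by
  unfold Ex
  rw [← Finset.sum_smul, sum_mu, one_smul]

lemma Ex_add (q : Wt ι Ω) (f g : (ι → Ω) → E) : Ex q (fun A => f A + g A) = Ex q f + Ex q g := by
  unfold Ex
  simp only [smul_add, sum_add_distrib]

lemma Ex_sub (q : Wt ι Ω) (f g : (ι → Ω) → E) : Ex q (fun A => f A - g A) = Ex q f - Ex q g := by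
  unfold Ex
  simp only [smul_sub, sum_sub_distrib]

lemma Ex_smul (q : Wt ι Ω) (c : ℝ) (f : (ι → Ω) → E) : Ex q (fun A => c • f A) = c • Ex q f := by
  unfold Ex
  simp only [smul_sum, smul_comm c]

lemma Ex_sum {κ : Type} (q : Wt ι Ω) (s : Finset κ) (f : κ → (ι → Ω) → E) :
    Ex q (fun A => ∑ c ∈ s, f c A) = ∑ c ∈ s, Ex q (f c) := by
  unfold Ex
  simp only [smul_sum]
  rw [sum_comm]

lemma Ex_comm (q : Wt ι Ω) (f : (ι → Ω) → (ι → Ω) → E) :
    Ex q (fun A => Ex q (fun B => f A B)) = Ex q (fun B => Ex q (fun A => f A B)) := by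
  unfold Ex
  simp only [smul_sum]
  rw [sum_comm]
  exact sum_congr rfl fun B _ => sum_congr rfl fun A _ => smul_comm _ _ _

/-- the swap identity -/
lemma Ex_mix (q : Wt ι Ω) (V : Finset ι) (f : (ι → Ω) → E) :
    Ex q (fun B => Ex q (fun C => f (mix V B C))) = Ex q f := by
  have h1 : Ex q (fun B => Ex q (fun C => f (mix V B C))) =
      ∑ p : (ι → Ω) × (ι → Ω), (mu q p.1 * mu q p.2) • f (mix V p.1 p.2) := by
    unfold Ex
    simp only [smul_sum, smul_smul]
    rw [Fintype.sum_prod_type]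
  have h2 : ∑ p : (ι → Ω) × (ι → Ω), (mu q p.1 * mu q p.2) • f (mix V p.1 p.2) =
      ∑ p : (ι → Ω) × (ι → Ω), (mu q p.1 * mu q p.2) • f p.1 := by
    refine Finset.sum_nbij' (fun p => (mix V p.1 p.2, mix V p.2 p.1))
      (fun p => (mix V p.1 p.2, mix V p.2 p.1)) ?_ ?_ ?_ ?_ ?_
    · intros; exact mem_univ _
    · intros; exact mem_univ _
    · intro p _; simp only [mix_mix]
    · intro p _; simp only [mix_mix]
    · intro p _; simp only [mu_mix]
  rw [h1, h2, Fintype.sum_prod_type]
  unfold Ex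
  refine Finset.sum_congr rfl fun B _ => ?_
  show ∑ C : ι → Ω, (mu q B * mu q C) • f B = mu q B • f B
  rw [← Finset.sum_smul, ← Finset.mul_sum, sum_mu, mul_one]

/-- a more general form of the swap identity -/
lemma Ex_mix2 (q : Wt ι Ω) (V : Finset ι) (f : (ι → Ω) → (ι → Ω) → E) :
    Ex q (fun B => Ex q (fun C => f (mix V B C) (mix V C B))) =
      Ex q (fun B => Ex q (fun C => f B C)) := by
  have h1 : ∀ g : (ι → Ω) → (ι → Ω) → E, Ex q (fun B => Ex q (fun C => g B C)) =
      ∑ p : (ι → Ω) × (ι → Ω), (mu q p.1 * mu q p.2) • g p.1 p.2 := by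
    intro g
    unfold Ex
    simp only [smul_sum, smul_smul]
    rw [Fintype.sum_prod_type]
  rw [h1 (fun B C => f (mix V B C) (mix V C B)), h1]
  refine Finset.sum_nbij' (fun p => (mix V p.1 p.2, mix V p.2 p.1))
    (fun p => (mix V p.1 p.2, mix V p.2 p.1)) ?_ ?_ ?_ ?_ ?_
  · intros; exact mem_univ _
  · intros; exact mem_univ _
  · intro p _; simp only [mix_mix]
  · intro p _; simp only [mix_mix]
  · intro p _; simp only [mu_mix]

/-- conditional expectation given the part of the configuration in `U` -/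
def Av (q : Wt ι Ω) (U : Finset ι) (f : (ι → Ω) → E) (A : ι → Ω) : E :=
  Ex q (fun B => f (mix U A B))

lemma Av_Av (q : Wt ι Ω) (U V : Finset ι) (f : (ι → Ω) → E) :
    Av q U (Av q V f) = Av q (U ∩ V) f := by
  funext A
  unfold Av
  simp only [mix_assoc]
  exact Ex_mix q V (fun D => f (mix (U ∩ V) A D))

lemma Av_univ (q : Wt ι Ω) (f : (ι → Ω) → E) : Av q univ f = f := by
  funext A
  unfold Av
  simp only [mix_univ]
  exact Ex_const q _

lemma Av_empty (q : Wt ι Ω) (f : (ι → Ω) → E) (A : ι → Ω) : Av q ∅ f A = Ex q f := by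
  unfold Av
  simp only [mix_empty]

lemma Ex_Av (q : Wt ι Ω) (U : Finset ι) (f : (ι → Ω) → E) : Ex q (Av q U f) = Ex q f :=
  Ex_mix q U f

lemma Av_add (q : Wt ι Ω) (U : Finset ι) (f g : (ι → Ω) → E) :
    Av q U (fun A => f A + g A) = fun A => Av q U f A + Av q U g A := by
  funext A
  exact Ex_add q _ _

lemma Av_sub (q : Wt ι Ω) (U : Finset ι) (f g : (ι → Ω) → E) :
    Av q U (fun A => f A - g A) = fun A => Av q U f A - Av q U g A := by
  funext A
  exact Ex_sub q _ _

lemma Av_smul (q : Wt ι Ω) (U : Finset ι) (c : ℝ) (f : (ι → Ω) → E) :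
    Av q U (fun A => c • f A) = fun A => c • Av q U f A := by
  funext A
  exact Ex_smul q _ _

lemma Av_const (q : Wt ι Ω) (U : Finset ι) (c : E) :
    Av q U (fun _ => c) = fun _ => c := by
  funext A
  exact Ex_const q _

/-- `f` depends on the part in `U` only -/
def Dep (U : Finset ι) (f : (ι → Ω) → E) : Prop :=
  ∀ A B : ι → Ω, (∀ x ∈ U, A x = B x) → f A = f B

lemma mix_congr {U : Finset ι} {A B : ι → Ω} (h : ∀ x ∈ U, A x = B x) (C : ι → Ω) :
    mix U A C = mix U B C := by
  funext x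
  simp only [mix]
  split_ifs with hx
  · exact h x hx
  · rfl

lemma mix_inter (U : Finset ι) (A B : ι → Ω) : ∀ x ∈ U, mix U A B x = A x := by
  intro x hx
  simp [mix, hx]

lemma mix_inter' {U V : Finset ι} (h : Disjoint U V) (A B : ι → Ω) :
    ∀ x ∈ V, mix U A B x = B x := by
  intro x hx
  have : x ∉ U := fun hU => Finset.disjoint_left.1 h hU hx
  simp [mix, this]

lemma Dep_Av (q : Wt ι Ω) (U : Finset ι) (f : (ι → Ω) → E) : Dep U (Av q U f) := by
  intro A B h
  unfold Av
  simp only [mix_congr h]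

lemma Dep.mono {U V : Finset ι} {f : (ι → Ω) → E} (h : Dep U f) (hUV : U ⊆ V) : Dep V f :=
  fun A B hAB => h A B fun x hx => hAB x (hUV hx)

lemma Dep.Av_eq {q : Wt ι Ω} {U : Finset ι} {f : (ι → Ω) → E} (h : Dep U f) : Av q U f = f := by
  funext A
  unfold Av
  have : ∀ B, f (mix U A B) = f A := fun B => h _ _ (mix_inter U A B)
  simp only [this]
  exact Ex_const q _

lemma Dep.comp {U : Finset ι} {f : (ι → Ω) → E} {F : Type} (h : Dep U f) (φ : E → F)
    [AddCommGroup F] [Module ℝ F] : Dep U (fun A => φ (f A)) := by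
  intro A B hAB
  simp only [h A B hAB]

lemma Dep.Av_indep {q : Wt ι Ω} {U V : Finset ι} {f : (ι → Ω) → E} (h : Dep U f)
    (hUV : Disjoint V U) : Av q V f = fun _ => Ex q f := by
  funext A
  unfold Av
  have : ∀ B, f (mix V A B) = f B := fun B => h _ _ (mix_inter' hUV A B)
  simp only [this]

end general

section alg

variable {E : Type} [CommRing E] [Algebra ℝ E]

lemma Av_mul {q : Wt ι Ω} {U : Finset ι} {g : (ι → Ω) → E} (hg : Dep U g) (f : (ι → Ω) → E) :
    Av q U (fun A => g A * f A) = fun A => g A * Av q U f A := by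
  funext A
  unfold Av
  have : ∀ B, g (mix U A B) = g A := fun B => hg _ _ (mix_inter U A B)
  simp only [this]
  unfold Ex
  rw [Finset.mul_sum]
  refine Finset.sum_congr rfl fun B _ => ?_
  rw [mul_smul_comm]

lemma Ex_mul_indep {q : Wt ι Ω} {U V : Finset ι} {g h : (ι → Ω) → E} (hg : Dep U g)
    (hh : Dep V h) (hUV : Disjoint U V) : Ex q (fun A => g A * h A) = Ex q g * Ex q h := by
  rw [← Ex_Av q U, Av_mul hg, hh.Av_indep hUV]
  unfold Ex
  rw [Finset.sum_mul]
  refine Finset.sum_congr rfl fun B _ => ?_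
  rw [smul_mul_assoc]

lemma Ex_mul_Av (q : Wt ι Ω) (U : Finset ι) (f g : (ι → Ω) → E) :
    Ex q (fun A => f A * Av q U g A) = Ex q (fun A => Av q U f A * Av q U g A) := by
  rw [← Ex_Av q U]
  have h : (fun A => f A * Av q U g A) = fun A => Av q U g A * f A := by
    funext A; ring
  rw [h, Av_mul (Dep_Av q U g)]
  congr 1
  funext A
  ring

lemma Dep_prod {κ : Type} [DecidableEq κ] (s : Finset κ) (cell : κ → Finset ι)
    (g : κ → (ι → Ω) → E) (hg : ∀ c ∈ s, Dep (cell c) (g c)) :
    Dep (s.biUnion cell) (fun A => ∏ c ∈ s, g c A) := by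
  intro A B hAB
  refine Finset.prod_congr rfl fun c hc => ?_
  exact (hg c hc).mono (Finset.subset_biUnion_of_mem cell hc) A B hAB

lemma Ex_prod_indep {κ : Type} [DecidableEq κ] (q : Wt ι Ω) (s : Finset κ) (cell : κ → Finset ι)
    (hd : ∀ c ∈ s, ∀ d ∈ s, c ≠ d → Disjoint (cell c) (cell d))
    (g : κ → (ι → Ω) → E) (hg : ∀ c ∈ s, Dep (cell c) (g c)) :
    Ex q (fun A => ∏ c ∈ s, g c A) = ∏ c ∈ s, Ex q (g c) := by
  induction s using Finset.induction_on with
  | empty => simpa using Ex_const (ι := ι) q (1 : E)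
  | insert c s hc ih =>
    simp only [Finset.prod_insert hc]
    have h1 : Disjoint (cell c) (s.biUnion cell) := by
      rw [Finset.disjoint_biUnion_right]
      intro d hd'
      refine hd c (mem_insert_self c s) d (mem_insert_of_mem hd') ?_
      rintro rfl
      exact hc hd'
    rw [Ex_mul_indep (hg c (mem_insert_self c s))
      (Dep_prod s cell g fun d hd' => hg d (mem_insert_of_mem hd')) h1,
      ih (fun d hd' e he => hd d (mem_insert_of_mem hd') e (mem_insert_of_mem he))
        (fun d hd' => hg d (mem_insert_of_mem hd'))]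

end alg

end

end Pool.Agent.N940.MM
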