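import Pool.Agent.N940.MM.Prod
import Pool.Agent.N940.TSP.Mod

/-!
# The central limit theorem for the minimum matching: definitions and statements
-/

set_option autoImplicit false

open Filter Topology

namespace Pool.Agent.N940.MM

open Finset

/-! ### geometry -/

/-- the length of the shortest perfect matching of the points `X i`, `i ∈ A` -/
noncomputable def mt {ι : Type} (X : ι → ℂ) (A : Finset ι) : ℝ :=
  sInf {c : ℝ | ∃ σ : ι → ι, (∀ i ∈ A, σ i ∈ A ∧ σ i ≠ i ∧ σ (σ i) = i) ∧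
    c = (∑ i ∈ A, dist (X i) (X (σ i))) / 2}

/-- the half-open square -/
def Sq (a b r : ℝ) : Set ℂ := {w | a ≤ w.re ∧ w.re < a + r ∧ b ≤ w.im ∧ w.im < b + r}

/-- interaction of the parts inside and outside a square -/
def S_MIX : Prop := ∀ (ι : Type) [DecidableEq ι] (X : ι → ℂ) (a b r : ℝ), 0 < r →
  ∀ A A' H H' : Finset ι, (∀ i ∈ A, X i ∈ Sq a b r) → (∀ i ∈ A', X i ∈ Sq a b r) →
  (∀ i ∈ H, X i ∉ Sq a b r) → (∀ i ∈ H', X i ∉ Sq a b r) →
  Even (A.card + H.card) → Even (A.card + A'.card) → Even (H.card + H'.card) →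
  |mt X (A ∪ H) - mt X (A' ∪ H) - mt X (A ∪ H') + mt X (A' ∪ H')| ≤ 16 * r

/-- separated points inside a square are expensive -/
def S_LOW : Prop := ∀ (ι : Type) [DecidableEq ι] (X : ι → ℂ) (a b r δ : ℝ), 0 < r → 0 ≤ δ →
  ∀ A H : Finset ι, Even A.card → Even H.card → (∀ i ∈ H, X i ∉ Sq a b r) →
  (∀ i ∈ A, a + δ / 2 ≤ (X i).re ∧ (X i).re < a + r - δ / 2 ∧
    b + δ / 2 ≤ (X i).im ∧ (X i).im < b + r - δ / 2) →
  (∀ i ∈ A, ∀ j ∈ A, i ≠ j → δ ≤ dist (X i) (X j)) →
  mt X H + δ / 2 * A.card ≤ mt X (A ∪ H) + 4 * r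

/-- adding a pair of points -/
def S_ADD : Prop := ∀ (ι : Type) [DecidableEq ι] (X : ι → ℂ) (A : Finset ι) (x y : ι),
  x ∉ A → y ∉ A → x ≠ y → Even A.card →
  |mt X (insert x (insert y A)) - mt X A| ≤ dist (X x) (X y)

/-- moving a point -/
def S_MOVE : Prop := ∀ (ι : Type) [DecidableEq ι] (X : ι → ℂ) (A : Finset ι) (x y : ι),
  x ∈ A → y ∉ A → Even A.card →
  |mt X (insert y (A.erase x)) - mt X A| ≤ dist (X x) (X y)

/-- changing the points in a set of diameter `D` -/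
def S_CRUDE : Prop := ∀ (ι : Type) [DecidableEq ι] (X : ι → ℂ) (S S' H : Finset ι) (D : ℝ),
  0 ≤ D → Disjoint S H → Disjoint S' H → (∀ i ∈ S ∪ S', ∀ j ∈ S ∪ S', dist (X i) (X j) ≤ D) →
  Even (S.card + H.card) → Even (S.card + S'.card) →
  |mt X (S ∪ H) - mt X (S' ∪ H)| ≤ D * (S.card + S'.card + 1)

/-- Lipschitz continuity -/
def S_LIP : Prop := ∀ (ι : Type) [DecidableEq ι] (X Y : ι → ℂ) (A : Finset ι),
  |mt X A - mt Y A| ≤ ∑ i ∈ A, dist (X i) (Y i)

/-- change of index set -/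
def S_IMG : Prop := ∀ (ι κ : Type) [DecidableEq ι] [DecidableEq κ] (e : ι → κ) (X : κ → ℂ)
  (A : Finset ι), Function.Injective e → mt (fun i => X (e i)) A = mt X (A.image e)

/-- a point of the plane as a complex number -/
def toC (x : ℝ × ℝ) : ℂ := ⟨x.1, x.2⟩

/-- the infimum over the fixed point free involutions is `mt` -/
def S_INV : Prop := ∀ (k : ℕ) (x : Fin (2 * k) → ℝ × ℝ),
  (⨅ σ : {σ : Equiv.Perm (Fin (2 * k)) // (∀ i, σ (σ i) = i) ∧ ∀ i, σ i ≠ i},
      (1/2 : ℝ) * ∑ i : Fin (2 * k),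
        Real.sqrt (((x i).1 - (x (σ.1 i)).1) ^ 2 + ((x i).2 - (x (σ.1 i)).2) ^ 2)) =
    mt (fun i => toC (x i)) Finset.univ

/-! ### Bernoulli random subsets with an even number of elements -/

section Bern

variable {ι : Type} [Fintype ι] [DecidableEq ι]

/-- expectation under the condition that the number of elements is even -/
noncomputable def ExE {E : Type} [AddCommGroup E] [Module ℝ E] (q : ℝ) (f : Finset ι → E) : E :=
  (TSP.Ex q (fun A : Finset ι => if Even A.card then (1 : ℝ) else 0))⁻¹ •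
    TSP.Ex q (fun A : Finset ι => if Even A.card then f A else 0)

/-- variance under the condition that the number of elements is even -/
noncomputable def VrE (q : ℝ) (f : Finset ι → ℝ) : ℝ := ExE q (fun A => (f A - ExE q f) ^ 2)

end Bern

/-- the matching functional of a set of grid points in the box of side `R` with mesh `1 / M` -/
noncomputable def fM (R M : ℕ) (A : Finset (TSP.Ix R 1 M)) : ℝ := mt (TSP.sp R 1 M) A

/-- lower bound for the variance, uniform over all corrections by a multiple of the number of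
points -/
def S_VLB : Prop := ∃ (c : ℝ) (M₀ : ℕ), 0 < c ∧ ∀ R M : ℕ, 0 < R → M₀ ≤ M →
  ∀ q : ℝ, 1 ≤ q * (M : ℝ) ^ 2 → q * (M : ℝ) ^ 2 ≤ 4 → ∀ β : ℝ,
    c * (R : ℝ) ^ 2 ≤ VrE q (fun A : Finset (TSP.Ix R 1 M) => fM R M A + β * (A.card : ℝ))

/-- from random subsets of random even size to random subsets of fixed even size -/
def S_DEP2 : Prop :=
  ∀ (ι : ℕ → Type) [∀ n, Fintype (ι n)] [∀ n, DecidableEq (ι n)]
    (κ : ℕ → Type) [∀ n, Fintype (κ n)] [∀ n, DecidableEq (κ n)] (lab : ∀ n, ι n → κ n)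
    (F : ∀ n, Finset (ι n) → ℝ)
    (q : ℕ → ℝ) (C c : ℝ) (η : ℕ → ℝ) (n₀ : ℕ), 0 < C → 0 < c → Tendsto η atTop (𝓝 0) →
    (∀ n, n₀ ≤ n → 1 ≤ n ∧ 2 * n ≤ Fintype.card (ι n) ∧ q n = (n : ℝ) / Fintype.card (ι n)) →
    (∀ n, n₀ ≤ n → (∃ m : ℕ, n ≤ m ∧
      ∀ v : κ n, ((Finset.univ : Finset (ι n)).filter fun x => lab n x = v).card = m) ∧
      (Fintype.card (κ n) : ℝ) ≤ n ∧ (n : ℝ) ≤ C * Fintype.card (κ n)) →
    (∀ n, n₀ ≤ n → ∀ (A : Finset (ι n)) (x y : ι n), x ∉ A → y ∉ A → x ≠ y →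
      lab n x = lab n y → Even A.card →
      |F n (insert x (insert y A)) - F n A| ≤ C / Real.sqrt n) →
    (∀ n, n₀ ≤ n → VrE (q n) (F n) ≤ C) →
    (∀ n, n₀ ≤ n → ∀ α β : ℝ,
      ‖ExE (q n) (fun A : Finset (ι n) => Complex.exp (Complex.I *
          ((α * F n A + β * ((A.card : ℝ) / Real.sqrt n) - ExE (q n) (fun A : Finset (ι n) =>
            α * F n A + β * ((A.card : ℝ) / Real.sqrt n)) : ℝ) : ℂ))) -
        Complex.exp ((-(VrE (q n) fun A : Finset (ι n) =>
          α * F n A + β * ((A.card : ℝ) / Real.sqrt n)) / 2 : ℝ) : ℂ)‖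
        ≤ η n * (1 + |α| + |β|) ^ 4) →
    (∀ n, n₀ ≤ n → ∀ β : ℝ, c ≤ VrE (q n) fun A : Finset (ι n) =>
      F n A + β * ((A.card : ℝ) / Real.sqrt n)) →
    ∃ (s₀ : ℝ) (s : ℕ → ℝ), 0 < s₀ ∧ (∀ n, s₀ ≤ s n) ∧ ∀ t : ℝ,
      Tendsto (fun k : ℕ => (((Fintype.card (ι (2 * k))).choose (2 * k) : ℂ))⁻¹ *
        ∑ A ∈ (Finset.univ : Finset (ι (2 * k))).powersetCard (2 * k),
          Complex.exp (Complex.I *
            ((t * ((F (2 * k) A - ExE (q (2 * k)) (F (2 * k))) / s (2 * k)) : ℝ) : ℂ)))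
        atTop (𝓝 (Complex.exp ((-(t ^ 2) / 2 : ℝ) : ℂ)))

/-- the statement `S19761` -/
def Frozen2 : Prop :=
  ∀ (Ω : Type) [MeasurableSpace Ω] (P : MeasureTheory.Measure Ω)
    [MeasureTheory.IsProbabilityMeasure P] (X : ℕ → Ω → ℝ × ℝ),
    (∀ i, Measurable (X i)) → ProbabilityTheory.iIndepFun X P →
    (∀ i, P.map (X i) = MeasureTheory.volume.restrict (Set.Icc (0:ℝ) 1 ×ˢ Set.Icc (0:ℝ) 1)) →
    ∃ a b : ℕ → ℝ, (∀ k, 0 < b k) ∧
      ∀ f : BoundedContinuousFunction ℝ ℝ,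
        Tendsto (fun k : ℕ => ∫ ω, f (((⨅ σ : {σ : Equiv.Perm (Fin (2 * k)) //
              (∀ i, σ (σ i) = i) ∧ ∀ i, σ i ≠ i},
            (1/2 : ℝ) * ∑ i : Fin (2 * k),
              Real.sqrt (((X i.val ω).1 - (X (σ.1 i).val ω).1) ^ 2
                + ((X i.val ω).2 - (X (σ.1 i).val ω).2) ^ 2)) - a k) / b k) ∂P)
          atTop (𝓝 (∫ x, f x ∂(ProbabilityTheory.gaussianReal 0 1)))

/-- from random subsets of a fine grid of fixed size to independent uniform points -/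
def S_FIN2 : Prop :=
  ∀ (R M : ℕ → ℕ) (c s : ℕ → ℝ) (s₀ : ℝ) (n₀ : ℕ), 0 < s₀ →
    (∀ n, n₀ ≤ n → 1 ≤ R n ∧ 1 ≤ M n ∧ (R n) ^ 2 ≤ n ∧ n ^ 3 ≤ M n) →
    (∀ n, s₀ ≤ s n) →
    (∀ t : ℝ, Tendsto (fun k : ℕ =>
      (((Fintype.card (TSP.Ix (R (2 * k)) 1 (M (2 * k)))).choose (2 * k) : ℂ))⁻¹ *
        ∑ A ∈ (Finset.univ : Finset (TSP.Ix (R (2 * k)) 1 (M (2 * k)))).powersetCard (2 * k),
          Complex.exp (Complex.I * ((t * ((fM (R (2 * k)) (M (2 * k)) A / (R (2 * k) : ℝ) -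
            c (2 * k)) / s (2 * k)) : ℝ) : ℂ)))
        atTop (𝓝 (Complex.exp ((-(t ^ 2) / 2 : ℝ) : ℂ)))) →
    Frozen2

/-! ### strings of parities -/

/-- number of `true`s is even -/
def evn {X : Type} [Fintype X] (P : X → Bool) : Prop :=
  Even (Finset.univ.filter fun x => P x = true).card

instance {X : Type} [Fintype X] (P : X → Bool) : Decidable (evn P) := by
  unfold evn; infer_instance

/-- change the parities at `x` and `y` -/
def flp {X : Type} [DecidableEq X] (x y : X) (P : X → Bool) : X → Bool :=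
  fun z => if z = x ∨ z = y then !(P z) else P z

/-- weight of a string of parities -/
def wt {X : Type} [Fintype X] (p : ℝ) (P : X → Bool) : ℝ := ∏ x, if P x then p else 1 - p

/-- expectation over the strings of parities with an even number of `true`s -/
noncomputable def EW {X E : Type} [Fintype X] [DecidableEq X] [AddCommGroup E] [Module ℝ E]
    (p : ℝ) (f : (X → Bool) → E) : E :=
  (∑ P : X → Bool, if evn P then wt p P else 0)⁻¹ •
    ∑ P : X → Bool, if evn P then wt p P • f P else 0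

/-- Poincare inequality along a chain -/
def S_POI : Prop := ∀ (T : ℕ) (p : ℝ), 1 / 4 ≤ p → p ≤ 1 / 2 →
  ∀ (Φ : (Fin (T + 1) → Bool) → ℝ) (κ : Fin T → ℝ),
    (∀ k, ∀ P, evn P → |Φ P - Φ (flp k.castSucc k.succ P)| ≤ κ k) →
    EW p (fun P => (Φ P - EW p Φ) ^ 2) ≤ 4 * ∑ k, κ k ^ 2

/-- averaging the normal approximations over the parities -/
def S_AVG : Prop := ∀ (T : ℕ) (p : ℝ), 1 / 4 ≤ p → p ≤ 1 / 2 →
  ∀ (V S2 : (Fin (T + 1) → Bool) → ℝ) (Z : (Fin (T + 1) → Bool) → ℂ) (κ : Fin T → ℝ) (ε τ : ℝ),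
    0 ≤ ε → 0 ≤ τ → (∀ P, 0 ≤ S2 P) →
    (∀ P, evn P → ‖Z P - Complex.exp ((-(S2 P) / 2 : ℝ) : ℂ)‖ ≤ ε) →
    (∀ k, ∀ P, evn P → |V P - V (flp k.castSucc k.succ P)| ≤ κ k) →
    (∀ k, ∀ P, evn P → |Real.sqrt (S2 P + τ ^ 2) -
      Real.sqrt (S2 (flp k.castSucc k.succ P) + τ ^ 2)| ≤ κ k) →
    ‖EW p (fun P => Complex.exp (Complex.I * ((V P - EW p V : ℝ) : ℂ)) * Z P) -
      Complex.exp ((-(EW p S2 + EW p (fun P => (V P - EW p V) ^ 2)) / 2 : ℝ) : ℂ)‖ ≤
    ε + 8 * Real.sqrt (∑ k, κ k ^ 2) + τ ^ 2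

/-! ### the product structure given the parities -/

section par

variable {U : Type} [Fintype U] [DecidableEq U]

/-- parity of a set -/
def par (B : Finset U) : Bool := decide (Odd B.card)

variable (U)

/-- probability of a parity -/
def pr (q : ℝ) (b : Bool) : ℝ := ∑ B : Finset U, if par B = b then TSP.mu q B else 0

variable {U}

/-- the law of a Bernoulli random set with given parity -/
noncomputable def wb (q : ℝ) (b : Bool) (B : Finset U) : ℝ :=
  if par B = b then TSP.mu q B / pr U q b else 0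

variable (U) in
/-- both parities have positive probability -/
structure Adq (q : ℝ) : Prop where
  h0 : 0 ≤ q
  h1 : q ≤ 1
  hp : ∀ b, 0 < pr U q b

/-- the law of independent Bernoulli random sets with given parities -/
noncomputable def WP {X : Type} {q : ℝ} (hq : Adq U q) (P : X → Bool) : Wt X (Finset U) where
  w x B := wb q (P x) B
  nn x B := by
    unfold wb
    split_ifs
    · have h1 : 0 ≤ 1 - q := by linarith [hq.h1]
      have h2 := hq.h0
      have h3 := (hq.hp (P x)).le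
      unfold TSP.mu
      positivity
    · exact le_rfl
  sm x := by
    have h := (hq.hp (P x)).ne'
    unfold wb
    have e : (∑ B : Finset U, if par B = P x then TSP.mu q B / pr U q (P x) else 0) =
        (∑ B : Finset U, if par B = P x then TSP.mu q B else 0) / pr U q (P x) := by
      rw [Finset.sum_div]
      refine Finset.sum_congr rfl fun B _ => ?_
      split_ifs <;> simp
    rw [e]
    exact div_self h

end par

/-- the configuration has an even number of points -/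
def evA {X U : Type} [Fintype X] (A : X → Finset U) : Prop := Even (∑ x, (A x).card)

/-- the effect of changing two parities -/
def S_FLIP : Prop := ∀ (X U : Type) [Fintype X] [DecidableEq X] [Fintype U] [DecidableEq U]
  (q : ℝ) (hq : Adq U q), q ≤ 1 / 2 → 1 ≤ q * Fintype.card U →
  ∀ (g : (X → Finset U) → ℝ) (P : X → Bool), evn P → ∀ (x y : X), x ≠ y → ∀ (θ D τ : ℝ),
    0 ≤ θ → 1 ≤ D → 0 < τ →
    (∀ A A' : X → Finset U, evA A → evA A' → (∀ z, z ≠ x → z ≠ y → A z = A' z) →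
      |g A - g A'| ≤ θ * D * ((A x).card + (A y).card + (A' x).card + (A' y).card + 1)) →
    (|Ex (WP hq P) g - Ex (WP hq (flp x y P)) g| ≤
        θ * (100 * D * (q * Fintype.card U + 2)) ∧
      |Real.sqrt (Vr (WP hq P) g + τ ^ 2) - Real.sqrt (Vr (WP hq (flp x y P)) g + τ ^ 2)| ≤
        θ * (100 * D * (q * Fintype.card U + 2)) +
          θ ^ 2 * (100 * D ^ 2 * (q * Fintype.card U + 2) ^ 2) / τ) ∧
    ((∀ (A : X → Finset U) (u : U), evA A → u ∈ A x → u ∉ A y →
      |g A - g (Function.update (Function.update A x ((A x).erase u)) y (insert u (A y)))| ≤ θ) →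
      (|Ex (WP hq P) g - Ex (WP hq (flp x y P)) g| ≤
        θ * (1 + 100 * D * (q * Fintype.card U + 2) *
          Real.exp (-(q * Fintype.card U) / 2)) ∧
      |Real.sqrt (Vr (WP hq P) g + τ ^ 2) - Real.sqrt (Vr (WP hq (flp x y P)) g + τ ^ 2)| ≤
        θ * (1 + 100 * D * (q * Fintype.card U + 2) *
          Real.exp (-(q * Fintype.card U) / 2)) +
          θ ^ 2 * (100 * D ^ 2 * (q * Fintype.card U + 2) ^ 2) / τ))

/-! ### strips -/

/-- the strips: column `j`, row `i` -/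
abbrev Xs (N L : ℕ) : Type := Fin N × Fin (N * L)

/-- the positions in a strip -/
abbrev Us (L M : ℕ) : Type := Fin (L * M) × Fin M

/-- the grid cell with a given position in a given strip -/
def em (N L M : ℕ) (x : Xs N L) (u : Us L M) : TSP.Ix (N * L) 1 M :=
  (⟨(x.1 : ℕ) * (L * M) + u.1, by
      have h1 := x.1.2
      have h2 := u.1.2
      calc (x.1 : ℕ) * (L * M) + u.1 < (x.1 : ℕ) * (L * M) + L * M := by omega
        _ = ((x.1 : ℕ) + 1) * (L * M) := by ring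
        _ ≤ N * (L * M) := Nat.mul_le_mul_right _ h1
        _ = N * L * 1 * M := by ring⟩,
    ⟨(x.2 : ℕ) * M + u.2, by
      have h1 := x.2.2
      have h2 := u.2.2
      calc (x.2 : ℕ) * M + u.2 < (x.2 : ℕ) * M + M := by omega
        _ = ((x.2 : ℕ) + 1) * M := by ring
        _ ≤ N * L * M := Nat.mul_le_mul_right _ h1
        _ = N * L * 1 * M := by ring⟩)

/-- the set of grid cells given by its parts in the strips -/
def gl (N L M : ℕ) (A : Xs N L → Finset (Us L M)) : Finset (TSP.Ix (N * L) 1 M) :=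
  Finset.univ.biUnion fun x => (A x).image (em N L M x)

/-- the part of a set in a strip -/
def cu (N L M : ℕ) (S : Finset (TSP.Ix (N * L) 1 M)) (x : Xs N L) : Finset (Us L M) :=
  Finset.univ.filter fun u => em N L M x u ∈ S

/-- decomposition of the expectation according to the parities in the strips -/
def S_GLUE : Prop := ∀ (N L M : ℕ), 0 < N → 0 < L → 0 < M → ∀ (q : ℝ),
  0 < q → q < 1 →
  (∀ A : Xs N L → Finset (Us L M), (gl N L M A).card = ∑ x, (A x).card) ∧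
  (∀ A : Xs N L → Finset (Us L M), cu N L M (gl N L M A) = A) ∧
  (∀ S, gl N L M (cu N L M S) = S) ∧
  pr (Us L M) q true = (1 - (1 - 2 * q) ^ (Fintype.card (Us L M))) / 2 ∧
  pr (Us L M) q false = (1 + (1 - 2 * q) ^ (Fintype.card (Us L M))) / 2 ∧
  ∀ (hq : Adq (Us L M) q) (E : Type) [AddCommGroup E] [Module ℝ E]
    (f : Finset (TSP.Ix (N * L) 1 M) → E),
    ExE q f = EW (pr (Us L M) q true) (fun P : Xs N L → Bool =>
      Ex (WP hq P) (fun A => f (gl N L M A)))

/-- a path through all the strips, vertical except for the changes of the columns -/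
def S_SNAKE : Prop := ∀ (N L : ℕ), 0 < N → 0 < L → ∃ (T : ℕ) (e : Fin (T + 1) ≃ Xs N L),
  T + 1 = N * (N * L) ∧
  (∀ k : Fin T, (((e k.castSucc).1 = (e k.succ).1 ∧
      (((e k.castSucc).2 : ℕ) + 1 = (e k.succ).2 ∨ ((e k.succ).2 : ℕ) + 1 = (e k.castSucc).2)) ∨
    (((e k.castSucc).1 : ℕ) + 1 = (e k.succ).1 ∧ (e k.castSucc).2 = (e k.succ).2))) ∧
  (Finset.univ.filter fun k : Fin T => (e k.castSucc).1 ≠ (e k.succ).1).card ≤ N

end Pool.Agent.N940.MM
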