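import Pool.Agent.N940.MM.Vlb1
import Pool.Agent.N940.TSP.Vlb

/-!
# Lower bound for the variance of the minimum matching
-/

set_option autoImplicit false
set_option linter.unusedSectionVars false
set_option linter.unusedVariables false

namespace Pool.Agent.N940.MM.Vlb

open Finset Pool.Agent.N940 Pool.Agent.N940.TSP.Vlb

variable {N K M : ℕ}

/-- the small squares in a unit block, with offset `o` -/
def Wo (N K M : ℕ) (c : ℕ × ℕ) (o w u : ℕ) {m : ℕ} (i : Fin m × Fin m) :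
    Finset (TSP.Ix N K M) :=
  univ.filter fun k => (c.1 * M + o + i.1 * w ≤ k.1 ∧ (k.1 : ℕ) < c.1 * M + o + i.1 * w + u) ∧
    (c.2 * M + o + i.2 * w ≤ k.2 ∧ (k.2 : ℕ) < c.2 * M + o + i.2 * w + u)

lemma mul_lt_of' {m w M a u o : ℕ} (h : o + m * w ≤ M) (ha : a < m) (hu : u ≤ w) :
    o + a * w + u ≤ M := by
  have := mul_lt_of (le_refl (m * w)) ha hu
  omega

lemma card_Wo {m w u o : ℕ} (c : ℕ × ℕ) (hu : u ≤ w) (hm : o + m * w ≤ M) (h1 : c.1 < N * K)
    (h2 : c.2 < N * K) (i : Fin m × Fin m) : u * u ≤ (Wo N K M c o w u i).card := by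
  have hb : ∀ (d : ℕ) (a : Fin m) (x : Fin u), d < N * K →
      d * M + o + a * w + x < N * K * M := by
    intro d a x hd
    have h3 := mul_lt_of' hm a.2 hu
    have h4 := x.2
    calc d * M + o + a * w + x < d * M + M := by omega
      _ = (d + 1) * M := by ring
      _ ≤ N * K * M := Nat.mul_le_mul_right M hd
  let g : Fin u × Fin u → TSP.Ix N K M := fun p =>
    (⟨c.1 * M + o + i.1 * w + p.1, hb c.1 i.1 p.1 h1⟩,
      ⟨c.2 * M + o + i.2 * w + p.2, hb c.2 i.2 p.2 h2⟩)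
  have hg : Function.Injective g := by
    intro p p' hp
    simp only [g, Prod.mk.injEq, Fin.mk.injEq] at hp
    ext
    · have := hp.1; omega
    · have := hp.2; omega
  calc u * u = (univ : Finset (Fin u × Fin u)).card := by simp
    _ = (univ.image g).card := (card_image_of_injective _ hg).symm
    _ ≤ (Wo N K M c o w u i).card := by
      apply card_le_card
      intro k hk
      obtain ⟨p, _, rfl⟩ := mem_image.1 hk
      unfold Wo
      rw [mem_filter]
      refine ⟨mem_univ _, ?_⟩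
      have := p.1.2
      have := p.2.2
      simp only [g]
      omega

lemma Wo_subset {m w u o : ℕ} (hM : 0 < M) (c : ℕ × ℕ) (hu : u ≤ w) (hm : o + m * w ≤ M)
    (i : Fin m × Fin m) : Wo N K M c o w u i ⊆ TSP.bl N K M 1 c := by
  intro k hk
  unfold Wo at hk
  rw [mem_filter] at hk
  obtain ⟨-, ⟨a1, a2⟩, a3, a4⟩ := hk
  have h1 := mul_lt_of' hm i.1.2 hu
  have h2 := mul_lt_of' hm i.2.2 hu
  rw [mem_bl, div_eq_iff' hM, div_eq_iff' hM, add_mul, add_mul]
  omega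

lemma Wo_disjoint {m w u o : ℕ} (c : ℕ × ℕ) (hu : u ≤ w) (i j : Fin m × Fin m) (hij : i ≠ j) :
    Disjoint (Wo N K M c o w u i) (Wo N K M c o w u j) := by
  rw [disjoint_left]
  intro k hk hk'
  unfold Wo at hk hk'
  rw [mem_filter] at hk hk'
  obtain ⟨-, ⟨a1, a2⟩, a3, a4⟩ := hk
  obtain ⟨-, ⟨b1, b2⟩, b3, b4⟩ := hk'
  apply hij
  ext
  · rcases lt_trichotomy i.1 j.1 with h | h | h
    · have := lt_sep hu h; omega
    · rw [h]
    · have := lt_sep hu h; omega
  · rcases lt_trichotomy i.2 j.2 with h | h | h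
    · have := lt_sep hu h; omega
    · rw [h]
    · have := lt_sep hu h; omega

lemma Wo_dist {m w u o : ℕ} (hM : 0 < M) (c : ℕ × ℕ) (hu : u ≤ w) (i j : Fin m × Fin m)
    (hij : i ≠ j) (k l : TSP.Ix N K M) (hk : k ∈ Wo N K M c o w u i)
    (hl : l ∈ Wo N K M c o w u j) :
    ((w : ℝ) - u) / M ≤ dist (TSP.sp N K M k) (TSP.sp N K M l) := by
  have hM' : (0 : ℝ) < M := by exact_mod_cast hM
  unfold Wo at hk hl
  rw [mem_filter] at hk hl
  obtain ⟨-, ⟨a1, a2⟩, a3, a4⟩ := hk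
  obtain ⟨-, ⟨b1, b2⟩, b3, b4⟩ := hl
  rw [Complex.dist_eq]
  have hsep : ∀ x y : ℕ, x + w ≤ y + u → ((w : ℝ) - u) / M ≤ |(x : ℝ) / M - (y : ℝ) / M| := by
    intro x y h
    have h' : (x : ℝ) + w ≤ y + u := by exact_mod_cast h
    rw [← sub_div, abs_div, abs_of_pos hM']
    apply div_le_div_of_nonneg_right _ hM'.le
    rw [abs_sub_comm]
    exact le_trans (by linarith) (le_abs_self _)
  have hsep' : ∀ x y : ℕ, (x + w ≤ y + u ∨ y + w ≤ x + u) →
      ((w : ℝ) - u) / M ≤ |(x : ℝ) / M - (y : ℝ) / M| := by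
    intro x y h
    rcases h with h | h
    · exact hsep x y h
    · rw [abs_sub_comm]; exact hsep y x h
  by_cases h1 : i.1 = j.1
  · have h2 : i.2 ≠ j.2 := fun h => hij (Prod.ext h1 h)
    refine le_trans (hsep' k.2 l.2 ?_)
      (Complex.abs_im_le_norm (TSP.sp N K M k - TSP.sp N K M l))
    rcases lt_or_gt_of_ne h2 with h | h
    · left
      have := lt_sep hu h; omega
    · right
      have := lt_sep hu h; omega
  · refine le_trans (hsep' k.1 l.1 ?_)
      (Complex.abs_re_le_norm (TSP.sp N K M k - TSP.sp N K M l))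
    rcases lt_or_gt_of_ne h1 with h | h
    · left
      have := lt_sep hu h; omega
    · right
      have := lt_sep hu h; omega

lemma Wo_diam {m w u o : ℕ} (hM : 0 < M) (c : ℕ × ℕ) (hu : u ≤ w) (i j : Fin m × Fin m)
    (k l : TSP.Ix N K M) (hk : k ∈ Wo N K M c o w u i) (hl : l ∈ Wo N K M c o w u j) :
    dist (TSP.sp N K M k) (TSP.sp N K M l) ≤ 2 * ((m * w : ℕ) / (M : ℝ)) := by
  have hM' : (0 : ℝ) < M := by exact_mod_cast hM
  unfold Wo at hk hl
  rw [mem_filter] at hk hl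
  obtain ⟨-, ⟨a1, a2⟩, a3, a4⟩ := hk
  obtain ⟨-, ⟨b1, b2⟩, b3, b4⟩ := hl
  rw [Complex.dist_eq]
  have hsep : ∀ x y d : ℕ, x < d + m * w → d ≤ x → y < d + m * w → d ≤ y →
      |(x : ℝ) / M - (y : ℝ) / M| ≤ (m * w : ℕ) / (M : ℝ) := by
    intro x y d h1 h2 h3 h4
    rw [← sub_div, abs_div, abs_of_pos hM']
    apply div_le_div_of_nonneg_right _ hM'.le
    have h1' : (x : ℝ) < d + (m * w : ℕ) := by exact_mod_cast h1
    have h2' : (d : ℝ) ≤ x := by exact_mod_cast h2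
    have h3' : (y : ℝ) < d + (m * w : ℕ) := by exact_mod_cast h3
    have h4' : (d : ℝ) ≤ y := by exact_mod_cast h4
    rw [abs_le]
    constructor <;> linarith
  have e1 := mul_lt_of (le_refl (m * w)) i.1.2 hu
  have e2 := mul_lt_of (le_refl (m * w)) i.2.2 hu
  have e3 := mul_lt_of (le_refl (m * w)) j.1.2 hu
  have e4 := mul_lt_of (le_refl (m * w)) j.2.2 hu
  refine (Complex.norm_le_abs_re_add_abs_im _).trans ?_
  have g1 : |(TSP.sp N K M k - TSP.sp N K M l).re| ≤ (m * w : ℕ) / (M : ℝ) :=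
    hsep k.1 l.1 (c.1 * M + o) (by omega) (by omega) (by omega) (by omega)
  have g2 : |(TSP.sp N K M k - TSP.sp N K M l).im| ≤ (m * w : ℕ) / (M : ℝ) :=
    hsep k.2 l.2 (c.2 * M + o) (by omega) (by omega) (by omega) (by omega)
  linarith

/-- the class of configurations with one point in every small square and no other point in the
block -/
def Co (N K M : ℕ) (c : ℕ × ℕ) (o w u m : ℕ) : Finset (Finset (TSP.Ix N K M)) :=
  univ.filter (fun A => ∃ s : Fin m × Fin m → TSP.Ix N K M, (∀ i, s i ∈ Wo N K M c o w u i) ∧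
    A ∩ TSP.bl N K M 1 c = univ.image s)

lemma Co_dep {m w u o : ℕ} (c : ℕ × ℕ) (A B : Finset (TSP.Ix N K M))
    (h : A ∩ TSP.bl N K M 1 c = B ∩ TSP.bl N K M 1 c) (hA : A ∈ Co N K M c o w u m) :
    B ∈ Co N K M c o w u m := by
  unfold Co at hA ⊢
  rw [mem_filter] at hA ⊢
  rw [← h]
  exact ⟨mem_univ _, hA.2⟩

lemma Co_prob {m w u o : ℕ} (hM : 0 < M) (c : ℕ × ℕ) (hu : u ≤ w) (hm : o + m * w ≤ M)
    (h1 : c.1 < N * K) (h2 : c.2 < N * K) {q a : ℝ} (hq1 : 1 ≤ q * (M : ℝ) ^ 2)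
    (hq2 : q * (M : ℝ) ^ 2 ≤ 4) (hqh : q ≤ 1 / 2) (ha : 0 ≤ a) (hau : a * M ≤ u) :
    (a ^ 2) ^ (m * m) * Real.exp (-8) ≤ ∑ A ∈ Co N K M c o w u m, TSP.mu q A := by
  classical
  have hM' : (0 : ℝ) < M := by exact_mod_cast hM
  have hq0 : 0 ≤ q := by
    by_contra h
    push Not at h
    have : q * (M : ℝ) ^ 2 ≤ 0 := mul_nonpos_of_nonpos_of_nonneg h.le (by positivity)
    linarith
  have h := prob_class hq0 (by linarith) (TSP.bl N K M 1 c) (Wo N K M c o w u (m := m))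
    (Wo_subset hM c hu hm) (Wo_disjoint c hu)
  refine le_trans ?_ (h.trans (le_of_eq ?_))
  · have e1 : Fintype.card (Fin m × Fin m) = m * m := by simp
    rw [e1]
    have e2 : (a ^ 2) ^ (m * m) ≤
        (∏ i : Fin m × Fin m, ((Wo N K M c o w u i).card : ℝ)) * q ^ (m * m) := by
      have e3 : q ^ (m * m) = ∏ i : Fin m × Fin m, q := by
        rw [prod_const, card_univ, e1]
      have e4 : (a ^ 2) ^ (m * m) = ∏ i : Fin m × Fin m, a ^ 2 := by
        rw [prod_const, card_univ, e1]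
      rw [e3, e4, ← prod_mul_distrib]
      refine prod_le_prod (fun i _ => by positivity) fun i _ => ?_
      have e5 : ((u * u : ℕ) : ℝ) ≤ ((Wo N K M c o w u i).card : ℝ) := by
        exact_mod_cast card_Wo c hu hm h1 h2 i
      push_cast at e5
      have e6 : a * M * (a * M) ≤ u * u :=
        mul_le_mul hau hau (by positivity) (by positivity)
      calc a ^ 2 ≤ a ^ 2 * (q * (M : ℝ) ^ 2) := le_mul_of_one_le_right (by positivity) hq1
        _ = a * M * (a * M) * q := by ring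
        _ ≤ (Wo N K M c o w u i).card * q := mul_le_mul_of_nonneg_right (e6.trans e5) hq0
    have e7 : Real.exp (-8) ≤ (1 - q) ^ (TSP.bl N K M 1 c).card := by
      apply one_sub_pow hq0 hqh
      have e8 : ((TSP.bl N K M 1 c).card : ℝ) ≤ (M * M : ℕ) := by
        exact_mod_cast card_bl_le hM c
      push_cast at e8
      calc q * ((TSP.bl N K M 1 c).card : ℝ) ≤ q * (M * M) := mul_le_mul_of_nonneg_left e8 hq0
        _ = q * (M : ℝ) ^ 2 := by ring
        _ ≤ 4 := hq2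
    exact mul_le_mul e2 e7 (Real.exp_pos _).le (le_trans (by positivity) e2)
  · unfold Co
    rfl

lemma Co_card {m w u o : ℕ} (c : ℕ × ℕ) (hu : u ≤ w) (G : Finset (TSP.Ix N K M))
    (hG : G ∈ Co N K M c o w u m) : (G ∩ TSP.bl N K M 1 c).card = m * m := by
  classical
  unfold Co at hG
  rw [mem_filter] at hG
  obtain ⟨-, s, hs, hG⟩ := hG
  rw [hG, card_image_of_injective, card_univ]
  · simp
  · intro i j hij
    by_contra hne
    have h3 := hs j
    rw [← hij] at h3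
    exact disjoint_left.1 (Wo_disjoint c hu i j hne) (hs i) h3

/-- the spread class is expensive -/
lemma spread (hlow : S_LOW) {m w u : ℕ} (hM : 0 < M) (c : ℕ × ℕ) (hu : u ≤ w)
    (hm : (m + 2) * w ≤ M) (hme : Even m) (G Z : Finset (TSP.Ix N K M))
    (hG : G ∈ Co N K M c w w u m) (hZ : Even (Z \ TSP.bl N K M 1 c).card) :
    mt (TSP.sp N K M) (Z \ TSP.bl N K M 1 c) + ((w : ℝ) - u) / M / 2 * ((m : ℝ) * m) ≤
      mt (TSP.sp N K M) (TSP.mix (TSP.bl N K M 1 c) G Z) + 4 := by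
  classical
  have hM' : (0 : ℝ) < M := by exact_mod_cast hM
  have hcard := Co_card c hu G hG
  unfold Co at hG
  rw [mem_filter] at hG
  obtain ⟨-, s, hs, hG⟩ := hG
  have hu' : (u : ℝ) ≤ w := by exact_mod_cast hu
  have hu0 : (0 : ℝ) ≤ u := Nat.cast_nonneg _
  set δ : ℝ := ((w : ℝ) - u) / M with hδ
  have hδ0 : 0 ≤ δ := div_nonneg (by linarith) hM'.le
  have hδw : δ / 2 * M ≤ w := by
    have : δ * M = w - u := by rw [hδ]; field_simp
    have : δ / 2 * M = (w - u) / 2 := by linarith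
    rw [this]
    linarith
  have h := hlow (TSP.Ix N K M) (TSP.sp N K M) c.1 c.2 1 δ one_pos hδ0
    (G ∩ TSP.bl N K M 1 c) (Z \ TSP.bl N K M 1 c) (by
      rw [hcard]
      exact hme.mul_left m) hZ ?_ ?_ ?_
  · rw [hcard] at h
    push_cast at h
    unfold TSP.mix
    linarith
  · intro k hk hk'
    rw [mem_sdiff] at hk
    apply hk.2
    rw [← sp_mem hM]
    exact hk'
  · intro k hk
    rw [hG] at hk
    obtain ⟨i, _, rfl⟩ := mem_image.1 hk
    have h3 := hs i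
    unfold Wo at h3
    rw [mem_filter] at h3
    obtain ⟨-, ⟨a1, a2⟩, a3, a4⟩ := h3
    have b1 := mul_lt_of (le_refl (m * w)) i.1.2 hu
    have b2 := mul_lt_of (le_refl (m * w)) i.2.2 hu
    have hm' : m * w + 2 * w ≤ M := by linarith [add_mul m 2 w]
    have lowe : ∀ (d x : ℕ), d * M + w ≤ x → (d : ℝ) + δ / 2 ≤ (x : ℝ) / M := by
      intro d x hx
      rw [le_div_iff₀ hM', add_mul]
      have : (d : ℝ) * M + w ≤ x := by exact_mod_cast hx
      linarith
    have uppe : ∀ (d x : ℕ), x + w < d * M + M → (x : ℝ) / M < (d : ℝ) + 1 - δ / 2 := by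
      intro d x hx
      rw [div_lt_iff₀ hM', sub_mul, add_mul, one_mul]
      have : (x : ℝ) + w < d * M + M := by exact_mod_cast hx
      linarith
    refine ⟨lowe _ _ ?_, uppe _ _ ?_, lowe _ _ ?_, uppe _ _ ?_⟩ <;> omega
  · intro k hk l hl hkl
    rw [hG] at hk hl
    obtain ⟨i, _, rfl⟩ := mem_image.1 hk
    obtain ⟨j, _, rfl⟩ := mem_image.1 hl
    have hij : i ≠ j := by
      rintro rfl
      exact hkl rfl
    exact Wo_dist hM c hu i j hij _ _ (hs i) (hs j)

/-- the clump class is cheap -/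
lemma clump (hcrude : S_CRUDE) {m w u : ℕ} (hM : 0 < M) (c : ℕ × ℕ) (hu : u ≤ w)
    (hme : Even m) (G Z : Finset (TSP.Ix N K M))
    (hG : G ∈ Co N K M c 0 w u m) (hZ : Even (Z \ TSP.bl N K M 1 c).card) :
    mt (TSP.sp N K M) (TSP.mix (TSP.bl N K M 1 c) G Z) ≤
      mt (TSP.sp N K M) (Z \ TSP.bl N K M 1 c) +
        2 * ((m * w : ℕ) / (M : ℝ)) * ((m : ℝ) * m + 1) := by
  classical
  have hM' : (0 : ℝ) < M := by exact_mod_cast hM
  have hcard := Co_card c hu G hG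
  unfold Co at hG
  rw [mem_filter] at hG
  obtain ⟨-, s, hs, hG⟩ := hG
  have hev : Even (G ∩ TSP.bl N K M 1 c).card := by
    rw [hcard]
    exact hme.mul_left m
  have h := hcrude (TSP.Ix N K M) (TSP.sp N K M) (G ∩ TSP.bl N K M 1 c) ∅
    (Z \ TSP.bl N K M 1 c) (2 * ((m * w : ℕ) / (M : ℝ))) (by positivity) ?_
    (disjoint_empty_left _) ?_ (hev.add hZ) (by simpa using hev)
  · rw [hcard, empty_union] at h
    have h2 := (abs_le.1 h).2
    unfold TSP.mix
    simp only [card_empty, Nat.cast_zero, add_zero] at h2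
    push_cast at h2 ⊢
    linarith
  · rw [disjoint_left]
    intro x hx hx'
    simp only [mem_inter, mem_sdiff] at hx hx'
    exact hx'.2 hx.2
  · intro k hk l hl
    rw [union_empty, hG] at hk hl
    obtain ⟨i, _, rfl⟩ := mem_image.1 hk
    obtain ⟨j, _, rfl⟩ := mem_image.1 hl
    exact Wo_diam hM c hu i j _ _ (hs i) (hs j)

theorem main (hlow : S_LOW) (hcrude : S_CRUDE) : S_VLB := by
  classical
  obtain ⟨m, hm⟩ : ∃ m : ℕ, m = 40 := ⟨_, rfl⟩
  obtain ⟨a, ha⟩ : ∃ a : ℝ, a = 1 / (2 * (m : ℝ) ^ 4) := ⟨_, rfl⟩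
  have hmR : (m : ℝ) = 40 := by rw [hm]; norm_num
  have hm0 : (0 : ℝ) < m := by rw [hmR]; norm_num
  have hme : Even m := by rw [hm]; decide
  have ha0 : 0 < a := by rw [ha]; positivity
  refine ⟨(a ^ 2) ^ (m * m) * Real.exp (-8) / 16, 4 * m ^ 4, by positivity, ?_⟩
  intro R M hR hMM q hq1 hq2 β
  have hMM' : 4 * (m : ℝ) ^ 4 ≤ M := by exact_mod_cast hMM
  have hM0' : (0 : ℝ) < M := lt_of_lt_of_le (by positivity) hMM'
  have hM0 : 0 < M := by exact_mod_cast hM0'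
  have hq0 : 0 ≤ q := by
    by_contra h
    push Not at h
    have : q * (M : ℝ) ^ 2 ≤ 0 := mul_nonpos_of_nonpos_of_nonneg h.le (by positivity)
    linarith
  have hM8 : 8 ≤ (M : ℝ) ^ 2 := by
    have : (8 : ℝ) ≤ M := by
      refine le_trans ?_ hMM'
      rw [hmR]; norm_num
    nlinarith
  have hqh : q ≤ 1 / 2 := by
    by_contra h
    push Not at h
    nlinarith
  -- the two scales
  obtain ⟨w1, hw1⟩ : ∃ w1 : ℕ, w1 = M / (m ^ 4) := ⟨_, rfl⟩
  obtain ⟨w2, hw2⟩ : ∃ w2 : ℕ, w2 = M / (m + 2) := ⟨_, rfl⟩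
  obtain ⟨u2, hu2⟩ : ∃ u2 : ℕ, u2 = w2 / 2 := ⟨_, rfl⟩
  have e1 : m ^ 4 * w1 ≤ M := by rw [hw1]; exact Nat.mul_div_le M (m ^ 4)
  have e1' : M < m ^ 4 * (w1 + 1) := by
    rw [hw1]
    exact Nat.lt_mul_div_succ M (by rw [hm]; norm_num)
  have e2 : (m + 2) * w2 ≤ M := by rw [hw2]; exact Nat.mul_div_le M (m + 2)
  have e2' : M < (m + 2) * (w2 + 1) := by
    rw [hw2]
    exact Nat.lt_mul_div_succ M (by rw [hm]; norm_num)
  have e3 : 2 * u2 ≤ w2 := by omega
  have e3' : w2 ≤ 2 * u2 + 1 := by omega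
  have r1 : (m : ℝ) ^ 4 * w1 ≤ M := by exact_mod_cast e1
  have r1' : (M : ℝ) < (m : ℝ) ^ 4 * (w1 + 1) := by exact_mod_cast e1'
  have r2 : ((m : ℝ) + 2) * w2 ≤ M := by exact_mod_cast e2
  have r2' : (M : ℝ) < ((m : ℝ) + 2) * (w2 + 1) := by exact_mod_cast e2'
  have r3 : 2 * (u2 : ℝ) ≤ w2 := by exact_mod_cast e3
  have r3' : (w2 : ℝ) ≤ 2 * u2 + 1 := by exact_mod_cast e3'
  have hmw1 : 0 + m * w1 ≤ M := by
    rw [zero_add]
    refine le_trans ?_ e1
    refine Nat.mul_le_mul_right w1 ?_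
    rw [hm]; norm_num
  have hmw2 : w2 + m * w2 ≤ M := by
    have : (m + 2) * w2 = w2 + m * w2 + w2 := by ring
    omega
  have ha1 : a * M ≤ w1 := by
    rw [ha, one_div, inv_mul_le_iff₀ (by positivity)]
    nlinarith
  have ha2 : a * M ≤ u2 := by
    rw [ha, one_div, inv_mul_le_iff₀ (by positivity)]
    rw [hmR] at r2' hMM' ⊢
    nlinarith
  have hbl : ∀ c ∈ range R ×ˢ range R, c.1 < R * 1 ∧ c.2 < R * 1 := by
    intro c hc
    rw [mem_product, mem_range, mem_range] at hc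
    omega
  have hmain := varE_low (ι := TSP.Ix R 1 M) hq0 hqh
    (fun A : Finset (TSP.Ix R 1 M) => fM R M A + β * (A.card : ℝ))
    (range R ×ˢ range R) (fun c => TSP.bl R 1 M 1 c)
    (fun c _ d _ hcd => bl_disjoint hcd)
    (fun c => Co R 1 M c w2 w2 u2 m) (fun c => Co R 1 M c 0 w1 w1 m)
    (fun c _ A B h => Co_dep c A B h) (fun c _ A B h => Co_dep c A B h)
    (fun c _ A hA => by rw [Co_card c (by omega) A hA]; exact hme.mul_left m)
    (fun c _ A hA => by rw [Co_card c le_rfl A hA]; exact hme.mul_left m)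
    ((a ^ 2) ^ (m * m) * Real.exp (-8)) (by positivity)
    (fun c hc => Co_prob hM0 c (by omega) hmw2 (hbl c hc).1 (hbl c hc).2 hq1 hq2 hqh ha0.le ha2)
    (fun c hc => Co_prob hM0 c le_rfl hmw1 (hbl c hc).1 (hbl c hc).2 hq1 hq2 hqh ha0.le ha1)
    ?_
  · rw [card_product, card_range] at hmain
    push_cast at hmain
    calc (a ^ 2) ^ (m * m) * Real.exp (-8) / 16 * (R : ℝ) ^ 2
        = (a ^ 2) ^ (m * m) * Real.exp (-8) / 16 * ((R : ℝ) * R) := by ring
      _ ≤ _ := hmain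
  · intro c hc B1 hB1 B2 hB2 Z hZ
    have t1 := spread hlow hM0 c (by omega) e2 hme B1 Z hB1 hZ
    have t2 := clump hcrude hM0 c le_rfl hme B2 Z hB2 hZ
    have c1 := Co_card c (by omega) B1 hB1
    have c2 := Co_card c le_rfl B2 hB2
    have t2' : 2 * ((m * w1 : ℕ) / (M : ℝ)) * ((m : ℝ) * m + 1) ≤ 1 := by
      have : 2 * ((m * w1 : ℕ) / (M : ℝ)) * ((m : ℝ) * m + 1) =
          2 * (m * w1) * ((m : ℝ) * m + 1) / M := by
        push_cast
        field_simp
      rw [this, div_le_iff₀ hM0']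
      rw [hmR] at r1 ⊢
      nlinarith
    have t1' : 6 ≤ ((w2 : ℝ) - u2) / M / 2 * ((m : ℝ) * m) := by
      have : ((w2 : ℝ) - u2) / M / 2 * ((m : ℝ) * m) = ((w2 : ℝ) - u2) * (m * m / 2) / M := by
        field_simp
      rw [this, le_div_iff₀ hM0']
      rw [hmR] at r2' hMM' ⊢
      nlinarith
    have k1 : (TSP.mix (TSP.bl R 1 M 1 c) B1 Z).card =
        (TSP.mix (TSP.bl R 1 M 1 c) B2 Z).card := by
      rw [card_mix', card_mix', c1, c2]
    rw [k1]
    unfold fM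
    linarith

end Pool.Agent.N940.MM.Vlb
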