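import Pool.Agent.N940.MM.Stm

/-!
# Lower bound for the variance given that the number of points is even: the probability part
-/

set_option autoImplicit false
set_option linter.unusedSectionVars false
set_option linter.unusedVariables false

namespace Pool.Agent.N940.MM.Vlb

open Finset Pool.Agent.N940

variable {ι : Type} [Fintype ι] [DecidableEq ι]

/-- expectation on the event that the number of points in `V` is even -/
noncomputable def Qv (q : ℝ) (V : Finset ι) (h : Finset ι → ℝ) : ℝ :=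
  TSP.Ex q (fun A : Finset ι => if Even (A ∩ V).card then h A else 0)

lemma mono {q : ℝ} (h0 : 0 ≤ q) (h1 : q ≤ 1) {f g : Finset ι → ℝ} (h : ∀ A, f A ≤ g A) :
    TSP.Ex q f ≤ TSP.Ex q g := by
  unfold TSP.Ex
  refine sum_le_sum fun B _ => ?_
  rw [smul_eq_mul, smul_eq_mul]
  exact mul_le_mul_of_nonneg_left (h B) (TSP.mu_nonneg h0 h1 B)

lemma ex_sign (q : ℝ) (V : Finset ι) :
    TSP.Ex q (fun A : Finset ι => (-1 : ℝ) ^ (A ∩ V).card) =
      ∏ x : ι, (q * (if x ∈ V then (-1) else 1) + (1 - q)) := by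
  rw [Finset.prod_add, Finset.powerset_univ]
  unfold TSP.Ex TSP.mu
  refine sum_congr rfl fun B _ => ?_
  rw [smul_eq_mul, Finset.prod_mul_distrib, Finset.prod_const, Finset.prod_const,
    Finset.prod_ite_mem, Finset.prod_const, ← Finset.compl_eq_univ_sdiff]
  ring

lemma ex_sign_nonneg {q : ℝ} (h0 : 0 ≤ q) (h1 : q ≤ 1 / 2) (V : Finset ι) :
    0 ≤ TSP.Ex q (fun A : Finset ι => (-1 : ℝ) ^ (A ∩ V).card) := by
  rw [ex_sign]
  refine prod_nonneg fun x _ => ?_
  split_ifs
  · linarith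
  · linarith

lemma half_le {q : ℝ} (h0 : 0 ≤ q) (h1 : q ≤ 1 / 2) (V : Finset ι) :
    1 / 2 ≤ TSP.Ex q (fun A : Finset ι => if Even (A ∩ V).card then (1 : ℝ) else 0) := by
  have h2 : (fun A : Finset ι => if Even (A ∩ V).card then (1 : ℝ) else 0) =
      fun A => (1 / 2 : ℝ) • ((1 : ℝ) + (-1 : ℝ) ^ (A ∩ V).card) := by
    funext A
    split_ifs with h
    · rw [h.neg_one_pow]; norm_num
    · rw [Nat.not_even_iff_odd] at h
      rw [h.neg_one_pow]; norm_num
  rw [h2, TSP.Ex_smul, TSP.Ex_add, TSP.Ex_const, smul_eq_mul]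
  have := ex_sign_nonneg h0 h1 V
  linarith

lemma le_one {q : ℝ} (h0 : 0 ≤ q) (h1 : q ≤ 1 / 2) (V : Finset ι) :
    TSP.Ex q (fun A : Finset ι => if Even (A ∩ V).card then (1 : ℝ) else 0) ≤ 1 := by
  have h : TSP.Ex q (fun A : Finset ι => if Even (A ∩ V).card then (1 : ℝ) else 0) ≤
      TSP.Ex q (fun _ : Finset ι => (1 : ℝ)) := by
    refine mono h0 (by linarith) fun A => ?_
    split_ifs
    · exact le_rfl
    · exact zero_le_one
  rwa [TSP.Ex_const] at h

/-- conditioning on a class of sets with an even number of points in `U` -/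
lemma cond {q : ℝ} (U : Finset ι) (E : Finset (Finset ι))
    (hdep : ∀ A B : Finset ι, A ∩ U = B ∩ U → (A ∈ E → B ∈ E))
    (hev : ∀ A ∈ E, Even (A ∩ U).card) (g : Finset ι → ℝ) :
    TSP.Ex q (fun A => if Even A.card then (if A ∈ E then g A else 0) else 0) =
      ∑ B ∈ E, TSP.mu q B * TSP.Ex q (fun C => if Even (C \ U).card then g (TSP.mix U B C) else 0) := by
  rw [← TSP.Ex_mix q U]
  have h1 : ∀ B : Finset ι, TSP.Ex q (fun C => if Even (TSP.mix U B C).card then
      (if TSP.mix U B C ∈ E then g (TSP.mix U B C) else 0) else 0) =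
      if B ∈ E then TSP.Ex q (fun C => if Even (C \ U).card then g (TSP.mix U B C) else 0) else 0 := by
    intro B
    by_cases hB : B ∈ E
    · rw [if_pos hB]
      congr 1
      funext C
      have h2 : TSP.mix U B C ∈ E := hdep _ _ (TSP.mix_inter U B C).symm hB
      have h3 : (TSP.mix U B C).card = (B ∩ U).card + (C \ U).card := by
        unfold TSP.mix
        rw [card_union_of_disjoint]
        rw [disjoint_left]
        intro x hx hx'
        simp only [mem_inter, mem_sdiff] at hx hx'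
        exact hx'.2 hx.2
      have h4 : Even (TSP.mix U B C).card ↔ Even (C \ U).card := by
        rw [h3, Nat.even_add]
        have := hev B hB
        tauto
      simp only [h4, h2, if_true]
    · rw [if_neg hB]
      have h2 : ∀ C, TSP.mix U B C ∉ E := fun C h => hB (hdep _ _ (TSP.mix_inter U B C) h)
      simp only [h2, if_false, ite_self]
      exact TSP.Ex_const q _
  simp only [h1]
  unfold TSP.Ex
  rw [← Finset.sum_filter_add_sum_filter_not univ (fun B : Finset ι => B ∈ E)]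
  rw [Finset.sum_eq_zero (s := univ.filter (fun B : Finset ι => ¬ B ∈ E)), add_zero]
  · have h3 : univ.filter (fun B : Finset ι => B ∈ E) = E := by ext; simp
    rw [h3]
    refine sum_congr rfl fun B hB => ?_
    beta_reduce
    rw [if_pos hB, smul_eq_mul]
  · intro B hB
    rw [mem_filter] at hB
    beta_reduce
    rw [if_neg hB.2, smul_zero]

/-- the normalized difference of two classes -/
noncomputable def tc (q : ℝ) (E1 E2 : Finset (Finset ι)) (A : Finset ι) : ℝ :=
  (if A ∈ E1 then (∑ B ∈ E1, TSP.mu q B)⁻¹ else 0) - (if A ∈ E2 then (∑ B ∈ E2, TSP.mu q B)⁻¹ else 0)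

section block

variable {q : ℝ} (h0 : 0 ≤ q) (h1 : q ≤ 1 / 2) (U : Finset ι) (E1 E2 : Finset (Finset ι))
  (hd1 : ∀ A B : Finset ι, A ∩ U = B ∩ U → (A ∈ E1 → B ∈ E1))
  (hd2 : ∀ A B : Finset ι, A ∩ U = B ∩ U → (A ∈ E2 → B ∈ E2))
  (he1 : ∀ A ∈ E1, Even (A ∩ U).card) (he2 : ∀ A ∈ E2, Even (A ∩ U).card)
  (hp1 : 0 < ∑ B ∈ E1, TSP.mu q B) (hp2 : 0 < ∑ B ∈ E2, TSP.mu q B)

include hd1 hd2 he1 he2

lemma tc_form (g : Finset ι → ℝ) :
    TSP.Ex q (fun A => if Even A.card then tc q E1 E2 A * g A else 0) =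
      (∑ B ∈ E1, TSP.mu q B)⁻¹ * ∑ B ∈ E1, TSP.mu q B *
        TSP.Ex q (fun C => if Even (C \ U).card then g (TSP.mix U B C) else 0) -
      (∑ B ∈ E2, TSP.mu q B)⁻¹ * ∑ B ∈ E2, TSP.mu q B *
        TSP.Ex q (fun C => if Even (C \ U).card then g (TSP.mix U B C) else 0) := by
  rw [← cond U E1 hd1 he1 g, ← cond U E2 hd2 he2 g, ← smul_eq_mul, ← TSP.Ex_smul, ← smul_eq_mul,
    ← TSP.Ex_smul, ← TSP.Ex_sub]
  congr 1
  funext A
  unfold tc
  simp only [smul_eq_mul]
  split_ifs <;> ring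

include hp1 hp2

/-- orthogonality -/
lemma tc_zero (g : Finset ι → ℝ) (hg : ∀ B C : Finset ι, g (TSP.mix U B C) = g C) :
    TSP.Ex q (fun A => if Even A.card then tc q E1 E2 A * g A else 0) = 0 := by
  rw [tc_form U E1 E2 hd1 hd2 he1 he2]
  simp only [hg]
  rw [← sum_mul, ← sum_mul, ← mul_assoc, ← mul_assoc, inv_mul_cancel₀ hp1.ne',
    inv_mul_cancel₀ hp2.ne', sub_self]

include h0 h1

/-- correlation with `f` -/
lemma tc_corr (f : Finset ι → ℝ) (hf : ∀ B1 ∈ E1, ∀ B2 ∈ E2, ∀ Z : Finset ι,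
    Even (Z \ U).card → 1 ≤ f (TSP.mix U B1 Z) - f (TSP.mix U B2 Z)) :
    1 / 2 ≤ TSP.Ex q (fun A => if Even A.card then tc q E1 E2 A * f A else 0) := by
  rw [tc_form U E1 E2 hd1 hd2 he1 he2]
  have hne1 : E1.Nonempty := by
    rw [nonempty_iff_ne_empty]
    rintro rfl
    simp at hp1
  set φ : Finset ι → ℝ := fun B =>
    TSP.Ex q (fun C => if Even (C \ U).card then f (TSP.mix U B C) else 0) with hφ
  obtain ⟨B0, hB0, hmin⟩ := exists_min_image E1 φ hne1
  have hr : ∀ C : Finset ι, C \ U = C ∩ Uᶜ := fun C => by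
    rw [← sdiff_eq_inter_compl]
  have hdiff : ∀ B2 ∈ E2, φ B2 + 1 / 2 ≤ φ B0 := by
    intro B2 hB2
    have h3 := half_le h0 h1 (Uᶜ)
    have h4 : TSP.Ex q (fun A : Finset ι => if Even (A ∩ Uᶜ).card then (1 : ℝ) else 0) ≤
        φ B0 - φ B2 := by
      rw [hφ]
      simp only
      rw [← TSP.Ex_sub]
      refine mono h0 (by linarith) fun C => ?_
      rw [← hr]
      by_cases hC : Even (C \ U).card
      · simp only [hC, if_true]
        exact hf B0 hB0 B2 hB2 C hC
      · simp only [hC, if_false, sub_self, le_refl]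
    linarith
  have a1 : φ B0 ≤ (∑ B ∈ E1, TSP.mu q B)⁻¹ * ∑ B ∈ E1, TSP.mu q B * φ B := by
    rw [le_inv_mul_iff₀ hp1, sum_mul]
    exact sum_le_sum fun B hB => mul_le_mul_of_nonneg_left (hmin B hB)
      (TSP.mu_nonneg h0 (by linarith) B)
  have a2 : (∑ B ∈ E2, TSP.mu q B)⁻¹ * ∑ B ∈ E2, TSP.mu q B * φ B ≤ φ B0 - 1 / 2 := by
    rw [inv_mul_le_iff₀ hp2, sum_mul]
    refine sum_le_sum fun B hB => mul_le_mul_of_nonneg_left ?_ (TSP.mu_nonneg h0 (by linarith) B)
    have := hdiff B hB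
    linarith
  linarith

omit hd1 hd2 he1 he2 in
/-- the second moment -/
lemma tc_sq {p : ℝ} (hp : 0 < p) (hq1 : p ≤ ∑ B ∈ E1, TSP.mu q B) (hq2 : p ≤ ∑ B ∈ E2, TSP.mu q B) :
    TSP.Ex q (fun A => if Even A.card then tc q E1 E2 A * tc q E1 E2 A else 0) ≤ 4 / p := by
  have key : ∀ E : Finset (Finset ι), p ≤ ∑ B ∈ E, TSP.mu q B →
      TSP.Ex q (fun A => (if A ∈ E then (∑ B ∈ E, TSP.mu q B)⁻¹ else 0) ^ 2) ≤ 1 / p := by
    intro E hE
    have hE' : 0 < ∑ B ∈ E, TSP.mu q B := lt_of_lt_of_le hp hE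
    have e1 : TSP.Ex q (fun A => (if A ∈ E then (∑ B ∈ E, TSP.mu q B)⁻¹ else 0) ^ 2) =
        (∑ B ∈ E, TSP.mu q B)⁻¹ := by
      unfold TSP.Ex
      rw [← Finset.sum_filter_add_sum_filter_not univ (fun B : Finset ι => B ∈ E)]
      rw [Finset.sum_eq_zero (s := univ.filter (fun B : Finset ι => ¬ B ∈ E)), add_zero]
      · have h3 : univ.filter (fun B : Finset ι => B ∈ E) = E := by ext; simp
        rw [h3]
        have h4 : ∀ B ∈ E, TSP.mu q B • (fun A => (if A ∈ E then (∑ B ∈ E, TSP.mu q B)⁻¹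
            else 0) ^ 2) B = TSP.mu q B * ((∑ B ∈ E, TSP.mu q B)⁻¹) ^ 2 := by
          intro B hB
          beta_reduce
          rw [if_pos hB, smul_eq_mul]
        rw [sum_congr rfl h4, ← sum_mul]
        field_simp
      · intro B hB
        rw [mem_filter] at hB
        beta_reduce
        rw [if_neg hB.2]
        simp
    rw [e1, ← one_div]
    exact one_div_le_one_div_of_le hp hE
  have k1 := key E1 hq1
  have k2 := key E2 hq2
  have h3 : TSP.Ex q (fun A => if Even A.card then tc q E1 E2 A * tc q E1 E2 A else 0) ≤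
      TSP.Ex q (fun A => (2 : ℝ) • ((if A ∈ E1 then (∑ B ∈ E1, TSP.mu q B)⁻¹ else 0) ^ 2 +
        (if A ∈ E2 then (∑ B ∈ E2, TSP.mu q B)⁻¹ else 0) ^ 2)) := by
    refine mono h0 (by linarith) fun A => ?_
    unfold tc
    generalize (if A ∈ E1 then (∑ B ∈ E1, TSP.mu q B)⁻¹ else 0) = x
    generalize (if A ∈ E2 then (∑ B ∈ E2, TSP.mu q B)⁻¹ else 0) = y
    rw [smul_eq_mul]
    split_ifs
    · nlinarith [sq_nonneg (x + y)]
    · positivity
  rw [TSP.Ex_smul, TSP.Ex_add, smul_eq_mul] at h3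
  calc _ ≤ _ := h3
    _ ≤ 2 * (1 / p + 1 / p) := by linarith
    _ = 4 / p := by ring

end block

/-- Cauchy-Schwarz -/
lemma cs {q : ℝ} (h0 : 0 ≤ q) (h1 : q ≤ 1) (f g : Finset ι → ℝ) :
    (TSP.Ex q (fun A => if Even A.card then f A * g A else 0)) ^ 2 ≤
      TSP.Ex q (fun A => if Even A.card then f A * f A else 0) *
        TSP.Ex q (fun A => if Even A.card then g A * g A else 0) := by
  have hw : ∀ A : Finset ι, 0 ≤ (if Even A.card then TSP.mu q A else 0) := by
    intro A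
    split_ifs
    · exact TSP.mu_nonneg h0 h1 A
    · exact le_rfl
  have e : ∀ u : Finset ι → ℝ, TSP.Ex q (fun A => if Even A.card then u A else 0) =
      ∑ A : Finset ι, (if Even A.card then TSP.mu q A else 0) * u A := by
    intro u
    unfold TSP.Ex
    refine sum_congr rfl fun A _ => ?_
    beta_reduce
    rw [smul_eq_mul]
    by_cases hA : Even A.card
    · rw [if_pos hA, if_pos hA]
    · rw [if_neg hA, if_neg hA, mul_zero, zero_mul]
  rw [e, e, e]
  have h := Finset.sum_mul_sq_le_sq_mul_sq univ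
    (fun A : Finset ι => Real.sqrt (if Even A.card then TSP.mu q A else 0) * f A)
    (fun A : Finset ι => Real.sqrt (if Even A.card then TSP.mu q A else 0) * g A)
  have e1 : ∀ u v : Finset ι → ℝ, ∀ A : Finset ι,
      Real.sqrt (if Even A.card then TSP.mu q A else 0) * u A *
        (Real.sqrt (if Even A.card then TSP.mu q A else 0) * v A) =
      (if Even A.card then TSP.mu q A else 0) * (u A * v A) := by
    intro u v A
    have := Real.mul_self_sqrt (hw A)
    calc _ = (Real.sqrt (if Even A.card then TSP.mu q A else 0) *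
        Real.sqrt (if Even A.card then TSP.mu q A else 0)) * (u A * v A) := by ring
      _ = _ := by rw [this]
  simp only [pow_two (Real.sqrt _ * _)] at h
  simp only [e1] at h
  exact h

/-- lower bound for the conditional variance -/
theorem varE_low {κ : Type} [DecidableEq κ] {q : ℝ} (h0 : 0 ≤ q) (h1 : q ≤ 1 / 2)
    (f : Finset ι → ℝ) (T : Finset κ) (cl : κ → Finset ι)
    (hd : ∀ c ∈ T, ∀ d ∈ T, c ≠ d → Disjoint (cl c) (cl d))
    (E1 E2 : κ → Finset (Finset ι))
    (hd1 : ∀ c ∈ T, ∀ A B : Finset ι, A ∩ cl c = B ∩ cl c → (A ∈ E1 c → B ∈ E1 c))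
    (hd2 : ∀ c ∈ T, ∀ A B : Finset ι, A ∩ cl c = B ∩ cl c → (A ∈ E2 c → B ∈ E2 c))
    (he1 : ∀ c ∈ T, ∀ A ∈ E1 c, Even (A ∩ cl c).card)
    (he2 : ∀ c ∈ T, ∀ A ∈ E2 c, Even (A ∩ cl c).card)
    (p : ℝ) (hp : 0 < p) (hp1 : ∀ c ∈ T, p ≤ ∑ B ∈ E1 c, TSP.mu q B)
    (hp2 : ∀ c ∈ T, p ≤ ∑ B ∈ E2 c, TSP.mu q B)
    (hf : ∀ c ∈ T, ∀ B1 ∈ E1 c, ∀ B2 ∈ E2 c, ∀ Z : Finset ι, Even (Z \ cl c).card →
      1 ≤ f (TSP.mix (cl c) B1 Z) - f (TSP.mix (cl c) B2 Z)) :
    p / 16 * T.card ≤ VrE q f := by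
  classical
  -- the total number
  have hpe : 1 / 2 ≤ TSP.Ex q (fun A : Finset ι => if Even A.card then (1 : ℝ) else 0) := by
    have := half_le h0 h1 (univ : Finset ι)
    simpa using this
  have hpe1 : TSP.Ex q (fun A : Finset ι => if Even A.card then (1 : ℝ) else 0) ≤ 1 := by
    have := le_one h0 h1 (univ : Finset ι)
    simpa using this
  set m : ℝ := ExE q f with hm
  set g : Finset ι → ℝ := fun A => f A - m with hg
  set TT : Finset ι → ℝ := fun A => ∑ c ∈ T, tc q (E1 c) (E2 c) A with hTT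
  have hlow : (T.card : ℝ) / 2 ≤ TSP.Ex q (fun A => if Even A.card then TT A * g A else 0) := by
    have e1 : (fun A : Finset ι => if Even A.card then TT A * g A else 0) =
        fun A => ∑ c ∈ T, (if Even A.card then tc q (E1 c) (E2 c) A * g A else 0) := by
      funext A
      by_cases hA : Even A.card
      · simp only [hA, if_true, hTT, sum_mul]
      · simp only [hA, if_false, sum_const_zero]
    rw [e1, TSP.Ex_sum]
    have e2 : (T.card : ℝ) / 2 = ∑ c ∈ T, (1 / 2 : ℝ) := by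
      rw [sum_const, nsmul_eq_mul]; ring
    rw [e2]
    refine sum_le_sum fun c hc => ?_
    refine tc_corr h0 h1 (cl c) (E1 c) (E2 c) (hd1 c hc) (hd2 c hc) (he1 c hc) (he2 c hc)
      (lt_of_lt_of_le hp (hp1 c hc)) (lt_of_lt_of_le hp (hp2 c hc)) g ?_
    intro B1 hB1 B2 hB2 Z hZ
    have := hf c hc B1 hB1 B2 hB2 Z hZ
    simp only [hg]
    linarith
  have hup : TSP.Ex q (fun A => if Even A.card then TT A * TT A else 0) ≤ T.card * (4 / p) := by
    have e1 : (fun A : Finset ι => if Even A.card then TT A * TT A else 0) =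
        fun A => ∑ c ∈ T, ∑ d ∈ T,
          (if Even A.card then tc q (E1 c) (E2 c) A * tc q (E1 d) (E2 d) A else 0) := by
      funext A
      by_cases hA : Even A.card
      · simp only [hA, if_true, hTT, sum_mul_sum]
      · simp only [hA, if_false, sum_const_zero]
    rw [e1, TSP.Ex_sum]
    have e2 : (T.card : ℝ) * (4 / p) = ∑ c ∈ T, (4 / p : ℝ) := by
      rw [sum_const, nsmul_eq_mul]
    rw [e2]
    refine sum_le_sum fun c hc => ?_
    rw [TSP.Ex_sum, sum_eq_single_of_mem c hc]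
    · exact tc_sq h0 h1 (E1 c) (E2 c) (lt_of_lt_of_le hp (hp1 c hc))
        (lt_of_lt_of_le hp (hp2 c hc)) hp (hp1 c hc) (hp2 c hc)
    · intro d hd' hdc
      refine tc_zero (cl c) (E1 c) (E2 c) (hd1 c hc) (hd2 c hc) (he1 c hc) (he2 c hc)
        (lt_of_lt_of_le hp (hp1 c hc)) (lt_of_lt_of_le hp (hp2 c hc)) _ ?_
      intro B C
      have hi : TSP.mix (cl c) B C ∩ cl d = C ∩ cl d :=
        TSP.mix_inter' (hd c hc d hd' (Ne.symm hdc)) B C
      have i1 : TSP.mix (cl c) B C ∈ E1 d ↔ C ∈ E1 d :=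
        ⟨hd1 d hd' _ _ hi, hd1 d hd' _ _ hi.symm⟩
      have i2 : TSP.mix (cl c) B C ∈ E2 d ↔ C ∈ E2 d :=
        ⟨hd2 d hd' _ _ hi, hd2 d hd' _ _ hi.symm⟩
      unfold tc
      simp only [i1, i2]
  have hcs := cs h0 (by linarith) TT g
  set S : ℝ := TSP.Ex q (fun A => if Even A.card then g A * g A else 0) with hS
  have hS0 : 0 ≤ S := by
    have h : TSP.Ex q (fun _ : Finset ι => (0 : ℝ)) ≤ S := by
      rw [hS]
      refine mono h0 (by linarith) fun A => ?_
      split_ifs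
      · exact mul_self_nonneg _
      · exact le_rfl
    rwa [TSP.Ex_const] at h
  have hV : S ≤ VrE q f := by
    have e : VrE q f = (TSP.Ex q (fun A : Finset ι => if Even A.card then (1 : ℝ) else 0))⁻¹ * S := by
      unfold VrE
      rw [← hm]
      unfold ExE
      rw [smul_eq_mul, hS]
      simp only [hg, pow_two]
    rw [e]
    refine le_mul_of_one_le_left hS0 ?_
    exact (one_le_inv₀ (by linarith)).2 hpe1
  have hT0 : (0 : ℝ) ≤ T.card := Nat.cast_nonneg _
  rcases eq_or_lt_of_le hT0 with hz | hpos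
  · rw [← hz, mul_zero]; exact hS0.trans hV
  · refine le_trans ?_ hV
    have h5 : ((T.card : ℝ) / 2) ^ 2 ≤ T.card * (4 / p) * S := by
      calc ((T.card : ℝ) / 2) ^ 2 ≤
          (TSP.Ex q (fun A => if Even A.card then TT A * g A else 0)) ^ 2 :=
            pow_le_pow_left₀ (by positivity) hlow 2
        _ ≤ _ := hcs
        _ ≤ _ := mul_le_mul_of_nonneg_right hup hS0
    have h6 : (T.card : ℝ) * (T.card / 4) ≤ T.card * (4 / p * S) := by
      calc (T.card : ℝ) * (T.card / 4) = ((T.card : ℝ) / 2) ^ 2 := by ring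
        _ ≤ T.card * (4 / p) * S := h5
        _ = T.card * (4 / p * S) := by ring
    have h7 := le_of_mul_le_mul_left h6 hpos
    have h8 : p / 4 * ((T.card : ℝ) / 4) ≤ p / 4 * (4 / p * S) :=
      mul_le_mul_of_nonneg_left h7 (by positivity)
    have h9 : p / 4 * (4 / p * S) = S := by field_simp
    rw [h9] at h8
    linarith

end Pool.Agent.N940.MM.Vlb
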